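import Pool.Agent.Lib.MP_a8dae7_an.CG.MO

/-!
# MP_a8dae7_an, CG (copy of CV for graph charts): the projected slices are bilipschitz; a Gaussian integral (SpecBL)
-/

set_option autoImplicit false

open MeasureTheory
open scoped ContDiff

namespace Pool.Agent.Lib.MP_a8dae7_an.CG.BLM

open Pool.Agent.Lib.MP_a8dae7_an.CV

open MOM

/-- the derivative of `X` is bounded on the ball of radius `4 dl` -/
theorem exists_bound {k : ℕ} (ch : Chart k) : ∃ D : ℝ, 1 ≤ D ∧ ∀ q : EE k, ‖q‖ ≤ 4 * ch.dl →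
    ‖fderiv ℝ ch.X q‖ ≤ D := by
  have hc : Continuous (fun q => ‖fderiv ℝ ch.X q‖) :=
    (ch.smooth.continuous_fderiv (by simp)).norm
  obtain ⟨D, hD⟩ := (isCompact_closedBall (0 : EE k) (4 * ch.dl)).bddAbove_image hc.continuousOn
  refine ⟨max 1 D, le_max_left _ _, fun q hq => le_trans ?_ (le_max_right _ _)⟩
  exact hD ⟨q, by simpa using hq, rfl⟩

variable {m : ℕ} {ch : Chart (m + 1)} {om : EE (m + 2)} {e : EE (m + 1)}
  {L : EE m →ₗᵢ[ℝ] EE (m + 1)}

theorem lower (hS : Slice ch om e L) {D : ℝ}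
    (hD : ∀ q : EE (m + 1), ‖q‖ ≤ 4 * ch.dl → ‖fderiv ℝ ch.X q‖ ≤ D) {sg : ℝ} {b1 b2 : EE m}
    (hsg : |sg| ≤ 2 * ch.dl) (h1 : ‖b1‖ ≤ 3 * ch.dl) (h2 : ‖b2‖ ≤ 3 * ch.dl) :
    ch.c * ‖b1 - b2‖ ≤ D * ‖pr om (ch.X (sl e L sg b1) - ch.X (sl e L sg b2))‖ := by
  rcases (norm_nonneg (b1 - b2)).eq_or_lt with h0 | h0
  · rw [← h0, mul_zero]
    have : 0 ≤ D := (norm_nonneg _).trans (hD 0 (by
      have := ch.dl_pos
      simp only [norm_zero]
      positivity))
    positivity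
  have h4 := mono_X hS hsg h1 h2 (norm_sl_le hS hsg h2)
  rw [pi2_eq hS.om_one] at h4
  have h5 : ‖pr om (fderiv ℝ ch.X (sl e L sg b2) (L (b1 - b2)))‖ ≤ D * ‖b1 - b2‖ :=
    calc ‖pr om (fderiv ℝ ch.X (sl e L sg b2) (L (b1 - b2)))‖
        ≤ ‖fderiv ℝ ch.X (sl e L sg b2) (L (b1 - b2))‖ := norm_pr_le hS.om_one _
      _ ≤ ‖fderiv ℝ ch.X (sl e L sg b2)‖ * ‖L (b1 - b2)‖ := ContinuousLinearMap.le_opNorm _ _
      _ ≤ D * ‖b1 - b2‖ := by
          rw [L.norm_map]
          exact mul_le_mul_of_nonneg_right (hD _ (norm_sl_le hS hsg h2)) h0.le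
  have h6 := (real_inner_le_norm (pr om (ch.X (sl e L sg b1) - ch.X (sl e L sg b2)))
    (pr om (fderiv ℝ ch.X (sl e L sg b2) (L (b1 - b2)))))
  have h7 : ch.c * ‖b1 - b2‖ ^ 2 ≤
      ‖pr om (ch.X (sl e L sg b1) - ch.X (sl e L sg b2))‖ * (D * ‖b1 - b2‖) :=
    h4.trans (h6.trans (mul_le_mul_of_nonneg_left h5 (norm_nonneg _)))
  have h8 : ‖b1 - b2‖ * (ch.c * ‖b1 - b2‖) ≤
      ‖b1 - b2‖ * (D * ‖pr om (ch.X (sl e L sg b1) - ch.X (sl e L sg b2))‖) := by
    nlinarith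
  exact le_of_mul_le_mul_left h8 h0

/-- the Gaussian integral over a ball -/
theorem gauss (hS : Slice ch om e L) {D : ℝ} (hD1 : 1 ≤ D)
    (hD : ∀ q : EE (m + 1), ‖q‖ ≤ 4 * ch.dl → ‖fderiv ℝ ch.X q‖ ≤ D) {sg : ℝ}
    (hsg : |sg| ≤ 2 * ch.dl) (v : EE (m + 2)) {al : ℝ} (hal : 0 < al) :
    ∫ b in Metric.closedBall (0 : EE m) (3 * ch.dl),
      Real.exp (-(al ^ 2 * pq om (v - ch.X (sl e L sg b)))) ≤
      (2 * D / ch.c * Real.sqrt Real.pi) ^ m * al⁻¹ ^ m := by
  have hc := ch.c_pos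
  have hdl := ch.dl_pos
  have hXc : Continuous ch.X := ch.smooth.continuous
  have hslc : Continuous (fun b : EE m => sl e L sg b) := by
    unfold sl
    exact continuous_const.add L.continuous
  have hpc : Continuous (fun b : EE m => pq om (v - ch.X (sl e L sg b))) := by
    have h0 : Continuous (fun b : EE m => v - ch.X (sl e L sg b)) :=
      continuous_const.sub (hXc.comp hslc)
    unfold pq
    exact (h0.norm.pow 2).sub ((continuous_const.inner h0).pow 2)
  obtain ⟨b0, hb0, hmin⟩ := (isCompact_closedBall (0 : EE m) (3 * ch.dl)).exists_isMinOn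
    ⟨0, by simp [hdl.le]⟩ hpc.continuousOn
  have hb0' : ‖b0‖ ≤ 3 * ch.dl := by simpa using hb0
  set be : ℝ := (al * ch.c / (2 * D)) ^ 2 with hbe
  have hbe0 : 0 < be := by positivity
  have hle : ∀ b ∈ Metric.closedBall (0 : EE m) (3 * ch.dl),
      Real.exp (-(al ^ 2 * pq om (v - ch.X (sl e L sg b)))) ≤ Real.exp (-be * ‖b - b0‖ ^ 2) := by
    intro b hb
    have hb' : ‖b‖ ≤ 3 * ch.dl := by simpa using hb
    have h1 : pq om (v - ch.X (sl e L sg b0)) ≤ pq om (v - ch.X (sl e L sg b)) := hmin hb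
    rw [pq_eq hS.om_one, pq_eq hS.om_one] at h1
    have h2 : ‖pr om (v - ch.X (sl e L sg b0))‖ ≤ ‖pr om (v - ch.X (sl e L sg b))‖ :=
      le_of_sq_le_sq h1 (norm_nonneg _)
    have h3 : ‖pr om (ch.X (sl e L sg b) - ch.X (sl e L sg b0))‖ ≤
        2 * ‖pr om (v - ch.X (sl e L sg b))‖ := by
      have e1 : pr om (ch.X (sl e L sg b) - ch.X (sl e L sg b0)) =
          pr om (v - ch.X (sl e L sg b0)) - pr om (v - ch.X (sl e L sg b)) := by
        rw [← pr_sub]
        congr 1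
        abel
      rw [e1]
      have := norm_sub_le (pr om (v - ch.X (sl e L sg b0))) (pr om (v - ch.X (sl e L sg b)))
      linarith
    have h4 := lower hS hD hsg hb' hb0'
    have h5 : ch.c / (2 * D) * ‖b - b0‖ ≤ ‖pr om (v - ch.X (sl e L sg b))‖ := by
      have h6 : ch.c * ‖b - b0‖ ≤ D * (2 * ‖pr om (v - ch.X (sl e L sg b))‖) :=
        h4.trans (mul_le_mul_of_nonneg_left h3 (by linarith))
      rw [div_mul_eq_mul_div, div_le_iff₀ (by positivity)]
      linarith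
    have h7 : (ch.c / (2 * D) * ‖b - b0‖) ^ 2 ≤ ‖pr om (v - ch.X (sl e L sg b))‖ ^ 2 :=
      pow_le_pow_left₀ (by positivity) h5 2
    apply Real.exp_le_exp.2
    rw [pq_eq hS.om_one, neg_mul, neg_le_neg_iff, hbe]
    calc (al * ch.c / (2 * D)) ^ 2 * ‖b - b0‖ ^ 2
        = al ^ 2 * (ch.c / (2 * D) * ‖b - b0‖) ^ 2 := by ring
      _ ≤ al ^ 2 * ‖pr om (v - ch.X (sl e L sg b))‖ ^ 2 := by gcongr
  have hint0 : Integrable (fun b : EE m => Real.exp (-be * ‖b‖ ^ 2)) := by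
    have := GaussianFourier.integrable_cexp_neg_mul_sq_norm_add (V := EE m) (b := (be : ℂ))
      (by simpa using hbe0) 0 0
    have h2 := this.norm
    refine h2.congr (Filter.Eventually.of_forall fun b => ?_)
    simp only [Complex.norm_exp]
    congr 1
    simp only [zero_mul, add_zero]
    norm_cast
  have hint : Integrable (fun b : EE m => Real.exp (-be * ‖b - b0‖ ^ 2)) :=
    hint0.comp_sub_right b0
  calc ∫ b in Metric.closedBall (0 : EE m) (3 * ch.dl),
      Real.exp (-(al ^ 2 * pq om (v - ch.X (sl e L sg b))))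
      ≤ ∫ b in Metric.closedBall (0 : EE m) (3 * ch.dl), Real.exp (-be * ‖b - b0‖ ^ 2) := by
        refine setIntegral_mono_on ?_ hint.integrableOn measurableSet_closedBall hle
        exact (Real.continuous_exp.comp (continuous_const.mul hpc).neg).continuousOn.integrableOn_compact
          (isCompact_closedBall _ _)
    _ ≤ ∫ b : EE m, Real.exp (-be * ‖b - b0‖ ^ 2) :=
        setIntegral_le_integral hint (Filter.Eventually.of_forall fun _ => (Real.exp_pos _).le)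
    _ = ∫ b : EE m, Real.exp (-be * ‖b‖ ^ 2) :=
        integral_sub_right_eq_self (fun b : EE m => Real.exp (-be * ‖b‖ ^ 2)) b0
    _ = (Real.pi / be) ^ ((m : ℝ) / 2) := by
        rw [GaussianFourier.integral_rexp_neg_mul_sq_norm hbe0, finrank_euclideanSpace_fin]
    _ = (2 * D / ch.c * Real.sqrt Real.pi) ^ m * al⁻¹ ^ m := by
        have h1 : Real.pi / be = (2 * D / ch.c * Real.sqrt Real.pi * al⁻¹) ^ 2 := by
          rw [hbe, mul_pow, mul_pow, Real.sq_sqrt Real.pi_pos.le]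
          field_simp
        rw [h1, ← mul_pow, ← Real.rpow_natCast _ 2, ← Real.rpow_mul (by positivity),
          ← Real.rpow_natCast _ m]
        congr 1
        push_cast
        ring

/-- **BL** -/
theorem specBL : SpecBL := by
  intro m ch
  obtain ⟨D, hD1, hD⟩ := exists_bound ch
  have hc := ch.c_pos
  refine ⟨max 1 (max ((D / ch.c) ^ 2) ((2 * D / ch.c * Real.sqrt Real.pi) ^ m)), le_max_left _ _, ?_⟩
  intro om e L hS sg hsg
  refine ⟨fun b1 b2 h1 h2 => ?_, fun v al hal => ?_⟩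
  · have h3 := lower hS hD hsg h1 h2
    have h4 : ‖b1 - b2‖ ≤ D / ch.c * ‖pr om (ch.X (sl e L sg b1) - ch.X (sl e L sg b2))‖ := by
      rw [div_mul_eq_mul_div, le_div_iff₀ hc]
      linarith
    have h5 := pow_le_pow_left₀ (norm_nonneg _) h4 2
    rw [mul_pow, ← pq_eq hS.om_one] at h5
    refine h5.trans (mul_le_mul_of_nonneg_right ((le_max_left _ _).trans (le_max_right _ _)) ?_)
    rw [pq_eq hS.om_one]
    positivity
  · refine (gauss hS hD1 hD hsg v hal).trans (mul_le_mul_of_nonneg_right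
      ((le_max_right _ _).trans (le_max_right _ _)) (by positivity))

end Pool.Agent.Lib.MP_a8dae7_an.CG.BLM
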