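import Pool.Agent.Lib.MP_a8dae7_an.CG.Spec
import Pool.Agent.Lib.MP_a8dae7_an.CV.P
import Pool.Agent.Lib.MP_a8dae7_an.CV.RDU

section
/-!
# MP_a8dae7_an, CG: a cap of radius `r` on the whole chart (SpecPG)
-/
set_option autoImplicit false

open MeasureTheory Metric
open scoped ContDiff

namespace Pool.Agent.Lib.MP_a8dae7_an.CG.PGM

open Pool.Agent.Lib.MP_a8dae7_an.CV
open CV.PM (continuous_Kf continuous_es exp_est norm_sl_le bz_nonneg OB_mono)

theorem continuous_ks {m : ℕ} (ch : Chart (m + 1)) (om : EE (m + 2)) (lam : ℝ) {r : ℝ} (hr : 0 < r)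
    (e : EE (m + 1)) (L : EE m →ₗᵢ[ℝ] EE (m + 1)) (zt : EE (m + 2)) (sg sg' : ℝ) :
    Continuous (fun p : EE m × EE m => ks ch om lam r e L zt sg sg' p.1 p.2) := by
  unfold ks xd sl
  have hX := ch.smooth.continuous
  have hL := L.continuous
  exact (continuous_Kf om lam hr).comp (((hX.comp (continuous_const.add (hL.comp continuous_fst))).sub
    (hX.comp (continuous_const.add (hL.comp continuous_snd)))).add continuous_const)

/-- the trivial bound of a negligible block -/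
theorem ob_triv (hSC : SpecSC) {m : ℕ} (ch : Chart (m + 1)) {om : EE (m + 2)} {lam r : ℝ} (hr : 0 < r)
    {e : EE (m + 1)} (he : ‖e‖ = 1) (L : EE m →ₗᵢ[ℝ] EE (m + 1)) (zt : EE (m + 2)) {sg sg' M : ℝ}
    (hsg : |sg| ≤ 2 * ch.dl) (hsg' : |sg'| ≤ 2 * ch.dl) (hM : 0 ≤ M)
    (hK : ∀ x : EE (m + 2), ‖x‖ ≤ 1 / 4 → ‖Kf om lam r (x + zt)‖ ≤ M) :
    OB m (2 * ch.dl) (ks ch om lam r e L zt sg sg')
      (M * volume.real (closedBall (0 : EE m) (2 * ch.dl))) := by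
  have hb : ∀ b b' : EE m, ‖b‖ ≤ 2 * ch.dl → ‖b'‖ ≤ 2 * ch.dl →
      ‖ks ch om lam r e L zt sg sg' b b'‖ ≤ M := by
    intro b b' hb hb'
    unfold ks xd
    exact hK _ (ch.diam _ _ (norm_sl_le he L hsg hb) (norm_sl_le he L hsg' hb'))
  refine hSC m _ _ _ (continuous_ks ch om lam hr e L zt sg sg') (by positivity) ?_ ?_
  · intro b hb1
    refine (le_abs_self _).trans ?_
    rw [← Real.norm_eq_abs]
    refine norm_setIntegral_le_of_norm_le_const (measure_closedBall_lt_top) fun b' hb' => ?_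
    rw [norm_norm]
    exact hb b b' hb1 (mem_closedBall_zero_iff.1 hb')
  · intro b' hb1
    refine (le_abs_self _).trans ?_
    rw [← Real.norm_eq_abs]
    refine norm_setIntegral_le_of_norm_le_const (measure_closedBall_lt_top) fun b hb' => ?_
    rw [norm_norm]
    exact hb b b' (mem_closedBall_zero_iff.1 hb') hb1

/-- one block -/
theorem block (hSL : SpecSL) {m : ℕ} (ch : Chart (m + 1)) {om : EE (m + 2)} {e : EE (m + 1)}
    {L : EE m →ₗᵢ[ℝ] EE (m + 1)} (hS : Slice ch om e L)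
    (hME : MeasurableEmbedding (fun p : ℝ × EE m => p.1 • e + L p.2))
    (hMP : MeasurePreserving (fun p : ℝ × EE m => p.1 • e + L p.2) (volume.prod volume) volume)
    {lam r eps B0 B1 B2 : ℝ} (hlam : 0 < lam) (hr : 0 < r)
    (hB0 : 0 ≤ B0) (hB1 : 0 ≤ B1) (hB2 : 0 ≤ B2)
    (h0 : ∀ sg sg' : ℝ, |sg| ≤ 2 * ch.dl → |sg'| ≤ 2 * ch.dl →
      OB m (2 * ch.dl) (ks ch om lam r e L 0 sg sg') B0)
    (h1 : ∀ z : Fin (m + 2) → ℤ, Near om lam r eps z → ∀ sg sg' : ℝ, |sg| ≤ 2 * ch.dl →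
      |sg'| ≤ 2 * ch.dl → OB m (2 * ch.dl) (ks ch om lam r e L ((2 * Real.pi) • zv z) sg sg')
        (B1 * (r / lam) * Real.sqrt (lam / |inner ℝ om ((2 * Real.pi) • zv z)|)))
    (h2 : ∀ z : Fin (m + 2) → ℤ, z ≠ 0 → ¬ Near om lam r eps z → ∀ sg sg' : ℝ, |sg| ≤ 2 * ch.dl →
      |sg'| ≤ 2 * ch.dl → OB m (2 * ch.dl) (ks ch om lam r e L ((2 * Real.pi) • zv z) sg sg')
        (B2 * Real.exp (-(‖(2 * Real.pi) • zv z‖ * r / (64 * lam)))))
    (z : Fin (m + 2) → ℤ) (f : EE (m + 1) → ℂ) (hf : Continuous f) :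
    ‖∫ q in {q | ‖q‖ ≤ 2 * ch.dl ∧ |inner ℝ e q - 0| ≤ 2 * ch.dl},
      ∫ q' in {q | ‖q‖ ≤ 2 * ch.dl ∧ |inner ℝ e q - 0| ≤ 2 * ch.dl},
      Kf om lam r (ch.X q - ch.X q' + (2 * Real.pi) • zv z) * ((starRingEnd ℂ) (f q) * f q')‖ ≤
    (4 * ch.dl * bz om lam r eps B0 B1 B2 z) *
      ∫ q in {q | ‖q‖ ≤ 2 * ch.dl ∧ |inner ℝ e q - 0| ≤ 2 * ch.dl}, ‖f q‖ ^ 2 := by
  have hdl := ch.dl_pos
  have hX := ch.smooth.continuous
  have hK : Continuous (fun p : EE (m + 1) × EE (m + 1) =>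
      Kf om lam r (ch.X p.1 - ch.X p.2 + (2 * Real.pi) • zv z)) :=
    (continuous_Kf om lam hr).comp (((hX.comp continuous_fst).sub (hX.comp continuous_snd)).add
      continuous_const)
  have hbz := bz_nonneg om (eps := eps) hlam hr hB0 hB1 hB2 z
  have h := hSL m e L (fun q q' => Kf om lam r (ch.X q - ch.X q' + (2 * Real.pi) • zv z))
    (2 * ch.dl) (2 * ch.dl) 0 (bz om lam r eps B0 B1 B2 z) hS.e_one hS.eL hME hMP hK (by positivity)
    (by positivity) hbz (by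
      intro sg sg' hsg hsg' hR hR'
      by_cases hz : z = 0
      · have hzv : (2 * Real.pi) • (zv z : EE (m + 2)) = 0 := by
          rw [hz]
          have : (zv (0 : Fin (m + 2) → ℤ) : EE (m + 2)) = 0 := by
            unfold zv
            ext i
            simp
          rw [this, smul_zero]
        have hb : bz om lam r eps B0 B1 B2 z = B0 := by unfold bz; rw [if_pos hz]
        rw [hb]
        have h3 := h0 sg sg' hR hR'
        unfold ks xd at h3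
        rw [hzv]
        exact h3
      · by_cases hN : Near om lam r eps z
        · have hb : bz om lam r eps B0 B1 B2 z =
              B1 * (r / lam) * Real.sqrt (lam / |inner ℝ om ((2 * Real.pi) • zv z)|) := by
            unfold bz; rw [if_neg hz, if_pos hN]
          rw [hb]
          exact h1 z hN sg sg' hR hR'
        · have hb : bz om lam r eps B0 B1 B2 z =
              B2 * Real.exp (-(‖(2 * Real.pi) • (zv z : EE (m + 2))‖ * r / (64 * lam))) := by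
            unfold bz; rw [if_neg hz, if_neg hN]
          rw [hb]
          exact h2 z hz hN sg sg' hR hR') f hf
  refine h.trans (le_of_eq ?_)
  ring

/-- the trivial bound -/
theorem triv (hTR : SpecTR) {m : ℕ} (ch : Chart (m + 1)) {r : ℝ} {n0 : EE (m + 2)}
    {s : Finset (Fin (m + 2) → ℤ)} (a : (Fin (m + 2) → ℤ) → ℂ) (hr : 1 ≤ r)
    (h2 : ∀ n ∈ s, ‖zv n - n0‖ ≤ r) :
    ∫ q in closedBall (0 : EE (m + 1)) (2 * ch.dl), ‖es s a (ch.X q)‖ ^ 2 ≤
      volume.real (closedBall (0 : EE (m + 1)) (2 * ch.dl)) * (3 * r) ^ (m + 2) *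
        ∑ n ∈ s, ‖a n‖ ^ 2 := by
  have hsum : 0 ≤ ∑ n ∈ s, ‖a n‖ ^ 2 := Finset.sum_nonneg fun n _ => by positivity
  have hcard : (s.card : ℝ) ≤ (3 * r) ^ (m + 2) := by
    refine (hTR.2 (m + 2) s n0 r (by linarith) h2).trans ?_
    exact pow_le_pow_left₀ (by linarith) (by linarith) _
  have hb : ∀ q, ‖es s a (ch.X q)‖ ^ 2 ≤ (3 * r) ^ (m + 2) * ∑ n ∈ s, ‖a n‖ ^ 2 := fun q =>
    (hTR.1 (m + 2) s a (ch.X q)).trans (mul_le_mul_of_nonneg_right hcard hsum)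
  have hfin : volume (closedBall (0 : EE (m + 1)) (2 * ch.dl)) < ⊤ := measure_closedBall_lt_top
  refine (le_abs_self _).trans ?_
  rw [← Real.norm_eq_abs]
  refine (norm_setIntegral_le_of_norm_le_const (C := (3 * r) ^ (m + 2) * ∑ n ∈ s, ‖a n‖ ^ 2)
    hfin fun q _ => ?_).trans ?_
  · rw [Real.norm_eq_abs, abs_of_nonneg (by positivity)]
    exact hb q
  · exact le_of_eq (by ring)

/-- choice of the slices: `e = J^* om / |J^* om|`, or any unit vector -/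
theorem choose_e {m : ℕ} (ch : Chart (m + 1)) (om : EE (m + 2)) :
    ∃ (e : EE (m + 1)) (ka : ℝ), ‖e‖ = 1 ∧ ∀ q, inner ℝ om (ch.J q) = ka * inner ℝ e q := by
  obtain ⟨q0, hq0⟩ : ∃ q0 : EE (m + 1), ∀ q, inner ℝ q0 q = inner ℝ om (ch.J q) := by
    refine ⟨ContinuousLinearMap.adjoint ch.J.toContinuousLinearMap om, fun q => ?_⟩
    rw [real_inner_comm, ContinuousLinearMap.adjoint_inner_right, real_inner_comm]
    rfl
  by_cases h : q0 = 0
  · refine ⟨EuclideanSpace.single 0 1, 0, by simp, fun q => ?_⟩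
    rw [← hq0, h, inner_zero_left, zero_mul]
  · have hn : ‖q0‖ ≠ 0 := norm_ne_zero_iff.2 h
    refine ⟨‖q0‖⁻¹ • q0, ‖q0‖, ?_, fun q => ?_⟩
    · rw [norm_smul, norm_inv, norm_norm]
      exact inv_mul_cancel₀ hn
    · rw [real_inner_smul_left, hq0]
      field_simp

/-- the sum of all blocks -/
theorem sum_est {lam r dl eps K2 KS C0 C1 C2 C3 CS Ce : ℝ} {m : ℕ} (hlam : 1 ≤ lam) (hr : 1 ≤ r)
    (hdl : 0 ≤ dl) (hdl1 : dl ≤ 1) (heps : 0 < eps) (hK2 : 0 ≤ K2) (hKS : 0 ≤ KS) (hC0 : 0 ≤ C0)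
    (hC1 : 0 ≤ C1) (hC2 : 0 ≤ C2) (hC3 : 0 ≤ C3) (hCS : 0 ≤ CS)
    (hCe : lam ^ (2 * (m + 2)) * Real.exp (-(lam ^ (2 * eps) / 16)) ≤ Ce) :
    4 * dl * (C0 * (r ^ 2 / lam) +
      CS * lam ^ (KS * eps) * (C1 + C2 * lam ^ (K2 * eps)) * Real.sqrt r +
      CS * lam ^ (m + 2) * (C3 * lam ^ (m + 2) * Real.exp (-(lam ^ (2 * eps) / 16)))) ≤
    4 * (C0 + CS * (C1 + C2) + CS * C3 * Ce) * (lam ^ ((m + 2 + K2 + KS) * eps) *
      (r ^ 2 / lam + Real.sqrt r)) := by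
  have hl0 : 0 < lam := by linarith
  have hr0 : 0 < r := by linarith
  obtain ⟨Q, hQ⟩ : ∃ Q, Q = lam ^ ((m + 2 + K2 + KS) * eps) := ⟨_, rfl⟩
  have hm0 : (0 : ℝ) ≤ m := Nat.cast_nonneg m
  have hQ1 : 1 ≤ Q := by rw [hQ]; exact Real.one_le_rpow hlam (by positivity)
  have hs1 : 1 ≤ Real.sqrt r := Real.one_le_sqrt.2 hr
  have hA : lam ^ (KS * eps) ≤ Q := by
    rw [hQ]
    refine Real.rpow_le_rpow_of_exponent_le hlam (mul_le_mul_of_nonneg_right ?_ heps.le)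
    linarith
  have hB : lam ^ (KS * eps) * lam ^ (K2 * eps) ≤ Q := by
    rw [hQ, ← Real.rpow_add hl0]
    refine Real.rpow_le_rpow_of_exponent_le hlam ?_
    nlinarith
  have hCe0 : 0 ≤ Ce := le_trans (by positivity) hCe
  have hY : 0 ≤ r ^ 2 / lam := by positivity
  rw [← hQ]
  obtain ⟨Y, hYd⟩ : ∃ Y, Y = r ^ 2 / lam := ⟨_, rfl⟩
  obtain ⟨S, hSd⟩ : ∃ S, S = Real.sqrt r := ⟨_, rfl⟩
  rw [← hYd] at hY ⊢
  rw [← hSd] at hs1 ⊢
  have hS0 : 0 ≤ S := by linarith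
  have t1 : C0 * Y ≤ C0 * (Q * (Y + S)) := by
    refine mul_le_mul_of_nonneg_left ?_ hC0
    nlinarith
  have t2 : CS * lam ^ (KS * eps) * (C1 + C2 * lam ^ (K2 * eps)) * S ≤ CS * (C1 + C2) * (Q * (Y + S)) := by
    calc CS * lam ^ (KS * eps) * (C1 + C2 * lam ^ (K2 * eps)) * S
        = CS * (C1 * lam ^ (KS * eps) + C2 * (lam ^ (KS * eps) * lam ^ (K2 * eps))) * S := by ring
      _ ≤ CS * (C1 * Q + C2 * Q) * S := by
          refine mul_le_mul_of_nonneg_right (mul_le_mul_of_nonneg_left ?_ hCS) hS0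
          exact add_le_add (mul_le_mul_of_nonneg_left hA hC1) (mul_le_mul_of_nonneg_left hB hC2)
      _ = CS * (C1 + C2) * (Q * S) := by ring
      _ ≤ CS * (C1 + C2) * (Q * (Y + S)) := by
          refine mul_le_mul_of_nonneg_left ?_ (by positivity)
          exact mul_le_mul_of_nonneg_left (by linarith) (by linarith)
  have t3 : CS * lam ^ (m + 2) * (C3 * lam ^ (m + 2) * Real.exp (-(lam ^ (2 * eps) / 16))) ≤
      CS * C3 * Ce * (Q * (Y + S)) := by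
    calc CS * lam ^ (m + 2) * (C3 * lam ^ (m + 2) * Real.exp (-(lam ^ (2 * eps) / 16)))
        = CS * C3 * (lam ^ (2 * (m + 2)) * Real.exp (-(lam ^ (2 * eps) / 16))) := by
          rw [two_mul (m + 2), pow_add]; ring
      _ ≤ CS * C3 * Ce := mul_le_mul_of_nonneg_left hCe (by positivity)
      _ ≤ CS * C3 * Ce * (Q * (Y + S)) := by
          refine le_mul_of_one_le_right (by positivity) ?_
          nlinarith
  obtain ⟨T, hT⟩ : ∃ T, T = Q * (Y + S) := ⟨_, rfl⟩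
  rw [← hT] at t1 t2 t3 ⊢
  have hT0 : 0 ≤ T := by rw [hT]; positivity
  have hsum : C0 * Y + CS * lam ^ (KS * eps) * (C1 + C2 * lam ^ (K2 * eps)) * S +
      CS * lam ^ (m + 2) * (C3 * lam ^ (m + 2) * Real.exp (-(lam ^ (2 * eps) / 16))) ≤
      (C0 + CS * (C1 + C2) + CS * C3 * Ce) * T := by linarith
  have hnn : 0 ≤ (C0 + CS * (C1 + C2) + CS * C3 * Ce) * T := by positivity
  calc 4 * dl * (C0 * Y + CS * lam ^ (KS * eps) * (C1 + C2 * lam ^ (K2 * eps)) * S +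
      CS * lam ^ (m + 2) * (C3 * lam ^ (m + 2) * Real.exp (-(lam ^ (2 * eps) / 16))))
      ≤ 4 * dl * ((C0 + CS * (C1 + C2) + CS * C3 * Ce) * T) :=
        mul_le_mul_of_nonneg_left hsum (by positivity)
    _ ≤ 4 * 1 * ((C0 + CS * (C1 + C2) + CS * C3 * Ce) * T) := by
        refine mul_le_mul_of_nonneg_right ?_ hnn
        linarith
    _ = 4 * (C0 + CS * (C1 + C2) + CS * C3 * Ce) * T := by ring

/-- **PG** -/
theorem specPG (hSPL : SpecSPL) (hDU : SpecDU) (hWL : SpecWL) (hTR : SpecTR) (hSL : SpecSL)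
    (hSC : SpecSC) (hZ0 : SpecZ0) (hCW : SpecCW) (hZ1 : SpecZ1) (hZ2 : SpecZ2) (hZN : SpecZN)
    (hZS : SpecZS) : SpecPG := by
  intro m ch
  obtain ⟨C0, hC0, h0⟩ := hZ0 m ch
  obtain ⟨C1, hC1, h1⟩ := hZ1 m ch
  obtain ⟨K2, hK2, h2⟩ := hZ2 m ch
  obtain ⟨C3, hC3, h3⟩ := hZN (m + 1)
  obtain ⟨CS, KS, hCS, hKS, hS⟩ := hZS (m + 1)
  obtain ⟨V, hV⟩ : ∃ V, V = volume.real (closedBall (0 : EE m) (2 * ch.dl)) := ⟨_, rfl⟩
  obtain ⟨V', hV'⟩ : ∃ V', V' = volume.real (closedBall (0 : EE (m + 1)) (2 * ch.dl)) := ⟨_, rfl⟩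
  have hV0 : 0 ≤ V := by rw [hV]; positivity
  have hV'0 : 0 ≤ V' := by rw [hV']; positivity
  have hm0 : (0 : ℝ) ≤ m := Nat.cast_nonneg m
  refine ⟨(m : ℝ) + 2 + K2 + KS, by positivity, fun eps heps heps1 => ?_⟩
  obtain ⟨C2, hC2, h2⟩ := h2 eps heps heps1
  obtain ⟨Ce, hCe0, hCe⟩ := exp_est (2 * (m + 2)) eps heps
  refine ⟨V' * 48 ^ (m + 2) + Real.exp 2 *
    (4 * (C0 + CS * (C1 + C2) + CS * (C3 * V) * Ce)) + 1, by positivity, ?_⟩
  intro lam r n0 s a hlam hr hr3 hn0 hs1 hs2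
  have hdl := ch.dl_pos
  have hdl1 := ch.dl_le
  have hl0 : 0 < lam := by linarith
  have hr0 : 0 < r := by linarith
  have hsum : 0 ≤ ∑ n ∈ s, ‖a n‖ ^ 2 := Finset.sum_nonneg fun n _ => by positivity
  have hLa1 : 1 ≤ lam ^ eps := Real.one_le_rpow hlam heps.le
  obtain ⟨Q, hQ⟩ : ∃ Q, Q = lam ^ (((m : ℝ) + 2 + K2 + KS) * eps) := ⟨_, rfl⟩
  have hQ0 : 0 < Q := by rw [hQ]; positivity
  rw [← hQ]
  obtain ⟨Ct, hCt⟩ : ∃ Ct, Ct = 4 * (C0 + CS * (C1 + C2) + CS * (C3 * V) * Ce) := ⟨_, rfl⟩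
  have hCt0 : 0 ≤ Ct := by rw [hCt]; positivity
  rw [← hCt]
  have hs1' : 1 ≤ Real.sqrt r := Real.one_le_sqrt.2 hr
  obtain ⟨P, hP⟩ : ∃ P, P = r ^ 2 / lam + Real.sqrt r := ⟨_, rfl⟩
  have hP1 : 1 ≤ P := by
    rw [hP]
    have : 0 ≤ r ^ 2 / lam := by positivity
    linarith
  rw [← hP]
  by_cases h16 : r ≤ 16 * lam ^ eps
  · -- trivial case
    refine (triv hTR ch a hr hs2).trans ?_
    rw [← hV']
    refine mul_le_mul_of_nonneg_right ?_ hsum
    have h4 : (3 * r) ^ (m + 2) ≤ 48 ^ (m + 2) * Q := by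
      calc (3 * r) ^ (m + 2) ≤ (48 * lam ^ eps) ^ (m + 2) :=
            pow_le_pow_left₀ (by linarith) (by linarith) _
        _ = 48 ^ (m + 2) * (lam ^ eps) ^ (m + 2) := mul_pow _ _ _
        _ ≤ 48 ^ (m + 2) * Q := by
            refine mul_le_mul_of_nonneg_left ?_ (by positivity)
            rw [hQ, ← Real.rpow_natCast, ← Real.rpow_mul hl0.le]
            refine Real.rpow_le_rpow_of_exponent_le hlam ?_
            push_cast
            nlinarith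
    calc V' * (3 * r) ^ (m + 2) ≤ V' * (48 ^ (m + 2) * Q) := mul_le_mul_of_nonneg_left h4 hV'0
      _ = V' * 48 ^ (m + 2) * Q * 1 := by ring
      _ ≤ V' * 48 ^ (m + 2) * Q * P := mul_le_mul_of_nonneg_left hP1 (by positivity)
      _ ≤ (V' * 48 ^ (m + 2) + Real.exp 2 * Ct + 1) * Q * P := by
          refine mul_le_mul_of_nonneg_right (mul_le_mul_of_nonneg_right ?_ hQ0.le) (by linarith)
          have : 0 ≤ Real.exp 2 * Ct := by positivity
          linarith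
  push Not at h16
  have hLr : lam ^ eps ≤ r := by linarith
  have hrlam : r ≤ lam := by
    by_contra hcon
    push Not at hcon
    have h5 : lam ^ 2 < r ^ 2 := pow_lt_pow_left₀ hcon hl0.le two_ne_zero
    nlinarith [sq_nonneg r]
  obtain ⟨om, hom⟩ : ∃ om, om = lam⁻¹ • n0 := ⟨_, rfl⟩
  have hom1 : ‖om‖ = 1 := by
    rw [hom, norm_smul, Real.norm_eq_abs, abs_of_pos (by positivity), hn0]
    exact inv_mul_cancel₀ hl0.ne'
  obtain ⟨e, ka, he, hJe⟩ := choose_e ch om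
  obtain ⟨L, hL1, hL2, hL3, hL4⟩ := hSPL m e he
  have hSl : Slice ch om e L := ⟨hom1, he, hL1, fun b => by rw [hJe, hL1, mul_zero]⟩
  obtain ⟨B0, hB0⟩ : ∃ B0, B0 = C0 * (r ^ 2 / lam) := ⟨_, rfl⟩
  obtain ⟨B1, hB1⟩ : ∃ B1, B1 = C1 + C2 * lam ^ (K2 * eps) := ⟨_, rfl⟩
  obtain ⟨B2, hB2⟩ : ∃ B2, B2 = C3 * V * lam ^ (m + 2) * Real.exp (-(lam ^ (2 * eps) / 16)) :=
    ⟨_, rfl⟩
  have hB00 : 0 ≤ B0 := by rw [hB0]; positivity
  have hB10 : 0 ≤ B1 := by rw [hB1]; positivity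
  have hB20 : 0 ≤ B2 := by rw [hB2]; positivity
  obtain ⟨hSum, hSum2⟩ := hS om lam r eps B0 B1 B2 hom1 heps heps1 hlam hr hrlam hB00 hB10 hB20
  have hcs : Continuous (fun q : EE (m + 1) => |inner ℝ e q - (0 : ℝ)|) :=
    ((continuous_const.inner continuous_id).sub continuous_const).abs
  have hDc : IsClosed {q : EE (m + 1) | ‖q‖ ≤ 2 * ch.dl ∧ |inner ℝ e q - 0| ≤ 2 * ch.dl} :=
    (isClosed_le continuous_norm continuous_const).inter (isClosed_le hcs continuous_const)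
  have hDsub : {q : EE (m + 1) | ‖q‖ ≤ 2 * ch.dl ∧ |inner ℝ e q - 0| ≤ 2 * ch.dl} ⊆
      closedBall (0 : EE (m + 1)) (2 * ch.dl) := fun q hq => mem_closedBall_zero_iff.2 hq.1
  have hDeq : {q : EE (m + 1) | ‖q‖ ≤ 2 * ch.dl ∧ |inner ℝ e q - 0| ≤ 2 * ch.dl} =
      closedBall (0 : EE (m + 1)) (2 * ch.dl) := by
    refine Set.Subset.antisymm hDsub fun q hq => ?_
    have hq' : ‖q‖ ≤ 2 * ch.dl := mem_closedBall_zero_iff.1 hq
    refine ⟨hq', ?_⟩
    rw [sub_zero]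
    refine (abs_real_inner_le_norm e q).trans ?_
    rw [he, one_mul]
    exact hq'
  -- the term `z = 0` on the diagonal
  have hdiag : ∀ sg : ℝ, |sg| ≤ 2 * ch.dl → OB m (2 * ch.dl) (ks ch om lam r e L 0 sg sg) B0 := by
    intro sg hsg
    have hsq : Real.sqrt r * Real.sqrt r = r := Real.mul_self_sqrt hr0.le
    have hsp : 0 < Real.sqrt r := Real.sqrt_pos.2 hr0
    have hth : (Real.sqrt r)⁻¹ ^ 2 * r ≤ 1 := by
      have : (Real.sqrt r)⁻¹ ^ 2 * r = 1 := by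
        rw [inv_pow, Real.sq_sqrt hr0.le]
        exact inv_mul_cancel₀ hr0.ne'
      exact this.le
    have := h0 om e L hSl lam r (Real.sqrt r)⁻¹ 1 sg sg hlam hr hr3 (by positivity) le_rfl hth hsg hsg
      (by rw [sub_self, abs_zero]; positivity)
    rw [one_pow, mul_one] at this
    rw [hB0]
    exact this
  have hmain := hDU (m + 1) ch.X {q | ‖q‖ ≤ 2 * ch.dl ∧ |inner ℝ e q - 0| ≤ 2 * ch.dl}
    (2 * ch.dl) om lam r (Real.exp (-2)) s a (fun z => 4 * ch.dl * bz om lam r eps B0 B1 B2 z)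
    ch.smooth.continuous hDc.measurableSet hDsub hom1 hl0 hr0 (Real.exp_pos _)
    (fun n hn => by
      rw [hom]
      exact hWL (m + 2) (zv n) n0 lam r hlam hr hr3 (hs1 n hn) hn0 (hs2 n hn))
    (hSum.mul_left _)
    (fun z => mul_nonneg (by positivity) (bz_nonneg om hl0 hr0 hB00 hB10 hB20 z))
    (fun z f hf => block hSL ch hSl hL3 hL4 hl0 hr0 hB00 hB10 hB20
      (by
        intro sg sg' hsg hsg'
        exact hCW m ch om e L lam r (2 * ch.dl) sg sg' B0 hom1 hl0 hr0 hB00 (hdiag sg hsg)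
          (hdiag sg' hsg'))
      (by
        intro z hN sg sg' hsg hsg'
        obtain ⟨hN1, hN2, hN3⟩ := hN
        obtain ⟨Sq, hSq⟩ : ∃ Sq, Sq = Real.sqrt (lam / |inner ℝ om ((2 * Real.pi) • zv z)|) :=
          ⟨_, rfl⟩
        have hSq0 : 0 ≤ Sq := by rw [hSq]; exact Real.sqrt_nonneg _
        rw [← hSq, hB1]
        rcases le_total (|inner ℝ om ((2 * Real.pi) • zv z)| * r ^ 2) (2 * lam) with hc | hc
        · refine OB_mono (h1 om e L hSl lam r sg sg' _ hlam hr hN1 hc hsg hsg') ?_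
          rw [← hSq]
          refine mul_le_mul_of_nonneg_right (mul_le_mul_of_nonneg_right ?_ (by positivity)) hSq0
          have : 0 ≤ C2 * lam ^ (K2 * eps) := by positivity
          linarith
        · refine OB_mono (h2 om e L hSl lam r sg sg' _ hlam hr hr3 hN1 hc (by linarith) hsg hsg') ?_
          rw [← hSq]
          refine mul_le_mul_of_nonneg_right (mul_le_mul_of_nonneg_right ?_ (by positivity)) hSq0
          linarith)
      (by
        intro z hz hN sg sg' hsg hsg'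
        refine OB_mono (ob_triv hSC ch hr0 he L _ hsg hsg' (M := C3 * lam ^ (m + 1 + 1) *
          Real.exp (-(lam ^ (2 * eps) / 16)) *
          Real.exp (-(‖(2 * Real.pi) • (zv z : EE (m + 2))‖ * r / (64 * lam)))) (by positivity)
          (fun x hx => h3 om lam r eps x z hom1 heps heps1 hlam hLr hr3 hx hz hN)) ?_
        rw [← hV, hB2]
        exact le_of_eq (by ring)) z f hf)
  rw [hDeq] at hmain
  have hts : ∑' z, 4 * ch.dl * bz om lam r eps B0 B1 B2 z ≤ Ct * (Q * P) := by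
    rw [tsum_mul_left]
    have h8 := sum_est (C0 := C0) (C1 := C1) (C2 := C2) (C3 := C3 * V) (CS := CS) (Ce := Ce) (m := m)
      hlam hr hdl.le (by linarith : ch.dl ≤ 1) heps (by linarith : 0 ≤ K2) hKS.le hC0.le hC1.le
      hC2.le (by positivity) hCS.le (hCe lam hlam)
    rw [hCt, hQ, hP]
    refine le_trans ?_ h8
    refine mul_le_mul_of_nonneg_left (hSum2.trans (le_of_eq ?_)) (by positivity)
    rw [hB0, hB1, hB2]
  calc ∫ q in closedBall (0 : EE (m + 1)) (2 * ch.dl), ‖es s a (ch.X q)‖ ^ 2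
      ≤ (Real.exp (-2))⁻¹ * (∑' z, 4 * ch.dl * bz om lam r eps B0 B1 B2 z) * ∑ n ∈ s, ‖a n‖ ^ 2 :=
        hmain
    _ ≤ (V' * 48 ^ (m + 2) + Real.exp 2 * Ct + 1) * Q * P * ∑ n ∈ s, ‖a n‖ ^ 2 := by
        refine mul_le_mul_of_nonneg_right ?_ hsum
        rw [Real.exp_neg, inv_inv]
        have h9 : Real.exp 2 * ∑' z, 4 * ch.dl * bz om lam r eps B0 B1 B2 z ≤
            Real.exp 2 * (Ct * (Q * P)) :=
          mul_le_mul_of_nonneg_left hts (Real.exp_pos _).le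
        have h10 : 0 ≤ V' * 48 ^ (m + 2) * (Q * P) := by positivity
        have h11 : 0 ≤ Q * P := by positivity
        nlinarith

end Pool.Agent.Lib.MP_a8dae7_an.CG.PGM
end

section
/-!
# MP_a8dae7_an, CG: the trace inequality on a chart (SpecC), from RD1, PG and TR
-/
set_option autoImplicit false

open MeasureTheory
open scoped ContDiff

namespace Pool.Agent.Lib.MP_a8dae7_an.CG.CM

open Pool.Agent.Lib.MP_a8dae7_an.CV
open CV.PM (continuous_es)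

/-- one cube of side `lam^(2/3-e)` -/
theorem piece (hPG : SpecPG) (hTR : SpecTR) (m : ℕ) (ch : Chart (m + 1)) :
    ∃ K : ℝ, 0 < K ∧ ∀ e : ℝ, 0 < e → e ≤ 1 / 10 → ∃ C : ℝ, 0 < C ∧
    ∀ (lam : ℝ) (s : Finset (Fin (m + 2) → ℤ)) (a : (Fin (m + 2) → ℤ) → ℂ), 1 ≤ lam →
    (∀ n ∈ s, ‖zv n‖ = lam) →
    (∀ n ∈ s, ∀ n' ∈ s, cb (lam ^ (2 / 3 - e)) n = cb (lam ^ (2 / 3 - e)) n') →
    ∫ q in Metric.closedBall (0 : EE (m + 1)) (3 / 2 * ch.dl), ‖es s a (ch.X q)‖ ^ 2 ≤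
      C * (lam ^ (K * e) * lam ^ (1 / 3 : ℝ)) * ∑ n ∈ s, ‖a n‖ ^ 2 := by
  obtain ⟨K, hK, h⟩ := hPG m ch
  refine ⟨K, hK, fun e he0 he1 => ?_⟩
  obtain ⟨C, hC, h⟩ := h e he0 he1
  obtain ⟨M, hM⟩ : ∃ M, M = Real.sqrt ((m + 2 : ℕ) : ℝ) := ⟨_, rfl⟩
  have hM1 : 1 ≤ M := by
    rw [hM]
    refine Real.one_le_sqrt.2 ?_
    push_cast
    have : (0 : ℝ) ≤ m := Nat.cast_nonneg m
    linarith
  obtain ⟨l0, hl0⟩ : ∃ l0, l0 = M ^ (1 / e) := ⟨_, rfl⟩
  have hl01 : 1 ≤ l0 := by rw [hl0]; exact Real.one_le_rpow hM1 (by positivity)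
  obtain ⟨V, hV⟩ : ∃ V, V = volume.real (Metric.closedBall (0 : EE (m + 1)) (2 * ch.dl)) := ⟨_, rfl⟩
  have hV0 : 0 ≤ V := by rw [hV]; positivity
  refine ⟨2 * C + V * (3 * l0) ^ (m + 2), by positivity, fun lam s a hlam hs hcb => ?_⟩
  have hlam0 : 0 < lam := by linarith
  have hA : 0 ≤ ∑ n ∈ s, ‖a n‖ ^ 2 := Finset.sum_nonneg fun _ _ => by positivity
  have hdl := ch.dl_pos
  have hP1 : 1 ≤ lam ^ (K * e) * lam ^ (1 / 3 : ℝ) := by
    have h1 : 1 ≤ lam ^ (K * e) := Real.one_le_rpow hlam (by positivity)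
    have h2 : 1 ≤ lam ^ (1 / 3 : ℝ) := Real.one_le_rpow hlam (by norm_num)
    exact one_le_mul_of_one_le_of_one_le h1 h2
  -- enlarge the ball
  have hcont : Continuous (fun q => ‖es s a (ch.X q)‖ ^ 2) :=
    (continuous_es s a ch.X ch.smooth.continuous).norm.pow 2
  have hint : IntegrableOn (fun q => ‖es s a (ch.X q)‖ ^ 2)
      (Metric.closedBall (0 : EE (m + 1)) (2 * ch.dl)) :=
    hcont.continuousOn.integrableOn_compact (isCompact_closedBall _ _)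
  have hsub : Metric.closedBall (0 : EE (m + 1)) (3 / 2 * ch.dl) ⊆
      Metric.closedBall (0 : EE (m + 1)) (2 * ch.dl) :=
    Metric.closedBall_subset_closedBall (by linarith)
  refine (setIntegral_mono_set hint (Filter.Eventually.of_forall fun q => by positivity)
    hsub.eventuallyLE).trans ?_
  rcases s.eq_empty_or_nonempty with hemp | ⟨n0, hn0⟩
  · rw [hemp]
    simp [es]
  rcases le_total M (lam ^ e) with hcase | hcase
  · -- large `lam`
    have hr1 : 1 ≤ lam ^ (2 / 3 : ℝ) := Real.one_le_rpow hlam (by norm_num)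
    have hr3 : (lam ^ (2 / 3 : ℝ)) ^ 3 ≤ lam ^ 2 := by
      rw [← Real.rpow_natCast, ← Real.rpow_mul hlam0.le, ← Real.rpow_natCast]
      refine le_of_eq ?_
      norm_num
    have hd : ∀ n ∈ s, ‖zv n - zv n0‖ ≤ lam ^ (2 / 3 : ℝ) := by
      intro n hn
      refine (RDUM.norm_zv_sub_le (by positivity) (hcb n hn n0 hn0)).trans ?_
      rw [← hM]
      calc M * lam ^ (2 / 3 - e) ≤ lam ^ e * lam ^ (2 / 3 - e) :=
            mul_le_mul_of_nonneg_right hcase (by positivity)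
        _ = lam ^ (2 / 3 : ℝ) := by
            rw [← Real.rpow_add hlam0]
            congr 1
            ring
    refine (h lam (lam ^ (2 / 3 : ℝ)) (zv n0) s a hlam hr1 hr3 (hs n0 hn0) hs hd).trans ?_
    refine mul_le_mul_of_nonneg_right ?_ hA
    have e1 : (lam ^ (2 / 3 : ℝ)) ^ 2 / lam = lam ^ (1 / 3 : ℝ) := by
      rw [div_eq_iff hlam0.ne', ← Real.rpow_natCast, ← Real.rpow_mul hlam0.le]
      nth_rewrite 3 [← Real.rpow_one lam]
      rw [← Real.rpow_add hlam0]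
      norm_num
    have e2 : Real.sqrt (lam ^ (2 / 3 : ℝ)) = lam ^ (1 / 3 : ℝ) := by
      rw [Real.sqrt_eq_rpow, ← Real.rpow_mul hlam0.le]
      norm_num
    rw [e1, e2]
    have h3 : 0 ≤ V * (3 * l0) ^ (m + 2) * (lam ^ (K * e) * lam ^ (1 / 3 : ℝ)) := by positivity
    calc C * lam ^ (K * e) * (lam ^ (1 / 3 : ℝ) + lam ^ (1 / 3 : ℝ))
        = 2 * C * (lam ^ (K * e) * lam ^ (1 / 3 : ℝ)) := by ring
      _ ≤ (2 * C + V * (3 * l0) ^ (m + 2)) * (lam ^ (K * e) * lam ^ (1 / 3 : ℝ)) := by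
          rw [add_mul]
          linarith
  · -- small `lam`
    have hle : lam ≤ l0 := by
      rw [hl0]
      calc lam = (lam ^ e) ^ (1 / e) := by
            rw [← Real.rpow_mul hlam0.le, mul_one_div_cancel he0.ne', Real.rpow_one]
        _ ≤ M ^ (1 / e) := Real.rpow_le_rpow (by positivity) hcase (by positivity)
    refine (PGM.triv hTR ch (r := l0) (n0 := 0) a hl01 (fun n hn => ?_)).trans ?_
    · rw [sub_zero, hs n hn]
      exact hle
    · rw [← hV]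
      refine mul_le_mul_of_nonneg_right ?_ hA
      calc V * (3 * l0) ^ (m + 2) ≤ (2 * C + V * (3 * l0) ^ (m + 2)) * 1 := by linarith
        _ ≤ (2 * C + V * (3 * l0) ^ (m + 2)) * (lam ^ (K * e) * lam ^ (1 / 3 : ℝ)) :=
            mul_le_mul_of_nonneg_left hP1 (by positivity)

/-- **C** -/
theorem specC (h1 : SpecRD1) (hPG : SpecPG) (hTR : SpecTR) : SpecC := by
  intro m ch eps heps
  obtain ⟨K1, hK1, h1⟩ := h1 (m + 1) ch
  obtain ⟨K2, hK2, h2⟩ := piece hPG hTR m ch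
  obtain ⟨e, he0, he1, he2⟩ : ∃ e : ℝ, 0 < e ∧ e ≤ 1 / 10 ∧ (K1 + K2) * e ≤ eps := by
    refine ⟨min (1 / 10) (eps / (K1 + K2)), lt_min (by norm_num) (by positivity), min_le_left _ _, ?_⟩
    calc (K1 + K2) * min (1 / 10) (eps / (K1 + K2)) ≤ (K1 + K2) * (eps / (K1 + K2)) :=
          mul_le_mul_of_nonneg_left (min_le_right _ _) (by positivity)
      _ = eps := by field_simp
  obtain ⟨C1, hC1, h1⟩ := h1 e he0 he1
  obtain ⟨C2, hC2, h2⟩ := h2 e he0 he1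
  refine ⟨C1 * C2 + C1, by positivity, ?_⟩
  intro lam s a hlam hs
  have hlam0 : 0 < lam := by linarith
  have hA : 0 ≤ ∑ n ∈ s, ‖a n‖ ^ 2 := Finset.sum_nonneg fun _ _ => by positivity
  refine (h1 lam s a hlam hs).trans ?_
  obtain ⟨T, hT⟩ : ∃ T, T = lam ^ (K2 * e) * lam ^ (1 / 3 : ℝ) := ⟨_, rfl⟩
  have hsum : ∑ c ∈ s.image (cb (lam ^ (2 / 3 - e))),
      ∫ q in Metric.closedBall (0 : EE (m + 1)) (3 / 2 * ch.dl),
        ‖es (s.filter fun n => cb (lam ^ (2 / 3 - e)) n = c) a (ch.X q)‖ ^ 2 ≤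
      C2 * T * ∑ n ∈ s, ‖a n‖ ^ 2 := by
    calc ∑ c ∈ s.image (cb (lam ^ (2 / 3 - e))),
      ∫ q in Metric.closedBall (0 : EE (m + 1)) (3 / 2 * ch.dl),
        ‖es (s.filter fun n => cb (lam ^ (2 / 3 - e)) n = c) a (ch.X q)‖ ^ 2
        ≤ ∑ c ∈ s.image (cb (lam ^ (2 / 3 - e))), C2 * T *
          ∑ n ∈ s.filter (fun n => cb (lam ^ (2 / 3 - e)) n = c), ‖a n‖ ^ 2 := by
          refine Finset.sum_le_sum fun c _ => ?_
          rw [hT]
          refine h2 lam _ a hlam ?_ ?_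
          · intro n hn
            exact hs n (Finset.mem_filter.1 hn).1
          · intro n hn n' hn'
            rw [(Finset.mem_filter.1 hn).2, (Finset.mem_filter.1 hn').2]
      _ = C2 * T * ∑ n ∈ s, ‖a n‖ ^ 2 := by
          rw [← Finset.mul_sum]
          congr 1
          exact Finset.sum_fiberwise_of_maps_to (fun n hn => Finset.mem_image_of_mem _ hn) _
  have hp1 : (0 : ℝ) ≤ C1 * lam ^ (K1 * e) := by positivity
  have h3 := mul_le_mul_of_nonneg_left hsum hp1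
  have hpow : lam ^ (K1 * e) * T ≤ lam ^ (1 / 3 + eps) := by
    rw [hT, ← Real.rpow_add hlam0, ← Real.rpow_add hlam0]
    exact Real.rpow_le_rpow_of_exponent_le hlam (by linarith)
  have hone : (1 : ℝ) ≤ lam ^ (1 / 3 + eps) := Real.one_le_rpow hlam (by positivity)
  calc _ ≤ C1 * lam ^ (K1 * e) * (C2 * T * ∑ n ∈ s, ‖a n‖ ^ 2) + C1 * ∑ n ∈ s, ‖a n‖ ^ 2 :=
        add_le_add h3 le_rfl
    _ = (C1 * C2 * (lam ^ (K1 * e) * T) + C1) * ∑ n ∈ s, ‖a n‖ ^ 2 := by ring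
    _ ≤ (C1 * C2 * lam ^ (1 / 3 + eps) + C1 * lam ^ (1 / 3 + eps)) * ∑ n ∈ s, ‖a n‖ ^ 2 := by
        refine mul_le_mul_of_nonneg_right (add_le_add ?_ ?_) hA
        · exact mul_le_mul_of_nonneg_left hpow (by positivity)
        · nlinarith
    _ = (C1 * C2 + C1) * lam ^ (1 / 3 + eps) * ∑ n ∈ s, ‖a n‖ ^ 2 := by ring

end Pool.Agent.Lib.MP_a8dae7_an.CG.CM
end
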