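import Pool.Agent.Lib.MP_a8dae7_an.CG.Spec
import Pool.Agent.Lib.MP_a8dae7_an.CV.CT

/-!
# MP_a8dae7_an, CG: the cutoffs (SpecCT) for graph charts
-/

set_option autoImplicit false

open MeasureTheory
open scoped ContDiff Topology

namespace Pool.Agent.Lib.MP_a8dae7_an.CG.CTM

open Pool.Agent.Lib.MP_a8dae7_an.CV
open CV.CTM (mul_bound)

/-- the linear part of `sn ch n / r` as a function of `V` -/
noncomputable def lin {k : ℕ} (ch : Chart k) (n : EE (k + 1)) (r : ℝ) : EE k →L[ℝ] ℝ :=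
  (-r⁻¹) • ((innerSL ℝ n).comp ch.J.toContinuousLinearMap)

theorem sn_eq {k : ℕ} (ch : Chart k) (n : EE (k + 1)) (r : ℝ) (q : EE k) :
    sn ch n q / r = lin ch n r (ch.V q) + inner ℝ n ch.nu / r := by
  have h1 : lin ch n r (ch.V q) = -r⁻¹ * inner ℝ n (ch.J (ch.V q)) := rfl
  rw [h1, sn, inner_sub_right]
  ring

theorem lin_norm {k : ℕ} (ch : Chart k) (n : EE (k + 1)) {th lam : ℝ} (hth : 0 < th)
    (hlam : 0 < lam) (hn : ‖n‖ ≤ lam) : ‖lin ch n (th * lam)‖ ≤ 1 / th := by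
  have hpos : 0 < th * lam := mul_pos hth hlam
  refine ContinuousLinearMap.opNorm_le_bound _ (by positivity) fun q => ?_
  have h1 : lin ch n (th * lam) q = -(th * lam)⁻¹ * inner ℝ n (ch.J q) := rfl
  rw [h1, norm_mul, norm_neg, norm_inv, Real.norm_of_nonneg hpos.le]
  have h2 : ‖(inner ℝ n (ch.J q) : ℝ)‖ ≤ lam * ‖q‖ := by
    refine (norm_inner_le_norm n (ch.J q)).trans ?_
    rw [ch.J.norm_map]
    exact mul_le_mul_of_nonneg_right hn (norm_nonneg _)
  calc (th * lam)⁻¹ * ‖(inner ℝ n (ch.J q) : ℝ)‖ ≤ (th * lam)⁻¹ * (lam * ‖q‖) :=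
        mul_le_mul_of_nonneg_left h2 (by positivity)
    _ = 1 / th * ‖q‖ := by field_simp

theorem smooth_sn {k : ℕ} (ch : Chart k) {f : ℝ → ℝ} (hf : BD f) (n : EE (k + 1)) (r : ℝ) :
    ContDiff ℝ ∞ (fun q => f (sn ch n q / r)) := by
  have h1 : (fun q => f (sn ch n q / r)) =
      fun q => f (lin ch n r (ch.V q) + inner ℝ n ch.nu / r) := by
    funext q
    rw [sn_eq]
  rw [h1]
  exact hf.1.comp (((lin ch n r).contDiff.comp ch.smoothV).add contDiff_const)

/-- bound of a composition -/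
theorem comp_sn {k : ℕ} (ch : Chart k) {f : ℝ → ℝ} (hf : BD f) :
    ∃ M : ℕ → ℝ, ∀ (n : EE (k + 1)) (th lam : ℝ), 0 < th → th ≤ 4 → 0 < lam → ‖n‖ ≤ lam →
      ∀ (j : ℕ) (q : EE k),
      ‖iteratedFDeriv ℝ j (fun q => f (sn ch n q / (th * lam))) q‖ ≤ M j * (1 / th) ^ j := by
  choose Mf hMf using hf.2
  choose Mv hMv using ch.bdV
  refine ⟨fun j => (j.factorial : ℝ) * (∑ i ∈ Finset.range (j + 1), |Mf i|) *
    (4 * (1 + ∑ i ∈ Finset.range (j + 1), |Mv i|)) ^ j, ?_⟩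
  intro n th lam hth hth4 hlam hn j q
  set c : ℝ := inner ℝ n ch.nu / (th * lam) with hc
  set Λ := lin ch n (th * lam) with hΛ
  have h1 : (fun q => f (sn ch n q / (th * lam))) = (fun x : ℝ => f (x + c)) ∘ (fun q => Λ (ch.V q)) := by
    funext q
    rw [sn_eq]
    rfl
  have hg : ContDiff ℝ ∞ (fun x : ℝ => f (x + c)) := hf.1.comp (contDiff_id.add contDiff_const)
  have hV : ContDiff ℝ ∞ (fun q => Λ (ch.V q)) := Λ.contDiff.comp ch.smoothV
  obtain ⟨B, hB⟩ : ∃ B, B = 1 + ∑ i ∈ Finset.range (j + 1), |Mv i| := ⟨_, rfl⟩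
  have hB1 : 1 ≤ B := by
    rw [hB]
    have : 0 ≤ ∑ i ∈ Finset.range (j + 1), |Mv i| := Finset.sum_nonneg fun i _ => abs_nonneg _
    linarith
  have h4 : (1 : ℝ) ≤ 4 * (1 / th) := by
    rw [mul_one_div, le_div_iff₀ hth]
    linarith
  have hD1 : 1 ≤ 4 * (1 / th) * B := by nlinarith
  rw [h1]
  refine (norm_iteratedFDeriv_comp_le (n := j) (N := ∞) hg hV (by exact_mod_cast le_top) q
    (C := ∑ i ∈ Finset.range (j + 1), |Mf i|) (D := 4 * (1 / th) * B) ?_ ?_).trans ?_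
  · intro i hi
    rw [iteratedFDeriv_comp_add_right]
    refine (hMf i _).trans ((le_abs_self _).trans ?_)
    exact Finset.single_le_sum (f := fun i => |Mf i|) (fun i _ => abs_nonneg _)
      (Finset.mem_range.2 (by omega))
  · intro i hi1 hi
    have h2 : iteratedFDeriv ℝ i (fun q => Λ (ch.V q)) q =
        Λ.compContinuousMultilinearMap (iteratedFDeriv ℝ i ch.V q) :=
      Λ.iteratedFDeriv_comp_left (ch.smoothV.contDiffAt) (by exact_mod_cast le_top)
    rw [h2]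
    refine (ContinuousLinearMap.norm_compContinuousMultilinearMap_le _ _).trans ?_
    have h3 : |Mv i| ≤ B := by
      rw [hB]
      have : |Mv i| ≤ ∑ i ∈ Finset.range (j + 1), |Mv i| :=
        Finset.single_le_sum (f := fun i => |Mv i|) (fun i _ => abs_nonneg _)
          (Finset.mem_range.2 (by omega))
      linarith
    calc ‖Λ‖ * ‖iteratedFDeriv ℝ i ch.V q‖ ≤ 1 / th * B := by
          refine mul_le_mul (lin_norm ch n hth hlam hn) ?_ (norm_nonneg _) (by positivity)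
          exact (hMv i q).trans ((le_abs_self _).trans h3)
      _ ≤ 4 * (1 / th) * B := by
          have : 0 ≤ 1 / th * B := by positivity
          linarith
      _ = (4 * (1 / th) * B) ^ 1 := (pow_one _).symm
      _ ≤ (4 * (1 / th) * B) ^ i := pow_le_pow_right₀ hD1 hi1
  · dsimp only
    rw [← hB]
    refine le_of_eq ?_
    have : (4 * (1 / th) * B) ^ j = (4 * B) ^ j * (1 / th) ^ j := by
      rw [← mul_pow]
      congr 1
      ring
    rw [this]
    ring

/-- the derivative bounds of the products -/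
theorem prod_bound {k : ℕ} (ch : Chart k) {chi : EE k → ℝ} {f g : ℝ → ℝ}
    (hchi : ContDiff ℝ ∞ chi) (hcs : HasCompactSupport chi) (hf : BD f) (hg : BD g) :
    ∃ A : ℕ → ℝ, ∀ (n n' : EE (k + 1)) (th lam : ℝ), 0 < th → th ≤ 4 → 0 < lam → ‖n‖ ≤ lam →
      ‖n'‖ ≤ lam →
    ContDiff ℝ ∞ (fun q => chi q * (f (sn ch n q / (th * lam)) * g (sn ch n' q / (th * lam)))) ∧
    ∀ (j : ℕ) (q : EE k), ‖iteratedFDeriv ℝ j
      (fun q => chi q * (f (sn ch n q / (th * lam)) * g (sn ch n' q / (th * lam)))) q‖ ≤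
      A j * (1 / th) ^ j := by
  obtain ⟨Mf, hMf⟩ := comp_sn ch hf
  obtain ⟨Mg, hMg⟩ := comp_sn ch hg
  have hchi' : ∀ j : ℕ, ∃ C : ℝ, ∀ q, ‖iteratedFDeriv ℝ j chi q‖ ≤ C := fun j =>
    (hcs.iteratedFDeriv j).exists_bound_of_continuous
      (hchi.continuous_iteratedFDeriv (by exact_mod_cast le_top))
  choose Mc hMc using hchi'
  have hMc0 : ∀ j, 0 ≤ Mc j := fun j => (norm_nonneg _).trans (hMc j 0)
  set N : ℕ → ℝ := fun j => ∑ i ∈ Finset.range (j + 1), (j.choose i : ℝ) * |Mf i| * Mg (j - i)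
    with hN
  refine ⟨fun j => ∑ i ∈ Finset.range (j + 1), (j.choose i : ℝ) * (Mc i * 4 ^ i) * N (j - i), ?_⟩
  intro n n' th lam hth hth4 hlam hn hn'
  have hF := smooth_sn ch hf n (th * lam)
  have hG := smooth_sn ch hg n' (th * lam)
  refine ⟨hchi.mul (hF.mul hG), fun j q => ?_⟩
  have ht : (0 : ℝ) ≤ 1 / th := by positivity
  have h4 : (1 : ℝ) ≤ 4 * (1 / th) := by
    rw [mul_one_div, le_div_iff₀ hth]
    linarith
  refine mul_bound hchi (hF.mul hG) (M := fun j => Mc j * 4 ^ j) (N := N) ht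
    (fun j => mul_nonneg (hMc0 j) (by positivity)) (fun i q => ?_) (fun i q => ?_) j q
  · calc ‖iteratedFDeriv ℝ i chi q‖ ≤ Mc i * 1 := by
          rw [mul_one]
          exact hMc i q
      _ ≤ Mc i * (4 * (1 / th)) ^ i := mul_le_mul_of_nonneg_left (one_le_pow₀ h4) (hMc0 i)
      _ = Mc i * 4 ^ i * (1 / th) ^ i := by
          rw [mul_pow]
          ring
  · refine mul_bound hF hG ht (fun j => abs_nonneg _) (fun j q => ?_)
      (hMg n' th lam hth hth4 hlam hn') i q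
    refine (hMf n th lam hth hth4 hlam hn j q).trans ?_
    exact mul_le_mul_of_nonneg_right (le_abs_self _) (by positivity)

theorem specCT : SpecCT := by
  obtain ⟨h1, h2, h3, h4, h5, h6, h7, h8, h9, h10, h11, -⟩ := CV.CTM.specCT
  exact ⟨h1, h2, h3, h4, h5, h6, h7, h8, h9, h10, h11,
    fun k ch chi f g hchi hcs hf hg => prod_bound ch hchi hcs hf hg⟩

end Pool.Agent.Lib.MP_a8dae7_an.CG.CTM
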