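import Pool.Agent.Lib.MP_a8dae7_an.CG.Spec
import Pool.Agent.Lib.MP_a8dae7_an.CV.SC
import Pool.Agent.Lib.MP_a8dae7_an.CV.DU

/-!
# MP_a8dae7_an, CG: Cauchy-Schwarz for the kernel without translation (SpecCW)
-/

set_option autoImplicit false

open MeasureTheory
open scoped ContDiff ComplexConjugate

namespace Pool.Agent.Lib.MP_a8dae7_an.CG.CWM

open Pool.Agent.Lib.MP_a8dae7_an.CV
open CV.SCM (opt)
open CV.DUM (ex_sub norm_ex)

theorem continuous_ex2 {d : ℕ} : Continuous (fun p : EE d × EE d => ex p.1 p.2) := by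
  unfold ex
  exact Complex.continuous_exp.comp (continuous_const.mul (Complex.continuous_ofReal.comp
    (continuous_fst.inner continuous_snd)))

/-- `∫ f(b) e^{i xi X(b)} db` -/
noncomputable def TF {m d : ℕ} (X : EE m → EE d) (f : EE m → ℂ) (xi : EE d) : ℂ :=
  ∫ b, f b * ex xi (X b)

/-- `∫ g(b) e^{-i xi Y(b)} db` -/
noncomputable def TG {m d : ℕ} (Y : EE m → EE d) (g : EE m → ℂ) (xi : EE d) : ℂ :=
  ∫ b, g b * conj (ex xi (Y b))

theorem TG_conj {m d : ℕ} (X : EE m → EE d) (f : EE m → ℂ) (xi : EE d) :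
    TG X (fun b => conj (f b)) xi = conj (TF X f xi) := by
  unfold TG TF
  rw [← integral_conj]
  refine integral_congr_ae (Filter.Eventually.of_forall fun b => ?_)
  simp only [map_mul]

theorem TF_conj {m d : ℕ} (Y : EE m → EE d) (g : EE m → ℂ) (xi : EE d) :
    TF Y (fun b => conj (g b)) xi = conj (TG Y g xi) := by
  unfold TG TF
  rw [← integral_conj]
  refine integral_congr_ae (Filter.Eventually.of_forall fun b => ?_)
  simp only [map_mul, Complex.conj_conj]

theorem meas_ex {m d : ℕ} {X : EE m → EE d} (hX : Continuous X) :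
    Measurable (fun q : EE d × EE m => ex q.1 (X q.2)) :=
  (continuous_ex2.comp (continuous_fst.prodMk (hX.comp continuous_snd))).measurable

theorem TF_meas {m d : ℕ} {X : EE m → EE d} (hX : Continuous X) {f : EE m → ℂ} (hf : Measurable f) :
    StronglyMeasurable (TF X f) := by
  have : StronglyMeasurable (fun q : EE d × EE m => f q.2 * ex q.1 (X q.2)) :=
    ((hf.comp measurable_snd).mul (meas_ex hX)).stronglyMeasurable
  exact this.integral_prod_right' (ν := volume)

theorem TG_meas {m d : ℕ} {X : EE m → EE d} (hX : Continuous X) {f : EE m → ℂ} (hf : Measurable f) :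
    StronglyMeasurable (TG X f) := by
  have : StronglyMeasurable (fun q : EE d × EE m => f q.2 * conj (ex q.1 (X q.2))) :=
    ((hf.comp measurable_snd).mul
      (Complex.continuous_conj.measurable.comp (meas_ex hX))).stronglyMeasurable
  exact this.integral_prod_right' (ν := volume)

theorem TF_le {m d : ℕ} (X : EE m → EE d) (f : EE m → ℂ) (xi : EE d) :
    ‖TF X f xi‖ ≤ ∫ b, ‖f b‖ := by
  refine (norm_integral_le_integral_norm _).trans (le_of_eq ?_)
  simp only [norm_mul, norm_ex, mul_one]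

theorem TG_le {m d : ℕ} (X : EE m → EE d) (f : EE m → ℂ) (xi : EE d) :
    ‖TG X f xi‖ ≤ ∫ b, ‖f b‖ := by
  refine (norm_integral_le_integral_norm _).trans (le_of_eq ?_)
  simp only [norm_mul, RCLike.norm_conj, norm_ex, mul_one]

/-- the kernel as a superposition -/
theorem dual {m d : ℕ} {W : EE d → ℝ} (hW : Integrable W) {X Y : EE m → EE d} (hX : Continuous X)
    (hY : Continuous Y) {f g : EE m → ℂ} (hf : Integrable f) (hg : Integrable g) :
    ∫ b, ∫ b', (∫ xi, ((W xi : ℝ) : ℂ) * ex xi (X b - Y b')) * (f b * g b') =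
      ∫ xi, ((W xi : ℝ) : ℂ) * (TF X f xi * TG Y g xi) := by
  set H : EE d → EE m × EE m → ℂ := fun xi p => ((W xi : ℝ) : ℂ) *
    ((f p.1 * ex xi (X p.1)) * (g p.2 * conj (ex xi (Y p.2)))) with hH
  have hWc : AEStronglyMeasurable (fun xi : EE d => ((W xi : ℝ) : ℂ)) volume :=
    Complex.continuous_ofReal.comp_aestronglyMeasurable hW.aestronglyMeasurable
  have hHi : Integrable (Function.uncurry H) (volume.prod (volume.prod volume)) := by
    have h1 : Integrable (fun q : EE d × (EE m × EE m) => ‖W q.1‖ * (‖f q.2.1‖ * ‖g q.2.2‖))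
        (volume.prod (volume.prod volume)) := hW.norm.mul_prod (hf.norm.mul_prod hg.norm)
    refine h1.mono' ?_ (Filter.Eventually.of_forall fun q => ?_)
    · have e1 : AEStronglyMeasurable (fun q : EE d × (EE m × EE m) => ((W q.1 : ℝ) : ℂ))
          (volume.prod (volume.prod volume)) := hWc.comp_fst
      have e2 : AEStronglyMeasurable (fun q : EE d × (EE m × EE m) => f q.2.1)
          (volume.prod (volume.prod volume)) := (hf.aestronglyMeasurable.comp_fst).comp_snd
      have e3 : AEStronglyMeasurable (fun q : EE d × (EE m × EE m) => g q.2.2)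
          (volume.prod (volume.prod volume)) := (hg.aestronglyMeasurable.comp_snd).comp_snd
      have e4 : AEStronglyMeasurable (fun q : EE d × (EE m × EE m) => ex q.1 (X q.2.1))
          (volume.prod (volume.prod volume)) :=
        (continuous_ex2.comp (continuous_fst.prodMk
          (hX.comp (continuous_fst.comp continuous_snd)))).aestronglyMeasurable
      have e5 : AEStronglyMeasurable (fun q : EE d × (EE m × EE m) => conj (ex q.1 (Y q.2.2)))
          (volume.prod (volume.prod volume)) :=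
        (Complex.continuous_conj.comp (continuous_ex2.comp (continuous_fst.prodMk
          (hY.comp (continuous_snd.comp continuous_snd))))).aestronglyMeasurable
      exact e1.mul ((e2.mul e4).mul (e3.mul e5))
    · refine le_of_eq ?_
      simp only [Function.uncurry, hH, norm_mul, RCLike.norm_conj, norm_ex, mul_one,
        Complex.norm_real]
  have hR : ∀ xi, ∫ p, H xi p ∂(volume.prod volume) = ((W xi : ℝ) : ℂ) * (TF X f xi * TG Y g xi) := by
    intro xi
    have e1 : ∫ p, H xi p ∂(volume.prod volume) = ((W xi : ℝ) : ℂ) *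
        ∫ p : EE m × EE m, (f p.1 * ex xi (X p.1)) * (g p.2 * conj (ex xi (Y p.2)))
          ∂(volume.prod volume) := by
      rw [← integral_const_mul]
    rw [e1, integral_prod_mul (fun b => f b * ex xi (X b)) (fun b => g b * conj (ex xi (Y b)))]
    rfl
  have hL : ∀ p : EE m × EE m, ∫ xi, H xi p =
      (∫ xi, ((W xi : ℝ) : ℂ) * ex xi (X p.1 - Y p.2)) * (f p.1 * g p.2) := by
    intro p
    rw [← integral_mul_const]
    refine integral_congr_ae (Filter.Eventually.of_forall fun xi => ?_)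
    simp only [hH, ex_sub]
    ring
  have hI : Integrable (fun p : EE m × EE m =>
      (∫ xi, ((W xi : ℝ) : ℂ) * ex xi (X p.1 - Y p.2)) * (f p.1 * g p.2)) (volume.prod volume) :=
    hHi.integral_prod_right.congr (Filter.Eventually.of_forall fun p => hL p)
  have h1 := integral_prod _ hI
  rw [← h1]
  simp only [← hR, ← hL]
  exact (integral_integral_swap hHi).symm

/-- the integrable majorants -/
theorem int_sq {d : ℕ} {W : EE d → ℝ} (hW : Integrable W) {F : EE d → ℂ}
    (hF : StronglyMeasurable F) {M : ℝ} (hM : ∀ xi, ‖F xi‖ ≤ M) :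
    Integrable (fun xi => W xi * ‖F xi‖ ^ 2) := by
  have h1 : AEStronglyMeasurable (fun xi => ‖F xi‖ ^ 2) volume :=
    (hF.norm.pow 2).aestronglyMeasurable
  refine (hW.norm.mul_const (M ^ 2)).mono' (hW.aestronglyMeasurable.mul h1)
    (Filter.Eventually.of_forall fun xi => ?_)
  rw [norm_mul]
  refine mul_le_mul_of_nonneg_left ?_ (norm_nonneg _)
  rw [Real.norm_of_nonneg (by positivity)]
  exact pow_le_pow_left₀ (norm_nonneg _) (hM xi) 2

/-- Cauchy-Schwarz for a positive kernel -/
theorem cw {m d : ℕ} {W : EE d → ℝ} (hW : Integrable W) (hW0 : ∀ xi, 0 ≤ W xi) {X Y : EE m → EE d}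
    (hX : Continuous X) (hY : Continuous Y) {R B : ℝ} (hB : 0 ≤ B)
    (h1 : OB m R (fun b b' => ∫ xi, ((W xi : ℝ) : ℂ) * ex xi (X b - X b')) B)
    (h2 : OB m R (fun b b' => ∫ xi, ((W xi : ℝ) : ℂ) * ex xi (Y b - Y b')) B) :
    OB m R (fun b b' => ∫ xi, ((W xi : ℝ) : ℂ) * ex xi (X b - Y b')) B := by
  intro f g hf hg ⟨Mf, hMf⟩ ⟨Mg, hMg⟩ hf0 hg0
  have hi : ∀ {f : EE m → ℂ} {M : ℝ}, Measurable f → (∀ b, ‖f b‖ ≤ M) → (∀ b, R < ‖b‖ → f b = 0) →
      Integrable f := by
    intro f M hf hM h0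
    have hfin : volume (Metric.closedBall (0 : EE m) R) < ⊤ := measure_closedBall_lt_top
    have h3 : IntegrableOn f (Metric.closedBall (0 : EE m) R) :=
      Measure.integrableOn_of_bounded hfin.ne hf.aestronglyMeasurable
        (Filter.Eventually.of_forall fun b => hM b)
    refine (integrableOn_iff_integrable_of_support_subset ?_).1 h3
    intro b hb
    by_contra hcon
    refine hb (h0 b ?_)
    simpa [Metric.mem_closedBall, dist_zero_right] using hcon
  have hfi := hi hf hMf hf0
  have hgi := hi hg hMg hg0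
  have hcm : Measurable (fun z : ℂ => conj z) := Complex.continuous_conj.measurable
  have hcf : Measurable (fun b => conj (f b)) := hcm.comp hf
  have hcg : Measurable (fun b => conj (g b)) := hcm.comp hg
  have hcfb : ∀ b, ‖conj (f b)‖ ≤ Mf := fun b => by rw [RCLike.norm_conj]; exact hMf b
  have hcgb : ∀ b, ‖conj (g b)‖ ≤ Mg := fun b => by rw [RCLike.norm_conj]; exact hMg b
  have hcf0 : ∀ b, R < ‖b‖ → conj (f b) = 0 := fun b hb => by rw [hf0 b hb, map_zero]
  have hcg0 : ∀ b, R < ‖b‖ → conj (g b) = 0 := fun b hb => by rw [hg0 b hb, map_zero]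
  have hA := h1 f (fun b => conj (f b)) hf hcf ⟨Mf, hMf⟩ ⟨Mf, hcfb⟩ hf0 hcf0
  have hD := h2 (fun b => conj (g b)) g hcg hg ⟨Mg, hcgb⟩ ⟨Mg, hMg⟩ hcg0 hg0
  rw [dual hW hX hX hfi (hi hcf hcfb hcf0)] at hA
  rw [dual hW hY hY (hi hcg hcgb hcg0) hgi] at hD
  rw [dual hW hX hY hfi hgi]
  simp only [RCLike.norm_conj] at hA hD
  rw [Real.mul_self_sqrt (integral_nonneg fun b => by positivity)] at hA hD
  have iF := int_sq hW (TF_meas hX hf) (TF_le X f)
  have iG := int_sq hW (TG_meas hY hg) (TG_le Y g)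
  have eA : ∫ xi, ((W xi : ℝ) : ℂ) * (TF X f xi * TG X (fun b => conj (f b)) xi) =
      ((∫ xi, W xi * ‖TF X f xi‖ ^ 2 : ℝ) : ℂ) := by
    rw [← integral_complex_ofReal]
    refine integral_congr_ae (Filter.Eventually.of_forall fun xi => ?_)
    simp only [TG_conj, Complex.mul_conj']
    push_cast
    ring
  have eD : ∫ xi, ((W xi : ℝ) : ℂ) * (TF Y (fun b => conj (g b)) xi * TG Y g xi) =
      ((∫ xi, W xi * ‖TG Y g xi‖ ^ 2 : ℝ) : ℂ) := by
    rw [← integral_complex_ofReal]
    refine integral_congr_ae (Filter.Eventually.of_forall fun xi => ?_)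
    simp only [TF_conj, Complex.conj_mul']
    push_cast
    ring
  rw [eA, Complex.norm_real, Real.norm_of_nonneg
    (integral_nonneg fun xi => mul_nonneg (hW0 xi) (by positivity))] at hA
  rw [eD, Complex.norm_real, Real.norm_of_nonneg
    (integral_nonneg fun xi => mul_nonneg (hW0 xi) (by positivity))] at hD
  refine opt hB (integral_nonneg fun a => by positivity) (integral_nonneg fun a => by positivity) ?_
  intro s hs
  have hmaj := (iF.const_mul (s / 2)).add (iG.const_mul ((2 * s)⁻¹))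
  calc ‖∫ xi, ((W xi : ℝ) : ℂ) * (TF X f xi * TG Y g xi)‖
      ≤ ∫ xi, (s / 2 * (W xi * ‖TF X f xi‖ ^ 2) + (2 * s)⁻¹ * (W xi * ‖TG Y g xi‖ ^ 2)) := by
        refine norm_integral_le_of_norm_le hmaj (Filter.Eventually.of_forall fun xi => ?_)
        rw [norm_mul, norm_mul, Complex.norm_real, Real.norm_of_nonneg (hW0 xi)]
        have e2 : s / 2 * (W xi * ‖TF X f xi‖ ^ 2) + (2 * s)⁻¹ * (W xi * ‖TG Y g xi‖ ^ 2) -
            W xi * (‖TF X f xi‖ * ‖TG Y g xi‖) =
            W xi * ((2 * s)⁻¹ * (s * ‖TF X f xi‖ - ‖TG Y g xi‖) ^ 2) := by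
          field_simp
          ring
        have e3 : 0 ≤ W xi * ((2 * s)⁻¹ * (s * ‖TF X f xi‖ - ‖TG Y g xi‖) ^ 2) :=
          mul_nonneg (hW0 xi) (by positivity)
        linarith
    _ = s / 2 * (∫ xi, W xi * ‖TF X f xi‖ ^ 2) + (2 * s)⁻¹ * ∫ xi, W xi * ‖TG Y g xi‖ ^ 2 := by
        rw [integral_add (iF.const_mul _) (iG.const_mul _), integral_const_mul, integral_const_mul]
    _ ≤ s / 2 * (B * ∫ b, ‖f b‖ ^ 2) + (2 * s)⁻¹ * (B * ∫ b, ‖g b‖ ^ 2) :=
        add_le_add (mul_le_mul_of_nonneg_left hA (by positivity))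
          (mul_le_mul_of_nonneg_left hD (by positivity))
    _ = B * (s / 2 * (∫ b, ‖f b‖ ^ 2) + (2 * s)⁻¹ * ∫ b, ‖g b‖ ^ 2) := by ring

/-- **CW** -/
theorem specCW (hFT : SpecFT) : SpecCW := by
  intro m ch om e L lam r R sg sg' B hom hlam hr hB h1 h2
  obtain ⟨hWi, hK⟩ := hFT (m + 1) om lam r hom hlam hr
  have hc : ∀ sg : ℝ, Continuous (fun b : EE m => ch.X (sl e L sg b)) := by
    intro sg
    unfold sl
    exact ch.smooth.continuous.comp (continuous_const.add L.continuous)
  have hk : ∀ sg sg' : ℝ, ks ch om lam r e L 0 sg sg' = fun b b' =>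
      ∫ xi, ((WW om lam r xi : ℝ) : ℂ) * ex xi (ch.X (sl e L sg b) - ch.X (sl e L sg' b')) := by
    intro sg sg'
    funext b b'
    unfold ks xd
    rw [add_zero, hK]
  rw [hk] at h1 h2 ⊢
  exact cw hWi (fun xi => (Real.exp_pos _).le) (hc sg) (hc sg') hB h1 h2

end Pool.Agent.Lib.MP_a8dae7_an.CG.CWM
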