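import Pool.Agent.Lib.MP_a8dae7_an.CG.Spec

/-!
# MP_a8dae7_an, CG (copy of CV for graph charts), module DB: derivative bounds of the phase (`theorem specDB : SpecDB`)

Reusable: `Bd`, `Be` (bounds of all derivatives up to order `N` at a point), closed under sums, products, composition;
`gg z t = (t+z)⁻¹`; `ll = log A(t)`; `Fc k lam r t s` = the phase as a function of `t` and `s = |y|²`
(`FF om lam r x = Fc k lam r ⟨om,x⟩ (pq om x)` by `rfl`), `Fc_re`, `quot_eq`; `exD`, `sl_norm`, `Bd_Xs`, `PP om` (the projection),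
`norm_PP_sq`, `pq_add`, `block`, `diff`.
-/

set_option autoImplicit false

open MeasureTheory
open scoped ContDiff

namespace Pool.Agent.Lib.MP_a8dae7_an.CG.DBM

open Pool.Agent.Lib.MP_a8dae7_an.CV

section gen
variable {E F G : Type*} [NormedAddCommGroup E] [NormedSpace ℝ E] [NormedAddCommGroup F] [NormedSpace ℝ F]
  [NormedAddCommGroup G] [NormedSpace ℝ G]

/-- all derivatives of order `1..N` at `x` are bounded by `B` -/
def Be (N : ℕ) (f : E → F) (x : E) (B : ℝ) : Prop :=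
  ∀ j : ℕ, 1 ≤ j → j ≤ N → ‖iteratedFDeriv ℝ j f x‖ ≤ B

/-- all derivatives of order `≤ N` at `x` are bounded by `B` -/
def Bd (N : ℕ) (f : E → F) (x : E) (B : ℝ) : Prop :=
  ∀ j : ℕ, j ≤ N → ‖iteratedFDeriv ℝ j f x‖ ≤ B

lemma le_inf (n : ℕ) : (n : WithTop ℕ∞) ≤ ∞ := by exact_mod_cast le_top

lemma Bd.be {N : ℕ} {f : E → F} {x : E} {B : ℝ} (h : Bd N f x B) : Be N f x B := fun j _ hj => h j hj

lemma Bd.zero {N : ℕ} {f : E → F} {x : E} {B : ℝ} (h : Bd N f x B) : ‖f x‖ ≤ B := by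
  simpa using h 0 (Nat.zero_le _)

lemma Bd.nonneg {N : ℕ} {f : E → F} {x : E} {B : ℝ} (h : Bd N f x B) : 0 ≤ B :=
  (norm_nonneg _).trans (h 0 (Nat.zero_le _))

lemma Bd.mk {N : ℕ} {f : E → F} {x : E} {B : ℝ} (h0 : ‖f x‖ ≤ B) (h : Be N f x B) : Bd N f x B := by
  intro j hj
  rcases Nat.eq_zero_or_pos j with rfl | hp
  · simpa using h0
  · exact h j hp hj

lemma Bd.mono {N : ℕ} {f : E → F} {x : E} {B B' : ℝ} (h : Bd N f x B) (hB : B ≤ B') : Bd N f x B' :=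
  fun j hj => (h j hj).trans hB

lemma Be.mono {N : ℕ} {f : E → F} {x : E} {B B' : ℝ} (h : Be N f x B) (hB : B ≤ B') : Be N f x B' :=
  fun j h1 hj => (h j h1 hj).trans hB

lemma fderiv_add_const' (f : E → F) (c : F) : (fderiv ℝ fun y => f y + c) = fderiv ℝ f := by
  funext y
  exact fderiv_add_const c

/-- adding a constant -/
lemma Be.add_const {N : ℕ} {f : E → F} {x : E} {B : ℝ} (h : Be N f x B) (c : F) :
    Be N (fun y => f y + c) x B := by
  intro j h1 hj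
  obtain ⟨i, rfl⟩ : ∃ i, j = i + 1 := ⟨j - 1, by omega⟩
  rw [← norm_iteratedFDeriv_fderiv, fderiv_add_const' f c, norm_iteratedFDeriv_fderiv]
  exact h _ h1 hj

lemma Be.add {N : ℕ} {f g : E → F} {x : E} {B C : ℝ} (hf : ContDiff ℝ ∞ f) (hg : ContDiff ℝ ∞ g)
    (h : Be N f x B) (h' : Be N g x C) : Be N (fun y => f y + g y) x (B + C) := by
  intro j h1 hj
  have := iteratedFDeriv_add_apply (𝕜 := ℝ) (x := x) (i := j) (f := f) (g := g)
    (hf.contDiffAt.of_le (le_inf j)) (hg.contDiffAt.of_le (le_inf j))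
  have e : (fun y => f y + g y) = f + g := rfl
  rw [e, this]
  exact (norm_add_le _ _).trans (add_le_add (h j h1 hj) (h' j h1 hj))

/-- composition with a continuous linear map -/
lemma Be.clm {N : ℕ} {f : E → F} {x : E} {B : ℝ} (hf : ContDiff ℝ ∞ f) (h : Be N f x B)
    (L : F →L[ℝ] G) {c : ℝ} (hL : ‖L‖ ≤ c) : Be N (fun y => L (f y)) x (c * B) := by
  intro j h1 hj
  have := L.norm_iteratedFDeriv_comp_left (x := x) (n := j) (f := f) (N := ∞) hf.contDiffAt (le_inf j)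
  have e : (fun y => L (f y)) = L ∘ f := rfl
  rw [e]
  refine this.trans ?_
  have hb := h j h1 hj
  exact mul_le_mul hL hb (norm_nonneg _) ((norm_nonneg _).trans hL)

/-- real part, imaginary part -/
lemma Be.im {N : ℕ} {f : E → ℂ} {x : E} {B : ℝ} (hf : ContDiff ℝ ∞ f) (h : Be N f x B) :
    Be N (fun y => (f y).im) x B := by
  have := Be.clm hf h Complex.imCLM (c := 1) (by simp)
  simpa using this

lemma Be.re {N : ℕ} {f : E → ℂ} {x : E} {B : ℝ} (hf : ContDiff ℝ ∞ f) (h : Be N f x B) :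
    Be N (fun y => (f y).re) x B := by
  have := Be.clm hf h Complex.reCLM (c := 1) (by simp)
  simpa using this

/-- multiplication by a complex constant -/
lemma Be.cmul {N : ℕ} {f : E → ℂ} {x : E} {B : ℝ} (hf : ContDiff ℝ ∞ f) (h : Be N f x B) (c : ℂ) :
    Be N (fun y => c * f y) x (‖c‖ * B) := by
  have := Be.clm hf h (ContinuousLinearMap.mul ℝ ℂ c) (c := ‖c‖)
    (ContinuousLinearMap.opNorm_mul_apply_le ℝ ℂ c)
  simpa using this

lemma sum_bd {j N : ℕ} (hj : j ≤ N) {A B : ℝ} (hA : 0 ≤ A) (hB : 0 ≤ B) (u v : ℕ → ℝ)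
    (hu : ∀ i ≤ N, u i ≤ A) (hv : ∀ i ≤ N, v i ≤ B) (_hu0 : ∀ i, 0 ≤ u i) (hv0 : ∀ i, 0 ≤ v i) :
    ∑ i ∈ Finset.range (j + 1), (j.choose i : ℝ) * u i * v (j - i) ≤ 2 ^ N * A * B := by
  calc ∑ i ∈ Finset.range (j + 1), (j.choose i : ℝ) * u i * v (j - i)
      ≤ ∑ i ∈ Finset.range (j + 1), (j.choose i : ℝ) * (A * B) := by
        refine Finset.sum_le_sum fun i hi => ?_
        rw [mul_assoc]
        refine mul_le_mul_of_nonneg_left ?_ (Nat.cast_nonneg _)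
        exact mul_le_mul (hu i (by have := Finset.mem_range.1 hi; omega)) (hv _ (by omega)) (hv0 _) hA
    _ = 2 ^ j * (A * B) := by
        rw [← Finset.sum_mul]
        congr 1
        have := Nat.sum_range_choose j
        exact_mod_cast this
    _ ≤ 2 ^ N * (A * B) := by
        refine mul_le_mul_of_nonneg_right ?_ (mul_nonneg hA hB)
        exact pow_le_pow_right₀ (by norm_num) hj
    _ = _ := by ring

/-- product of complex functions -/
lemma Bd.mul {N : ℕ} {f g : E → ℂ} {x : E} {A B : ℝ} (hf : ContDiff ℝ ∞ f) (hg : ContDiff ℝ ∞ g)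
    (h : Bd N f x A) (h' : Bd N g x B) : Bd N (fun y => f y * g y) x (2 ^ N * A * B) := by
  intro j hj
  refine (norm_iteratedFDeriv_mul_le hf hg x (le_inf j)).trans ?_
  exact sum_bd hj h.nonneg h'.nonneg _ _ h h' (fun _ => norm_nonneg _) (fun _ => norm_nonneg _)

/-- product of a real and a complex function -/
lemma Bd.smul {N : ℕ} {f : E → ℝ} {g : E → ℂ} {x : E} {A B : ℝ} (hf : ContDiff ℝ ∞ f)
    (hg : ContDiff ℝ ∞ g) (h : Bd N f x A) (h' : Bd N g x B) :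
    Bd N (fun y => f y • g y) x (2 ^ N * A * B) := by
  intro j hj
  refine (norm_iteratedFDeriv_smul_le hf hg x (le_inf j)).trans ?_
  exact sum_bd hj h.nonneg h'.nonneg _ _ h h' (fun _ => norm_nonneg _) (fun _ => norm_nonneg _)

/-- bilinear -/
lemma Bd.bil {N : ℕ} {H : Type*} [NormedAddCommGroup H] [NormedSpace ℝ H] {f : E → F} {g : E → G} {x : E}
    {A B : ℝ} (hf : ContDiff ℝ ∞ f) (hg : ContDiff ℝ ∞ g) (L : F →L[ℝ] G →L[ℝ] H) (hL : ‖L‖ ≤ 1)
    (h : Bd N f x A) (h' : Bd N g x B) : Bd N (fun y => L (f y) (g y)) x (2 ^ N * A * B) := by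
  intro j hj
  refine (L.norm_iteratedFDeriv_le_of_bilinear_of_le_one hf hg x (le_inf j) hL).trans ?_
  exact sum_bd hj h.nonneg h'.nonneg _ _ h h' (fun _ => norm_nonneg _) (fun _ => norm_nonneg _)

/-- composition -/
lemma Bd.comp {N : ℕ} {g : ℝ → ℂ} {t : E → ℝ} {x : E} {B D : ℝ} (hg : ContDiff ℝ ∞ g)
    (ht : ContDiff ℝ ∞ t) (hD : 1 ≤ D) (h : Bd N g (t x) B) (h' : Be N t x D) :
    Bd N (fun y => g (t y)) x (N.factorial * B * D ^ N) := by
  intro j hj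
  have := norm_iteratedFDeriv_comp_le (n := j) hg ht (le_inf j) x (C := B) (D := D)
    (fun i hi => h i (hi.trans hj)) (fun i h1 hi => (h' i h1 (hi.trans hj)).trans
      (le_self_pow₀ hD (by omega)))
  refine this.trans ?_
  have h1 : (j.factorial : ℝ) ≤ N.factorial := by exact_mod_cast Nat.factorial_le hj
  have h2 : D ^ j ≤ D ^ N := pow_le_pow_right₀ hD hj
  have hB := h.nonneg
  exact mul_le_mul (mul_le_mul_of_nonneg_right h1 hB) h2 (by positivity) (by positivity)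

end gen

/-! ## The function `1/(t + z)` -/

/-- `(t + z)⁻¹` -/
noncomputable def gg (z : ℂ) (t : ℝ) : ℂ := ((t : ℂ) + z)⁻¹

lemma ne_of_im {z : ℂ} (hz : z.im ≠ 0) (t : ℝ) : (t : ℂ) + z ≠ 0 := by
  intro h
  have := congrArg Complex.im h
  simp at this
  exact hz this

lemma hasDerivAt_gg {z : ℂ} (hz : z.im ≠ 0) (t : ℝ) : HasDerivAt (gg z) (-(gg z t) ^ 2) t := by
  have h0 := ne_of_im hz t
  have h1 : HasDerivAt (fun s : ℝ => (s : ℂ) + z) 1 t := by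
    simpa using (Complex.ofRealCLM.hasDerivAt (x := t)).add_const z
  have h2 := h1.inv h0
  have e : -(gg z t) ^ 2 = -1 / ((t : ℂ) + z) ^ 2 := by
    unfold gg
    field_simp
  rw [e]
  exact h2

lemma contDiff_gg {z : ℂ} (hz : z.im ≠ 0) : ContDiff ℝ ∞ (gg z) := by
  have h1 : ContDiff ℝ ∞ (fun s : ℝ => (s : ℂ) + z) :=
    (Complex.ofRealCLM.contDiff).add contDiff_const
  exact h1.inv (ne_of_im hz)

lemma iter_gg {z : ℂ} (hz : z.im ≠ 0) (i : ℕ) :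
    iteratedDeriv i (gg z) = fun t => (-1) ^ i * (i.factorial : ℂ) * (gg z t) ^ (i + 1) := by
  induction i with
  | zero => simp
  | succ i ih =>
    rw [iteratedDeriv_succ, ih]
    funext t
    have h := ((hasDerivAt_gg hz t).pow (i + 1)).const_mul ((-1) ^ i * (i.factorial : ℂ))
    have h' := h.deriv
    simp only [Pi.pow_apply] at h'
    rw [h', Nat.factorial_succ]
    push_cast
    ring

/-- the bound of `gg`: `K = N! (4/3)^N` -/
noncomputable def KK (N : ℕ) : ℝ := N.factorial * (4 / 3) ^ N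

lemma KK_pos (N : ℕ) : 0 < KK N := by unfold KK; positivity

lemma Bd_gg {z : ℂ} (hz : z.im ≠ 0) (N : ℕ) {t M : ℝ} (hM : ‖gg z t‖ ≤ M) (hM1 : M ≤ 4 / 3) :
    Bd N (gg z) t (KK N * M) := by
  intro j hj
  rw [norm_iteratedFDeriv_eq_norm_iteratedDeriv, iter_gg hz]
  have h0 : 0 ≤ M := (norm_nonneg _).trans hM
  simp only [norm_mul, norm_pow, norm_neg, norm_one, one_pow, one_mul, RCLike.norm_natCast]
  have h1 : (j.factorial : ℝ) ≤ N.factorial := by exact_mod_cast Nat.factorial_le hj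
  have h2 : ‖gg z t‖ ^ (j + 1) ≤ (4 / 3) ^ N * M := by
    calc ‖gg z t‖ ^ (j + 1) ≤ M ^ (j + 1) := pow_le_pow_left₀ (norm_nonneg _) hM _
      _ = M ^ j * M := pow_succ _ _
      _ ≤ (4 / 3) ^ j * M := mul_le_mul_of_nonneg_right (pow_le_pow_left₀ h0 hM1 _) h0
      _ ≤ (4 / 3) ^ N * M := mul_le_mul_of_nonneg_right (pow_le_pow_right₀ (by norm_num) hj) h0
  calc (j.factorial : ℝ) * ‖gg z t‖ ^ (j + 1) ≤ N.factorial * ((4 / 3) ^ N * M) :=
        mul_le_mul h1 h2 (by positivity) (by positivity)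
    _ = _ := by unfold KK; ring

/-! ## The logarithm -/

/-- `t + zz = t - i k0` -/
noncomputable def zz (lam r : ℝ) : ℂ := -(Complex.I * ((2 * lam / r ^ 2 : ℝ) : ℂ))

lemma zz_im {lam r : ℝ} (hl : 0 < lam) (hr : 0 < r) : (zz lam r).im ≠ 0 := by
  have : 0 < 2 * lam / r ^ 2 := by positivity
  simp only [zz, Complex.neg_im, Complex.mul_im, Complex.I_re, Complex.ofReal_im, Complex.I_im,
    Complex.ofReal_re]
  intro h
  linarith

lemma zz_re (lam r : ℝ) : (zz lam r).re = 0 := by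
  unfold zz
  rw [Complex.neg_re, Complex.mul_re, Complex.I_re, Complex.I_im, Complex.ofReal_re, Complex.ofReal_im]
  ring

lemma AA_eq {lam r : ℝ} (hl : 0 < lam) (hr : 0 < r) (t : ℝ) :
    AA lam r t = Complex.I * ((1 / (2 * lam) : ℝ) : ℂ) * ((t : ℂ) + zz lam r) := by
  unfold AA zz
  have hl' : (lam : ℂ) ≠ 0 := by exact_mod_cast hl.ne'
  have hr' : (r : ℂ) ≠ 0 := by exact_mod_cast hr.ne'
  push_cast
  field_simp
  ring_nf
  rw [Complex.I_sq]
  ring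

lemma AA_re (lam r t : ℝ) : (AA lam r t).re = 1 / r ^ 2 := by
  unfold AA
  rw [Complex.add_re, Complex.mul_re, Complex.I_re, Complex.I_im, Complex.ofReal_re, Complex.ofReal_re,
    Complex.ofReal_im]
  ring

lemma AA_slit {lam r : ℝ} (hr : 0 < r) (t : ℝ) : AA lam r t ∈ Complex.slitPlane := by
  left
  rw [AA_re]
  positivity

lemma AA_ne {lam r : ℝ} (hr : 0 < r) (t : ℝ) : AA lam r t ≠ 0 :=
  Complex.slitPlane_ne_zero (AA_slit hr t)

lemma hasDerivAt_AA (lam r t : ℝ) :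
    HasDerivAt (AA lam r) (Complex.I * ((1 / (2 * lam) : ℝ) : ℂ)) t := by
  have h1 : HasDerivAt (fun s : ℝ => Complex.I * ((1 / (2 * lam) : ℝ) : ℂ) * (s : ℂ))
      (Complex.I * ((1 / (2 * lam) : ℝ) : ℂ)) t := by
    simpa using (Complex.ofRealCLM.hasDerivAt (x := t)).const_mul (Complex.I * ((1 / (2 * lam) : ℝ) : ℂ))
  have h2 := h1.const_add ((1 / r ^ 2 : ℝ) : ℂ)
  refine h2.congr_of_eventuallyEq (Filter.Eventually.of_forall fun s => ?_)
  simp only [AA]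
  push_cast
  ring

/-- `log A(t)` -/
noncomputable def ll (lam r t : ℝ) : ℂ := Complex.log (AA lam r t)

lemma hasDerivAt_ll {lam r : ℝ} (hl : 0 < lam) (hr : 0 < r) (t : ℝ) :
    HasDerivAt (ll lam r) (gg (zz lam r) t) t := by
  have h := (hasDerivAt_AA lam r t).clog_real (AA_slit hr t)
  have e : Complex.I * ((1 / (2 * lam) : ℝ) : ℂ) / AA lam r t = gg (zz lam r) t := by
    rw [AA_eq hl hr, gg]
    have h0 := ne_of_im (zz_im hl hr) t
    have h1 : ((1 / (2 * lam) : ℝ) : ℂ) ≠ 0 := by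
      have : (1 / (2 * lam) : ℝ) ≠ 0 := by positivity
      exact_mod_cast this
    have h2 := Complex.I_ne_zero
    field_simp
  rw [← e]
  exact h

lemma deriv_ll {lam r : ℝ} (hl : 0 < lam) (hr : 0 < r) : deriv (ll lam r) = gg (zz lam r) :=
  funext fun t => (hasDerivAt_ll hl hr t).deriv

lemma contDiff_AA (lam r : ℝ) : ContDiff ℝ ∞ (AA lam r) := by
  have h1 : ContDiff ℝ ∞ (fun s : ℝ => ((1 / r ^ 2 : ℝ) : ℂ) +
      Complex.I * ((1 / (2 * lam) : ℝ) : ℂ) * (s : ℂ)) :=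
    contDiff_const.add (contDiff_const.mul Complex.ofRealCLM.contDiff)
  have e : AA lam r = fun s : ℝ => ((1 / r ^ 2 : ℝ) : ℂ) +
      Complex.I * ((1 / (2 * lam) : ℝ) : ℂ) * (s : ℂ) := by
    funext s
    simp only [AA]
    push_cast
    ring
  rw [e]
  exact h1

lemma contDiff_ll {lam r : ℝ} (hr : 0 < r) : ContDiff ℝ ∞ (ll lam r) := by
  rw [contDiff_iff_contDiffAt]
  intro t
  have h : ContDiffAt ℝ ∞ Complex.log (AA lam r t) :=
    (Complex.contDiffAt_log (n := ∞) (AA_slit hr t)).restrict_scalars ℝ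
  exact h.comp t (contDiff_AA lam r).contDiffAt

lemma Be_ll {lam r : ℝ} (hl : 0 < lam) (hr : 0 < r) (N : ℕ) {t M : ℝ}
    (hM : ‖gg (zz lam r) t‖ ≤ M) (hM1 : M ≤ 4 / 3) : Be N (ll lam r) t (KK N * M) := by
  intro j h1 hj
  obtain ⟨i, rfl⟩ : ∃ i, j = i + 1 := ⟨j - 1, by omega⟩
  rw [norm_iteratedFDeriv_eq_norm_iteratedDeriv, iteratedDeriv_succ', deriv_ll hl hr,
    ← norm_iteratedFDeriv_eq_norm_iteratedDeriv]
  exact Bd_gg (zz_im hl hr) N hM hM1 i (by omega)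

lemma gg_shift (z : ℂ) (t c : ℝ) : gg z (t + c) = gg (z + c) t := by
  unfold gg
  congr 1
  push_cast
  ring

lemma im_shift {z : ℂ} (hz : z.im ≠ 0) (c : ℝ) : (z + (c : ℂ)).im ≠ 0 := by
  simpa using hz

lemma gg_sub {z : ℂ} (hz : z.im ≠ 0) (t c : ℝ) :
    gg z (t + c) - gg z t = -(c : ℂ) * (gg (z + c) t * gg z t) := by
  rw [gg_shift]
  have h1 := ne_of_im hz t
  have h2 := ne_of_im (im_shift hz c) t
  unfold gg
  field_simp
  ring

/-- the difference `log A(t + c) - log A(t)` -/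
noncomputable def ld (lam r c t : ℝ) : ℂ := ll lam r (t + c) - ll lam r t

lemma contDiff_ld {lam r c : ℝ} (hr : 0 < r) : ContDiff ℝ ∞ (ld lam r c) :=
  ((contDiff_ll hr).comp (contDiff_id.add contDiff_const)).sub (contDiff_ll hr)

lemma Be_ld {lam r c : ℝ} (hl : 0 < lam) (hr : 0 < r) (N : ℕ) {t M : ℝ}
    (hM : ‖gg (zz lam r) t‖ ≤ M) (hM' : ‖gg (zz lam r) (t + c)‖ ≤ M) (hM1 : M ≤ 4 / 3) :
    Be N (ld lam r c) t (|c| * (2 ^ N * (KK N * M) * (KK N * M))) := by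
  have hz := zz_im hl hr
  have hd : deriv (ld lam r c) = fun s => -(c : ℂ) * (gg (zz lam r + c) s * gg (zz lam r) s) := by
    funext s
    have h1 : HasDerivAt (fun y => ll lam r (y + c)) (gg (zz lam r) (s + c)) s :=
      (hasDerivAt_ll hl hr (s + c)).comp_add_const s c
    have h2 := h1.sub (hasDerivAt_ll hl hr s)
    rw [gg_sub hz] at h2
    exact h2.deriv
  intro j h1 hj
  obtain ⟨i, rfl⟩ : ∃ i, j = i + 1 := ⟨j - 1, by omega⟩
  rw [norm_iteratedFDeriv_eq_norm_iteratedDeriv, iteratedDeriv_succ', hd,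
    ← norm_iteratedFDeriv_eq_norm_iteratedDeriv]
  have hb1 := Bd_gg hz N hM hM1
  rw [gg_shift] at hM'
  have hb2 := Bd_gg (im_shift hz c) N hM' hM1
  have hb := Bd.mul (contDiff_gg (im_shift hz c)) (contDiff_gg hz) hb2 hb1
  have hc : ContDiff ℝ ∞ (fun s => gg (zz lam r + c) s * gg (zz lam r) s) :=
    (contDiff_gg (im_shift hz c)).mul (contDiff_gg hz)
  rcases Nat.eq_zero_or_pos i with rfl | hp
  · have := hb.zero
    simp only [norm_iteratedFDeriv_zero, norm_mul, norm_neg, Complex.norm_real, Real.norm_eq_abs]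
      at this ⊢
    exact mul_le_mul_of_nonneg_left this (abs_nonneg c)
  · have := Be.cmul hc hb.be (-(c : ℂ)) i hp (by omega)
    simpa using this

/-- composition, only derivatives of positive order -/
lemma Be.comp {E : Type*} [NormedAddCommGroup E] [NormedSpace ℝ E] {N : ℕ} {g : ℝ → ℂ} {t : E → ℝ} {x : E}
    {B D : ℝ} (hg : ContDiff ℝ ∞ g) (ht : ContDiff ℝ ∞ t) (hD : 1 ≤ D) (hB : 0 ≤ B) (h : Be N g (t x) B)
    (h' : Be N t x D) : Be N (fun y => g (t y)) x (N.factorial * B * D ^ N) := by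
  have h1 : Bd N (fun s => g s + -g (t x)) (t x) B := Bd.mk (by simpa using hB) (h.add_const _)
  have h2 := (Bd.comp (hg.add contDiff_const) ht hD h1 h').be.add_const (g (t x))
  simpa using h2

/-! ## The phase as a function of `t` and `s = |y|²` -/

/-- the phase as a function of two real variables -/
noncomputable def Fc (k : ℕ) (lam r t s : ℝ) : ℂ :=
  -((t ^ 2 * r ^ 2 / (4 * lam ^ 2) : ℝ) : ℂ) - (k : ℂ) / 2 * ll lam r t - ((s : ℝ) : ℂ) / (4 * AA lam r t)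

lemma FF_eq {k : ℕ} (om : EE (k + 1)) (lam r : ℝ) (x : EE (k + 1)) :
    FF om lam r x = Fc k lam r (inner ℝ om x) (pq om x) := rfl

lemma quot_eq {lam r : ℝ} (hl : 0 < lam) (hr : 0 < r) (t s : ℝ) :
    ((s : ℝ) : ℂ) / (4 * AA lam r t) = -(Complex.I * ((lam / 2 : ℝ) : ℂ)) * (s • gg (zz lam r) t) := by
  rw [AA_eq hl hr, gg]
  have h0 := ne_of_im (zz_im hl hr) t
  have h1 : (lam : ℂ) ≠ 0 := by exact_mod_cast hl.ne'
  have h2 := Complex.I_ne_zero
  rw [Complex.real_smul]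
  push_cast
  rw [div_eq_iff (by
    refine mul_ne_zero (by norm_num) (mul_ne_zero (mul_ne_zero h2 ?_) h0)
    exact div_ne_zero one_ne_zero (mul_ne_zero two_ne_zero h1))]
  have h3 : ((t : ℂ) + zz lam r)⁻¹ * ((t : ℂ) + zz lam r) = 1 := inv_mul_cancel₀ h0
  have h4 : (lam : ℂ) * (1 / (2 * (lam : ℂ))) = 1 / 2 := by field_simp
  have h5 : Complex.I * Complex.I = -1 := Complex.I_mul_I
  calc (s : ℂ) = -(-1) * (s : ℂ) * 1 * (2 * (1 / 2)) := by ring
    _ = -(Complex.I * Complex.I) * (s : ℂ) * (((t : ℂ) + zz lam r)⁻¹ * ((t : ℂ) + zz lam r)) *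
        (2 * ((lam : ℂ) * (1 / (2 * (lam : ℂ))))) := by rw [h3, h4, h5]
    _ = _ := by ring

lemma gg_mul_neg (lam r t : ℝ) :
    gg (zz lam r) t * gg (-zz lam r) t = (((t ^ 2 + (2 * lam / r ^ 2) ^ 2)⁻¹ : ℝ) : ℂ) := by
  unfold gg
  rw [← mul_inv, Complex.ofReal_inv]
  congr 1
  unfold zz
  push_cast
  ring_nf
  rw [Complex.I_sq]
  ring

lemma neg_zz_im {lam r : ℝ} (hl : 0 < lam) (hr : 0 < r) : (-zz lam r).im ≠ 0 := by
  rw [Complex.neg_im]
  exact neg_ne_zero.2 (zz_im hl hr)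

lemma gg_im {lam r : ℝ} (hl : 0 < lam) (hr : 0 < r) (t : ℝ) :
    (gg (zz lam r) t).im = 2 * lam / r ^ 2 * (t ^ 2 + (2 * lam / r ^ 2) ^ 2)⁻¹ := by
  have h0 := ne_of_im (neg_zz_im hl hr) t
  have h1 : gg (zz lam r) t = (gg (zz lam r) t * gg (-zz lam r) t) * ((t : ℂ) + -zz lam r) := by
    unfold gg
    rw [mul_assoc, inv_mul_cancel₀ h0, mul_one]
  rw [h1, gg_mul_neg, Complex.im_ofReal_mul, mul_comm]
  congr 1
  unfold zz
  rw [neg_neg, Complex.add_im, Complex.ofReal_im, Complex.mul_im, Complex.I_re, Complex.I_im,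
    Complex.ofReal_re, Complex.ofReal_im]
  ring

lemma norm_gg_neg (lam r t : ℝ) : ‖gg (-zz lam r) t‖ = ‖gg (zz lam r) t‖ := by
  unfold gg
  rw [norm_inv, norm_inv]
  congr 1
  have e : (t : ℂ) + -zz lam r = (starRingEnd ℂ) ((t : ℂ) + zz lam r) := by
    unfold zz
    rw [map_add, map_neg, map_mul, Complex.conj_I, Complex.conj_ofReal, Complex.conj_ofReal]
    ring
  rw [e, Complex.norm_conj]

lemma norm_gg_le {lam r : ℝ} {t M : ℝ} (hM : 0 < M) (h : M⁻¹ ≤ |t|) : ‖gg (zz lam r) t‖ ≤ M := by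
  unfold gg
  rw [norm_inv]
  have h1 : |t| ≤ ‖(t : ℂ) + zz lam r‖ := by
    have := Complex.abs_re_le_norm ((t : ℂ) + zz lam r)
    rwa [Complex.add_re, Complex.ofReal_re, zz_re, add_zero] at this
  exact inv_le_of_inv_le₀ hM (h.trans h1)

lemma Fc_re {lam r : ℝ} (hl : 0 < lam) (hr : 0 < r) (k : ℕ) (t s : ℝ) :
    (Fc k lam r t s).re = (-((r ^ 2 / (4 * lam ^ 2) : ℝ) : ℂ) * ((t : ℂ) * (t : ℂ)) +
      (-((k : ℂ) / 2) * ll lam r t) +
      (-((lam ^ 2 / r ^ 2 : ℝ) : ℂ) * (s • (gg (zz lam r) t * gg (-zz lam r) t)))).re := by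
  unfold Fc
  rw [Complex.sub_re, Complex.sub_re, Complex.add_re, Complex.add_re]
  have e1 : (-((t ^ 2 * r ^ 2 / (4 * lam ^ 2) : ℝ) : ℂ)).re =
      (-((r ^ 2 / (4 * lam ^ 2) : ℝ) : ℂ) * ((t : ℂ) * (t : ℂ))).re := by
    congr 1
    push_cast
    ring
  have e2 : (-((k : ℂ) / 2) * ll lam r t).re = -((k : ℂ) / 2 * ll lam r t).re := by
    rw [neg_mul, Complex.neg_re]
  have e3 : (((s : ℝ) : ℂ) / (4 * AA lam r t)).re =
      -(-((lam ^ 2 / r ^ 2 : ℝ) : ℂ) * (s • (gg (zz lam r) t * gg (-zz lam r) t))).re := by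
    rw [quot_eq hl hr, gg_mul_neg, Complex.real_smul, Complex.real_smul]
    have h1 : -(Complex.I * ((lam / 2 : ℝ) : ℂ)) * (((s : ℝ) : ℂ) * gg (zz lam r) t) =
      ((-(lam / 2 * s) : ℝ) : ℂ) * (Complex.I * gg (zz lam r) t) := by
      push_cast
      ring
    have h2 : -((lam ^ 2 / r ^ 2 : ℝ) : ℂ) * (((s : ℝ) : ℂ) *
      (((t ^ 2 + (2 * lam / r ^ 2) ^ 2)⁻¹ : ℝ) : ℂ)) =
      ((-(lam ^ 2 / r ^ 2) * (s * (t ^ 2 + (2 * lam / r ^ 2) ^ 2)⁻¹) : ℝ) : ℂ) := by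
      push_cast
      ring
    rw [h1, h2, Complex.re_ofReal_mul, Complex.ofReal_re, Complex.mul_re, Complex.I_re, Complex.I_im,
      gg_im hl hr]
    field_simp
    ring
  rw [e1, e2, e3]
  ring

section abs
variable {E : Type*} [NormedAddCommGroup E] [NormedSpace ℝ E]

/-- the bound of `gg ∘ T` -/
noncomputable def GB0 (N : ℕ) (M D : ℝ) : ℝ := N.factorial * (KK N * M) * D ^ N

lemma Bd_ggT {N : ℕ} {z : ℂ} (hz : z.im ≠ 0) {T : E → ℝ} {x : E} {M D : ℝ} (hT : ContDiff ℝ ∞ T)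
    (hD : 1 ≤ D) (h : Be N T x D) (hM : ‖gg z (T x)‖ ≤ M) (hM1 : M ≤ 4 / 3) :
    Bd N (fun y => gg z (T y)) x (GB0 N M D) :=
  Bd.comp (contDiff_gg hz) hT hD (Bd_gg hz N hM hM1) h

/-- the difference of the imaginary parts -/
lemma abs_im {N k : ℕ} {lam r c D M A1 A2 : ℝ} {T1 T2 S1 S2 : E → ℝ} {x : E} (hl : 0 < lam) (hr : 0 < r)
    (hT1 : ContDiff ℝ ∞ T1) (hT2 : ContDiff ℝ ∞ T2) (hS1 : ContDiff ℝ ∞ S1) (hS2 : ContDiff ℝ ∞ S2)
    (hTT : ∀ y, T1 y = T2 y + c) (hD : 1 ≤ D) (h2 : Be N T2 x D)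
    (hA1 : Bd N (fun y => S1 y - S2 y) x A1) (hA2 : Bd N S2 x A2)
    (hM1 : ‖gg (zz lam r) (T1 x)‖ ≤ M) (hM2 : ‖gg (zz lam r) (T2 x)‖ ≤ M) (hM : M ≤ 4 / 3) :
    Be N (fun y => (Fc k lam r (T1 y) (S1 y)).im - (Fc k lam r (T2 y) (S2 y)).im) x
      (k / 2 * (N.factorial * (|c| * (2 ^ N * (KK N * M) * (KK N * M))) * D ^ N) +
        lam / 2 * (2 ^ N * A1 * GB0 N M D) +
        lam / 2 * |c| * (2 ^ N * A2 * (2 ^ N * GB0 N M D * GB0 N M D))) := by
  have hz := zz_im hl hr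
  have hM0 : 0 ≤ M := (norm_nonneg _).trans hM1
  have h1 : Be N T1 x D := by
    have : T1 = fun y => T2 y + c := funext hTT
    rw [this]
    exact h2.add_const c
  have hg1 := Bd_ggT hz hT1 hD h1 hM1 hM
  have hg2 := Bd_ggT hz hT2 hD h2 hM2 hM
  have cg1 : ContDiff ℝ ∞ (fun y => gg (zz lam r) (T1 y)) := (contDiff_gg hz).comp hT1
  have cg2 : ContDiff ℝ ∞ (fun y => gg (zz lam r) (T2 y)) := (contDiff_gg hz).comp hT2
  -- the three functions
  have c1 : ContDiff ℝ ∞ (fun y => ld lam r c (T2 y)) := (contDiff_ld hr).comp hT2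
  have b1 : Be N (fun y => ld lam r c (T2 y)) x
      (N.factorial * (|c| * (2 ^ N * (KK N * M) * (KK N * M))) * D ^ N) := by
    have hk := KK_pos N
    refine Be.comp (contDiff_ld hr) hT2 hD (by positivity) (Be_ld hl hr N hM2 ?_ hM) h2
    rw [← hTT]
    exact hM1
  have c2 : ContDiff ℝ ∞ (fun y => (S1 y - S2 y) • gg (zz lam r) (T1 y)) := (hS1.sub hS2).smul cg1
  have b2 := Bd.smul (hS1.sub hS2) cg1 hA1 hg1
  have c3 : ContDiff ℝ ∞ (fun y => S2 y • (gg (zz lam r) (T1 y) * gg (zz lam r) (T2 y))) :=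
    hS2.smul (cg1.mul cg2)
  have b3 := Bd.smul hS2 (cg1.mul cg2) hA2 (Bd.mul cg1 cg2 hg1 hg2)
  have d1 := Be.cmul c1 b1 (-((k : ℂ) / 2))
  have d2 := Be.cmul c2 b2.be (Complex.I * ((lam / 2 : ℝ) : ℂ))
  have d3 := Be.cmul c3 b3.be (-(Complex.I * ((lam / 2 : ℝ) : ℂ)) * (c : ℂ))
  have e1 : ContDiff ℝ ∞ (fun y => -((k : ℂ) / 2) * ld lam r c (T2 y)) := contDiff_const.mul c1
  have e2 : ContDiff ℝ ∞ (fun y => Complex.I * ((lam / 2 : ℝ) : ℂ) *
    ((S1 y - S2 y) • gg (zz lam r) (T1 y))) := contDiff_const.mul c2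
  have e3 : ContDiff ℝ ∞ (fun y => -(Complex.I * ((lam / 2 : ℝ) : ℂ)) * (c : ℂ) *
    (S2 y • (gg (zz lam r) (T1 y) * gg (zz lam r) (T2 y)))) := contDiff_const.mul c3
  have f := Be.im ((e1.add e2).add e3) (Be.add (e1.add e2) e3 (Be.add e1 e2 d1 d2) d3)
  have key : (fun y => (Fc k lam r (T1 y) (S1 y)).im - (Fc k lam r (T2 y) (S2 y)).im) = fun y =>
      (-((k : ℂ) / 2) * ld lam r c (T2 y) + Complex.I * ((lam / 2 : ℝ) : ℂ) *
        ((S1 y - S2 y) • gg (zz lam r) (T1 y)) + -(Complex.I * ((lam / 2 : ℝ) : ℂ)) * (c : ℂ) *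
        (S2 y • (gg (zz lam r) (T1 y) * gg (zz lam r) (T2 y)))).im := by
    funext y
    have hs := gg_sub hz (T2 y) c
    rw [← hTT] at hs
    rw [← gg_shift, ← hTT] at hs
    unfold Fc
    rw [quot_eq hl hr, quot_eq hl hr]
    have hr1 : (((T1 y ^ 2 * r ^ 2 / (4 * lam ^ 2) : ℝ) : ℂ)).im = 0 := Complex.ofReal_im _
    have hr2 : (((T2 y ^ 2 * r ^ 2 / (4 * lam ^ 2) : ℝ) : ℂ)).im = 0 := Complex.ofReal_im _
    have hll : ll lam r (T1 y) = ld lam r c (T2 y) + ll lam r (T2 y) := by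
      unfold ld
      rw [← hTT]
      ring
    have hgg : gg (zz lam r) (T1 y) = gg (zz lam r) (T2 y) +
      -(c : ℂ) * (gg (zz lam r) (T1 y) * gg (zz lam r) (T2 y)) := by
      rw [← hs]
      ring
    rw [← Complex.sub_im]
    have : -((T1 y ^ 2 * r ^ 2 / (4 * lam ^ 2) : ℝ) : ℂ) - (k : ℂ) / 2 * ll lam r (T1 y) -
        -(Complex.I * ((lam / 2 : ℝ) : ℂ)) * (S1 y • gg (zz lam r) (T1 y)) -
        (-((T2 y ^ 2 * r ^ 2 / (4 * lam ^ 2) : ℝ) : ℂ) - (k : ℂ) / 2 * ll lam r (T2 y) -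
        -(Complex.I * ((lam / 2 : ℝ) : ℂ)) * (S2 y • gg (zz lam r) (T2 y))) =
        (-((k : ℂ) / 2) * ld lam r c (T2 y) + Complex.I * ((lam / 2 : ℝ) : ℂ) *
        ((S1 y - S2 y) • gg (zz lam r) (T1 y)) + -(Complex.I * ((lam / 2 : ℝ) : ℂ)) * (c : ℂ) *
        (S2 y • (gg (zz lam r) (T1 y) * gg (zz lam r) (T2 y)))) +
        (((T2 y ^ 2 * r ^ 2 / (4 * lam ^ 2) - T1 y ^ 2 * r ^ 2 / (4 * lam ^ 2)) : ℝ) : ℂ) := by
      rw [hll]
      simp only [Complex.real_smul]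
      push_cast
      linear_combination (Complex.I * ((lam : ℂ) / 2)) * (S2 y : ℂ) * hgg
    rw [this, Complex.add_im, Complex.ofReal_im, add_zero]
  rw [key]
  refine f.mono ?_
  simp only [norm_neg, norm_mul, norm_div, Complex.norm_I, one_mul, Complex.norm_real, Real.norm_eq_abs,
    Complex.norm_natCast, Complex.norm_ofNat, abs_of_pos hl, abs_two, le_refl]

/-- the real part -/
lemma abs_re {N k : ℕ} {lam r D M A B : ℝ} {T S : E → ℝ} {x : E} (hl : 0 < lam) (hr : 0 < r)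
    (hT : ContDiff ℝ ∞ T) (hS : ContDiff ℝ ∞ S) (hD : 1 ≤ D) (h : Be N T x D) (hB : Bd N T x B)
    (hA : Bd N S x A) (hM1 : ‖gg (zz lam r) (T x)‖ ≤ M) (hM : M ≤ 4 / 3) :
    Be N (fun y => (Fc k lam r (T y) (S y)).re) x
      (r ^ 2 / (4 * lam ^ 2) * (2 ^ N * B * B) + k / 2 * (N.factorial * (KK N * M) * D ^ N) +
        lam ^ 2 / r ^ 2 * (2 ^ N * A * (2 ^ N * GB0 N M D * GB0 N M D))) := by
  have hz := zz_im hl hr
  have hz' := neg_zz_im hl hr
  have hM0 : 0 ≤ M := (norm_nonneg _).trans hM1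
  have hg1 := Bd_ggT hz hT hD h hM1 hM
  have hg2 := Bd_ggT hz' hT hD h (by rw [norm_gg_neg]; exact hM1) hM
  have cg1 : ContDiff ℝ ∞ (fun y => gg (zz lam r) (T y)) := (contDiff_gg hz).comp hT
  have cg2 : ContDiff ℝ ∞ (fun y => gg (-zz lam r) (T y)) := (contDiff_gg hz').comp hT
  have cT : ContDiff ℝ ∞ (fun y => ((T y : ℝ) : ℂ)) := Complex.ofRealCLM.contDiff.comp hT
  have bT : Bd N (fun y => ((T y : ℝ) : ℂ)) x B := by
    refine Bd.mk ?_ ?_
    · simpa using hB.zero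
    · have := Be.clm hT hB.be Complex.ofRealCLM (c := 1) (by simp)
      simpa using this
  have c1 : ContDiff ℝ ∞ (fun y => ((T y : ℝ) : ℂ) * ((T y : ℝ) : ℂ)) := cT.mul cT
  have b1 := Bd.mul cT cT bT bT
  have c2 : ContDiff ℝ ∞ (fun y => ll lam r (T y)) := (contDiff_ll hr).comp hT
  have b2 : Be N (fun y => ll lam r (T y)) x (N.factorial * (KK N * M) * D ^ N) := by
    have hk := KK_pos N
    exact Be.comp (contDiff_ll hr) hT hD (by positivity) (Be_ll hl hr N hM1 hM) h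
  have c3 : ContDiff ℝ ∞ (fun y => S y • (gg (zz lam r) (T y) * gg (-zz lam r) (T y))) :=
    hS.smul (cg1.mul cg2)
  have b3 := Bd.smul hS (cg1.mul cg2) hA (Bd.mul cg1 cg2 hg1 hg2)
  have d1 := Be.cmul c1 b1.be (-((r ^ 2 / (4 * lam ^ 2) : ℝ) : ℂ))
  have d2 := Be.cmul c2 b2 (-((k : ℂ) / 2))
  have d3 := Be.cmul c3 b3.be (-((lam ^ 2 / r ^ 2 : ℝ) : ℂ))
  have e1 : ContDiff ℝ ∞ (fun y => -((r ^ 2 / (4 * lam ^ 2) : ℝ) : ℂ) *
    (((T y : ℝ) : ℂ) * ((T y : ℝ) : ℂ))) := contDiff_const.mul c1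
  have e2 : ContDiff ℝ ∞ (fun y => -((k : ℂ) / 2) * ll lam r (T y)) := contDiff_const.mul c2
  have e3 : ContDiff ℝ ∞ (fun y => -((lam ^ 2 / r ^ 2 : ℝ) : ℂ) *
    (S y • (gg (zz lam r) (T y) * gg (-zz lam r) (T y)))) := contDiff_const.mul c3
  have f := Be.re ((e1.add e2).add e3) (Be.add (e1.add e2) e3 (Be.add e1 e2 d1 d2) d3)
  have key : (fun y => (Fc k lam r (T y) (S y)).re) = fun y =>
      (-((r ^ 2 / (4 * lam ^ 2) : ℝ) : ℂ) * (((T y : ℝ) : ℂ) * ((T y : ℝ) : ℂ)) +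
      -((k : ℂ) / 2) * ll lam r (T y) + -((lam ^ 2 / r ^ 2 : ℝ) : ℂ) *
      (S y • (gg (zz lam r) (T y) * gg (-zz lam r) (T y)))).re := by
    funext y
    exact Fc_re hl hr k (T y) (S y)
  rw [key]
  refine f.mono ?_
  have a1 : |r ^ 2 / (4 * lam ^ 2)| = r ^ 2 / (4 * lam ^ 2) := abs_of_nonneg (by positivity)
  have a2 : |lam ^ 2 / r ^ 2| = lam ^ 2 / r ^ 2 := abs_of_nonneg (by positivity)
  rw [norm_neg, norm_neg, norm_neg, Complex.norm_real, Complex.norm_real, Real.norm_eq_abs,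
    Real.norm_eq_abs, a1, a2, norm_div, Complex.norm_natCast, Complex.norm_ofNat]

/-- the derivative of a composition -/
lemma norm_fderiv_comp {g : ℝ → ℂ} {T : E → ℝ} {x : E} {g' : ℂ} (hg : HasDerivAt g g' (T x))
    (hT : DifferentiableAt ℝ T x) :
    ‖fderiv ℝ (fun y => g (T y)) x‖ ≤ ‖g'‖ * ‖fderiv ℝ T x‖ := by
  have h := hg.hasFDerivAt.comp x hT.hasFDerivAt
  have e : (fun y => g (T y)) = g ∘ T := rfl
  rw [e, h.fderiv]
  refine (ContinuousLinearMap.opNorm_comp_le _ _).trans ?_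
  refine mul_le_mul_of_nonneg_right ?_ (norm_nonneg _)
  refine ContinuousLinearMap.opNorm_le_bound _ (norm_nonneg _) fun s => ?_
  simp [mul_comm]

/-- the first derivative of the real part -/
lemma abs_re1 {k : ℕ} {lam r D D2 M : ℝ} {T S : E → ℝ} {x : E} (hl : 0 < lam) (hr : 0 < r)
    (hT : ContDiff ℝ ∞ T) (hS : ContDiff ℝ ∞ S) (h : ‖fderiv ℝ T x‖ ≤ D) (h2 : ‖fderiv ℝ S x‖ ≤ D2)
    (hM1 : ‖gg (zz lam r) (T x)‖ ≤ M) :
    ‖fderiv ℝ (fun y => (Fc k lam r (T y) (S y)).re) x‖ ≤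
      r ^ 2 / (4 * lam ^ 2) * (2 * |T x| * D) + k / 2 * (M * D) +
        lam ^ 2 / r ^ 2 * (|S x| * (2 * M ^ 3 * D) + D2 * M ^ 2) := by
  have hz := zz_im hl hr
  have hz' := neg_zz_im hl hr
  have hM0 : 0 ≤ M := (norm_nonneg _).trans hM1
  have hM2 : ‖gg (-zz lam r) (T x)‖ ≤ M := by rw [norm_gg_neg]; exact hM1
  have hD0 : 0 ≤ D := (norm_nonneg _).trans h
  have hD20 : 0 ≤ D2 := (norm_nonneg _).trans h2
  have dT : DifferentiableAt ℝ T x := hT.differentiable (by simp) x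
  have dS : DifferentiableAt ℝ S x := hS.differentiable (by simp) x
  have dg1 : DifferentiableAt ℝ (fun y => gg (zz lam r) (T y)) x :=
    ((contDiff_gg hz).comp hT).differentiable (by simp) x
  have dg2 : DifferentiableAt ℝ (fun y => gg (-zz lam r) (T y)) x :=
    ((contDiff_gg hz').comp hT).differentiable (by simp) x
  have dl : DifferentiableAt ℝ (fun y => ll lam r (T y)) x :=
    ((contDiff_ll hr).comp hT).differentiable (by simp) x
  have dTc : DifferentiableAt ℝ (fun y => ((T y : ℝ) : ℂ)) x :=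
    (Complex.ofRealCLM.contDiff.comp hT).differentiable (by simp) x
  have n1 : ‖fderiv ℝ (fun y => gg (zz lam r) (T y)) x‖ ≤ M ^ 2 * D := by
    refine (norm_fderiv_comp (hasDerivAt_gg hz (T x)) dT).trans ?_
    rw [norm_neg, norm_pow]
    exact mul_le_mul (pow_le_pow_left₀ (norm_nonneg _) hM1 2) h (norm_nonneg _) (by positivity)
  have n2 : ‖fderiv ℝ (fun y => gg (-zz lam r) (T y)) x‖ ≤ M ^ 2 * D := by
    refine (norm_fderiv_comp (hasDerivAt_gg hz' (T x)) dT).trans ?_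
    rw [norm_neg, norm_pow]
    exact mul_le_mul (pow_le_pow_left₀ (norm_nonneg _) hM2 2) h (norm_nonneg _) (by positivity)
  have n3 : ‖fderiv ℝ (fun y => ll lam r (T y)) x‖ ≤ M * D :=
    (norm_fderiv_comp (hasDerivAt_ll hl hr (T x)) dT).trans
      (mul_le_mul hM1 h (norm_nonneg _) hM0)
  have n4 : ‖fderiv ℝ (fun y => ((T y : ℝ) : ℂ)) x‖ ≤ D := by
    have := norm_fderiv_comp (g := fun s : ℝ => (s : ℂ)) (Complex.ofRealCLM.hasDerivAt (x := T x)) dT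
    refine this.trans ?_
    simpa using h
  -- products
  have p1 : ‖fderiv ℝ (fun y => ((T y : ℝ) : ℂ) * ((T y : ℝ) : ℂ)) x‖ ≤ 2 * |T x| * D := by
    have := (dTc.hasFDerivAt.mul dTc.hasFDerivAt).fderiv
    have e : (fun y => ((T y : ℝ) : ℂ) * ((T y : ℝ) : ℂ)) =
      (fun y => ((T y : ℝ) : ℂ)) * (fun y => ((T y : ℝ) : ℂ)) := rfl
    rw [e, this]
    refine (norm_add_le _ _).trans ?_
    rw [norm_smul, Complex.norm_real, Real.norm_eq_abs]
    nlinarith [mul_le_mul_of_nonneg_left n4 (abs_nonneg (T x))]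
  have p2 : ‖fderiv ℝ (fun y => gg (zz lam r) (T y) * gg (-zz lam r) (T y)) x‖ ≤ 2 * M ^ 3 * D := by
    have := (dg1.hasFDerivAt.mul dg2.hasFDerivAt).fderiv
    have e : (fun y => gg (zz lam r) (T y) * gg (-zz lam r) (T y)) =
      (fun y => gg (zz lam r) (T y)) * (fun y => gg (-zz lam r) (T y)) := rfl
    rw [e, this]
    refine (norm_add_le _ _).trans ?_
    rw [norm_smul, norm_smul]
    have q1 := mul_le_mul hM1 n2 (norm_nonneg _) hM0
    have q2 := mul_le_mul hM2 n1 (norm_nonneg _) hM0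
    calc _ ≤ M * (M ^ 2 * D) + M * (M ^ 2 * D) := add_le_add q1 q2
      _ = _ := by ring
  have p3 : ‖fderiv ℝ (fun y => S y • (gg (zz lam r) (T y) * gg (-zz lam r) (T y))) x‖ ≤
      |S x| * (2 * M ^ 3 * D) + D2 * M ^ 2 := by
    have := (dS.hasFDerivAt.smul (dg1.mul dg2).hasFDerivAt).fderiv
    have e : (fun y => S y • (gg (zz lam r) (T y) * gg (-zz lam r) (T y))) =
      S • ((fun y => gg (zz lam r) (T y)) * (fun y => gg (-zz lam r) (T y))) := rfl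
    rw [e, this]
    refine (norm_add_le _ _).trans ?_
    have q0 : ‖((fun y => gg (zz lam r) (T y)) * (fun y => gg (-zz lam r) (T y))) x‖ ≤ M ^ 2 := by
      rw [Pi.mul_apply, norm_mul, pow_two]
      exact mul_le_mul hM1 hM2 (norm_nonneg _) hM0
    have q1 : ‖S x • fderiv ℝ ((fun y => gg (zz lam r) (T y)) * (fun y => gg (-zz lam r) (T y))) x‖ ≤
        |S x| * (2 * M ^ 3 * D) := by
      rw [norm_smul, Real.norm_eq_abs]
      exact mul_le_mul_of_nonneg_left p2 (abs_nonneg _)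
    have q2 : ‖(fderiv ℝ S x).smulRight
        (((fun y => gg (zz lam r) (T y)) * (fun y => gg (-zz lam r) (T y))) x)‖ ≤ D2 * M ^ 2 := by
      rw [ContinuousLinearMap.norm_smulRight_apply]
      exact mul_le_mul h2 q0 (norm_nonneg _) hD20
    exact add_le_add q1 q2
  have key : (fun y => (Fc k lam r (T y) (S y)).re) = fun y =>
      Complex.reCLM (-((r ^ 2 / (4 * lam ^ 2) : ℝ) : ℂ) * (((T y : ℝ) : ℂ) * ((T y : ℝ) : ℂ)) +
      -((k : ℂ) / 2) * ll lam r (T y) + -((lam ^ 2 / r ^ 2 : ℝ) : ℂ) *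
      (S y • (gg (zz lam r) (T y) * gg (-zz lam r) (T y)))) := by
    funext y
    exact Fc_re hl hr k (T y) (S y)
  have h1 := (((dTc.mul dTc).hasFDerivAt.const_mul (-((r ^ 2 / (4 * lam ^ 2) : ℝ) : ℂ))).add
    (dl.hasFDerivAt.const_mul (-((k : ℂ) / 2)))).add
    ((dS.smul (dg1.mul dg2)).hasFDerivAt.const_mul (-((lam ^ 2 / r ^ 2 : ℝ) : ℂ)))
  have h2 := Complex.reCLM.hasFDerivAt.comp x h1
  have h3 := h2.fderiv
  rw [key]
  refine (le_of_eq (congrArg norm h3)).trans ?_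
  refine (ContinuousLinearMap.opNorm_comp_le _ _).trans ?_
  rw [Complex.reCLM_norm, one_mul]
  refine (norm_add_le _ _).trans ?_
  refine (add_le_add (norm_add_le _ _) le_rfl).trans ?_
  have a1 : |r ^ 2 / (4 * lam ^ 2)| = r ^ 2 / (4 * lam ^ 2) := abs_of_nonneg (by positivity)
  have a2 : |lam ^ 2 / r ^ 2| = lam ^ 2 / r ^ 2 := abs_of_nonneg (by positivity)
  rw [norm_smul, norm_smul, norm_smul, norm_neg, norm_neg, norm_neg, Complex.norm_real,
    Complex.norm_real, Real.norm_eq_abs, Real.norm_eq_abs, a1, a2, norm_div, Complex.norm_natCast,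
    Complex.norm_ofNat]
  refine add_le_add (add_le_add ?_ ?_) ?_
  · exact mul_le_mul_of_nonneg_left p1 (by positivity)
  · exact mul_le_mul_of_nonneg_left n3 (by positivity)
  · exact mul_le_mul_of_nonneg_left p3 (by positivity)

end abs

/-! ## Charts -/

lemma exD {k : ℕ} (ch : Chart k) (N : ℕ) : ∃ D : ℝ, 1 ≤ D ∧ ∀ q : EE k, ‖q‖ ≤ 4 * ch.dl →
    ∀ j : ℕ, j ≤ N → ‖iteratedFDeriv ℝ j ch.X q‖ ≤ D := by
  induction N with
  | zero =>
    have hc : ContinuousOn (iteratedFDeriv ℝ 0 ch.X) (Metric.closedBall 0 (4 * ch.dl)) :=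
      (ch.smooth.continuous_iteratedFDeriv (by exact_mod_cast le_top)).continuousOn
    obtain ⟨C, hC⟩ := (isCompact_closedBall (0 : EE k) (4 * ch.dl)).exists_bound_of_continuousOn hc
    refine ⟨max 1 C, le_max_left _ _, fun q hq j hj => ?_⟩
    obtain rfl : j = 0 := by omega
    exact (hC q (by simpa using hq)).trans (le_max_right _ _)
  | succ N ih =>
    obtain ⟨D, hD1, hD⟩ := ih
    have hc : ContinuousOn (iteratedFDeriv ℝ (N + 1) ch.X) (Metric.closedBall 0 (4 * ch.dl)) :=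
      (ch.smooth.continuous_iteratedFDeriv (by exact_mod_cast le_top)).continuousOn
    obtain ⟨C, hC⟩ := (isCompact_closedBall (0 : EE k) (4 * ch.dl)).exists_bound_of_continuousOn hc
    refine ⟨max D C, hD1.trans (le_max_left _ _), fun q hq j hj => ?_⟩
    rcases Nat.lt_or_ge j (N + 1) with h | h
    · exact (hD q hq j (by omega)).trans (le_max_left _ _)
    · obtain rfl : j = N + 1 := by omega
      exact (hC q (by simpa using hq)).trans (le_max_right _ _)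

section slice
variable {m : ℕ} {ch : Chart (m + 1)} {om : EE (m + 2)} {e : EE (m + 1)} {L : EE m →ₗᵢ[ℝ] EE (m + 1)}

lemma sl_norm (h : Slice ch om e L) {sg : ℝ} {b : EE m} (hsg : |sg| ≤ 2 * ch.dl) (hb : ‖b‖ ≤ 3 * ch.dl) :
    ‖sl e L sg b‖ ≤ 4 * ch.dl := by
  have hdl := ch.dl_pos
  have h0 : inner ℝ (sg • e) (L b) = 0 := by rw [real_inner_smul_left, h.eL, mul_zero]
  have h1 := norm_add_sq_eq_norm_sq_add_norm_sq_of_inner_eq_zero (sg • e) (L b) h0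
  have h2 : ‖sl e L sg b‖ ^ 2 ≤ (4 * ch.dl) ^ 2 := by
    unfold sl
    rw [pow_two, h1, norm_smul, h.e_one, L.norm_map, mul_one, Real.norm_eq_abs]
    have a1 : |sg| * |sg| ≤ (2 * ch.dl) * (2 * ch.dl) :=
      mul_le_mul hsg hsg (abs_nonneg _) (by positivity)
    have a2 : ‖b‖ * ‖b‖ ≤ (3 * ch.dl) * (3 * ch.dl) :=
      mul_le_mul hb hb (norm_nonneg _) (by positivity)
    nlinarith
  exact le_of_sq_le_sq h2 (by positivity)

lemma contDiff_Xs (ch : Chart (m + 1)) (e : EE (m + 1)) (L : EE m →ₗᵢ[ℝ] EE (m + 1)) (sg : ℝ) :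
    ContDiff ℝ ∞ (fun y : EE m => ch.X (sl e L sg y)) := by
  have : ContDiff ℝ ∞ (fun y : EE m => sl e L sg y) :=
    contDiff_const.add L.toContinuousLinearMap.contDiff
  exact ch.smooth.comp this

lemma Bd_Xs (h : Slice ch om e L) {N : ℕ} {D : ℝ} (hD : ∀ q : EE (m + 1), ‖q‖ ≤ 4 * ch.dl →
    ∀ j : ℕ, j ≤ N → ‖iteratedFDeriv ℝ j ch.X q‖ ≤ D) {sg : ℝ} {b : EE m} (hsg : |sg| ≤ 2 * ch.dl)
    (hb : ‖b‖ ≤ 3 * ch.dl) : Bd N (fun y : EE m => ch.X (sl e L sg y)) b D := by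
  intro j hj
  have h1 : (fun y : EE m => ch.X (sl e L sg y)) =
    (fun q => ch.X (sg • e + q)) ∘ L.toContinuousLinearMap := rfl
  have hc : ContDiff ℝ ∞ (fun q => ch.X (sg • e + q)) := ch.smooth.comp (contDiff_const.add contDiff_id)
  rw [h1, ContinuousLinearMap.iteratedFDeriv_comp_right _ hc b (le_inf j), iteratedFDeriv_comp_add_left]
  refine (ContinuousMultilinearMap.norm_compContinuousLinearMap_le _ _).trans ?_
  have h2 : ∏ _i : Fin j, ‖L.toContinuousLinearMap‖ ≤ 1 := by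
    refine Finset.prod_le_one (fun _ _ => norm_nonneg _) fun _ _ => L.norm_toContinuousLinearMap_le
  have h3 := hD (sl e L sg b) (sl_norm h hsg hb) j hj
  calc _ ≤ D * 1 := mul_le_mul h3 h2 (Finset.prod_nonneg fun _ _ => norm_nonneg _)
        ((norm_nonneg _).trans h3)
    _ = D := mul_one D

/-- the projection off `om` -/
noncomputable def PP {n : ℕ} (om : EE n) : EE n →L[ℝ] EE n :=
  ContinuousLinearMap.id ℝ _ - (innerSL ℝ om).smulRight om

lemma PP_apply {n : ℕ} (om x : EE n) : PP om x = x - (inner ℝ om x : ℝ) • om := rfl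

lemma norm_PP_sq {n : ℕ} {om : EE n} (hom : ‖om‖ = 1) (x : EE n) : ‖PP om x‖ ^ 2 = pq om x := by
  rw [PP_apply, @norm_sub_sq_real, norm_smul, real_inner_smul_right, real_inner_comm om x, hom, pq,
    Real.norm_eq_abs, mul_one, sq_abs]
  ring

lemma norm_PP_le {n : ℕ} {om : EE n} (hom : ‖om‖ = 1) (x : EE n) : ‖PP om x‖ ≤ ‖x‖ := by
  have h := norm_PP_sq hom x
  have h2 : ‖PP om x‖ ^ 2 ≤ ‖x‖ ^ 2 := by
    rw [h, pq]
    nlinarith [sq_nonneg (inner ℝ om x : ℝ)]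
  exact le_of_sq_le_sq h2 (norm_nonneg _)

lemma opNorm_PP {n : ℕ} {om : EE n} (hom : ‖om‖ = 1) : ‖PP om‖ ≤ 1 :=
  ContinuousLinearMap.opNorm_le_bound _ zero_le_one fun x => by
    rw [one_mul]
    exact norm_PP_le hom x

lemma pq_nonneg {n : ℕ} {om : EE n} (hom : ‖om‖ = 1) (x : EE n) : 0 ≤ pq om x := by
  rw [← norm_PP_sq hom]
  positivity

lemma pq_le {n : ℕ} {om : EE n} (x : EE n) : pq om x ≤ ‖x‖ ^ 2 := by
  rw [pq]
  nlinarith [sq_nonneg (inner ℝ om x : ℝ)]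

lemma pq_add {n : ℕ} {om : EE n} (x y : EE n) :
    pq om (x + y) = pq om x + 2 * inner ℝ (PP om x) y + pq om y := by
  unfold pq
  rw [PP_apply, inner_sub_left, real_inner_smul_left, inner_add_right, @norm_add_sq_real]
  ring

/-- the two functions `t`, `s` of a block and their bounds -/
lemma block (h : Slice ch om e L) {N : ℕ} {D : ℝ} (hD1 : 1 ≤ D) (hN : 1 ≤ N)
    (hD : ∀ q : EE (m + 1), ‖q‖ ≤ 4 * ch.dl → ∀ j : ℕ, j ≤ N → ‖iteratedFDeriv ℝ j ch.X q‖ ≤ D)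
    {sg sg' : ℝ} {zt : EE (m + 2)} {b b' : EE m} (hsg : |sg| ≤ 2 * ch.dl) (hsg' : |sg'| ≤ 2 * ch.dl)
    (hb : ‖b‖ ≤ 2 * ch.dl) (hb' : ‖b'‖ ≤ 3 * ch.dl) (hz : 1 ≤ |(inner ℝ om zt : ℝ)|) {W : ℝ} (hW : 0 ≤ W)
    (hq : pq om (xd ch e L zt sg sg' b b') ≤ W ^ 2) :
    ContDiff ℝ ∞ (fun y => xd ch e L zt sg sg' b y) ∧
    ContDiff ℝ ∞ (fun y => (inner ℝ om (xd ch e L zt sg sg' b y) : ℝ)) ∧
    ContDiff ℝ ∞ (fun y => pq om (xd ch e L zt sg sg' b y)) ∧
    Be N (fun y => xd ch e L zt sg sg' b y) b' D ∧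
    Be N (fun y => (inner ℝ om (xd ch e L zt sg sg' b y) : ℝ)) b' D ∧
    Bd N (fun y => (inner ℝ om (xd ch e L zt sg sg' b y) : ℝ)) b' (9 / 4 * D * |(inner ℝ om zt : ℝ)|) ∧
    Bd N (fun y => pq om (xd ch e L zt sg sg' b y)) b' (2 ^ N * (W + D) * (W + D)) ∧
    ‖fderiv ℝ (fun y => pq om (xd ch e L zt sg sg' b y)) b'‖ ≤ 2 * W * D ∧
    3 / 4 * |(inner ℝ om zt : ℝ)| ≤ |(inner ℝ om (xd ch e L zt sg sg' b b') : ℝ)| ∧
    |(inner ℝ om (xd ch e L zt sg sg' b b') : ℝ)| ≤ 5 / 4 * |(inner ℝ om zt : ℝ)| := by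
  have hdl := ch.dl_pos
  have cX := contDiff_Xs ch e L sg'
  have bX := Bd_Xs h hD hsg' hb'
  have cx : ContDiff ℝ ∞ (fun y => xd ch e L zt sg sg' b y) := by
    unfold xd
    exact (contDiff_const.sub cX).add contDiff_const
  have bx : Be N (fun y => xd ch e L zt sg sg' b y) b' D := by
    have h1 := (Be.clm cX bX.be (-ContinuousLinearMap.id ℝ (EE (m + 2))) (c := 1)
      (by rw [norm_neg]; exact ContinuousLinearMap.norm_id_le)).add_const (ch.X (sl e L sg b) + zt)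
    rw [one_mul] at h1
    have e1 : (fun y => xd ch e L zt sg sg' b y) = fun y =>
      (-ContinuousLinearMap.id ℝ (EE (m + 2))) (ch.X (sl e L sg' y)) + (ch.X (sl e L sg b) + zt) := by
      funext y
      simp only [xd, neg_apply, ContinuousLinearMap.id_apply]
      abel
    rw [e1]
    exact h1
  have ct : ContDiff ℝ ∞ (fun y => (inner ℝ om (xd ch e L zt sg sg' b y) : ℝ)) :=
    (innerSL ℝ om).contDiff.comp cx
  have bt : Be N (fun y => (inner ℝ om (xd ch e L zt sg sg' b y) : ℝ)) b' D := by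
    have := Be.clm cx bx (innerSL ℝ om) (c := 1) (by rw [innerSL_apply_norm, h.om_one])
    simpa using this
  have cp : ContDiff ℝ ∞ (fun y => PP om (xd ch e L zt sg sg' b y)) := (PP om).contDiff.comp cx
  have bp : Be N (fun y => PP om (xd ch e L zt sg sg' b y)) b' D := by
    have := Be.clm cx bx (PP om) (opNorm_PP h.om_one)
    simpa using this
  have np : ‖PP om (xd ch e L zt sg sg' b b')‖ ≤ W := by
    have h1 := norm_PP_sq h.om_one (xd ch e L zt sg sg' b b')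
    exact le_of_sq_le_sq (by rw [h1]; exact hq) hW
  have Bp : Bd N (fun y => PP om (xd ch e L zt sg sg' b y)) b' (W + D) :=
    Bd.mk (by linarith) (bp.mono (by linarith))
  have es : (fun y => pq om (xd ch e L zt sg sg' b y)) = fun y =>
      innerSL ℝ (PP om (xd ch e L zt sg sg' b y)) (PP om (xd ch e L zt sg sg' b y)) := by
    funext y
    rw [innerSL_apply_apply, real_inner_self_eq_norm_sq, norm_PP_sq h.om_one]
  have es' : (fun y => pq om (xd ch e L zt sg sg' b y)) = fun y =>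
      ‖PP om (xd ch e L zt sg sg' b y)‖ ^ 2 := by
    funext y
    rw [norm_PP_sq h.om_one]
  have cs : ContDiff ℝ ∞ (fun y => pq om (xd ch e L zt sg sg' b y)) := by
    rw [es']
    exact cp.norm_sq ℝ
  have bs : Bd N (fun y => pq om (xd ch e L zt sg sg' b y)) b' (2 ^ N * (W + D) * (W + D)) := by
    rw [es]
    exact Bd.bil cp cp (innerSL ℝ) (norm_innerSL_le ℝ) Bp Bp
  have n1 : ‖fderiv ℝ (fun y => PP om (xd ch e L zt sg sg' b y)) b'‖ ≤ D := by
    have := bp 1 le_rfl hN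
    rwa [norm_iteratedFDeriv_one] at this
  have fs : ‖fderiv ℝ (fun y => pq om (xd ch e L zt sg sg' b y)) b'‖ ≤ 2 * W * D := by
    rw [es']
    have hd := ((cp.differentiable (by simp) b').hasFDerivAt.norm_sq).fderiv
    rw [hd, two_nsmul]
    have h1 : ‖(innerSL ℝ (PP om (xd ch e L zt sg sg' b b'))).comp
        (fderiv ℝ (fun y => PP om (xd ch e L zt sg sg' b y)) b')‖ ≤ W * D := by
      refine (ContinuousLinearMap.opNorm_comp_le _ _).trans ?_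
      rw [innerSL_apply_norm]
      exact mul_le_mul np n1 (norm_nonneg _) hW
    refine (norm_add_le _ _).trans ?_
    linarith
  have hx : |(inner ℝ om (ch.X (sl e L sg b) - ch.X (sl e L sg' b')) : ℝ)| ≤ 1 / 4 := by
    refine (abs_real_inner_le_norm _ _).trans ?_
    rw [h.om_one, one_mul]
    exact ch.diam _ _ (sl_norm h hsg (by linarith)) (sl_norm h hsg' hb')
  have ht : (inner ℝ om (xd ch e L zt sg sg' b b') : ℝ) =
      inner ℝ om (ch.X (sl e L sg b) - ch.X (sl e L sg' b')) + inner ℝ om zt := by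
    rw [xd, inner_add_right]
  have l1 : 3 / 4 * |(inner ℝ om zt : ℝ)| ≤ |(inner ℝ om (xd ch e L zt sg sg' b b') : ℝ)| := by
    rw [ht]
    have := abs_sub_abs_le_abs_add (inner ℝ om zt : ℝ) (inner ℝ om (ch.X (sl e L sg b) - ch.X (sl e L sg' b')))
    rw [add_comm (inner ℝ om zt : ℝ) _] at this
    linarith
  have l2 : |(inner ℝ om (xd ch e L zt sg sg' b b') : ℝ)| ≤ 5 / 4 * |(inner ℝ om zt : ℝ)| := by
    rw [ht]
    have := abs_add_le (inner ℝ om (ch.X (sl e L sg b) - ch.X (sl e L sg' b')) : ℝ) (inner ℝ om zt)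
    linarith
  refine ⟨cx, ct, cs, bx, bt, Bd.mk ?_ (bt.mono ?_), bs, fs, l1, l2⟩
  · rw [Real.norm_eq_abs]
    nlinarith
  · nlinarith

end slice

/-! ## Arithmetic -/

section arith

lemma ar_w {lam r La ta : ℝ} (hl : 0 < lam) (htl : r * ta ≤ 2 * La * lam) : r * ta / lam ≤ 2 * La := by
  rw [div_le_iff₀ hl]
  exact htl

lemma ar_wv {lam r ta : ℝ} (hl : 0 < lam) (hr : 0 < r) (ht : 0 < ta) :
    (r * ta / lam) * (lam / (r * ta)) = 1 := by
  field_simp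

/-- `1/t ≤ 2 La v` -/
lemma ar_1 {lam r La ta : ℝ} (hr : 1 ≤ r) (ht : 1 ≤ ta)
    (htl : r * ta ≤ 2 * La * lam) : 1 / ta ≤ 2 * La * (lam / (r * ta)) := by
  have hr0 : 0 < r := by linarith
  have ht0 : 0 < ta := by linarith
  have h1 : r ≤ 2 * La * lam := by nlinarith
  rw [div_le_iff₀ ht0]
  have h2 : 2 * La * (lam / (r * ta)) * ta = 2 * La * lam / r := by field_simp
  rw [h2, le_div_iff₀ hr0]
  linarith

/-- `r² t/lam² ≤ w²` -/
lemma ar_2 {lam r ta : ℝ} (ht : 1 ≤ ta) :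
    (r / lam) ^ 2 * ta ≤ (r * ta / lam) ^ 2 := by
  have : (r * ta / lam) ^ 2 = (r / lam) ^ 2 * ta * ta := by ring
  rw [this]
  have h0 : 0 ≤ (r / lam) ^ 2 * ta := by positivity
  nlinarith

/-- `1/t ≤ 4 La² v²` -/
lemma ar_3 {lam r La ta : ℝ} (hl : 0 < lam) (hr : 1 ≤ r) (ht : 1 ≤ ta)
    (htl : r * ta ≤ 2 * La * lam) : 1 / ta ≤ 4 * La ^ 2 * (lam / (r * ta)) ^ 2 := by
  have hr0 : 0 < r := by linarith
  have ht0 : 0 < ta := by linarith
  have h4 : 1 / ta = (r / lam) ^ 2 * ta * (lam / (r * ta)) ^ 2 := by field_simp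
  rw [h4]
  refine mul_le_mul_of_nonneg_right ?_ (by positivity)
  have h5 := ar_2 (lam := lam) (r := r) ht
  have h6 := ar_w hl htl
  have h7 : 0 ≤ r * ta / lam := by positivity
  nlinarith

/-- `w² ≤ 16 La⁴ v²` -/
lemma ar_4 {w v La : ℝ} (hw0 : 0 < w) (hw : w ≤ 2 * La) (hwv : w * v = 1) : w ^ 2 ≤ 16 * La ^ 4 * v ^ 2 := by
  have h1 : w ^ 2 = w ^ 4 * v ^ 2 := by
    calc w ^ 2 = w ^ 2 * (w * v) ^ 2 := by rw [hwv]; ring
      _ = _ := by ring
  rw [h1]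
  refine mul_le_mul_of_nonneg_right ?_ (by positivity)
  calc w ^ 4 ≤ (2 * La) ^ 4 := pow_le_pow_left₀ hw0.le hw 4
    _ = _ := by ring

/-- `w² ≤ 8 La³ v` -/
lemma ar_5 {w v La : ℝ} (hw0 : 0 < w) (hv0 : 0 < v) (hw : w ≤ 2 * La) (hwv : w * v = 1) :
    w ^ 2 ≤ 8 * La ^ 3 * v := by
  have h1 : w ^ 2 = w ^ 3 * v := by
    calc w ^ 2 = w ^ 2 * (w * v) := by rw [hwv]; ring
      _ = _ := by ring
  rw [h1]
  refine mul_le_mul_of_nonneg_right ?_ hv0.le
  calc w ^ 3 ≤ (2 * La) ^ 3 := pow_le_pow_left₀ hw0.le hw 3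
    _ = _ := by ring

lemma mm {a x y X Y : ℝ} (ha : 0 ≤ a) (hx : x ≤ X) (hy : y ≤ Y) (hy0 : 0 ≤ y) (hX0 : 0 ≤ X) :
    a * (x * y) ≤ a * (X * Y) :=
  mul_le_mul_of_nonneg_left (mul_le_mul hx hy hy0 hX0) ha

/-- part 1 -/
lemma part1 {k F P K M D DN nb c lam La ta W g0 : ℝ} (hk : 0 ≤ k) (hF : 0 ≤ F) (hP : 0 ≤ P) (hK : 0 ≤ K)
    (hD : 1 ≤ D) (hDN : 0 ≤ DN) (hnb : 0 ≤ nb) (hc : |c| ≤ D * nb) (hlam : 1 ≤ lam) (hLa : 1 ≤ La)
    (hta : 1 ≤ ta) (hW0 : 0 ≤ W) (hW : W ≤ 6 * La ^ 2) (hM : M = 4 / 3 / ta) (hg : g0 = F * K * DN) :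
    k / 2 * (F * (|c| * (P * (K * M) * (K * M))) * DN) +
      lam / 2 * (P * ((2 * W + 2 * D + 1) * (D * nb)) * (F * (K * M) * DN)) +
      lam / 2 * |c| * (P * (P * (W + D) * (W + D)) * (P * (F * (K * M) * DN) * (F * (K * M) * DN))) ≤
    (k / 2 * (F * (D * (P * K * K)) * DN) * (16 / 9) + 1 / 2 * (P * (15 * D ^ 2) * g0) * (4 / 3) +
      1 / 2 * D * (P * (P * (49 * D ^ 2)) * (P * g0 * g0)) * (16 / 9)) * La ^ 4 * (lam / ta) * nb := by
  have hta0 : 0 < ta := by linarith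
  have hlam0 : 0 < lam := by linarith
  have hD0 : 0 < D := by linarith
  have La2 : 1 ≤ La ^ 2 := one_le_pow₀ hLa
  have La4 : La ^ 2 ≤ La ^ 4 := pow_le_pow_right₀ hLa (by norm_num)
  have La4' : 1 ≤ La ^ 4 := one_le_pow₀ hLa
  have hg0 : 0 ≤ g0 := by rw [hg]; positivity
  have hM0 : 0 ≤ M := by rw [hM]; positivity
  have hq : 0 ≤ lam / ta := by positivity
  have hlM : lam * M = 4 / 3 * (lam / ta) := by rw [hM]; ring
  have hM43 : M ≤ 4 / 3 := by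
    rw [hM, div_le_iff₀ hta0]
    linarith
  have hlMM : lam * (M * M) ≤ 16 / 9 * (lam / ta) := by
    calc lam * (M * M) = (lam * M) * M := by ring
      _ ≤ (lam * M) * (4 / 3) := mul_le_mul_of_nonneg_left hM43 (by positivity)
      _ = _ := by rw [hlM]; ring
  have hMM : M * M ≤ 16 / 9 * (lam / ta) := by
    refine le_trans ?_ hlMM
    have : 0 ≤ M * M := by positivity
    nlinarith
  have hc0 := abs_nonneg c
  have hDn : 0 ≤ D * nb := by positivity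
  have A1 : 2 * W + 2 * D + 1 ≤ 15 * D * La ^ 2 := by nlinarith
  have A2 : W + D ≤ 7 * D * La ^ 2 := by nlinarith
  have A22 : (W + D) * (W + D) ≤ 49 * D ^ 2 * La ^ 4 := by
    calc (W + D) * (W + D) ≤ (7 * D * La ^ 2) * (7 * D * La ^ 2) :=
          mul_le_mul A2 A2 (by positivity) (by positivity)
      _ = _ := by ring
  have t1 : k / 2 * (F * (|c| * (P * (K * M) * (K * M))) * DN) ≤
      k / 2 * (F * (D * (P * K * K)) * DN) * (16 / 9) * La ^ 4 * (lam / ta) * nb := by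
    calc k / 2 * (F * (|c| * (P * (K * M) * (K * M))) * DN)
        = (k / 2 * F * DN * (P * K * K)) * (|c| * (M * M)) := by ring
      _ ≤ (k / 2 * F * DN * (P * K * K)) * ((D * nb) * (16 / 9 * (lam / ta))) :=
          mm (by positivity) hc hMM (by positivity) hDn
      _ = (k / 2 * (F * (D * (P * K * K)) * DN) * (16 / 9) * (lam / ta) * nb) * 1 := by ring
      _ ≤ (k / 2 * (F * (D * (P * K * K)) * DN) * (16 / 9) * (lam / ta) * nb) * La ^ 4 :=
          mul_le_mul_of_nonneg_left La4' (by positivity)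
      _ = _ := by ring
  have t2 : lam / 2 * (P * ((2 * W + 2 * D + 1) * (D * nb)) * (F * (K * M) * DN)) ≤
      1 / 2 * (P * (15 * D ^ 2) * g0) * (4 / 3) * La ^ 4 * (lam / ta) * nb := by
    calc lam / 2 * (P * ((2 * W + 2 * D + 1) * (D * nb)) * (F * (K * M) * DN))
        = (1 / 2 * P * (F * K * DN) * (D * nb) * (lam * M)) * (2 * W + 2 * D + 1) := by ring
      _ ≤ (1 / 2 * P * (F * K * DN) * (D * nb) * (lam * M)) * (15 * D * La ^ 2) :=
          mul_le_mul_of_nonneg_left A1 (by positivity)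
      _ = (1 / 2 * (P * (15 * D ^ 2) * g0) * (4 / 3) * (lam / ta) * nb) * La ^ 2 := by
          rw [hlM, hg]; ring
      _ ≤ (1 / 2 * (P * (15 * D ^ 2) * g0) * (4 / 3) * (lam / ta) * nb) * La ^ 4 :=
          mul_le_mul_of_nonneg_left La4 (by positivity)
      _ = _ := by ring
  have t3 : lam / 2 * |c| * (P * (P * (W + D) * (W + D)) * (P * (F * (K * M) * DN) * (F * (K * M) * DN))) ≤
      1 / 2 * D * (P * (P * (49 * D ^ 2)) * (P * g0 * g0)) * (16 / 9) * La ^ 4 * (lam / ta) * nb := by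
    calc lam / 2 * |c| * (P * (P * (W + D) * (W + D)) * (P * (F * (K * M) * DN) * (F * (K * M) * DN)))
        = (1 / 2 * P * P * P * g0 * g0 * (lam * (M * M))) * (|c| * ((W + D) * (W + D))) := by
          rw [hg]; ring
      _ ≤ (1 / 2 * P * P * P * g0 * g0 * (lam * (M * M))) * ((D * nb) * (49 * D ^ 2 * La ^ 4)) :=
          mm (by positivity) hc A22 (by positivity) hDn
      _ = (1 / 2 * P * P * P * g0 * g0 * (D * nb) * (49 * D ^ 2 * La ^ 4)) * (lam * (M * M)) := by ring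
      _ ≤ (1 / 2 * P * P * P * g0 * g0 * (D * nb) * (49 * D ^ 2 * La ^ 4)) * (16 / 9 * (lam / ta)) :=
          mul_le_mul_of_nonneg_left hlMM (by positivity)
      _ = _ := by ring
  calc _ ≤ _ := add_le_add (add_le_add t1 t2) t3
    _ = _ := by ring

/-- part 2 -/
lemma part2 {k F P K M D DN lam r La ta W g0 v : ℝ} (hk : 0 ≤ k) (hF : 0 ≤ F) (hP : 0 ≤ P) (hK : 0 ≤ K)
    (hD : 1 ≤ D) (hDN : 0 ≤ DN) (hlam : 1 ≤ lam) (hr : 1 ≤ r) (hLa : 1 ≤ La)
    (hta : 1 ≤ ta) (hW0 : 0 ≤ W) (hW : W ≤ 6 * La ^ 2) (hM : M = 4 / 3 / ta) (hg : g0 = F * K * DN)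
    (hv : v = lam / (r * ta)) (htl : r * ta ≤ 2 * La * lam) :
    r ^ 2 / (4 * lam ^ 2) * (P * (9 / 4 * D * ta) * (9 / 4 * D * ta)) + k / 2 * (F * (K * M) * DN) +
      lam ^ 2 / r ^ 2 * (P * (P * (W + D) * (W + D)) * (P * (F * (K * M) * DN) * (F * (K * M) * DN))) ≤
    (1 / 4 * (P * (81 / 16) * D ^ 2) * 16 + k / 2 * (F * K * DN) * (4 / 3) * 4 +
      P * (P * (49 * D ^ 2)) * (P * g0 * g0) * (16 / 9)) * La ^ 6 * v ^ 2 := by
  have hta0 : 0 < ta := by linarith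
  have hlam0 : 0 < lam := by linarith
  have hr0 : 0 < r := by linarith
  have hD0 : 0 < D := by linarith
  have La2 : 1 ≤ La ^ 2 := one_le_pow₀ hLa
  have La26 : La ^ 2 ≤ La ^ 6 := pow_le_pow_right₀ hLa (by norm_num)
  have La46 : La ^ 4 ≤ La ^ 6 := pow_le_pow_right₀ hLa (by norm_num)
  have hg0 : 0 ≤ g0 := by rw [hg]; positivity
  have hv0 : 0 < v := by rw [hv]; positivity
  have hw0 : 0 < r * ta / lam := by positivity
  have hwv : (r * ta / lam) * v = 1 := by rw [hv]; exact ar_wv hlam0 hr0 hta0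
  have h3 := ar_3 hlam0 hr hta htl
  rw [← hv] at h3
  have h4 := ar_4 hw0 (ar_w hlam0 htl) hwv
  have A2 : W + D ≤ 7 * D * La ^ 2 := by nlinarith
  have A22 : (W + D) * (W + D) ≤ 49 * D ^ 2 * La ^ 4 := by
    calc (W + D) * (W + D) ≤ (7 * D * La ^ 2) * (7 * D * La ^ 2) :=
          mul_le_mul A2 A2 (by positivity) (by positivity)
      _ = _ := by ring
  have t1 : r ^ 2 / (4 * lam ^ 2) * (P * (9 / 4 * D * ta) * (9 / 4 * D * ta)) ≤
      1 / 4 * (P * (81 / 16) * D ^ 2) * 16 * La ^ 6 * v ^ 2 := by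
    calc r ^ 2 / (4 * lam ^ 2) * (P * (9 / 4 * D * ta) * (9 / 4 * D * ta))
        = 1 / 4 * (P * (81 / 16) * D ^ 2) * (r * ta / lam) ^ 2 := by ring
      _ ≤ 1 / 4 * (P * (81 / 16) * D ^ 2) * (16 * La ^ 4 * v ^ 2) :=
          mul_le_mul_of_nonneg_left h4 (by positivity)
      _ = (1 / 4 * (P * (81 / 16) * D ^ 2) * 16 * v ^ 2) * La ^ 4 := by ring
      _ ≤ (1 / 4 * (P * (81 / 16) * D ^ 2) * 16 * v ^ 2) * La ^ 6 :=
          mul_le_mul_of_nonneg_left La46 (by positivity)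
      _ = _ := by ring
  have t2 : k / 2 * (F * (K * M) * DN) ≤ k / 2 * (F * K * DN) * (4 / 3) * 4 * La ^ 6 * v ^ 2 := by
    calc k / 2 * (F * (K * M) * DN) = (k / 2 * (F * K * DN) * (4 / 3)) * (1 / ta) := by rw [hM]; ring
      _ ≤ (k / 2 * (F * K * DN) * (4 / 3)) * (4 * La ^ 2 * v ^ 2) :=
          mul_le_mul_of_nonneg_left h3 (by positivity)
      _ = (k / 2 * (F * K * DN) * (4 / 3) * 4 * v ^ 2) * La ^ 2 := by ring
      _ ≤ (k / 2 * (F * K * DN) * (4 / 3) * 4 * v ^ 2) * La ^ 6 :=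
          mul_le_mul_of_nonneg_left La26 (by positivity)
      _ = _ := by ring
  have hlm : lam ^ 2 / r ^ 2 * (M * M) = 16 / 9 * v ^ 2 := by
    rw [hM, hv]
    field_simp
    ring
  have t3 : lam ^ 2 / r ^ 2 * (P * (P * (W + D) * (W + D)) * (P * (F * (K * M) * DN) * (F * (K * M) * DN))) ≤
      P * (P * (49 * D ^ 2)) * (P * g0 * g0) * (16 / 9) * La ^ 6 * v ^ 2 := by
    calc lam ^ 2 / r ^ 2 * (P * (P * (W + D) * (W + D)) * (P * (F * (K * M) * DN) * (F * (K * M) * DN)))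
        = (P * P * P * g0 * g0 * (lam ^ 2 / r ^ 2 * (M * M))) * ((W + D) * (W + D)) := by
          rw [hg]; ring
      _ ≤ (P * P * P * g0 * g0 * (lam ^ 2 / r ^ 2 * (M * M))) * (49 * D ^ 2 * La ^ 4) := by
          refine mul_le_mul_of_nonneg_left A22 ?_
          rw [hlm]
          positivity
      _ = (P * (P * (49 * D ^ 2)) * (P * g0 * g0) * (16 / 9) * v ^ 2) * La ^ 4 := by rw [hlm]; ring
      _ ≤ (P * (P * (49 * D ^ 2)) * (P * g0 * g0) * (16 / 9) * v ^ 2) * La ^ 6 :=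
          mul_le_mul_of_nonneg_left La46 (by positivity)
      _ = _ := by ring
  calc _ ≤ _ := add_le_add (add_le_add t1 t2) t3
    _ = _ := by ring

/-- part 3 -/
lemma part3 {k M D lam r La ta W v T S : ℝ} (hk : 0 ≤ k)
    (hD : 1 ≤ D) (hlam : 1 ≤ lam) (hr : 1 ≤ r) (hLa : 1 ≤ La)
    (hta : 1 ≤ ta) (hW : W = 3 * La * (r * ta / lam)) (hM : M = 4 / 3 / ta)
    (hv : v = lam / (r * ta)) (htl : r * ta ≤ 2 * La * lam) (hT : |T| ≤ 5 / 4 * ta) (hS : |S| ≤ W ^ 2) :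
    r ^ 2 / (4 * lam ^ 2) * (2 * |T| * D) + k / 2 * (M * D) +
      lam ^ 2 / r ^ 2 * (|S| * (2 * M ^ 3 * D) + 2 * W * D * M ^ 2) ≤
    (5 / 8 * D * 8 + k / 2 * (4 / 3) * D * 2 + (9 * (2 * (64 / 27)) * D * 2 + 6 * D * (16 / 9))) *
      La ^ 4 * v := by
  have hta0 : 0 < ta := by linarith
  have hlam0 : 0 < lam := by linarith
  have hr0 : 0 < r := by linarith
  have hD0 : 0 < D := by linarith
  have hL0 : 0 < La := by linarith
  have hM0 : 0 ≤ M := by rw [hM]; positivity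
  have La34 : La ^ 3 ≤ La ^ 4 := pow_le_pow_right₀ hLa (by norm_num)
  have La14 : La ≤ La ^ 4 := le_self_pow₀ hLa (by norm_num)
  have hv0 : 0 < v := by rw [hv]; positivity
  have hw0 : 0 < r * ta / lam := by positivity
  have hwv : (r * ta / lam) * v = 1 := by rw [hv]; exact ar_wv hlam0 hr0 hta0
  have h1 := ar_1 hr hta htl
  rw [← hv] at h1
  have h2 := ar_2 (lam := lam) (r := r) hta
  have h5 := ar_5 hw0 hv0 (ar_w hlam0 htl) hwv
  have t1 : r ^ 2 / (4 * lam ^ 2) * (2 * |T| * D) ≤ 5 / 8 * D * 8 * La ^ 4 * v := by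
    calc r ^ 2 / (4 * lam ^ 2) * (2 * |T| * D) = (1 / 2 * (r / lam) ^ 2 * D) * |T| := by ring
      _ ≤ (1 / 2 * (r / lam) ^ 2 * D) * (5 / 4 * ta) := mul_le_mul_of_nonneg_left hT (by positivity)
      _ = (5 / 8 * D) * ((r / lam) ^ 2 * ta) := by ring
      _ ≤ (5 / 8 * D) * (8 * La ^ 3 * v) := mul_le_mul_of_nonneg_left (h2.trans h5) (by positivity)
      _ = (5 / 8 * D * 8 * v) * La ^ 3 := by ring
      _ ≤ (5 / 8 * D * 8 * v) * La ^ 4 := mul_le_mul_of_nonneg_left La34 (by positivity)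
      _ = _ := by ring
  have t2 : k / 2 * (M * D) ≤ k / 2 * (4 / 3) * D * 2 * La ^ 4 * v := by
    calc k / 2 * (M * D) = (k / 2 * (4 / 3) * D) * (1 / ta) := by rw [hM]; ring
      _ ≤ (k / 2 * (4 / 3) * D) * (2 * La * v) := mul_le_mul_of_nonneg_left h1 (by positivity)
      _ = (k / 2 * (4 / 3) * D * 2 * v) * La := by ring
      _ ≤ (k / 2 * (4 / 3) * D * 2 * v) * La ^ 4 := mul_le_mul_of_nonneg_left La14 (by positivity)
      _ = _ := by ring
  have hlm : lam ^ 2 / r ^ 2 * M ^ 2 = 16 / 9 * v ^ 2 := by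
    rw [hM, hv]
    field_simp
    ring
  have hWv : W * v = 3 * La := by
    rw [hW]
    calc 3 * La * (r * ta / lam) * v = 3 * La * ((r * ta / lam) * v) := by ring
      _ = _ := by rw [hwv, mul_one]
  have t3 : lam ^ 2 / r ^ 2 * (|S| * (2 * M ^ 3 * D) + 2 * W * D * M ^ 2) ≤
      (9 * (2 * (64 / 27)) * D * 2 + 6 * D * (16 / 9)) * La ^ 4 * v := by
    have s1 : lam ^ 2 / r ^ 2 * (|S| * (2 * M ^ 3 * D)) ≤ 9 * (2 * (64 / 27)) * D * 2 * La ^ 4 * v := by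
      calc lam ^ 2 / r ^ 2 * (|S| * (2 * M ^ 3 * D))
          = (lam ^ 2 / r ^ 2 * M ^ 2 * (2 * M * D)) * |S| := by ring
        _ ≤ (lam ^ 2 / r ^ 2 * M ^ 2 * (2 * M * D)) * W ^ 2 :=
            mul_le_mul_of_nonneg_left hS (by positivity)
        _ = 16 / 9 * (2 * (4 / 3) * D) * (W * v) ^ 2 * (1 / ta) := by rw [hlm, hM]; ring
        _ = (9 * (2 * (64 / 27)) * D * La ^ 2) * (1 / ta) := by rw [hWv]; ring
        _ ≤ (9 * (2 * (64 / 27)) * D * La ^ 2) * (2 * La * v) :=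
            mul_le_mul_of_nonneg_left h1 (by positivity)
        _ = (9 * (2 * (64 / 27)) * D * 2 * v) * La ^ 3 := by ring
        _ ≤ (9 * (2 * (64 / 27)) * D * 2 * v) * La ^ 4 := mul_le_mul_of_nonneg_left La34 (by positivity)
        _ = _ := by ring
    have s2 : lam ^ 2 / r ^ 2 * (2 * W * D * M ^ 2) ≤ 6 * D * (16 / 9) * La ^ 4 * v := by
      calc lam ^ 2 / r ^ 2 * (2 * W * D * M ^ 2) = 2 * D * (lam ^ 2 / r ^ 2 * M ^ 2) * W := by ring
        _ = 2 * D * (16 / 9) * v * (W * v) := by rw [hlm]; ring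
        _ = (6 * D * (16 / 9) * v) * La := by rw [hWv]; ring
        _ ≤ (6 * D * (16 / 9) * v) * La ^ 4 := mul_le_mul_of_nonneg_left La14 (by positivity)
        _ = _ := by ring
    calc _ = lam ^ 2 / r ^ 2 * (|S| * (2 * M ^ 3 * D)) + lam ^ 2 / r ^ 2 * (2 * W * D * M ^ 2) := by ring
      _ ≤ _ := add_le_add s1 s2
      _ = _ := by ring
  calc _ ≤ _ := add_le_add (add_le_add t1 t2) t3
    _ = _ := by ring

lemma fin2 {C C' a b : ℝ} (h : C ≤ C') (ha : 0 ≤ a) (hb : 0 ≤ b) : C * a * b ≤ C' * a * b :=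
  mul_le_mul_of_nonneg_right (mul_le_mul_of_nonneg_right h ha) hb

lemma fin3 {C C' a b c : ℝ} (h : C ≤ C') (ha : 0 ≤ a) (hb : 0 ≤ b) (hc : 0 ≤ c) :
    C * a * b * c ≤ C' * a * b * c :=
  mul_le_mul_of_nonneg_right (fin2 h ha hb) hc

end arith

section slice2
variable {m : ℕ} {ch : Chart (m + 1)} {om : EE (m + 2)} {e : EE (m + 1)} {L : EE m →ₗᵢ[ℝ] EE (m + 1)}

/-- the difference of two blocks -/
lemma diff (h : Slice ch om e L) {N : ℕ} {D : ℝ} (hD1 : 1 ≤ D) (hN : 1 ≤ N)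
    (hD : ∀ q : EE (m + 1), ‖q‖ ≤ 4 * ch.dl → ∀ j : ℕ, j ≤ N → ‖iteratedFDeriv ℝ j ch.X q‖ ≤ D)
    {sg sg' : ℝ} {zt : EE (m + 2)} {b1 b2 b' : EE m} (hsg : |sg| ≤ 2 * ch.dl) (hsg' : |sg'| ≤ 2 * ch.dl)
    (hb1 : ‖b1‖ ≤ 2 * ch.dl) (hb2 : ‖b2‖ ≤ 2 * ch.dl) (hb' : ‖b'‖ ≤ 3 * ch.dl)
    (hz : 1 ≤ |(inner ℝ om zt : ℝ)|) {W : ℝ} (hW : 0 ≤ W)
    (hq : pq om (xd ch e L zt sg sg' b2 b') ≤ W ^ 2) :
    ∃ c : ℝ, |c| ≤ D * ‖b1 - b2‖ ∧
      (∀ y, (inner ℝ om (xd ch e L zt sg sg' b1 y) : ℝ) = inner ℝ om (xd ch e L zt sg sg' b2 y) + c) ∧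
      Bd N (fun y => pq om (xd ch e L zt sg sg' b1 y) - pq om (xd ch e L zt sg sg' b2 y)) b'
        ((2 * W + 2 * D + 1) * (D * ‖b1 - b2‖)) := by
  have hdl := ch.dl_pos
  obtain ⟨cx, -, -, bx, -, -, -, -, -, -⟩ := block h hD1 hN hD hsg hsg' hb2 hb' hz hW hq
  have cp : ContDiff ℝ ∞ (fun y => PP om (xd ch e L zt sg sg' b2 y)) := (PP om).contDiff.comp cx
  have bp : Be N (fun y => PP om (xd ch e L zt sg sg' b2 y)) b' D := by
    have := Be.clm cx bx (PP om) (opNorm_PP h.om_one)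
    simpa using this
  have np : ‖PP om (xd ch e L zt sg sg' b2 b')‖ ≤ W := by
    have h1 := norm_PP_sq h.om_one (xd ch e L zt sg sg' b2 b')
    exact le_of_sq_le_sq (by rw [h1]; exact hq) hW
  set Dl : EE (m + 2) := ch.X (sl e L sg b1) - ch.X (sl e L sg b2) with hDl
  have m1 : sl e L sg b1 ∈ Metric.closedBall (0 : EE (m + 1)) (4 * ch.dl) := by
    rw [mem_closedBall_zero_iff]
    exact sl_norm h hsg (by linarith)
  have m2 : sl e L sg b2 ∈ Metric.closedBall (0 : EE (m + 1)) (4 * ch.dl) := by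
    rw [mem_closedBall_zero_iff]
    exact sl_norm h hsg (by linarith)
  have nD : ‖Dl‖ ≤ D * ‖b1 - b2‖ := by
    have h1 := (convex_closedBall (0 : EE (m + 1)) (4 * ch.dl)).norm_image_sub_le_of_norm_fderiv_le
      (f := ch.X) (𝕜 := ℝ) (C := D) (fun x _ => ch.smooth.differentiable (by simp) x) (fun x hx => by
        have := hD x (by simpa using hx) 1 hN
        rwa [norm_iteratedFDeriv_one] at this) m2 m1
    refine h1.trans (le_of_eq ?_)
    congr 1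
    unfold sl
    rw [add_sub_add_left_eq_sub, ← map_sub, L.norm_map]
  have nD4 : ‖Dl‖ ≤ 1 / 4 :=
    ch.diam _ _ (by simpa using m1) (by simpa using m2)
  have ex : ∀ y, xd ch e L zt sg sg' b1 y = xd ch e L zt sg sg' b2 y + Dl := by
    intro y
    rw [hDl]
    unfold xd
    abel
  refine ⟨inner ℝ om Dl, ?_, fun y => by rw [ex y, inner_add_right], ?_⟩
  · refine (abs_real_inner_le_norm _ _).trans ?_
    rw [h.om_one, one_mul]
    exact nD
  · have e1 : (fun y => pq om (xd ch e L zt sg sg' b1 y) - pq om (xd ch e L zt sg sg' b2 y)) = fun y =>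
        ((2 : ℝ) • innerSL ℝ Dl) (PP om (xd ch e L zt sg sg' b2 y)) + pq om Dl := by
      funext y
      rw [ex y, pq_add, smul_apply, innerSL_apply_apply, smul_eq_mul,
        real_inner_comm]
      ring
    rw [e1]
    have hn : ‖(2 : ℝ) • innerSL ℝ Dl‖ ≤ 2 * ‖Dl‖ := by
      rw [norm_smul, innerSL_apply_norm]
      norm_num
    have hp0 := pq_nonneg h.om_one Dl
    have hp1 := pq_le (om := om) Dl
    have hD0 := norm_nonneg Dl
    refine Bd.mono (B := (2 * W + 2 * D + 1) * ‖Dl‖) (Bd.mk ?_ ((Be.clm cp bp _ hn).add_const _ |>.mono ?_))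
      (mul_le_mul_of_nonneg_left nD (by positivity))
    · refine (norm_add_le _ _).trans ?_
      have h1 := ((2 : ℝ) • innerSL ℝ Dl).le_opNorm (PP om (xd ch e L zt sg sg' b2 b'))
      have h2 : ‖(2 : ℝ) • innerSL ℝ Dl‖ * ‖PP om (xd ch e L zt sg sg' b2 b')‖ ≤ 2 * ‖Dl‖ * W :=
        mul_le_mul hn np (norm_nonneg _) (by positivity)
      rw [Real.norm_eq_abs (pq om Dl), abs_of_nonneg hp0]
      nlinarith
    · nlinarith

end slice2

theorem specDB : SpecDB := by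
  intro m ch N0
  -- we may assume `N ≥ 1`
  obtain ⟨N, hN1, hN0⟩ : ∃ N : ℕ, 1 ≤ N ∧ N0 ≤ N := ⟨N0 + 1, by omega, by omega⟩
  obtain ⟨D, hD1, hD⟩ := exD ch N
  have hD0 : 0 < D := by linarith
  have hK := KK_pos N
  have hk0 : (0 : ℝ) ≤ ((m + 1 : ℕ) : ℝ) := Nat.cast_nonneg _
  have hF0 : (0 : ℝ) ≤ (N.factorial : ℝ) := Nat.cast_nonneg _
  have hP0 : (0 : ℝ) ≤ 2 ^ N := by positivity
  have hDN : (0 : ℝ) ≤ D ^ N := by positivity
  obtain ⟨g0, hg0⟩ : ∃ g0 : ℝ, g0 = N.factorial * KK N * D ^ N := ⟨_, rfl⟩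
  have hg0p : 0 ≤ g0 := by rw [hg0]; positivity
  obtain ⟨C1, hC1⟩ : ∃ C : ℝ, C = (((m + 1 : ℕ) : ℝ) / 2 * (N.factorial * (D * (2 ^ N * KK N * KK N)) * D ^ N) *
    (16 / 9) + 1 / 2 * (2 ^ N * (15 * D ^ 2) * g0) * (4 / 3) +
      1 / 2 * D * (2 ^ N * (2 ^ N * (49 * D ^ 2)) * (2 ^ N * g0 * g0)) * (16 / 9)) := ⟨_, rfl⟩
  obtain ⟨C2, hC2⟩ : ∃ C : ℝ, C = (1 / 4 * (2 ^ N * (81 / 16) * D ^ 2) * 16 +
    ((m + 1 : ℕ) : ℝ) / 2 * (N.factorial * KK N * D ^ N) * (4 / 3) * 4 +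
      2 ^ N * (2 ^ N * (49 * D ^ 2)) * (2 ^ N * g0 * g0) * (16 / 9)) := ⟨_, rfl⟩
  obtain ⟨C3, hC3⟩ : ∃ C : ℝ, C = (5 / 8 * D * 8 + ((m + 1 : ℕ) : ℝ) / 2 * (4 / 3) * D * 2 +
    (9 * (2 * (64 / 27)) * D * 2 + 6 * D * (16 / 9))) := ⟨_, rfl⟩
  have p1 : 0 ≤ C1 := by rw [hC1]; positivity
  have p2 : 0 ≤ C2 := by rw [hC2]; positivity
  have p3 : 0 ≤ C3 := by rw [hC3]; positivity
  refine ⟨1 + C1 + C2 + C3, by linarith, ?_⟩
  intro om e L hS lam r La sg sg' zt b1 b2 b' hlam hr hLa htz htr htl hsg hsg' hb1 hb2 hb' hq1 hq2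
  have hl0 : 0 < lam := by linarith
  have hr0 : 0 < r := by linarith
  have hL0 : 0 < La := by linarith
  obtain ⟨ta, hta⟩ : ∃ ta : ℝ, ta = |(inner ℝ om zt : ℝ)| := ⟨_, rfl⟩
  rw [← hta] at htz htr htl hq1 hq2 ⊢
  have ht0 : 0 < ta := by linarith
  obtain ⟨W, hW⟩ : ∃ W : ℝ, W = 3 * La * (r * ta / lam) := ⟨_, rfl⟩
  rw [← hW] at hq1 hq2
  have hW0 : 0 ≤ W := by rw [hW]; positivity
  have hw2 := ar_w hl0 htl
  have hW6 : W ≤ 6 * La ^ 2 := by
    rw [hW]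
    calc 3 * La * (r * ta / lam) ≤ 3 * La * (2 * La) := mul_le_mul_of_nonneg_left hw2 (by positivity)
      _ = _ := by ring
  obtain ⟨cx1, ct1, cs1, bx1, bt1, Bt1, Bs1, fs1, l1, u1⟩ :=
    block hS hD1 hN1 hD hsg hsg' hb1 hb' (by rw [← hta]; exact htz) hW0 hq1
  obtain ⟨cx2, ct2, cs2, bx2, bt2, Bt2, Bs2, fs2, l2, u2⟩ :=
    block hS hD1 hN1 hD hsg hsg' hb2 hb' (by rw [← hta]; exact htz) hW0 hq2
  obtain ⟨c, hc, hTT, Bds⟩ := diff hS hD1 hN1 hD hsg hsg' hb1 hb2 hb' (by rw [← hta]; exact htz) hW0 hq2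
  rw [← hta] at Bt1 l1 u1 l2
  obtain ⟨M, hM⟩ : ∃ M : ℝ, M = 4 / 3 / ta := ⟨_, rfl⟩
  have hM0 : 0 < M := by rw [hM]; positivity
  have hM1 : M ≤ 4 / 3 := by
    rw [hM, div_le_iff₀ ht0]
    linarith
  have hMi : M⁻¹ = 3 / 4 * ta := by
    rw [hM]
    field_simp
  have g1 : ‖gg (zz lam r) (inner ℝ om (xd ch e L zt sg sg' b1 b'))‖ ≤ M :=
    norm_gg_le hM0 (by rw [hMi]; exact l1)
  have g2 : ‖gg (zz lam r) (inner ℝ om (xd ch e L zt sg sg' b2 b'))‖ ≤ M :=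
    norm_gg_le hM0 (by rw [hMi]; exact l2)
  obtain ⟨v, hv⟩ : ∃ v : ℝ, v = lam / (r * ta) := ⟨_, rfl⟩
  have hv0 : 0 < v := by rw [hv]; positivity
  rw [← hv]
  refine ⟨fun j h1 hj => ?_, fun j h1 hj => ?_, ?_⟩
  · have h := abs_im (k := m + 1) hl0 hr0 ct1 ct2 cs1 cs2 hTT hD1 bt2 Bds Bs2 g1 g2 hM1 j h1 (hj.trans hN0)
    refine h.trans ?_
    have hh := part1 (k := ((m + 1 : ℕ) : ℝ)) hk0 hF0 hP0 hK.le hD1 hDN (norm_nonneg (b1 - b2)) hc hlam hLa
      htz hW0 hW6 hM hg0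
    rw [← hC1] at hh
    exact hh.trans (fin3 (by linarith) (by positivity) (by positivity) (norm_nonneg _))
  · have h := abs_re (k := m + 1) hl0 hr0 ct1 cs1 hD1 bt1 Bt1 Bs1 g1 hM1 j (by omega) (hj.trans hN0)
    refine h.trans ?_
    have hh := part2 (k := ((m + 1 : ℕ) : ℝ)) hk0 hF0 hP0 hK.le hD1 hDN hlam hr hLa
      htz hW0 hW6 hM hg0 hv htl
    rw [← hC2] at hh
    exact hh.trans (fin2 (by linarith) (by positivity) (by positivity))
  · have ft : ‖fderiv ℝ (fun y => (inner ℝ om (xd ch e L zt sg sg' b1 y) : ℝ)) b'‖ ≤ D := by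
      have := bt1 1 le_rfl hN1
      rwa [norm_iteratedFDeriv_one] at this
    have h := abs_re1 (k := m + 1) hl0 hr0 ct1 cs1 ft fs1 g1
    refine h.trans ?_
    have hS2 : |pq om (xd ch e L zt sg sg' b1 b')| ≤ W ^ 2 := by
      rw [abs_of_nonneg (pq_nonneg hS.om_one _)]
      exact hq1
    have hh := part3 (k := ((m + 1 : ℕ) : ℝ)) hk0 hD1 hlam hr hLa htz hW hM hv htl u1 hS2
    rw [← hC3] at hh
    exact hh.trans (fin2 (by linarith) (by positivity) (by positivity))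

end Pool.Agent.Lib.MP_a8dae7_an.CG.DBM
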