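import Pool.Agent.Lib.MP_a8dae7_an.CG.Spec

/-!
# CG, module FIN: from the charts to the hypersurface

For an arbitrary exponent `x`: `fin_gen`.
-/

set_option autoImplicit false

open MeasureTheory
open scoped ContDiff ENNReal

namespace Pool.Agent.Lib.MP_a8dae7_an.CG.FINM

open Pool.Agent.Lib.MP_a8dae7_an.CV

theorem continuous_ex {d : ℕ} (n : EE d) : Continuous (ex n) := by
  unfold ex
  have h1 : Continuous fun x : EE d => (inner ℝ n x : ℝ) := continuous_const.inner continuous_id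
  exact Complex.continuous_exp.comp (continuous_const.mul (Complex.continuous_ofReal.comp h1))

theorem continuous_es {d : ℕ} (s : Finset (Fin d → ℤ)) (a : (Fin d → ℤ) → ℂ) : Continuous (es s a) := by
  unfold es
  exact continuous_finsetSum _ fun n _ => continuous_const.mul (continuous_ex _)

/-- the set is covered by finitely many charts -/
theorem cover (hIG : SpecIG) {k : ℕ} {Sg : Set (EE (k + 1))} (hS : SmoothHyp Sg) :
    ∃ (ι : Type) (_ : Fintype ι) (ch : ι → Chart k),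
      Sg ⊆ ⋃ i, (ch i).X '' Metric.closedBall 0 (ch i).dl := by
  classical
  obtain ⟨hc, hp⟩ := hS
  choose ch rho hrho hch using fun (p : EE (k + 1)) (h : p ∈ Sg) => hIG k Sg p (hp p h)
  obtain ⟨t, ht⟩ := hc.elim_nhds_subcover' (fun p h => Metric.ball p (rho p h))
    (fun p h => Metric.ball_mem_nhds p (hrho p h))
  refine ⟨t, inferInstance, fun i => ch i.1.1 i.1.2, fun x hx => ?_⟩
  obtain ⟨p, hpt, hxp⟩ := Set.mem_iUnion₂.1 (ht hx)
  have h1 : ‖x - p.1‖ < rho p.1 p.2 := by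
    have h2 : x ∈ Metric.ball p.1 (rho p.1 p.2) := hxp
    rwa [mem_ball_iff_norm] at h2
  obtain ⟨q, hq, hxq⟩ := hch p.1 p.2 x hx h1
  refine Set.mem_iUnion.2 ⟨⟨p, hpt⟩, q, ?_, hxq⟩
  rw [mem_closedBall_zero_iff]
  exact hq

/-- the inequality with the exponent `x` on a chart -/
def CX {m : ℕ} (ch : Chart (m + 1)) (x : ℝ) : Prop :=
  ∃ C : ℝ, 0 < C ∧ ∀ (lam : ℝ) (s : Finset (Fin (m + 2) → ℤ)) (a : (Fin (m + 2) → ℤ) → ℂ), 1 ≤ lam →
  (∀ n ∈ s, ‖zv n‖ = lam) →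
  ∫ q in Metric.closedBall (0 : EE (m + 1)) ch.dl, ‖es s a (ch.X q)‖ ^ 2 ≤
    C * lam ^ x * ∑ n ∈ s, ‖a n‖ ^ 2

/-- one chart -/
theorem chart (hHM : SpecHM) {m : ℕ} (ch : Chart (m + 1)) (x : ℝ) (hC : CX ch x) :
    ∃ C : ℝ, 0 < C ∧ ∀ (lam : ℝ) (s : Finset (Fin (m + 2) → ℤ)) (a : (Fin (m + 2) → ℤ) → ℂ), 1 ≤ lam →
    (∀ n ∈ s, ‖zv n‖ = lam) →
    ∫⁻ y in ch.X '' Metric.closedBall 0 ch.dl, ENNReal.ofReal (‖es s a y‖ ^ 2)
      ∂(Measure.hausdorffMeasure ((m + 1 : ℕ) : ℝ)) ≤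
      ENNReal.ofReal (C * lam ^ x * ∑ n ∈ s, ‖a n‖ ^ 2) := by
  obtain ⟨C1, hC1, h1⟩ := hC
  obtain ⟨C2, hC2, h2⟩ := hHM (m + 1) ch.X ch.dl ch.smooth
  refine ⟨C2 * C1, mul_pos hC2 hC1, fun lam s a hlam hs => ?_⟩
  have hcont : Continuous fun x : EE (m + 1 + 1) => ‖es s a x‖ ^ 2 :=
    (continuous_es s a).norm.pow 2
  have hmeas : Measurable fun x : EE (m + 1 + 1) => ENNReal.ofReal (‖es s a x‖ ^ 2) :=
    hcont.measurable.ennreal_ofReal
  have hcq : Continuous fun q : EE (m + 1) => ‖es s a (ch.X q)‖ ^ 2 :=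
    hcont.comp ch.smooth.continuous
  have h3 : ∫⁻ q in Metric.closedBall 0 ch.dl, ENNReal.ofReal (‖es s a (ch.X q)‖ ^ 2) =
      ENNReal.ofReal (∫ q in Metric.closedBall (0 : EE (m + 1)) ch.dl, ‖es s a (ch.X q)‖ ^ 2) := by
    rw [ofReal_integral_eq_lintegral_ofReal]
    · exact hcq.continuousOn.integrableOn_compact (isCompact_closedBall _ _)
    · exact Filter.Eventually.of_forall fun q => by positivity
  calc _ ≤ ENNReal.ofReal C2 * ∫⁻ q in Metric.closedBall 0 ch.dl,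
        ENNReal.ofReal (‖es s a (ch.X q)‖ ^ 2) := h2 _ hmeas
    _ = ENNReal.ofReal (C2 * ∫ q in Metric.closedBall (0 : EE (m + 1)) ch.dl,
        ‖es s a (ch.X q)‖ ^ 2) := by rw [h3, ← ENNReal.ofReal_mul hC2.le]
    _ ≤ ENNReal.ofReal (C2 * C1 * lam ^ x * ∑ n ∈ s, ‖a n‖ ^ 2) := by
        refine ENNReal.ofReal_le_ofReal ?_
        have h4 := mul_le_mul_of_nonneg_left (h1 lam s a hlam hs) hC2.le
        calc _ ≤ _ := h4
          _ = _ := by ring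

/-- from the charts to the set, any exponent -/
theorem fin_gen (hIG : SpecIG) (hHM : SpecHM) (m : ℕ) (x : ℝ)
    (hC : ∀ ch : Chart (m + 1), CX ch x) (Sg : Set (EE (m + 2))) (hS : SmoothHyp Sg) :
    ∃ C : ℝ, 0 < C ∧ ∀ (lam : ℝ) (s : Finset (Fin (m + 2) → ℤ)) (a : (Fin (m + 2) → ℤ) → ℂ), 1 ≤ lam →
    (∀ n ∈ s, ‖zv n‖ = lam) →
    ∫⁻ y in Sg, ENNReal.ofReal (‖es s a y‖ ^ 2) ∂(Measure.hausdorffMeasure ((m + 1 : ℕ) : ℝ)) ≤
      ENNReal.ofReal (C * lam ^ x * ∑ n ∈ s, ‖a n‖ ^ 2) := by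
  obtain ⟨ι, hι, ch, hcov⟩ := cover hIG (k := m + 1) hS
  choose C hC0 hCb using fun i => chart hHM (ch i) x (hC (ch i))
  refine ⟨∑ i, C i + 1, by
    have : 0 ≤ ∑ i, C i := Finset.sum_nonneg fun i _ => (hC0 i).le
    linarith, fun lam s a hlam hs => ?_⟩
  set F : EE (m + 2) → ℝ≥0∞ := fun x => ENNReal.ofReal (‖es s a x‖ ^ 2) with hF
  set mu : Measure (EE (m + 2)) := Measure.hausdorffMeasure ((m + 1 : ℕ) : ℝ) with hmu
  have hsum0 : 0 ≤ ∑ n ∈ s, ‖a n‖ ^ 2 := Finset.sum_nonneg fun n _ => by positivity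
  have hl0 : 0 ≤ lam ^ x := Real.rpow_nonneg (by linarith) _
  calc ∫⁻ x in Sg, F x ∂mu ≤ ∫⁻ x in ⋃ i, (ch i).X '' Metric.closedBall 0 (ch i).dl, F x ∂mu :=
        lintegral_mono_set hcov
    _ ≤ ∑' i, ∫⁻ x in (ch i).X '' Metric.closedBall 0 (ch i).dl, F x ∂mu :=
        lintegral_iUnion_le _ _
    _ = ∑ i, ∫⁻ x in (ch i).X '' Metric.closedBall 0 (ch i).dl, F x ∂mu := tsum_fintype _
    _ ≤ ∑ i, ENNReal.ofReal (C i * lam ^ x * ∑ n ∈ s, ‖a n‖ ^ 2) :=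
        Finset.sum_le_sum fun i _ => hCb i lam s a hlam hs
    _ = ENNReal.ofReal (∑ i, C i * lam ^ x * ∑ n ∈ s, ‖a n‖ ^ 2) := by
        rw [ENNReal.ofReal_sum_of_nonneg]
        exact fun i _ => mul_nonneg (mul_nonneg (hC0 i).le hl0) hsum0
    _ ≤ ENNReal.ofReal ((∑ i, C i + 1) * lam ^ x * ∑ n ∈ s, ‖a n‖ ^ 2) := by
        refine ENNReal.ofReal_le_ofReal ?_
        rw [← Finset.sum_mul, ← Finset.sum_mul]
        have h5 : ∑ i, C i ≤ ∑ i, C i + 1 := by linarith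
        exact mul_le_mul_of_nonneg_right (mul_le_mul_of_nonneg_right h5 hl0) hsum0

theorem specFIN (hC : SpecC) (hIG : SpecIG) (hHM : SpecHM) : SpecFIN := fun m Sg hS eps heps =>
  fin_gen hIG hHM m (1 / 3 + eps) (fun ch => hC m ch eps heps) Sg hS

end Pool.Agent.Lib.MP_a8dae7_an.CG.FINM
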