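import Pool.Agent.Lib.MP_a8dae7_an.CG.Spec
import Pool.Agent.Lib.MP_a8dae7_an.CV.KN

/-!
# MP_a8dae7_an, CG (copy of CV for graph charts): module GB, lower bound of the gradient of the imaginary part
-/

set_option autoImplicit false

open scoped ContDiff

namespace Pool.Agent.Lib.MP_a8dae7_an.CG.GBM

open Pool.Agent.Lib.MP_a8dae7_an.CV

open Pool.Agent.Lib.MP_a8dae7_an.CV

/-- `t - i k0` -/
noncomputable def ss (lam r t : ℝ) : ℂ := ((t : ℝ) : ℂ) - Complex.I * ((2 * lam / r ^ 2 : ℝ) : ℂ)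

theorem AA_eq (lam r t : ℝ) (hl : 0 < lam) :
    AA lam r t = Complex.I / (2 * (lam : ℂ)) * ss lam r t := by
  have h1 : (lam : ℂ) ≠ 0 := by exact_mod_cast hl.ne'
  unfold AA ss
  push_cast
  rcases eq_or_ne r 0 with h | h
  · subst h
    simp
    ring
  · have h2 : (r : ℂ) ≠ 0 := by exact_mod_cast h
    field_simp
    ring_nf
    rw [Complex.I_sq]
    ring

theorem ss_re (lam r t : ℝ) : (ss lam r t).re = t := by
  unfold ss
  rw [Complex.sub_re, Complex.ofReal_re, Complex.mul_re, Complex.I_re, Complex.I_im,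
    Complex.ofReal_re, Complex.ofReal_im]
  ring

theorem ss_im (lam r t : ℝ) : (ss lam r t).im = -(2 * lam / r ^ 2) := by
  unfold ss
  rw [Complex.sub_im, Complex.ofReal_im, Complex.mul_im, Complex.I_re, Complex.I_im,
    Complex.ofReal_re, Complex.ofReal_im]
  ring

theorem ss_norm (lam r t : ℝ) : |t| ≤ ‖ss lam r t‖ := by
  have := Complex.abs_re_le_norm (ss lam r t)
  rwa [ss_re] at this

theorem ss_ne (lam r t : ℝ) (hl : 0 < lam) (hr : 0 < r) : ss lam r t ≠ 0 := by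
  intro h
  have h1 := ss_im lam r t
  rw [h] at h1
  simp only [Complex.zero_im] at h1
  have : 0 < 2 * lam / r ^ 2 := by positivity
  linarith

theorem AA_slit (lam r t : ℝ) (hr : 0 < r) : AA lam r t ∈ Complex.slitPlane := by
  left
  rw [KNM.AA_re]
  positivity

/-! ## Linear algebra -/

theorem pi2_eq {d : ℕ} (om x y : EE d) :
    pi2 om x y = inner ℝ (x - (inner ℝ om x : ℝ) • om) y := by
  unfold pi2
  rw [inner_sub_left, inner_smul_left]
  simp

theorem pq_eq {d : ℕ} (om x : EE d) (h : ‖om‖ = 1) :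
    pq om x = ‖x - (inner ℝ om x : ℝ) • om‖ ^ 2 := by
  unfold pq
  rw [@norm_sub_sq_real, norm_smul, h, inner_smul_right, Real.norm_eq_abs, mul_one, sq_abs,
    real_inner_comm]
  ring

theorem pq_nonneg {d : ℕ} (om x : EE d) (h : ‖om‖ = 1) : 0 ≤ pq om x := by
  rw [pq_eq om x h]
  positivity

theorem pi2_le {d : ℕ} (om x y : EE d) (h : ‖om‖ = 1) {B : ℝ} (hB : 0 ≤ B) (hx : pq om x ≤ B ^ 2) :
    |pi2 om x y| ≤ B * ‖y‖ := by
  rw [pi2_eq]
  refine (abs_real_inner_le_norm _ _).trans ?_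
  refine mul_le_mul_of_nonneg_right ?_ (norm_nonneg _)
  rw [pq_eq om x h] at hx
  exact (abs_le_of_sq_le_sq' hx hB).2

theorem pi2_comm {d : ℕ} (om x y : EE d) : pi2 om x y = pi2 om y x := by
  unfold pi2
  rw [real_inner_comm]
  ring

theorem pi2_sub_left {d : ℕ} (om x y z : EE d) : pi2 om (x - y) z = pi2 om x z - pi2 om y z := by
  unfold pi2
  rw [inner_sub_left, inner_sub_right]
  ring

theorem pq_sub {d : ℕ} (om x y : EE d) : pq om x - pq om y = pi2 om x (x - y) + pi2 om y (x - y) := by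
  unfold pq pi2
  rw [inner_sub_right, inner_sub_right, inner_sub_right, real_inner_self_eq_norm_sq,
    real_inner_self_eq_norm_sq, real_inner_comm x y]
  ring

theorem pi2_neg {d : ℕ} (om x y : EE d) : pi2 om x (-y) = -pi2 om x y := by
  unfold pi2
  rw [inner_neg_right, inner_neg_right]
  ring

/-! ## The derivative of `FF` along a curve -/

theorem hasDerivAt_FF {k : ℕ} (om : EE (k + 1)) (lam r : ℝ) (hl : 0 < lam) (hr : 0 < r)
    {x : ℝ → EE (k + 1)} {x' : EE (k + 1)} {s : ℝ} (hx : HasDerivAt x x' s) :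
    HasDerivAt (fun s => FF om lam r (x s))
      (-((2 * inner ℝ om (x s) * inner ℝ om x' * r ^ 2 / (4 * lam ^ 2) : ℝ) : ℂ) -
        (k : ℂ) / 2 * (((inner ℝ om x' : ℝ) : ℂ) / ss lam r (inner ℝ om (x s))) +
        Complex.I * lam * ((pi2 om (x s) x' : ℝ) : ℂ) / ss lam r (inner ℝ om (x s)) -
        Complex.I * lam / 2 * ((pq om (x s) : ℝ) : ℂ) * ((inner ℝ om x' : ℝ) : ℂ) /
          ss lam r (inner ℝ om (x s)) ^ 2) s := by
  have hlC : (lam : ℂ) ≠ 0 := by exact_mod_cast hl.ne'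
  have hs := ss_ne lam r (inner ℝ om (x s)) hl hr
  have ht : HasDerivAt (fun s => inner ℝ om (x s)) (inner ℝ om x') s := by
    have := (hasDerivAt_const s om).inner ℝ hx
    simpa using this
  have hn : HasDerivAt (fun s => ‖x s‖ ^ 2) (2 * inner ℝ (x s) x') s := hx.norm_sq
  have hp : HasDerivAt (fun s => pq om (x s)) (2 * pi2 om (x s) x') s := by
    have h := hn.sub (ht.pow 2)
    refine (h.congr_deriv ?_)
    unfold pi2
    push_cast
    ring
  have hA : HasDerivAt (fun s => AA lam r (inner ℝ om (x s)))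
      (Complex.I * ((inner ℝ om x' / (2 * lam) : ℝ) : ℂ)) s := by
    have h := (((ht.div_const (2 * lam)).ofReal_comp).const_mul Complex.I).const_add
      (((1 / r ^ 2 : ℝ) : ℂ))
    exact h
  have hlog := hA.clog_real (AA_slit lam r (inner ℝ om (x s)) hr)
  have hAne : AA lam r (inner ℝ om (x s)) ≠ 0 := by
    rw [AA_eq lam r _ hl]
    refine mul_ne_zero (div_ne_zero Complex.I_ne_zero (mul_ne_zero two_ne_zero hlC)) hs
  have h4 : 4 * AA lam r (inner ℝ om (x s)) ≠ 0 := mul_ne_zero (by norm_num) hAne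
  have h1 : HasDerivAt (fun s => ((inner ℝ om (x s) ^ 2 * r ^ 2 / (4 * lam ^ 2) : ℝ) : ℂ))
      ((2 * inner ℝ om (x s) * inner ℝ om x' * r ^ 2 / (4 * lam ^ 2) : ℝ) : ℂ) s := by
    have h := ((((ht.pow 2).mul_const (r ^ 2)).div_const (4 * lam ^ 2))).ofReal_comp
    refine h.congr_deriv ?_
    congr 1
    push_cast
    ring
  have h3 : HasDerivAt (fun s => ((pq om (x s) : ℝ) : ℂ) / (4 * AA lam r (inner ℝ om (x s))))
      ((((2 * pi2 om (x s) x' : ℝ) : ℂ) * (4 * AA lam r (inner ℝ om (x s))) -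
        ((pq om (x s) : ℝ) : ℂ) * (4 * (Complex.I * ((inner ℝ om x' / (2 * lam) : ℝ) : ℂ)))) /
          (4 * AA lam r (inner ℝ om (x s))) ^ 2) s :=
    hp.ofReal_comp.div (hA.const_mul 4) h4
  have h := (h1.neg.sub (hlog.const_mul ((k : ℂ) / 2))).sub h3
  refine h.congr_deriv ?_
  rw [AA_eq lam r _ hl]
  push_cast
  have e1 : ∀ a : ℂ, Complex.I * (a / (2 * (lam : ℂ))) / (Complex.I / (2 * (lam : ℂ)) *
      ss lam r (inner ℝ om (x s))) = a / ss lam r (inner ℝ om (x s)) := by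
    intro a
    have hI := Complex.I_ne_zero
    field_simp
  rw [e1]
  have e2 : (2 * ((pi2 om (x s) x' : ℝ) : ℂ) * (4 * (Complex.I / (2 * (lam : ℂ)) *
      ss lam r (inner ℝ om (x s)))) - ((pq om (x s) : ℝ) : ℂ) * (4 * (Complex.I *
        (((inner ℝ om x' : ℝ) : ℂ) / (2 * (lam : ℂ)))))) /
      (4 * (Complex.I / (2 * (lam : ℂ)) * ss lam r (inner ℝ om (x s)))) ^ 2 =
      -(Complex.I * lam * ((pi2 om (x s) x' : ℝ) : ℂ) / ss lam r (inner ℝ om (x s)) -
        Complex.I * lam / 2 * ((pq om (x s) : ℝ) : ℂ) * ((inner ℝ om x' : ℝ) : ℂ) /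
          ss lam r (inner ℝ om (x s)) ^ 2) := by
    have hI := Complex.I_ne_zero
    have hI2 := Complex.I_sq
    field_simp
    rw [hI2]
    ring
  rw [e2]
  ring

/-! ## The main inequality -/

/-- the derivative of `FF` in terms of real data -/
noncomputable def dF (k : ℕ) (lam r re g p P t : ℝ) : ℂ :=
  -((re : ℝ) : ℂ) - (k : ℂ) / 2 * (((g : ℝ) : ℂ) / ss lam r t) +
    Complex.I * lam * ((p : ℝ) : ℂ) / ss lam r t -
    Complex.I * lam / 2 * ((P : ℝ) : ℂ) * ((g : ℝ) : ℂ) / ss lam r t ^ 2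

theorem inv_ss_norm (lam r t T : ℝ) (hT : 0 < T) (h : 3 / 4 * T ≤ |t|) :
    ‖(ss lam r t)⁻¹‖ ≤ 4 / (3 * T) := by
  rw [norm_inv]
  have h1 := (h.trans (ss_norm lam r t))
  calc ‖ss lam r t‖⁻¹ ≤ (3 / 4 * T)⁻¹ := inv_anti₀ (by positivity) h1
    _ = 4 / (3 * T) := by field_simp

theorem inv_ss_sub (lam r t1 t2 T : ℝ) (hl : 0 < lam) (hr : 0 < r) (hT : 0 < T)
    (h1 : 3 / 4 * T ≤ |t1|) (h2 : 3 / 4 * T ≤ |t2|) :
    ‖(ss lam r t1)⁻¹ - (ss lam r t2)⁻¹‖ ≤ |t1 - t2| * (2 / T ^ 2) := by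
  have e : (ss lam r t1)⁻¹ - (ss lam r t2)⁻¹ =
      (((t2 - t1 : ℝ)) : ℂ) * ((ss lam r t1)⁻¹ * (ss lam r t2)⁻¹) := by
    have n1 := ss_ne lam r t1 hl hr
    have n2 := ss_ne lam r t2 hl hr
    field_simp
    unfold ss
    push_cast
    ring
  rw [e, norm_mul, norm_mul, Complex.norm_real, Real.norm_eq_abs, abs_sub_comm]
  refine mul_le_mul_of_nonneg_left ?_ (abs_nonneg _)
  calc ‖(ss lam r t1)⁻¹‖ * ‖(ss lam r t2)⁻¹‖ ≤ 4 / (3 * T) * (4 / (3 * T)) :=
        mul_le_mul (inv_ss_norm lam r t1 T hT h1) (inv_ss_norm lam r t2 T hT h2)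
          (norm_nonneg _) (by positivity)
    _ = 16 / 9 * (1 / T ^ 2) := by field_simp; norm_num
    _ ≤ 2 * (1 / T ^ 2) := by
        refine mul_le_mul_of_nonneg_right (by norm_num) (by positivity)
    _ = 2 / T ^ 2 := by ring

theorem re_inv_ss (lam r t T : ℝ) (hl : 0 < lam) (hr : 0 < r) (hT : 0 < T)
    (h1 : 3 / 4 * T ≤ |t|) (h2 : |t| ≤ 5 / 4 * T) (h3 : 2 * lam ≤ T * r ^ 2) :
    1 / (4 * T) ≤ |((ss lam r t)⁻¹).re| := by
  have hk : 2 * lam / r ^ 2 ≤ T := by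
    rw [div_le_iff₀ (by positivity)]
    exact h3
  have hk0 : 0 < 2 * lam / r ^ 2 := by positivity
  have hta : 0 < |t| := by linarith [mul_pos (by norm_num : (0:ℝ) < 3 / 4) hT]
  rw [Complex.inv_re, Complex.normSq_apply, ss_re, ss_im, abs_div]
  set K := 2 * lam / r ^ 2 with hK
  have hpos : 0 < t * t + -K * -K := by
    have : 0 < K * K := by positivity
    nlinarith [mul_self_nonneg t]
  rw [abs_of_pos hpos, div_le_div_iff₀ (by positivity) hpos]
  have hsq : t * t = |t| * |t| := (abs_mul_abs_self t).symm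
  rw [hsq]
  nlinarith

theorem real_ineq (k : ℕ) (c Mx lam r La V T C : ℝ) (hc : 0 < c) (hl : 0 < lam)
    (hC1 : 1 ≤ C) (hC3 : 8 * (k + 39) * Mx ^ 2 / c ≤ C)
    (hr : 1 ≤ r) (hLa : 1 ≤ La) (hCr : C * La * r ≤ lam) (hT : 1 ≤ T) :
    k / 2 * (Mx * V) * (Mx * V * (2 / T ^ 2)) +
      lam * (3 * La * (r * T / lam) * (Mx * V)) * (Mx * V * (2 / T ^ 2)) +
      lam / 2 * (Mx * V) * (6 * La * (r * T / lam) * (Mx * V) * (2 / T ^ 2) +
        (3 * La * (r * T / lam)) ^ 2 * (Mx * V * (2 / T ^ 2) * (3 / T))) ≤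
      V ^ 2 / T * (lam * c / 8) := by
  have hT0 : 0 < T := by linarith
  have e1 : k / 2 * (Mx * V) * (Mx * V * (2 / T ^ 2)) +
      lam * (3 * La * (r * T / lam) * (Mx * V)) * (Mx * V * (2 / T ^ 2)) +
      lam / 2 * (Mx * V) * (6 * La * (r * T / lam) * (Mx * V) * (2 / T ^ 2) +
        (3 * La * (r * T / lam)) ^ 2 * (Mx * V * (2 / T ^ 2) * (3 / T))) =
        V ^ 2 / T * (Mx ^ 2 * (k / T + 12 * La * r + 27 * La * r * (La * r / lam))) := by
    field_simp
    ring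
  rw [e1]
  refine mul_le_mul_of_nonneg_left ?_ (by positivity)
  have hLr : 1 ≤ La * r := by nlinarith
  have b1 : La * r / lam ≤ 1 := by
    rw [div_le_one hl]
    nlinarith
  have b2 : (k : ℝ) / T ≤ k * (La * r) := by
    have h0 : (0:ℝ) ≤ k := Nat.cast_nonneg k
    calc (k : ℝ) / T ≤ k / 1 := by gcongr
      _ = k * 1 := by ring
      _ ≤ k * (La * r) := by gcongr
  have b3 : 27 * La * r * (La * r / lam) ≤ 27 * (La * r) := by
    have : 0 ≤ 27 * La * r := by positivity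
    nlinarith
  have b4 : 8 * (k + 39) * Mx ^ 2 ≤ C * c := by
    rwa [div_le_iff₀ hc] at hC3
  calc Mx ^ 2 * (k / T + 12 * La * r + 27 * La * r * (La * r / lam))
      ≤ Mx ^ 2 * (k * (La * r) + 12 * La * r + 27 * (La * r)) := by gcongr
    _ = (8 * (k + 39) * Mx ^ 2) * (La * r) / 8 := by ring
    _ ≤ (C * c) * (La * r) / 8 := by gcongr
    _ = (C * La * r) * c / 8 := by ring
    _ ≤ lam * c / 8 := by gcongr

theorem key (k : ℕ) (c Mx lam r La V T C t1 t2 P1 P2 g p1 p2 re1 re2 : ℝ) (hc : 0 < c)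
    (hMx : 1 ≤ Mx) (hC1 : 1 ≤ C) (hC2 : 8 / c ≤ C) (hC3 : 8 * (k + 39) * Mx ^ 2 / c ≤ C)
    (hr : 1 ≤ r) (hLa : 1 ≤ La) (hCr : C * La * r ≤ lam) (hT : 1 ≤ T)
    (hTr : 2 * lam ≤ T * r ^ 2) (hV : 0 ≤ V) (h1 : 3 / 4 * T ≤ |t1|) (h1' : |t1| ≤ 5 / 4 * T)
    (h2 : 3 / 4 * T ≤ |t2|) (ht : |t1 - t2| ≤ Mx * V) (hP0 : 0 ≤ P2)
    (hP2 : P2 ≤ (3 * La * (r * T / lam)) ^ 2)
    (hP : |P1 - P2| ≤ 6 * La * (r * T / lam) * (Mx * V)) (hg : |g| ≤ Mx * V)
    (hp2 : |p2| ≤ 3 * La * (r * T / lam) * (Mx * V)) (hp : c * V ^ 2 ≤ |p1 - p2|) :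
    lam / T * V ^ 2 ≤ C * |(dF k lam r re1 g p1 P1 t1).im - (dF k lam r re2 g p2 P2 t2).im| := by
  have hl : 0 < lam := by
    have : 0 < C * La * r := by positivity
    linarith
  have hr0 : 0 < r := by linarith
  have hT0 : 0 < T := by linarith
  set u1 := (ss lam r t1)⁻¹ with hu1
  set u2 := (ss lam r t2)⁻¹ with hu2
  set w := r * T / lam with hw
  have hw0 : 0 < w := by positivity
  set E : ℂ := -((k : ℂ) / 2 * (g : ℂ) * (u1 - u2)) + Complex.I * lam * (p2 : ℂ) * (u1 - u2) -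
    Complex.I * lam / 2 * (g : ℂ) * (((P1 - P2 : ℝ) : ℂ) * u1 ^ 2 +
      (P2 : ℂ) * ((u1 - u2) * (u1 + u2))) with hE
  have hsum : dF k lam r re1 g p1 P1 t1 - dF k lam r re2 g p2 P2 t2 =
      (((re2 - re1 : ℝ)) : ℂ) + E + ((lam * (p1 - p2) : ℝ) : ℂ) * (Complex.I * u1) := by
    unfold dF
    rw [hE]
    simp only [div_eq_mul_inv, ← hu1, ← hu2]
    have e1 : (ss lam r t1 ^ 2)⁻¹ = u1 ^ 2 := by rw [hu1, inv_pow]
    have e2 : (ss lam r t2 ^ 2)⁻¹ = u2 ^ 2 := by rw [hu2, inv_pow]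
    rw [e1, e2]
    push_cast
    ring
  have him : (dF k lam r re1 g p1 P1 t1).im - (dF k lam r re2 g p2 P2 t2).im =
      E.im + lam * (p1 - p2) * u1.re := by
    rw [← Complex.sub_im, hsum, Complex.add_im, Complex.add_im, Complex.ofReal_im,
      Complex.im_ofReal_mul, Complex.I_mul_im]
    ring
  have hu1n : ‖u1‖ ≤ 4 / (3 * T) := inv_ss_norm lam r t1 T hT0 h1
  have hu2n : ‖u2‖ ≤ 4 / (3 * T) := inv_ss_norm lam r t2 T hT0 h2
  have hud : ‖u1 - u2‖ ≤ Mx * V * (2 / T ^ 2) :=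
    (inv_ss_sub lam r t1 t2 T hl hr0 hT0 h1 h2).trans
      (mul_le_mul_of_nonneg_right ht (by positivity))
  have hMV : 0 ≤ Mx * V := by positivity
  have hus : ‖u1 + u2‖ ≤ 3 / T := by
    refine (norm_add_le _ _).trans ?_
    calc ‖u1‖ + ‖u2‖ ≤ 4 / (3 * T) + 4 / (3 * T) := add_le_add hu1n hu2n
      _ = 8 / 3 * (1 / T) := by field_simp; norm_num
      _ ≤ 3 * (1 / T) := mul_le_mul_of_nonneg_right (by norm_num) (by positivity)
      _ = 3 / T := by ring
  have hu1s : ‖u1 ^ 2‖ ≤ 2 / T ^ 2 := by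
    rw [norm_pow]
    calc ‖u1‖ ^ 2 ≤ (4 / (3 * T)) ^ 2 := pow_le_pow_left₀ (norm_nonneg _) hu1n 2
      _ = 16 / 9 * (1 / T ^ 2) := by field_simp; norm_num
      _ ≤ 2 * (1 / T ^ 2) := mul_le_mul_of_nonneg_right (by norm_num) (by positivity)
      _ = 2 / T ^ 2 := by ring
  have hEn : ‖E‖ ≤ k / 2 * (Mx * V) * (Mx * V * (2 / T ^ 2)) +
      lam * (3 * La * w * (Mx * V)) * (Mx * V * (2 / T ^ 2)) +
      lam / 2 * (Mx * V) * (6 * La * w * (Mx * V) * (2 / T ^ 2) +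
        (3 * La * w) ^ 2 * (Mx * V * (2 / T ^ 2) * (3 / T))) := by
    rw [hE]
    refine (norm_sub_le _ _).trans (add_le_add ((norm_add_le _ _).trans (add_le_add ?_ ?_)) ?_)
    · rw [norm_neg, norm_mul, norm_mul]
      have e : ‖(k : ℂ) / 2‖ = k / 2 := by
        rw [norm_div, Complex.norm_natCast]
        norm_num
      rw [e, Complex.norm_real, Real.norm_eq_abs]
      gcongr
    · rw [norm_mul, norm_mul, norm_mul, Complex.norm_I, Complex.norm_real, Complex.norm_real,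
        Real.norm_eq_abs, Real.norm_eq_abs, abs_of_pos hl, one_mul]
      gcongr
    · have e0 : ‖Complex.I * (lam : ℂ) / 2 * (g : ℂ)‖ = lam / 2 * |g| := by
        rw [norm_mul, norm_div, norm_mul, Complex.norm_I, Complex.norm_real,
          Complex.norm_real, Real.norm_eq_abs, Real.norm_eq_abs, abs_of_pos hl, one_mul]
        norm_num
      have e3 : ‖((P1 - P2 : ℝ) : ℂ) * u1 ^ 2 + (P2 : ℂ) * ((u1 - u2) * (u1 + u2))‖ ≤
          6 * La * w * (Mx * V) * (2 / T ^ 2) +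
            (3 * La * w) ^ 2 * (Mx * V * (2 / T ^ 2) * (3 / T)) := by
        refine (norm_add_le _ _).trans (add_le_add ?_ ?_)
        · rw [norm_mul, Complex.norm_real, Real.norm_eq_abs]
          exact mul_le_mul hP hu1s (norm_nonneg _) (by positivity)
        · rw [norm_mul, norm_mul, Complex.norm_real, Real.norm_eq_abs, abs_of_nonneg hP0]
          exact mul_le_mul hP2 (mul_le_mul hud hus (norm_nonneg _) (by positivity))
            (by positivity) (by positivity)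
      rw [norm_mul, e0]
      exact mul_le_mul (mul_le_mul_of_nonneg_left hg (by positivity)) e3 (norm_nonneg _)
        (by positivity)
  have hEs : ‖E‖ ≤ V ^ 2 / T * (lam * c / 8) := by
    refine hEn.trans ?_
    rw [hw]
    exact real_ineq k c Mx lam r La V T C hc hl hC1 hC3 hr hLa hCr hT
  have hre := re_inv_ss lam r t1 T hl hr0 hT0 h1 h1' hTr
  have hmain : V ^ 2 / T * (lam * c / 4) ≤ |lam * (p1 - p2) * u1.re| := by
    rw [abs_mul, abs_mul, abs_of_pos hl]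
    calc V ^ 2 / T * (lam * c / 4) = lam * (c * V ^ 2) * (1 / (4 * T)) := by
          field_simp
      _ ≤ lam * |p1 - p2| * |u1.re| := by gcongr
  rw [him]
  have hlow : V ^ 2 / T * (lam * c / 8) ≤ |E.im + lam * (p1 - p2) * u1.re| := by
    have h3 := Complex.abs_im_le_norm E
    have h4 : |lam * (p1 - p2) * u1.re| ≤ |E.im + lam * (p1 - p2) * u1.re| + |E.im| := by
      calc |lam * (p1 - p2) * u1.re| = |(E.im + lam * (p1 - p2) * u1.re) - E.im| := by ring_nf
        _ ≤ _ := abs_sub _ _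
    have h5 : V ^ 2 / T * (lam * c / 4) = V ^ 2 / T * (lam * c / 8) + V ^ 2 / T * (lam * c / 8) := by
      ring
    linarith
  calc lam / T * V ^ 2 = 8 / c * (V ^ 2 / T * (lam * c / 8)) := by field_simp
    _ ≤ C * |E.im + lam * (p1 - p2) * u1.re| := by gcongr

/-! ## Geometry of the slices -/

theorem norm_sl_le {m : ℕ} (e : EE (m + 1)) (L : EE m →ₗᵢ[ℝ] EE (m + 1)) (he : ‖e‖ = 1)
    (heL : ∀ b, inner ℝ e (L b) = 0) (dl sg : ℝ) (b : EE m) (hdl : 0 < dl) (hs : |sg| ≤ 2 * dl)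
    (hb : ‖b‖ ≤ 3 * dl) : ‖sl e L sg b‖ ≤ 4 * dl := by
  have h : ‖sl e L sg b‖ ^ 2 = sg ^ 2 + ‖b‖ ^ 2 := by
    unfold sl
    rw [@norm_add_sq_real, norm_smul, he, inner_smul_left, heL, L.norm_map, Real.norm_eq_abs,
      mul_one, sq_abs]
    simp
  have h1 : sg ^ 2 ≤ (2 * dl) ^ 2 := by
    rw [← sq_abs]
    exact pow_le_pow_left₀ (abs_nonneg _) hs 2
  have h2 : ‖b‖ ^ 2 ≤ (3 * dl) ^ 2 := pow_le_pow_left₀ (norm_nonneg _) hb 2
  have h3 : ‖sl e L sg b‖ ^ 2 ≤ (4 * dl) ^ 2 := by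
    rw [h]
    nlinarith
  exact (abs_le_of_sq_le_sq' h3 (by positivity)).2

/-- bound of the derivative, and Lipschitz bound -/
theorem exists_bound {k : ℕ} (ch : Chart k) : ∃ Mx : ℝ, 1 ≤ Mx ∧
    (∀ q v : EE k, ‖q‖ ≤ 4 * ch.dl → ‖fderiv ℝ ch.X q v‖ ≤ Mx * ‖v‖) ∧
    ∀ q q' : EE k, ‖q‖ ≤ 4 * ch.dl → ‖q'‖ ≤ 4 * ch.dl → ‖ch.X q - ch.X q'‖ ≤ Mx * ‖q - q'‖ := by
  have hc : Continuous (fun q => fderiv ℝ ch.X q) := ch.smooth.continuous_fderiv (by simp)
  obtain ⟨M, hM⟩ := (isCompact_closedBall (0 : EE k) (4 * ch.dl)).exists_bound_of_continuousOn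
    hc.continuousOn
  have hb : ∀ q : EE k, ‖q‖ ≤ 4 * ch.dl → ‖fderiv ℝ ch.X q‖ ≤ max 1 M := fun q hq =>
    (hM q (by simpa using hq)).trans (le_max_right _ _)
  refine ⟨max 1 M, le_max_left _ _, fun q v hq => ?_, fun q q' hq hq' => ?_⟩
  · exact (ContinuousLinearMap.le_opNorm _ _).trans
      (mul_le_mul_of_nonneg_right (hb q hq) (norm_nonneg _))
  · refine (convex_closedBall (0 : EE k) (4 * ch.dl)).norm_image_sub_le_of_norm_fderiv_le
      (𝕜 := ℝ) (fun x _ => ?_) (fun x hx => hb x (by simpa using hx)) (by simpa using hq')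
      (by simpa using hq)
    exact (ch.smooth.differentiable (by simp)).differentiableAt

theorem differentiable_FF {k : ℕ} (om : EE (k + 1)) (lam r : ℝ) (hl : 0 < lam) (hr : 0 < r) :
    Differentiable ℝ (FF om lam r) := by
  intro x
  have h4 : 4 * AA lam r (inner ℝ om x) ≠ 0 := by
    rw [AA_eq lam r _ hl]
    have := ss_ne lam r (inner ℝ om x) hl hr
    have hlC : (lam : ℂ) ≠ 0 := by exact_mod_cast hl.ne'
    exact mul_ne_zero (by norm_num) (mul_ne_zero (div_ne_zero Complex.I_ne_zero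
      (mul_ne_zero two_ne_zero hlC)) this)
  have hof : Differentiable ℝ (fun t : ℝ => (t : ℂ)) := Complex.ofRealCLM.differentiable
  have ht : Differentiable ℝ (fun x : EE (k + 1) => (inner ℝ om x : ℝ)) :=
    (innerSL ℝ om).differentiable
  have hn : Differentiable ℝ (fun x : EE (k + 1) => ‖x‖ ^ 2) := by
    exact (contDiff_norm_sq ℝ (n := 1)).differentiable (by norm_num)
  have hA : DifferentiableAt ℝ (fun x : EE (k + 1) => AA lam r (inner ℝ om x)) x := by
    unfold AA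
    simp only [div_eq_mul_inv]
    exact ((differentiableAt_const _).add ((differentiableAt_const _).mul
      ((hof _).comp x ((ht x).mul_const _))))
  have hlog0 : DifferentiableAt ℝ Complex.log (AA lam r (inner ℝ om x)) :=
    ((Complex.hasDerivAt_log (AA_slit lam r (inner ℝ om x) hr)).differentiableAt).restrictScalars ℝ
  have hlog : DifferentiableAt ℝ (fun x : EE (k + 1) => Complex.log (AA lam r (inner ℝ om x))) x :=
    DifferentiableAt.comp (g := Complex.log)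
      (f := fun x : EE (k + 1) => AA lam r (inner ℝ om x)) x hlog0 hA
  have hinv0 : DifferentiableAt ℝ (fun z : ℂ => z⁻¹) (4 * AA lam r (inner ℝ om x)) :=
    (differentiableAt_inv (𝕜 := ℂ) h4).restrictScalars ℝ
  have hinv : DifferentiableAt ℝ (fun x : EE (k + 1) => (4 * AA lam r (inner ℝ om x))⁻¹) x :=
    DifferentiableAt.comp (g := fun z : ℂ => z⁻¹)
      (f := fun x : EE (k + 1) => 4 * AA lam r (inner ℝ om x)) x hinv0 (hA.const_mul 4)
  have hp : DifferentiableAt ℝ (fun x : EE (k + 1) => ((pq om x : ℝ) : ℂ)) x := by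
    refine (hof _).comp x ?_
    unfold pq
    exact (hn x).sub ((ht x).pow 2)
  have h1 : DifferentiableAt ℝ
      (fun x : EE (k + 1) => ((inner ℝ om x ^ 2 * r ^ 2 / (4 * lam ^ 2) : ℝ) : ℂ)) x := by
    refine (hof _).comp x ?_
    simp only [div_eq_mul_inv]
    exact (((ht x).pow 2).mul_const _).mul_const _
  have hF : FF om lam r = fun x : EE (k + 1) =>
      -((inner ℝ om x ^ 2 * r ^ 2 / (4 * lam ^ 2) : ℝ) : ℂ) -
        (k : ℂ) / 2 * Complex.log (AA lam r (inner ℝ om x)) -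
        ((pq om x : ℝ) : ℂ) * (4 * AA lam r (inner ℝ om x))⁻¹ := by
    funext y
    unfold FF
    rw [div_eq_mul_inv ((pq om y : ℝ) : ℂ)]
  rw [hF]
  exact (h1.neg.sub (hlog.const_mul ((k : ℂ) / 2))).sub (hp.mul hinv)

/-- **GB** -/
theorem specGB (hMO : SpecMO) : SpecGB := by
  intro m ch
  obtain ⟨Mx, hMx, hD, hLip⟩ := exists_bound ch
  have hc := ch.c_pos
  set C : ℝ := 1 + 8 / ch.c + 8 * (((m + 1 : ℕ) : ℝ) + 39) * Mx ^ 2 / ch.c with hC
  have hC1 : 1 ≤ C := by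
    have h1 : 0 ≤ 8 / ch.c := by positivity
    have h2 : 0 ≤ 8 * (((m + 1 : ℕ) : ℝ) + 39) * Mx ^ 2 / ch.c := by positivity
    linarith
  have hC2 : 8 / ch.c ≤ C := by
    have h2 : 0 ≤ 8 * (((m + 1 : ℕ) : ℝ) + 39) * Mx ^ 2 / ch.c := by positivity
    linarith
  have hC3 : 8 * (((m + 1 : ℕ) : ℝ) + 39) * Mx ^ 2 / ch.c ≤ C := by
    have h1 : 0 ≤ 8 / ch.c := by positivity
    linarith
  refine ⟨C, hC1, ?_⟩
  intro om e L hS lam r La sg sg' zt b1 b2 b' hClam hr hLa hCr hT hTr hsg hsg' hb1 hb2 hb' hq1 hq2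
  have hdl := ch.dl_pos
  have hl : 0 < lam := by linarith
  have hr0 : 0 < r := by linarith
  have hom := hS.om_one
  set T : ℝ := |inner ℝ om zt| with hTdef
  set v : EE m := b1 - b2 with hv
  set q' : EE (m + 1) := sl e L sg' b' with hq'
  have hb13 : ‖b1‖ ≤ 3 * ch.dl := by linarith
  have hb23 : ‖b2‖ ≤ 3 * ch.dl := by linarith
  have nq' : ‖q'‖ ≤ 4 * ch.dl := norm_sl_le e L hS.e_one hS.eL ch.dl sg' b' hdl hsg' hb'
  have nq1 : ‖sl e L sg b1‖ ≤ 4 * ch.dl := norm_sl_le e L hS.e_one hS.eL ch.dl sg b1 hdl hsg hb13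
  have nq2 : ‖sl e L sg b2‖ ≤ 4 * ch.dl := norm_sl_le e L hS.e_one hS.eL ch.dl sg b2 hdl hsg hb23
  set G : EE (m + 2) := fderiv ℝ ch.X q' (L v) with hG
  have hGn : ‖G‖ ≤ Mx * ‖v‖ := by
    have := hD q' (L v) nq'
    rwa [L.norm_map] at this
  have hX : Differentiable ℝ ch.X := ch.smooth.differentiable (by simp)
  -- the curve
  have hcurve : ∀ b : EE m, HasDerivAt (fun s : ℝ => xd ch e L zt sg sg' b (b' + s • v)) (-G) 0 := by
    intro b
    have h1 : HasDerivAt (fun s : ℝ => sl e L sg' (b' + s • v)) (L v) 0 := by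
      unfold sl
      have h0 : HasDerivAt (fun s : ℝ => b' + s • v) v 0 := by
        have := ((hasDerivAt_id (0:ℝ)).smul_const v).const_add b'
        simpa using this
      have h2 : HasDerivAt (fun s : ℝ => L.toContinuousLinearMap (b' + s • v))
          (L.toContinuousLinearMap v) 0 :=
        (L.toContinuousLinearMap.hasFDerivAt (x := b' + (0:ℝ) • v)).comp_hasDerivAt (0:ℝ) h0
      exact h2.const_add _
    have h3 : HasDerivAt (fun s : ℝ => ch.X (sl e L sg' (b' + s • v))) G 0 := by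
      have h4 : HasFDerivAt ch.X (fderiv ℝ ch.X q') (sl e L sg' (b' + (0:ℝ) • v)) := by
        have : sl e L sg' (b' + (0:ℝ) • v) = q' := by rw [zero_smul, add_zero]
        rw [this]
        exact (hX q').hasFDerivAt
      exact h4.comp_hasDerivAt (0:ℝ) h1
    unfold xd
    exact ((h3.const_sub _).add_const _)
  have hx0 : ∀ b : EE m, xd ch e L zt sg sg' b (b' + (0:ℝ) • v) = xd ch e L zt sg sg' b b' := by
    intro b
    rw [zero_smul, add_zero]
  have hFF : ∀ b : EE m, HasDerivAt (fun s : ℝ => FF om lam r (xd ch e L zt sg sg' b (b' + s • v)))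
      (dF (m + 1) lam r (2 * inner ℝ om (xd ch e L zt sg sg' b b') * inner ℝ om (-G) * r ^ 2 /
        (4 * lam ^ 2)) (inner ℝ om (-G)) (pi2 om (xd ch e L zt sg sg' b b') (-G))
        (pq om (xd ch e L zt sg sg' b b')) (inner ℝ om (xd ch e L zt sg sg' b b'))) 0 := by
    intro b
    have h := hasDerivAt_FF om lam r hl hr0 (hcurve b)
    rw [hx0 b] at h
    exact h
  have him : ∀ b : EE m, HasDerivAt
      (fun s : ℝ => (FF om lam r (xd ch e L zt sg sg' b (b' + s • v))).im)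
      (dF (m + 1) lam r (2 * inner ℝ om (xd ch e L zt sg sg' b b') * inner ℝ om (-G) * r ^ 2 /
        (4 * lam ^ 2)) (inner ℝ om (-G)) (pi2 om (xd ch e L zt sg sg' b b') (-G))
        (pq om (xd ch e L zt sg sg' b b')) (inner ℝ om (xd ch e L zt sg sg' b b'))).im 0 := by
    intro b
    exact (Complex.imCLM.hasFDerivAt).comp_hasDerivAt (0:ℝ) (hFF b)
  have hdiff : ∀ b : EE m, DifferentiableAt ℝ
      (fun b'' => (FF om lam r (xd ch e L zt sg sg' b b'')).im) b' := by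
    intro b
    have h1 : Differentiable ℝ (fun b'' : EE m => xd ch e L zt sg sg' b b'') := by
      unfold xd sl
      have h2 : Differentiable ℝ (fun b'' : EE m => sg' • e + L b'') :=
        L.toContinuousLinearMap.differentiable.const_add _
      exact ((hX.comp h2).const_sub _).add_const _
    exact (Complex.imCLM.differentiable.differentiableAt).comp b'
      (((differentiable_FF om lam r hl hr0).comp h1) b')
  have hfd : fderiv ℝ (fun b => (FF om lam r (xd ch e L zt sg sg' b1 b)).im -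
      (FF om lam r (xd ch e L zt sg sg' b2 b)).im) b' v =
      (dF (m + 1) lam r (2 * inner ℝ om (xd ch e L zt sg sg' b1 b') * inner ℝ om (-G) * r ^ 2 /
        (4 * lam ^ 2)) (inner ℝ om (-G)) (pi2 om (xd ch e L zt sg sg' b1 b') (-G))
        (pq om (xd ch e L zt sg sg' b1 b')) (inner ℝ om (xd ch e L zt sg sg' b1 b'))).im -
      (dF (m + 1) lam r (2 * inner ℝ om (xd ch e L zt sg sg' b2 b') * inner ℝ om (-G) * r ^ 2 /
        (4 * lam ^ 2)) (inner ℝ om (-G)) (pi2 om (xd ch e L zt sg sg' b2 b') (-G))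
        (pq om (xd ch e L zt sg sg' b2 b')) (inner ℝ om (xd ch e L zt sg sg' b2 b'))).im := by
    have h0 : DifferentiableAt ℝ (fun b => (FF om lam r (xd ch e L zt sg sg' b1 b)).im -
      (FF om lam r (xd ch e L zt sg sg' b2 b)).im) b' := (hdiff b1).sub (hdiff b2)
    rw [← h0.lineDeriv_eq_fderiv]
    have h2 : HasLineDerivAt ℝ (fun b => (FF om lam r (xd ch e L zt sg sg' b1 b)).im -
      (FF om lam r (xd ch e L zt sg sg' b2 b)).im) _ b' v := (him b1).sub (him b2)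
    exact h2.lineDeriv
  rw [hfd]
  -- distances
  have hxs : xd ch e L zt sg sg' b1 b' - xd ch e L zt sg sg' b2 b' =
      ch.X (sl e L sg b1) - ch.X (sl e L sg b2) := by
    unfold xd
    abel
  have hxn : ‖xd ch e L zt sg sg' b1 b' - xd ch e L zt sg sg' b2 b'‖ ≤ Mx * ‖v‖ := by
    rw [hxs]
    refine (hLip _ _ nq1 nq2).trans (le_of_eq ?_)
    congr 1
    unfold sl
    rw [add_sub_add_left_eq_sub, ← map_sub, L.norm_map]
  have hinn : ∀ y : EE (m + 2), |inner ℝ om y| ≤ ‖y‖ := by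
    intro y
    have := abs_real_inner_le_norm om y
    rwa [hom, one_mul] at this
  have hclose : ∀ b : EE m, ‖sl e L sg b‖ ≤ 4 * ch.dl →
      |inner ℝ om (xd ch e L zt sg sg' b b') - inner ℝ om zt| ≤ 1 / 4 := by
    intro b hb
    rw [← inner_sub_right]
    refine (hinn _).trans ?_
    have : xd ch e L zt sg sg' b b' - zt = ch.X (sl e L sg b) - ch.X q' := by
      unfold xd
      abel
    rw [this]
    exact ch.diam _ _ hb nq'
  have hw0 : 0 ≤ 3 * La * (r * T / lam) := by positivity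
  have hrange : ∀ b : EE m, ‖sl e L sg b‖ ≤ 4 * ch.dl →
      3 / 4 * T ≤ |inner ℝ om (xd ch e L zt sg sg' b b')| ∧
      |inner ℝ om (xd ch e L zt sg sg' b b')| ≤ 5 / 4 * T := by
    intro b hb
    have h1 := hclose b hb
    have h2 := abs_sub_abs_le_abs_sub (inner ℝ om (xd ch e L zt sg sg' b b')) (inner ℝ om zt)
    have h3 := abs_sub_abs_le_abs_sub (inner ℝ om zt) (inner ℝ om (xd ch e L zt sg sg' b b'))
    rw [abs_sub_comm] at h3
    constructor <;> linarith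
  refine key (m + 1) ch.c Mx lam r La ‖v‖ T C _ _ _ _ _ _ _ _ _ hc hMx hC1 hC2 hC3 hr hLa hCr hT
    hTr (norm_nonneg _) (hrange b1 nq1).1 (hrange b1 nq1).2 (hrange b2 nq2).1 ?_
    (pq_nonneg om _ hom) hq2 ?_ ?_ ?_ ?_
  · rw [← inner_sub_right]
    exact (hinn _).trans hxn
  · rw [pq_sub]
    have h1 := pi2_le om (xd ch e L zt sg sg' b1 b')
      (xd ch e L zt sg sg' b1 b' - xd ch e L zt sg sg' b2 b') hom hw0 hq1
    have h2 := pi2_le om (xd ch e L zt sg sg' b2 b')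
      (xd ch e L zt sg sg' b1 b' - xd ch e L zt sg sg' b2 b') hom hw0 hq2
    have h3 : 3 * La * (r * T / lam) *
        ‖xd ch e L zt sg sg' b1 b' - xd ch e L zt sg sg' b2 b'‖ ≤
        3 * La * (r * T / lam) * (Mx * ‖v‖) := mul_le_mul_of_nonneg_left hxn hw0
    refine (abs_add_le _ _).trans ?_
    calc _ ≤ 3 * La * (r * T / lam) * (Mx * ‖v‖) + 3 * La * (r * T / lam) * (Mx * ‖v‖) :=
          add_le_add (h1.trans h3) (h2.trans h3)
      _ = _ := by ring
  · refine (hinn _).trans ?_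
    rw [norm_neg]
    exact hGn
  · refine (pi2_le om _ _ hom hw0 hq2).trans ?_
    rw [norm_neg]
    exact mul_le_mul_of_nonneg_left hGn hw0
  · have h1 := hMO m ch om e L hS sg b1 b2 q' hsg hb13 hb23 nq'
    rw [← hxs, pi2_sub_left] at h1
    rw [pi2_neg, pi2_neg]
    refine h1.trans ((le_abs_self _).trans (le_of_eq ?_))
    rw [← abs_neg]
    congr 1
    ring

end Pool.Agent.Lib.MP_a8dae7_an.CG.GBM
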