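import Pool.Agent.Lib.MP_a8dae7_an.CG.Spec
import Pool.Agent.Lib.MP_a8dae7_an.CV.IFa

/-!
# CG, module IG: graph charts of a smooth hypersurface

The local graph function is multiplied by a smooth cutoff; its gradient then has compact support, so all
derivatives are bounded, and for a small radius the chart inequalities hold.
-/

set_option autoImplicit false

open MeasureTheory Filter Topology
open scoped ContDiff

namespace Pool.Agent.Lib.MP_a8dae7_an.CG.IGM

open Pool.Agent.Lib.MP_a8dae7_an.CV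
open Pool.Agent.Lib.MP_a8dae7_an.CV.IFM

variable {k : ℕ}

/-- the cutoff: `1` on radius 1, `0` outside radius 2 -/
noncomputable def cf (k : ℕ) : ContDiffBump (0 : EE k) where
  rIn := 1
  rOut := 2
  rIn_pos := by norm_num
  rIn_lt_rOut := by norm_num

/-- the truncated graph function -/
noncomputable def GG (g : EE k → ℝ) (y : EE k) : ℝ := cf k y * g y

theorem GG_contDiff {g : EE k → ℝ} (hg : ContDiff ℝ ∞ g) : ContDiff ℝ ∞ (GG g) :=
  (cf k).contDiff.mul hg

theorem GG_support (g : EE k → ℝ) : HasCompactSupport (GG g) :=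
  (cf k).hasCompactSupport.mul_right

theorem GG_eq (g : EE k → ℝ) {y : EE k} (hy : ‖y‖ ≤ 1) : GG g y = g y := by
  unfold GG
  rw [(cf k).one_of_mem_closedBall, one_mul]
  rw [mem_closedBall_zero_iff]
  exact hy

theorem GG_fderiv_zero {g : EE k → ℝ} (h : fderiv ℝ g 0 = 0) : fderiv ℝ (GG g) 0 = 0 := by
  rw [← h]
  refine Filter.EventuallyEq.fderiv_eq ?_
  filter_upwards [Metric.ball_mem_nhds (0 : EE k) one_pos] with y hy
  exact GG_eq g (mem_ball_zero_iff.1 hy).le

theorem gr_support {G : EE k → ℝ} (hG : HasCompactSupport G) : HasCompactSupport (gr G) := by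
  have h1 : HasCompactSupport (fderiv ℝ G) := hG.fderiv ℝ
  have h2 : gr G = (fun A : EE k →L[ℝ] ℝ =>
      (WithLp.toLp 2 fun i => A (EuclideanSpace.single i 1) : EE k)) ∘ fderiv ℝ G := rfl
  rw [h2]
  refine h1.comp_left ?_
  ext i
  simp

/-- all derivatives of the gradient are bounded -/
theorem gr_bound {G : EE k → ℝ} (hG : ContDiff ℝ ∞ G) (hs : HasCompactSupport G) (j : ℕ) :
    ∃ M : ℝ, ∀ q, ‖iteratedFDeriv ℝ j (gr G) q‖ ≤ M := by
  have h1 : Continuous (iteratedFDeriv ℝ j (gr G)) :=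
    (gr_contDiff hG).continuous_iteratedFDeriv (by exact_mod_cast le_top)
  exact h1.bounded_above_of_compact_support ((gr_support hs).iteratedFDeriv j)

/-- the graph parametrisation -/
noncomputable def XX (p nu : EE (k + 1)) (J : EE k →ₗᵢ[ℝ] EE (k + 1)) (G : EE k → ℝ) (q : EE k) :
    EE (k + 1) := p + J q + G q • nu

theorem XX_contDiff (p nu : EE (k + 1)) (J : EE k →ₗᵢ[ℝ] EE (k + 1)) {G : EE k → ℝ}
    (hG : ContDiff ℝ ∞ G) : ContDiff ℝ ∞ (XX p nu J G) :=
  (contDiff_const.add J.contDiff).add (hG.smul contDiff_const)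

theorem XX_fderiv (p nu : EE (k + 1)) (J : EE k →ₗᵢ[ℝ] EE (k + 1)) {G : EE k → ℝ}
    (hG : ContDiff ℝ ∞ G) (q v : EE k) :
    fderiv ℝ (XX p nu J G) q v = J v + (inner ℝ (gr G q) v : ℝ) • nu := by
  have h2 : HasFDerivAt G (fderiv ℝ G q) q := (hG.differentiable (by norm_num) _).hasFDerivAt
  have h3 : HasFDerivAt (fun q => J q) J.toContinuousLinearMap q :=
    J.toContinuousLinearMap.hasFDerivAt
  have h5 := (h3.const_add p).add (h2.smul_const nu)
  have h6 : HasFDerivAt (XX p nu J G)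
      (J.toContinuousLinearMap + (fderiv ℝ G q).smulRight nu) q := h5
  rw [h6.fderiv, inner_gr]
  rfl

theorem gram_aux {nu om : EE (k + 1)} {J : EE k →ₗᵢ[ℝ] EE (k + 1)} (hnu : ‖nu‖ = 1)
    (hperp : ∀ v, inner ℝ nu (J v) = 0) {v : EE k} (hom : ‖om‖ = 1) (hJ : inner ℝ om (J v) = 0)
    {a b : ℝ} (ha : |a| ≤ 1 / 16 * ‖v‖) (hb : |b| ≤ 1 / 16 * ‖v‖) :
    1 / 2 * ‖v‖ ^ 2 ≤ inner ℝ (J v + a • nu) (J v + b • nu) -
      inner ℝ om (J v + a • nu) * inner ℝ om (J v + b • nu) := by
  have hnn : inner ℝ nu nu = (1 : ℝ) := by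
    rw [real_inner_self_eq_norm_sq, hnu, one_pow]
  have hJJ : inner ℝ (J v) (J v) = ‖v‖ ^ 2 := by
    rw [real_inner_self_eq_norm_sq, J.norm_map]
  have hJn : inner ℝ (J v) nu = 0 := by
    rw [real_inner_comm]
    exact hperp v
  have h1 : inner ℝ (J v + a • nu) (J v + b • nu) = ‖v‖ ^ 2 + a * b := by
    rw [inner_add_left, inner_add_right, inner_add_right, inner_smul_left, inner_smul_left,
      inner_smul_right, inner_smul_right, hJJ, hJn, hperp, hnn]
    simp
  have h2 : inner ℝ om (J v + a • nu) = a * inner ℝ om nu := by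
    rw [inner_add_right, inner_smul_right, hJ, zero_add]
  have h3 : inner ℝ om (J v + b • nu) = b * inner ℝ om nu := by
    rw [inner_add_right, inner_smul_right, hJ, zero_add]
  rw [h1, h2, h3]
  have h4 : inner ℝ om nu ^ 2 ≤ 1 := by
    have h5 := abs_real_inner_le_norm om nu
    rw [hom, hnu, one_mul] at h5
    rw [← sq_abs]
    exact pow_le_one₀ (abs_nonneg _) h5
  have h5 : 0 ≤ inner ℝ om nu ^ 2 := sq_nonneg _
  have h6 : |a * b| ≤ 1 / 256 * ‖v‖ ^ 2 := by
    rw [abs_mul]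
    calc |a| * |b| ≤ (1 / 16 * ‖v‖) * (1 / 16 * ‖v‖) :=
          mul_le_mul ha hb (abs_nonneg _) (by positivity)
      _ = 1 / 256 * ‖v‖ ^ 2 := by ring
  have h7 : |a * b * (1 - inner ℝ om nu ^ 2)| ≤ 1 / 256 * ‖v‖ ^ 2 := by
    rw [abs_mul, abs_of_nonneg (show (0 : ℝ) ≤ 1 - inner ℝ om nu ^ 2 by linarith)]
    calc |a * b| * (1 - inner ℝ om nu ^ 2) ≤ |a * b| * 1 :=
          mul_le_mul_of_nonneg_left (by linarith) (abs_nonneg _)
      _ ≤ _ := by rw [mul_one]; exact h6
  have h8 := neg_abs_le (a * b * (1 - inner ℝ om nu ^ 2))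
  have h9 : a * b - a * inner ℝ om nu * (b * inner ℝ om nu) =
      a * b * (1 - inner ℝ om nu ^ 2) := by ring
  have h10 : 0 ≤ ‖v‖ ^ 2 := sq_nonneg _
  nlinarith [h7, h8, h9, h10]

/-- a chart from a graph -/
theorem chart_of (p : EE (k + 1)) {nu : EE (k + 1)} (J : EE k →ₗᵢ[ℝ] EE (k + 1)) {G : EE k → ℝ}
    (hnu : ‖nu‖ = 1) (hperp : ∀ v, inner ℝ nu (J v) = 0) (hG : ContDiff ℝ ∞ G)
    (hs : HasCompactSupport G) (h0 : fderiv ℝ G 0 = 0) :
    ∃ ch : Chart k, ch.X = XX p nu J G := by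
  have hV := gr_contDiff hG
  have hX := XX_contDiff p nu J hG
  have hV0 : gr G 0 = 0 := by
    rw [← norm_eq_zero, ← sq_eq_zero_iff, ← real_inner_self_eq_norm_sq, inner_gr, h0]
    rfl
  obtain ⟨δ₁, hδ₁, h₁⟩ := Metric.continuous_iff.1 hV.continuous 0 (1 / 16) (by norm_num)
  obtain ⟨δ₂, hδ₂, h₂⟩ := Metric.continuous_iff.1 hX.continuous 0 (1 / 8) (by norm_num)
  obtain ⟨dl, hdl⟩ : ∃ dl : ℝ, dl = min (1 / 64) (min (δ₁ / 5) (δ₂ / 5)) := ⟨_, rfl⟩
  have hdl0 : 0 < dl := by
    rw [hdl]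
    exact lt_min (by norm_num) (lt_min (by positivity) (by positivity))
  have hdl1 : dl ≤ 1 / 64 := by
    rw [hdl]
    exact min_le_left _ _
  have hdl3 : dl ≤ δ₁ / 5 := by
    rw [hdl]
    exact (min_le_right _ _).trans (min_le_left _ _)
  have hdl4 : dl ≤ δ₂ / 5 := by
    rw [hdl]
    exact (min_le_right _ _).trans (min_le_right _ _)
  have hVle : ∀ q, ‖q‖ ≤ 4 * dl → ‖gr G q‖ ≤ 1 / 16 := by
    intro q hq
    have h3 := h₁ q (by rw [dist_zero_right]; linarith)
    rw [hV0, dist_zero_right] at h3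
    exact h3.le
  refine ⟨{ X := XX p nu J G
            nu := nu
            J := J
            V := gr G
            c := 1 / 2
            dl := dl
            smooth := hX
            smoothV := hV
            bdV := gr_bound hG hs
            nu_one := hnu
            nu_perp := hperp
            c_pos := by norm_num
            c_le := by norm_num
            dl_pos := hdl0
            dl_le := hdl1
            V_le := hVle
            der := fun q v _ => XX_fderiv p nu J hG q v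
            diam := ?_
            gram := ?_ }, rfl⟩
  · intro q q' hq hq'
    have h3 := h₂ q (by rw [dist_zero_right]; linarith)
    have h4 := h₂ q' (by rw [dist_zero_right]; linarith)
    have h5 := dist_triangle_right (XX p nu J G q) (XX p nu J G q') (XX p nu J G 0)
    rw [← dist_eq_norm]
    linarith
  · intro q q' v om hq hq' hom hJ
    rw [XX_fderiv p nu J hG, XX_fderiv p nu J hG]
    have h3 : ∀ q, ‖q‖ ≤ 4 * dl → |inner ℝ (gr G q) v| ≤ 1 / 16 * ‖v‖ := fun q hq =>
      (abs_real_inner_le_norm _ _).trans (mul_le_mul_of_nonneg_right (hVle q hq) (norm_nonneg _))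
    exact gram_aux hnu hperp hom hJ (h3 q hq) (h3 q' hq')

/-- the parameter is bounded by the distance to the base point -/
theorem norm_le {p x nu : EE (k + 1)} {J : EE k →ₗᵢ[ℝ] EE (k + 1)}
    (hperp : ∀ v, inner ℝ nu (J v) = 0) {y : EE k} {t : ℝ} (hx : x = p + J y + t • nu) :
    ‖y‖ ≤ ‖x - p‖ := by
  have h2 : inner ℝ (x - p) (J y) = ‖y‖ ^ 2 := by
    have h3 : x - p = J y + t • nu := by
      rw [hx]
      abel
    rw [h3, inner_add_left, inner_smul_left, hperp, real_inner_self_eq_norm_sq, J.norm_map]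
    simp
  have h3 := real_inner_le_norm (x - p) (J y)
  rw [h2, J.norm_map] at h3
  by_contra h4
  push Not at h4
  have h5 : 0 < ‖y‖ := (norm_nonneg _).trans_lt h4
  nlinarith

/-- a smooth hypersurface is covered by graph charts -/
theorem specIG : SpecIG := by
  intro k Sg p h
  obtain ⟨J, nu, g, rho, hnu, hperp, hg, _, hg1, hrho, hS⟩ := h
  obtain ⟨ch, hch⟩ := chart_of p J hnu hperp (GG_contDiff hg) (GG_support g) (GG_fderiv_zero hg1)
  refine ⟨ch, min rho ch.dl, lt_min hrho ch.dl_pos, fun x hx hxp => ?_⟩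
  obtain ⟨y, hy⟩ := hS x hx (hxp.trans_le (min_le_left _ _))
  have h1 := (norm_le hperp hy).trans (hxp.trans_le (min_le_right _ _)).le
  refine ⟨y, h1, ?_⟩
  rw [hch, hy]
  unfold XX
  rw [GG_eq g (h1.trans (ch.dl_le.trans (by norm_num)))]

end Pool.Agent.Lib.MP_a8dae7_an.CG.IGM
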