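import Pool.Agent.Lib.MP_a8dae7_an.CG.Spec

/-!
# MP_a8dae7_an, CG (copy of CV for graph charts): module JN, near bound of the `TT*` kernel
-/

set_option autoImplicit false

open MeasureTheory
open scoped ContDiff

namespace Pool.Agent.Lib.MP_a8dae7_an.CG.JNM

open Pool.Agent.Lib.MP_a8dae7_an.CV

open Pool.Agent.Lib.MP_a8dae7_an.CV

theorem pq_nonneg {d : ℕ} (om x : EE d) (h : ‖om‖ = 1) : 0 ≤ pq om x := by
  unfold pq
  have h1 := abs_real_inner_le_norm om x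
  rw [h, one_mul] at h1
  have h2 := sq_le_sq' (by linarith [neg_abs_le (inner ℝ om x : ℝ)]) (le_trans (le_abs_self _) h1)
  linarith

theorem continuous_pq {d : ℕ} (om : EE d) : Continuous (pq om) := by
  unfold pq
  fun_prop

section slice

variable {m : ℕ} {ch : Chart (m + 1)} {om : EE (m + 2)} {e : EE (m + 1)} {L : EE m →ₗᵢ[ℝ] EE (m + 1)}

theorem norm_sl_le (hS : Slice ch om e L) {sg : ℝ} {b : EE m} (h1 : |sg| ≤ 2 * ch.dl) (h2 : ‖b‖ ≤ 3 * ch.dl) :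
    ‖sl e L sg b‖ ≤ 4 * ch.dl := by
  have hd := ch.dl_pos
  have e1 : ‖sl e L sg b‖ ^ 2 = sg ^ 2 + ‖b‖ ^ 2 := by
    unfold sl
    rw [norm_add_sq_real, inner_smul_left, hS.eL, norm_smul, hS.e_one, L.norm_map]
    simp
  have e2 : sg ^ 2 ≤ (2 * ch.dl) ^ 2 := by
    rw [← sq_abs]; gcongr
  have e3 : ‖b‖ ^ 2 ≤ (3 * ch.dl) ^ 2 := by gcongr
  have e4 : ‖sl e L sg b‖ ^ 2 ≤ (4 * ch.dl) ^ 2 := by rw [e1]; nlinarith
  exact (pow_le_pow_iff_left₀ (norm_nonneg _) (by positivity) two_ne_zero).mp e4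

theorem continuous_sl (sg : ℝ) : Continuous (sl e L sg) := by
  unfold sl
  fun_prop

/-- the value of `t` -/
theorem abs_t_sub (hS : Slice ch om e L) {zt : EE (m + 2)} {sg sg' : ℝ} {b b' : EE m} (h1 : |sg| ≤ 2 * ch.dl)
    (h2 : |sg'| ≤ 2 * ch.dl) (h3 : ‖b‖ ≤ 3 * ch.dl) (h4 : ‖b'‖ ≤ 3 * ch.dl) :
    |inner ℝ om (xd ch e L zt sg sg' b b') - inner ℝ om zt| ≤ 1 / 4 := by
  have e1 : (inner ℝ om (xd ch e L zt sg sg' b b') : ℝ) - inner ℝ om zt =
      inner ℝ om (ch.X (sl e L sg b) - ch.X (sl e L sg' b')) := by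
    unfold xd
    rw [inner_add_right]; ring
  rw [e1]
  calc |(inner ℝ om (ch.X (sl e L sg b) - ch.X (sl e L sg' b')) : ℝ)| ≤
      ‖om‖ * ‖ch.X (sl e L sg b) - ch.X (sl e L sg' b')‖ := abs_real_inner_le_norm _ _
    _ ≤ 1 / 4 := by
      rw [hS.om_one, one_mul]
      exact ch.diam _ _ (norm_sl_le hS h1 h3) (norm_sl_le hS h2 h4)

/-- `|t| ≥ 3/4 |t_z|` and `|t| ≤ 5/4 |t_z|` -/
theorem abs_t (hS : Slice ch om e L) {zt : EE (m + 2)} {sg sg' : ℝ} {b b' : EE m} (h1 : |sg| ≤ 2 * ch.dl)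
    (h2 : |sg'| ≤ 2 * ch.dl) (h3 : ‖b‖ ≤ 3 * ch.dl) (h4 : ‖b'‖ ≤ 3 * ch.dl) (hz : 1 ≤ |(inner ℝ om zt : ℝ)|) :
    3 / 4 * |(inner ℝ om zt : ℝ)| ≤ |(inner ℝ om (xd ch e L zt sg sg' b b') : ℝ)| ∧
      |(inner ℝ om (xd ch e L zt sg sg' b b') : ℝ)| ≤ 5 / 4 * |(inner ℝ om zt : ℝ)| := by
  have h := abs_t_sub (zt := zt) hS h1 h2 h3 h4
  have h5 := abs_sub_abs_le_abs_sub (inner ℝ om (xd ch e L zt sg sg' b b') : ℝ) (inner ℝ om zt)
  have h6 := abs_sub_abs_le_abs_sub (inner ℝ om zt : ℝ) (inner ℝ om (xd ch e L zt sg sg' b b'))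
  rw [abs_sub_comm] at h6
  constructor <;> linarith

/-- the bound of the sliced kernel for large `t_z` -/
theorem ks_le (hKN : SpecKN) (m : ℕ) : ∃ C : ℝ, 0 < C ∧ ∀ (ch : Chart (m + 1)) (om : EE (m + 2)) (e : EE (m + 1))
    (L : EE m →ₗᵢ[ℝ] EE (m + 1)), Slice ch om e L → ∀ (lam r sg sg' : ℝ) (zt : EE (m + 2)) (b b' : EE m),
    1 ≤ lam → 1 ≤ r → 1 ≤ |(inner ℝ om zt : ℝ)| → 2 * lam ≤ |(inner ℝ om zt : ℝ)| * r ^ 2 →
    |sg| ≤ 2 * ch.dl → |sg'| ≤ 2 * ch.dl → ‖b‖ ≤ 3 * ch.dl → ‖b'‖ ≤ 3 * ch.dl →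
    ‖ks ch om lam r e L zt sg sg' b b'‖ ≤
      C * (r / lam) * (lam / |(inner ℝ om zt : ℝ)|) ^ (((m + 1 : ℕ) : ℝ) / 2) *
        Real.exp (-(((2 * (r * |(inner ℝ om zt : ℝ)| / lam))⁻¹) ^ 2 * pq om (xd ch e L zt sg sg' b b'))) := by
  obtain ⟨C0, hC0, hK⟩ := hKN (m + 1)
  refine ⟨C0 * (4 / 3) ^ (((m + 1 : ℕ) : ℝ) / 2), by positivity, ?_⟩
  intro ch om e L hS lam r sg sg' zt b b' hlam hr hz hz2 hsg hsg' hb hb'
  obtain ⟨ht1, ht2⟩ := abs_t hS hsg hsg' hb hb' hz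
  set T : ℝ := |(inner ℝ om zt : ℝ)| with hT
  set x := xd ch e L zt sg sg' b b' with hx
  set t : ℝ := inner ℝ om x with ht
  have hT0 : 0 < T := by linarith
  have hlam0 : 0 < lam := by linarith
  have hr0 : 0 < r := by linarith
  have ht0 : 0 < |t| := by nlinarith
  have htne : t ≠ 0 := abs_pos.mp ht0
  have hq : 0 ≤ pq om x := pq_nonneg om x hS.om_one
  have h1 := (hK om lam r x hS.om_one hlam0 hr0).2 htne
  have h2 : (lam / |t|) ^ (((m + 1 : ℕ) : ℝ) / 2) ≤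
      (4 / 3) ^ (((m + 1 : ℕ) : ℝ) / 2) * (lam / T) ^ (((m + 1 : ℕ) : ℝ) / 2) := by
    rw [← Real.mul_rpow (by norm_num) (by positivity)]
    refine Real.rpow_le_rpow (by positivity) ?_ (by positivity)
    rw [div_le_iff₀ ht0]
    have : 4 / 3 * (lam / T) * (3 / 4 * T) = lam := by field_simp
    calc lam = 4 / 3 * (lam / T) * (3 / 4 * T) := this.symm
      _ ≤ 4 / 3 * (lam / T) * |t| := by gcongr
  have h3 : ((2 * (r * T / lam))⁻¹) ^ 2 * pq om x ≤ MM om lam r x := by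
    have e1 : t ^ 2 ≤ 25 / 16 * T ^ 2 := by
      rw [← sq_abs t]
      nlinarith
    have e2 : 4 * lam ^ 2 ≤ T ^ 2 * r ^ 4 := by nlinarith
    have e3 : ((2 * (r * T / lam))⁻¹) ^ 2 ≤ r ^ 2 / (4 + (t * r ^ 2 / lam) ^ 2) := by
      rw [le_div_iff₀ (by positivity)]
      have : (2 * (r * T / lam))⁻¹ ^ 2 * (4 + (t * r ^ 2 / lam) ^ 2) =
          (4 * lam ^ 2 + t ^ 2 * r ^ 4) / (4 * r ^ 2 * T ^ 2) := by
        field_simp
        ring
      rw [this, div_le_iff₀ (by positivity)]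
      nlinarith [mul_le_mul_of_nonneg_right e1 (by positivity : (0:ℝ) ≤ r ^ 4),
        (by positivity : (0:ℝ) ≤ T ^ 2 * r ^ 4)]
    unfold MM
    have e4 : pq om x * r ^ 2 / (4 + (t * r ^ 2 / lam) ^ 2) = (r ^ 2 / (4 + (t * r ^ 2 / lam) ^ 2)) * pq om x := by
      ring
    rw [← ht, e4]
    have e5 : 0 ≤ t ^ 2 * r ^ 2 / (4 * lam ^ 2) := by positivity
    nlinarith [mul_le_mul_of_nonneg_right e3 hq]
  have h4 : Real.exp (-MM om lam r x) ≤ Real.exp (-(((2 * (r * T / lam))⁻¹) ^ 2 * pq om x)) :=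
    Real.exp_le_exp.mpr (neg_le_neg h3)
  calc ‖ks ch om lam r e L zt sg sg' b b'‖ ≤
      C0 * (r / lam) * (lam / |t|) ^ (((m + 1 : ℕ) : ℝ) / 2) * Real.exp (-MM om lam r x) := h1
    _ ≤ C0 * (r / lam) * ((4 / 3) ^ (((m + 1 : ℕ) : ℝ) / 2) * (lam / T) ^ (((m + 1 : ℕ) : ℝ) / 2)) *
        Real.exp (-(((2 * (r * T / lam))⁻¹) ^ 2 * pq om x)) := by gcongr
    _ = _ := by ring

end slice

/-- **JN** -/
theorem specJN (hKN : SpecKN) (hBL : SpecBL) : SpecJN := by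
  intro m ch
  obtain ⟨C1, hC1, hK⟩ := ks_le hKN m
  obtain ⟨C2, hC2, hB⟩ := hBL m ch
  refine ⟨C1 ^ 2 * C2 * 2 ^ m, by positivity, ?_⟩
  intro om e L hS lam r sg sg' zt b b'' hlam hr hz hz2 hsg hsg' hb hb''
  have hd := ch.dl_pos
  set T : ℝ := |(inner ℝ om zt : ℝ)| with hT
  have hT0 : 0 < T := by linarith
  have hlam0 : 0 < lam := by linarith
  have hr0 : 0 < r := by linarith
  set w : ℝ := r * T / lam with hw
  have hw0 : 0 < w := by positivity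
  set Q : ℝ := C1 * (r / lam) * (lam / T) ^ (((m + 1 : ℕ) : ℝ) / 2) with hQ
  have hQ0 : 0 ≤ Q := by positivity
  have hQ2 : Q * Q = C1 ^ 2 * (r / lam) ^ 2 * (lam / T) ^ (m + 1) := by
    have e1 : (lam / T) ^ (((m + 1 : ℕ) : ℝ) / 2) * (lam / T) ^ (((m + 1 : ℕ) : ℝ) / 2) = (lam / T) ^ (m + 1) := by
      rw [← Real.rpow_add (by positivity), add_halves, Real.rpow_natCast]
    rw [hQ]
    calc _ = C1 ^ 2 * (r / lam) ^ 2 * ((lam / T) ^ (((m + 1 : ℕ) : ℝ) / 2) *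
          (lam / T) ^ (((m + 1 : ℕ) : ℝ) / 2)) := by ring
      _ = _ := by rw [e1]
  set v : EE (m + 2) := ch.X (sl e L sg b) + zt with hv
  set G : EE m → ℝ := fun b' => Q * Q * Real.exp (-(((2 * w)⁻¹) ^ 2 * pq om (v - ch.X (sl e L sg' b')))) with hG
  have hGc : Continuous G := by
    rw [hG]
    have h1 : Continuous fun b' : EE m => pq om (v - ch.X (sl e L sg' b')) :=
      (continuous_pq om).comp (continuous_const.sub (ch.smooth.continuous.comp (continuous_sl sg')))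
    fun_prop
  have hGi : Integrable ((Metric.closedBall (0 : EE m) (3 * ch.dl)).indicator G) :=
    (integrable_indicator_iff Metric.isClosed_closedBall.measurableSet).mpr
      (hGc.continuousOn.integrableOn_compact (isCompact_closedBall _ _))
  have key : ‖JJ ch om lam r e L zt sg sg' b b''‖ ≤
      ∫ b', (Metric.closedBall (0 : EE m) (3 * ch.dl)).indicator G b' := by
    unfold JJ
    refine norm_integral_le_of_norm_le hGi (Filter.Eventually.of_forall fun b' => ?_)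
    by_cases hb' : ‖b'‖ ≤ 3 * ch.dl
    · rw [Set.indicator_of_mem (by rw [mem_closedBall_zero_iff]; exact hb')]
      have k1 := hK ch om e L hS lam r sg sg' zt b b' hlam hr hz hz2 hsg hsg' (by linarith) hb'
      have k2 := hK ch om e L hS lam r sg sg' zt b'' b' hlam hr hz hz2 hsg hsg' (by linarith) hb'
      have k3 : ‖ks ch om lam r e L zt sg sg' b'' b'‖ ≤ Q := by
        refine k2.trans ?_
        have : Real.exp (-(((2 * (r * T / lam))⁻¹) ^ 2 * pq om (xd ch e L zt sg sg' b'' b'))) ≤ 1 := by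
          rw [Real.exp_le_one_iff]
          have := pq_nonneg om (xd ch e L zt sg sg' b'' b') hS.om_one
          have : 0 ≤ ((2 * (r * T / lam))⁻¹) ^ 2 * pq om (xd ch e L zt sg sg' b'' b') := by positivity
          linarith
        calc _ ≤ Q * 1 := by gcongr
          _ = Q := mul_one _
      have k4 : xd ch e L zt sg sg' b b' = v - ch.X (sl e L sg' b') := by
        rw [hv]; unfold xd; abel
      rw [k4] at k1
      have k5 : ‖((cut ch m b' : ℝ) : ℂ)‖ ≤ 1 := by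
        rw [Complex.norm_real, Real.norm_eq_abs, abs_of_nonneg (cut ch m).nonneg]
        exact (cut ch m).le_one
      rw [norm_mul, norm_mul, RCLike.norm_conj]
      calc ‖((cut ch m b' : ℝ) : ℂ)‖ * (‖ks ch om lam r e L zt sg sg' b b'‖ * ‖ks ch om lam r e L zt sg sg' b'' b'‖) ≤
          1 * ((Q * Real.exp (-(((2 * w)⁻¹) ^ 2 * pq om (v - ch.X (sl e L sg' b'))))) * Q) := by gcongr
        _ = G b' := by rw [hG]; ring
    · rw [Set.indicator_of_notMem (by rw [mem_closedBall_zero_iff]; exact hb')]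
      have : (cut ch m b' : ℝ) = 0 := by
        refine (cut ch m).zero_of_le_dist ?_
        rw [dist_zero_right]
        change 5 / 2 * ch.dl ≤ ‖b'‖
        linarith [not_le.mp hb']
      rw [this]
      simp
  have h2 := (hB om e L hS sg' hsg').2 v ((2 * w)⁻¹) (by positivity)
  calc ‖JJ ch om lam r e L zt sg sg' b b''‖ ≤
      ∫ b', (Metric.closedBall (0 : EE m) (3 * ch.dl)).indicator G b' := key
    _ = ∫ b' in Metric.closedBall (0 : EE m) (3 * ch.dl), G b' :=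
      integral_indicator Metric.isClosed_closedBall.measurableSet
    _ = Q * Q * ∫ b' in Metric.closedBall (0 : EE m) (3 * ch.dl),
        Real.exp (-(((2 * w)⁻¹) ^ 2 * pq om (v - ch.X (sl e L sg' b')))) := by
      rw [hG]
      exact integral_const_mul _ _
    _ ≤ Q * Q * (C2 * (2 * w)⁻¹⁻¹ ^ m) := by gcongr
    _ = C1 ^ 2 * C2 * 2 ^ m * (r / lam) ^ 2 * (lam / T) ^ (m + 1) * w ^ m := by
      rw [hQ2, inv_inv, mul_pow]; ring

end Pool.Agent.Lib.MP_a8dae7_an.CG.JNM
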