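import Pool.Agent.Lib.MP_a8dae7_an.CG.Spec

section
/-!
# MP_a8dae7_an, CG (copy of CV for graph charts): first reduction (SpecRD1)
-/
set_option autoImplicit false

open MeasureTheory
open scoped ContDiff

namespace Pool.Agent.Lib.MP_a8dae7_an.CG.RD1M

open Pool.Agent.Lib.MP_a8dae7_an.CV

open Pool.Agent.Lib.MP_a8dae7_an.CV

/-- the estimate of far pairs of frequencies -/
def FarPairs : Prop := ∀ (k : ℕ) (ch : Chart k) (chi : EE k → ℝ), ContDiff ℝ ∞ chi →
  (∀ q, 3 / 2 * ch.dl < ‖q‖ → chi q = 0) → ∀ (eps : ℝ), 0 < eps → eps ≤ 1 / 10 → ∀ N : ℕ,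
  ∃ C R0 lam0 : ℝ, 0 < C ∧ 1 ≤ lam0 ∧ 1 ≤ R0 ∧ ∀ lam : ℝ, lam0 ≤ lam → ∀ n n' : Fin (k + 1) → ℤ,
  ‖zv n‖ = lam → ‖zv n'‖ = lam → ∀ psi : ℝ → ℝ, (psi = psT ∨ psi = psP ∨ psi = psN) →
  (∃ i, R0 * lam ^ (2 * eps) <
    |((cb (lam ^ (2 / 3 - eps)) n i - cb (lam ^ (2 / 3 - eps)) n' i : ℤ) : ℝ)|) →
  ‖∫ q, ((chi q * (psi (sn ch (lam ^ (2 / 3 - eps) • zv (cb (lam ^ (2 / 3 - eps)) n)) q / lam ^ (2 / 3 + eps)) *
      psi (sn ch (lam ^ (2 / 3 - eps) • zv (cb (lam ^ (2 / 3 - eps)) n')) q / lam ^ (2 / 3 + eps))) : ℝ) : ℂ) *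
    (ex (zv n) (ch.X q) * (starRingEnd ℂ) (ex (zv n') (ch.X q)))‖ ≤ C * lam⁻¹ ^ N

theorem ex_cont {d : ℕ} (n : EE d) : Continuous (ex n) := by
  unfold ex
  fun_prop

theorem es_cont {d : ℕ} (s : Finset (Fin d → ℤ)) (a : (Fin d → ℤ) → ℂ) : Continuous (es s a) := by
  unfold es
  exact continuous_finsetSum _ fun n _ => continuous_const.mul (ex_cont _)

theorem sn_cont {k : ℕ} (ch : Chart k) (n : EE (k + 1)) : Continuous (sn ch n) := by
  unfold sn
  exact continuous_const.inner (continuous_const.sub (ch.J.continuous.comp ch.smoothV.continuous))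

/-- the bump function -/
noncomputable def bb {k : ℕ} (ch : Chart k) : ContDiffBump (0 : EE k) where
  rIn := ch.dl
  rOut := 3 / 2 * ch.dl
  rIn_pos := ch.dl_pos
  rIn_lt_rOut := by have := ch.dl_pos; linarith

theorem bb_zero {k : ℕ} (ch : Chart k) (q : EE k) (h : 3 / 2 * ch.dl ≤ ‖q‖) : bb ch q = 0 := by
  apply (bb ch).zero_of_le_dist
  rw [dist_zero_right]
  exact h

theorem bb_one {k : ℕ} (ch : Chart k) (q : EE k) (h : ‖q‖ ≤ ch.dl) : bb ch q = 1 := by
  apply (bb ch).one_of_mem_closedBall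
  rw [mem_closedBall_zero_iff]
  exact h

/-- from the weight to the ball -/
theorem weight_le {k : ℕ} (ch : Chart k) (F g : EE k → ℝ) (hF : Continuous F) (hF0 : ∀ q, 0 ≤ F q)
    (hg : Continuous g) (hg1 : ∀ q, 0 ≤ g q ∧ g q ≤ 1) :
    ∫ q, bb ch q * (g q ^ 2 * F q) ≤ ∫ q in Metric.closedBall (0 : EE k) (3 / 2 * ch.dl), F q := by
  have hcomp : IsCompact (Metric.closedBall (0 : EE k) (3 / 2 * ch.dl)) := isCompact_closedBall _ _
  rw [← integral_indicator hcomp.measurableSet]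
  apply integral_mono
  · apply Continuous.integrable_of_hasCompactSupport
    · exact (bb ch).continuous.mul ((hg.pow 2).mul hF)
    · exact (bb ch).hasCompactSupport.mul_right
  · exact (hF.continuousOn.integrableOn_compact hcomp).integrable_indicator hcomp.measurableSet
  · intro q
    show bb ch q * (g q ^ 2 * F q) ≤ _
    by_cases h : q ∈ Metric.closedBall (0 : EE k) (3 / 2 * ch.dl)
    · rw [Set.indicator_of_mem h]
      have h1 : bb ch q ≤ 1 := (bb ch).le_one
      have h2 : 0 ≤ bb ch q := (bb ch).nonneg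
      have h3 : g q ^ 2 ≤ 1 := pow_le_one₀ (hg1 q).1 (hg1 q).2
      have h4 := hF0 q
      calc bb ch q * (g q ^ 2 * F q) ≤ 1 * (1 * F q) := by gcongr
        _ = F q := by ring
    · rw [Set.indicator_of_notMem h, bb_zero ch q, zero_mul]
      rw [mem_closedBall_zero_iff, not_le] at h
      exact h.le

theorem ball_le {k : ℕ} (ch : Chart k) (F : EE k → ℝ) (hF : Continuous F) (hF0 : ∀ q, 0 ≤ F q) :
    ∫ q in Metric.closedBall (0 : EE k) ch.dl, F q ≤ ∫ q, bb ch q * F q := by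
  have hcomp : IsCompact (Metric.closedBall (0 : EE k) ch.dl) := isCompact_closedBall _ _
  rw [← integral_indicator hcomp.measurableSet]
  apply integral_mono
  · exact (hF.continuousOn.integrableOn_compact hcomp).integrable_indicator hcomp.measurableSet
  · apply Continuous.integrable_of_hasCompactSupport
    · exact (bb ch).continuous.mul hF
    · exact (bb ch).hasCompactSupport.mul_right
  · intro q
    show _ ≤ bb ch q * F q
    by_cases h : q ∈ Metric.closedBall (0 : EE k) ch.dl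
    · rw [Set.indicator_of_mem h, bb_one ch q (mem_closedBall_zero_iff.1 h), one_mul]
    · rw [Set.indicator_of_notMem h]
      exact mul_nonneg (bb ch).nonneg (hF0 q)

/-- one cutoff -/
theorem one_cut (hOR : SpecOR) {k : ℕ} (ch : Chart k) (s : Finset (Fin (k + 1) → ℤ))
    (a : (Fin (k + 1) → ℤ) → ℂ) (l mu : ℝ) (psi : ℝ → ℝ) (hpc : Continuous psi)
    (hp : ∀ t, 0 ≤ psi t ∧ psi t ≤ 1) (R : ℕ) (E : ℝ) (hE : 0 ≤ E)
    (hfar : ∀ n ∈ s, ∀ n' ∈ s, (∃ i, (R : ℤ) < |cb l n i - cb l n' i|) →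
      ‖∫ q, ((bb ch q * (psi (sn ch (l • zv (cb l n)) q / mu) *
        psi (sn ch (l • zv (cb l n')) q / mu)) : ℝ) : ℂ) *
          (ex (zv n) (ch.X q) * (starRingEnd ℂ) (ex (zv n') (ch.X q)))‖ ≤ E) :
    ∫ q, bb ch q * ‖∑ n ∈ s, ((psi (sn ch (l • zv (cb l n)) q / mu) : ℝ) : ℂ) *
        (a n * ex (zv n) (ch.X q))‖ ^ 2 ≤
      (2 * R + 1 : ℝ) ^ (k + 1) * (∑ c ∈ s.image (cb l),
        ∫ q in Metric.closedBall (0 : EE k) (3 / 2 * ch.dl),
          ‖es (s.filter fun n => cb l n = c) a (ch.X q)‖ ^ 2) + E * s.card * ∑ n ∈ s, ‖a n‖ ^ 2 := by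
  have hX : Continuous ch.X := ch.smooth.continuous
  have hgc : ∀ c : Fin (k + 1) → ℤ, Continuous (fun q => psi (sn ch (l • zv c) q / mu)) :=
    fun c => hpc.comp ((sn_cont ch _).div_const _)
  have h := hOR (k + 1) k s a (fun n q => ex (zv n) (ch.X q)) (cb l)
    (fun c q => psi (sn ch (l • zv c) q / mu)) (bb ch) R E (fun n => (ex_cont _).comp hX) hgc
    (bb ch).continuous (bb ch).hasCompactSupport (fun q => (bb ch).nonneg) hE hfar
  refine h.trans ?_
  gcongr with c hc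
  refine weight_le ch (fun q => ‖∑ n ∈ s with cb l n = c, a n * ex (zv n) (ch.X q)‖ ^ 2)
    (fun q => psi (sn ch (l • zv c) q / mu)) ?_ (fun q => by positivity) (hgc c) (fun q => hp _)
  exact ((es_cont (s.filter fun n => cb l n = c) a).comp hX).norm.pow 2

theorem sum_three (x y z : ℂ) : ‖x + y + z‖ ^ 2 ≤ 3 * (‖x‖ ^ 2 + ‖y‖ ^ 2 + ‖z‖ ^ 2) := by
  have h1 : ‖x + y + z‖ ≤ ‖x‖ + ‖y‖ + ‖z‖ := norm_add₃_le
  have h2 : ‖x + y + z‖ ^ 2 ≤ (‖x‖ + ‖y‖ + ‖z‖) ^ 2 := by gcongr
  nlinarith [sq_nonneg (‖x‖ - ‖y‖), sq_nonneg (‖x‖ - ‖z‖), sq_nonneg (‖y‖ - ‖z‖)]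

theorem int3 {k : ℕ} {F1 F2 F3 : EE k → ℝ} (h1 : Integrable F1) (h2 : Integrable F2)
    (h3 : Integrable F3) :
    3 * ((∫ q, F1 q) + (∫ q, F2 q) + ∫ q, F3 q) = ∫ q, 3 * (F1 q + F2 q + F3 q) := by
  rw [integral_const_mul, integral_add (f := fun q => F1 q + F2 q) (h1.add h2) h3, integral_add h1 h2]

theorem rd1 (hfar : FarPairs) (hOR : SpecOR) (hTR : SpecTR) (hCT : SpecCT) : SpecRD1 := by
  intro k ch
  refine ⟨2 * ((k : ℝ) + 1), by positivity, ?_⟩
  intro eps heps heps1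
  obtain ⟨hP, hN, hT, -, -, hb, -⟩ := hCT
  obtain ⟨C1, R0, lam0, hC1, hlam0, hR0, hfp⟩ := hfar k ch (bb ch) (bb ch).contDiff
    (fun q hq => bb_zero ch q hq.le) eps heps heps1 (k + 1)
  have hX : Continuous ch.X := ch.smooth.continuous
  have hcomp : IsCompact (Metric.closedBall (0 : EE k) ch.dl) := isCompact_closedBall _ _
  set V : ℝ := volume.real (Metric.closedBall (0 : EE k) ch.dl) with hV
  have hV0 : 0 ≤ V := measureReal_nonneg
  refine ⟨9 * (2 * R0 + 3) ^ (k + 1) + 9 * (C1 * 3 ^ (k + 1)) + V * (2 * lam0 + 1) ^ (k + 1), by positivity, ?_⟩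
  intro lam s a hlam hs
  set A2 : ℝ := ∑ n ∈ s, ‖a n‖ ^ 2 with hA2
  have hA0 : 0 ≤ A2 := Finset.sum_nonneg fun n _ => by positivity
  set l : ℝ := lam ^ (2 / 3 - eps) with hl
  set mu : ℝ := lam ^ (2 / 3 + eps) with hmu
  set SS : ℝ := ∑ c ∈ s.image (cb l), ∫ q in Metric.closedBall (0 : EE k) (3 / 2 * ch.dl),
        ‖es (s.filter fun n => cb l n = c) a (ch.X q)‖ ^ 2 with hSS
  have hS0 : 0 ≤ SS := Finset.sum_nonneg fun c _ => integral_nonneg fun q => by positivity
  have hlamK : 1 ≤ lam ^ (2 * ((k : ℝ) + 1) * eps) := Real.one_le_rpow hlam (by positivity)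
  have hcard : (s.card : ℝ) ≤ (2 * lam + 1) ^ (k + 1) := by
    refine hTR.2 (k + 1) s 0 lam (by linarith) fun n hn => ?_
    rw [sub_zero, hs n hn]
  have hesc : Continuous (fun q => ‖es s a (ch.X q)‖ ^ 2) := ((es_cont s a).comp hX).norm.pow 2
  rcases lt_or_ge lam lam0 with hlt | hge
  · -- small `lam`
    have h1 : ∫ q in Metric.closedBall (0 : EE k) ch.dl, ‖es s a (ch.X q)‖ ^ 2 ≤
        V * ((2 * lam0 + 1) ^ (k + 1) * A2) := by
      have h2 : ∫ q in Metric.closedBall (0 : EE k) ch.dl, ‖es s a (ch.X q)‖ ^ 2 ≤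
          ∫ _ in Metric.closedBall (0 : EE k) ch.dl, ((2 * lam0 + 1) ^ (k + 1) * A2) := by
        apply setIntegral_mono (hesc.continuousOn.integrableOn_compact hcomp)
          (continuous_const.continuousOn.integrableOn_compact hcomp)
        intro q
        have h5 : (s.card : ℝ) * A2 ≤ (2 * lam0 + 1) ^ (k + 1) * A2 :=
          mul_le_mul_of_nonneg_right (hcard.trans (by gcongr)) hA0
        exact (hTR.1 (k + 1) s a (ch.X q)).trans h5
      rw [setIntegral_const, smul_eq_mul] at h2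
      exact h2
    refine h1.trans ?_
    have h3 : 0 ≤ (9 * (2 * R0 + 3) ^ (k + 1) + 9 * (C1 * 3 ^ (k + 1)) + V * (2 * lam0 + 1) ^ (k + 1)) *
        lam ^ (2 * ((k : ℝ) + 1) * eps) * SS := by positivity
    have h4 : 0 ≤ 9 * (2 * R0 + 3) ^ (k + 1) + 9 * (C1 * 3 ^ (k + 1)) := by positivity
    nlinarith [mul_nonneg h4 hA0]
  · -- large `lam`
    have hlpos : (0 : ℝ) < lam := by linarith
    have hpow : 1 ≤ lam ^ (2 * eps) := Real.one_le_rpow hlam (by positivity)
    set R : ℕ := ⌈R0 * lam ^ (2 * eps)⌉₊ with hR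
    have hR1 : R0 * lam ^ (2 * eps) ≤ R := Nat.le_ceil _
    have hR2 : (R : ℝ) ≤ R0 * lam ^ (2 * eps) + 1 := (Nat.ceil_lt_add_one (by positivity)).le
    have hR3 : (2 * R + 1 : ℝ) ≤ (2 * R0 + 3) * lam ^ (2 * eps) := by nlinarith
    have hR4 : (2 * R + 1 : ℝ) ^ (k + 1) ≤ (2 * R0 + 3) ^ (k + 1) * lam ^ (2 * ((k : ℝ) + 1) * eps) := by
      calc (2 * R + 1 : ℝ) ^ (k + 1) ≤ ((2 * R0 + 3) * lam ^ (2 * eps)) ^ (k + 1) := by gcongr
        _ = (2 * R0 + 3) ^ (k + 1) * lam ^ (2 * ((k : ℝ) + 1) * eps) := by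
          rw [mul_pow, ← Real.rpow_natCast (lam ^ (2 * eps)), ← Real.rpow_mul hlpos.le]
          congr 2
          push_cast
          ring
    have hE : C1 * lam⁻¹ ^ (k + 1) * s.card ≤ C1 * 3 ^ (k + 1) := by
      calc C1 * lam⁻¹ ^ (k + 1) * s.card ≤ C1 * lam⁻¹ ^ (k + 1) * (3 * lam) ^ (k + 1) := by
            gcongr
            exact hcard.trans (by gcongr; linarith)
        _ = C1 * 3 ^ (k + 1) := by
          rw [mul_assoc, ← mul_pow]
          congr 2
          field_simp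
    have hone : ∀ psi : ℝ → ℝ, (psi = psT ∨ psi = psP ∨ psi = psN) → Continuous psi →
        (∀ t, 0 ≤ psi t ∧ psi t ≤ 1) →
        ∫ q, bb ch q * ‖∑ n ∈ s, ((psi (sn ch (l • zv (cb l n)) q / mu) : ℝ) : ℂ) *
          (a n * ex (zv n) (ch.X q))‖ ^ 2 ≤
        (2 * R0 + 3) ^ (k + 1) * lam ^ (2 * ((k : ℝ) + 1) * eps) * SS + C1 * 3 ^ (k + 1) * A2 := by
      intro psi hpsi hpc hp
      refine (one_cut hOR ch s a l mu psi hpc hp R (C1 * lam⁻¹ ^ (k + 1)) (by positivity) ?_).trans ?_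
      · intro n hn n' hn' hi
        obtain ⟨i, hi⟩ := hi
        refine hfp lam hge n n' (hs n hn) (hs n' hn') psi hpsi ⟨i, ?_⟩
        have h5 : ((R : ℤ) : ℝ) < ((|cb l n i - cb l n' i| : ℤ) : ℝ) := by exact_mod_cast hi
        rw [Int.cast_abs] at h5
        refine hR1.trans_lt ?_
        simpa using h5
      · gcongr
    have h1 := hone psT (Or.inl rfl) hT.1.continuous (fun t => ⟨(hb t).2.2.2.2.1, (hb t).2.2.2.2.2.1⟩)
    have h2 := hone psP (Or.inr (Or.inl rfl)) hP.1.continuous (fun t => ⟨(hb t).1, (hb t).2.1⟩)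
    have h3 := hone psN (Or.inr (Or.inr rfl)) hN.1.continuous (fun t => ⟨(hb t).2.2.1, (hb t).2.2.2.1⟩)
    have hint : ∀ psi : ℝ → ℝ, Continuous psi → Integrable (fun q => bb ch q *
        ‖∑ n ∈ s, ((psi (sn ch (l • zv (cb l n)) q / mu) : ℝ) : ℂ) * (a n * ex (zv n) (ch.X q))‖ ^ 2) := by
      intro psi hpc
      apply Continuous.integrable_of_hasCompactSupport
      · refine (bb ch).continuous.mul (Continuous.pow (Continuous.norm ?_) 2)
        refine continuous_finsetSum _ fun n _ => ?_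
        exact (Complex.continuous_ofReal.comp (hpc.comp ((sn_cont ch _).div_const _))).mul
          (continuous_const.mul ((ex_cont _).comp hX))
      · exact (bb ch).hasCompactSupport.mul_right
    have h4 : ∫ q in Metric.closedBall (0 : EE k) ch.dl, ‖es s a (ch.X q)‖ ^ 2 ≤
        3 * ((∫ q, bb ch q * ‖∑ n ∈ s, ((psT (sn ch (l • zv (cb l n)) q / mu) : ℝ) : ℂ) *
          (a n * ex (zv n) (ch.X q))‖ ^ 2) +
        (∫ q, bb ch q * ‖∑ n ∈ s, ((psP (sn ch (l • zv (cb l n)) q / mu) : ℝ) : ℂ) *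
          (a n * ex (zv n) (ch.X q))‖ ^ 2) +
        ∫ q, bb ch q * ‖∑ n ∈ s, ((psN (sn ch (l • zv (cb l n)) q / mu) : ℝ) : ℂ) *
          (a n * ex (zv n) (ch.X q))‖ ^ 2) := by
      refine (ball_le ch _ hesc (fun q => by positivity)).trans ?_
      rw [int3 (hint _ hT.1.continuous) (hint _ hP.1.continuous) (hint _ hN.1.continuous)]
      apply integral_mono
      · apply Continuous.integrable_of_hasCompactSupport
        · exact (bb ch).continuous.mul hesc
        · exact (bb ch).hasCompactSupport.mul_right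
      · exact (((hint _ hT.1.continuous).add (hint _ hP.1.continuous)).add (hint _ hN.1.continuous)).const_mul 3
      · intro q
        have h5 : es s a (ch.X q) =
            (∑ n ∈ s, ((psT (sn ch (l • zv (cb l n)) q / mu) : ℝ) : ℂ) * (a n * ex (zv n) (ch.X q))) +
            (∑ n ∈ s, ((psP (sn ch (l • zv (cb l n)) q / mu) : ℝ) : ℂ) * (a n * ex (zv n) (ch.X q))) +
            ∑ n ∈ s, ((psN (sn ch (l • zv (cb l n)) q / mu) : ℝ) : ℂ) * (a n * ex (zv n) (ch.X q)) := by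
          rw [← Finset.sum_add_distrib, ← Finset.sum_add_distrib]
          refine Finset.sum_congr rfl fun n _ => ?_
          unfold psT
          push_cast
          ring
        have h6 : 0 ≤ bb ch q := (bb ch).nonneg
        have h7 := mul_le_mul_of_nonneg_left (sum_three
          (∑ n ∈ s, ((psT (sn ch (l • zv (cb l n)) q / mu) : ℝ) : ℂ) * (a n * ex (zv n) (ch.X q)))
          (∑ n ∈ s, ((psP (sn ch (l • zv (cb l n)) q / mu) : ℝ) : ℂ) * (a n * ex (zv n) (ch.X q)))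
          (∑ n ∈ s, ((psN (sn ch (l • zv (cb l n)) q / mu) : ℝ) : ℂ) * (a n * ex (zv n) (ch.X q)))) h6
        show bb ch q * ‖es s a (ch.X q)‖ ^ 2 ≤ _
        rw [h5]
        refine h7.trans (le_of_eq ?_)
        ring
    refine h4.trans ?_
    have h8 : 0 ≤ V * (2 * lam0 + 1) ^ (k + 1) := by positivity
    have h9 : 0 ≤ C1 * 3 ^ (k + 1) := by positivity
    have h10 : 0 ≤ (2 * R0 + 3) ^ (k + 1) := by positivity
    have h11 : 0 ≤ lam ^ (2 * ((k : ℝ) + 1) * eps) * SS := by positivity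
    nlinarith [mul_nonneg h8 hA0, mul_nonneg h8 h11, mul_nonneg h9 h11, mul_nonneg h10 hA0]

end Pool.Agent.Lib.MP_a8dae7_an.CG.RD1M
end

section
/-!
# MP_a8dae7_an, CG (copy of CV for graph charts): far pairs in the first reduction (part of RD1)

The cube with label `c` and side `l` is represented by its corner `l • zv c`.
-/
set_option autoImplicit false

open MeasureTheory
open scoped ContDiff

namespace Pool.Agent.Lib.MP_a8dae7_an.CG.RD1M

open Pool.Agent.Lib.MP_a8dae7_an.CV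

/-- the corner of the cube of side `l` containing `n` is at distance at most `d l` -/
theorem corner_dist {d : ℕ} (l : ℝ) (hl : 0 < l) (n : Fin d → ℤ) :
    ‖zv n - l • zv (cb l n)‖ ≤ d * l := by
  have h1 : ∀ i, |(zv n - l • zv (cb l n)) i| ≤ l := by
    intro i
    have e1 : (zv n - l • zv (cb l n)) i = (n i : ℝ) - l * (⌊(n i : ℝ) / l⌋ : ℝ) := by
      simp [zv, cb]
    have h2 : (⌊(n i : ℝ) / l⌋ : ℝ) ≤ (n i : ℝ) / l := Int.floor_le _
    have h3 : (n i : ℝ) / l < (⌊(n i : ℝ) / l⌋ : ℝ) + 1 := Int.lt_floor_add_one _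
    rw [le_div_iff₀ hl] at h2
    rw [div_lt_iff₀ hl] at h3
    rw [e1, abs_le]
    constructor <;> nlinarith
  have h2 : ‖zv n - l • zv (cb l n)‖ ^ 2 ≤ (d * l) ^ 2 := by
    rw [EuclideanSpace.norm_sq_eq]
    calc ∑ i, ‖(zv n - l • zv (cb l n)) i‖ ^ 2 ≤ ∑ _i : Fin d, l ^ 2 := by
          refine Finset.sum_le_sum fun i _ => ?_
          rw [Real.norm_eq_abs, sq_abs, ← sq_abs]
          exact pow_le_pow_left₀ (abs_nonneg _) (h1 i) 2
      _ = d * l ^ 2 := by simp
      _ ≤ (d * l) ^ 2 := by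
          rcases Nat.eq_zero_or_pos d with h | h
          · subst h; simp
          · have : (1 : ℝ) ≤ d := by exact_mod_cast h
            nlinarith [sq_nonneg l, mul_nonneg (sub_nonneg.2 this) (sq_nonneg l)]
  exact le_of_sq_le_sq h2 (by positivity)

/-- labels far in one coordinate: the points are far -/
theorem far_dist {d : ℕ} (l : ℝ) (hl : 0 < l) (n n' : Fin d → ℤ) (R : ℝ) (i : Fin d)
    (h : R < |((cb l n i - cb l n' i : ℤ) : ℝ)|) : (R - 1) * l ≤ ‖zv n - zv n'‖ := by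
  have h0 : |(zv n - zv n') i| ≤ ‖zv n - zv n'‖ := by
    have := EuclideanSpace.norm_sq_eq (zv n - zv n')
    have h3 : ‖(zv n - zv n') i‖ ^ 2 ≤ ‖zv n - zv n'‖ ^ 2 := by
      rw [this]
      exact Finset.single_le_sum (f := fun j => ‖(zv n - zv n') j‖ ^ 2) (fun j _ => by positivity)
        (Finset.mem_univ i)
    rw [← Real.norm_eq_abs]
    exact le_of_sq_le_sq h3 (norm_nonneg _)
  refine le_trans ?_ h0
  have e1 : (zv n - zv n') i = (n i : ℝ) - (n' i : ℝ) := by simp [zv]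
  rw [e1]
  have h2 : (⌊(n i : ℝ) / l⌋ : ℝ) ≤ (n i : ℝ) / l := Int.floor_le _
  have h3 : (n i : ℝ) / l < (⌊(n i : ℝ) / l⌋ : ℝ) + 1 := Int.lt_floor_add_one _
  have h2' : (⌊(n' i : ℝ) / l⌋ : ℝ) ≤ (n' i : ℝ) / l := Int.floor_le _
  have h3' : (n' i : ℝ) / l < (⌊(n' i : ℝ) / l⌋ : ℝ) + 1 := Int.lt_floor_add_one _
  rw [le_div_iff₀ hl] at h2 h2'
  rw [div_lt_iff₀ hl] at h3 h3'
  have e2 : ((cb l n i - cb l n' i : ℤ) : ℝ) = (⌊(n i : ℝ) / l⌋ : ℝ) - (⌊(n' i : ℝ) / l⌋ : ℝ) := by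
    simp [cb]
  rw [e2] at h
  rcases lt_abs.1 h with h4 | h4
  · refine le_trans ?_ (le_abs_self _)
    nlinarith
  · refine le_trans ?_ (neg_le_abs _)
    nlinarith

/-- `sn` is Lipschitz in the frequency -/
theorem sn_sub {k : ℕ} (ch : Chart k) (n n' : EE (k + 1)) (q : EE k) (hq : ‖q‖ ≤ 4 * ch.dl) :
    |sn ch n q - sn ch n' q| ≤ 2 * ‖n - n'‖ := by
  unfold sn
  rw [← inner_sub_left]
  refine le_trans (abs_real_inner_le_norm _ _) ?_
  have h1 : ‖ch.nu - ch.J (ch.V q)‖ ≤ 2 := by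
    refine le_trans (norm_sub_le _ _) ?_
    rw [ch.nu_one, ch.J.norm_map]
    linarith [ch.V_le q hq]
  nlinarith [norm_nonneg (n - n')]

/-- product of characters -/
theorem ex_mul_conj {d : ℕ} (n n' x : EE d) : ex n x * (starRingEnd ℂ) (ex n' x) = ex (n - n') x := by
  unfold ex
  rw [← Complex.exp_conj, ← Complex.exp_add]
  congr 1
  rw [inner_sub_left]
  simp
  ring

/-- the three types of supports -/
def Typ (psi : ℝ → ℝ) : Prop :=
  (∀ s, psi s ≠ 0 → |s| < 2) ∨ (∀ s, psi s ≠ 0 → 1 < s) ∨ (∀ s, psi s ≠ 0 → s < -1)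

/-- the gradient bound on the support -/
theorem grad_bound (hGA : SpecGA) (k : ℕ) (ch : Chart k) (psi : ℝ → ℝ) (hT : Typ psi) (lam eps : ℝ)
    (h0 : 0 < eps) (h1 : eps ≤ 1 / 10) (hlam : 1 ≤ lam) (hbig : 4 * ((k : ℝ) + 1) ≤ lam ^ (2 * eps))
    (n n' : Fin (k + 1) → ℤ) (hn : ‖zv n‖ = lam) (hn' : ‖zv n'‖ = lam)
    (heta : 24 * lam ^ (2 / 3 + eps) ≤ ‖zv n - zv n'‖) (q : EE k) (hq : ‖q‖ ≤ 4 * ch.dl)
    (hs : psi (sn ch (lam ^ (2 / 3 - eps) • zv (cb (lam ^ (2 / 3 - eps)) n)) q / lam ^ (2 / 3 + eps)) ≠ 0)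
    (hs' : psi (sn ch (lam ^ (2 / 3 - eps) • zv (cb (lam ^ (2 / 3 - eps)) n')) q / lam ^ (2 / 3 + eps)) ≠ 0) :
    ∃ v : EE k, ‖v‖ ≤ 1 ∧ ch.c / 8 * lam ^ eps * Real.sqrt ‖zv n - zv n'‖ ≤
      |inner ℝ (zv n - zv n') (fderiv ℝ ch.X q v)| := by
  have hl0 : 0 < lam := by linarith
  set l := lam ^ (2 / 3 - eps) with hl
  set mu := lam ^ (2 / 3 + eps) with hmu
  have hlp : 0 < l := Real.rpow_pos_of_pos hl0 _
  have hmup : 0 < mu := Real.rpow_pos_of_pos hl0 _
  have hlmu : l * lam ^ (2 * eps) = mu := by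
    rw [hl, hmu, ← Real.rpow_add hl0]; congr 1; ring
  have hdl : 4 * (((k + 1 : ℕ) : ℝ) * l) ≤ mu := by
    rw [← hlmu]; push_cast
    nlinarith
  have hc1 : |sn ch (zv n) q - sn ch (l • zv (cb l n)) q| ≤ mu / 2 := by
    have := sn_sub ch (zv n) (l • zv (cb l n)) q hq
    have h2 := corner_dist l hlp n
    linarith
  have hc1' : |sn ch (zv n') q - sn ch (l • zv (cb l n')) q| ≤ mu / 2 := by
    have := sn_sub ch (zv n') (l • zv (cb l n')) q hq
    have h2 := corner_dist l hlp n'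
    linarith
  rw [abs_le] at hc1 hc1'
  have hcpos := ch.c_pos
  have hmulam : mu ≤ lam := by
    calc mu ≤ lam ^ (1 : ℝ) := Real.rpow_le_rpow_of_exponent_le hlam (by linarith)
      _ = lam := Real.rpow_one lam
  set e := ‖zv n - zv n'‖ with he
  have he0 : 0 ≤ e := norm_nonneg _
  have hse : Real.sqrt e * Real.sqrt e = e := Real.mul_self_sqrt he0
  have hs0 : 0 ≤ Real.sqrt e := Real.sqrt_nonneg _
  -- `√e ≥ lam^(1/3+eps/2)`
  have hse1 : lam ^ (1 / 3 + eps / 2) ≤ Real.sqrt e := by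
    apply Real.le_sqrt_of_sq_le
    calc (lam ^ (1 / 3 + eps / 2)) ^ 2 = mu := by
          rw [← Real.rpow_natCast, ← Real.rpow_mul hl0.le, hmu]
          congr 1; push_cast; ring
      _ ≤ e := by linarith
  obtain ⟨hg1, hg2⟩ := hGA k ch (zv n) (zv n') q (by rw [hn, hn']) hq
  have key2 : ∀ v : EE k, ch.c / 4 * (mu / (2 * lam)) * e ≤ inner ℝ (zv n - zv n') (fderiv ℝ ch.X q v) →
      ch.c / 8 * lam ^ eps * Real.sqrt e ≤ |inner ℝ (zv n - zv n') (fderiv ℝ ch.X q v)| := by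
    intro v hv
    refine le_trans (le_trans ?_ hv) (le_abs_self _)
    have h3 : lam ^ eps ≤ mu / lam * Real.sqrt e := by
      have h4 : mu / lam = lam ^ (-(1 / 3) + eps) := by
        rw [div_eq_iff hl0.ne', ← Real.rpow_add_one hl0.ne', hmu]
        congr 1; ring
      calc lam ^ eps ≤ lam ^ (-(1 / 3) + eps) * lam ^ (1 / 3 + eps / 2) := by
            rw [← Real.rpow_add hl0]
            exact Real.rpow_le_rpow_of_exponent_le hlam (by linarith)
        _ ≤ mu / lam * Real.sqrt e := by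
            rw [h4]
            exact mul_le_mul_of_nonneg_left hse1 (Real.rpow_nonneg hl0.le _)
    calc ch.c / 8 * lam ^ eps * Real.sqrt e ≤ ch.c / 8 * (mu / lam * Real.sqrt e) * Real.sqrt e := by
          gcongr
      _ = ch.c / 4 * (mu / (2 * lam)) * (Real.sqrt e * Real.sqrt e) := by field_simp; ring
      _ = ch.c / 4 * (mu / (2 * lam)) * e := by rw [hse]
  have hth0 : 0 ≤ mu / (2 * lam) := by positivity
  have hth1 : mu / (2 * lam) ≤ 1 := by
    rw [div_le_one (by positivity)]; linarith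
  have hthn : mu / (2 * lam) * ‖zv n‖ = mu / 2 := by rw [hn]; field_simp
  rcases hT with hT | hT | hT
  · have a1 := hT _ hs
    have a2 := hT _ hs'
    rw [abs_lt, lt_div_iff₀ hmup, div_lt_iff₀ hmup] at a1 a2
    obtain ⟨v, hv1, hv2⟩ := hg1 (3 * mu) (by rw [abs_le]; constructor <;> linarith)
      (by rw [abs_le]; constructor <;> linarith) (by linarith)
    refine ⟨v, hv1, le_trans (le_trans ?_ hv2) (le_abs_self _)⟩
    have h3 : lam ^ eps ≤ Real.sqrt e :=
      le_trans (Real.rpow_le_rpow_of_exponent_le hlam (by linarith)) hse1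
    calc ch.c / 8 * lam ^ eps * Real.sqrt e ≤ ch.c / 8 * Real.sqrt e * Real.sqrt e := by gcongr
      _ = ch.c / 8 * e := by rw [mul_assoc, hse]
      _ ≤ ch.c / 4 * e := by nlinarith
  · have a1 := hT _ hs
    have a2 := hT _ hs'
    rw [lt_div_iff₀ hmup] at a1 a2
    obtain ⟨v, hv1, hv2⟩ := hg2 (mu / (2 * lam)) hth0 hth1 (Or.inl ⟨by rw [hthn]; linarith,
      by rw [hthn]; linarith⟩)
    exact ⟨v, hv1, key2 v hv2⟩
  · have a1 := hT _ hs
    have a2 := hT _ hs'
    rw [div_lt_iff₀ hmup] at a1 a2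
    obtain ⟨v, hv1, hv2⟩ := hg2 (mu / (2 * lam)) hth0 hth1 (Or.inr ⟨by rw [hthn]; linarith,
      by rw [hthn]; linarith⟩)
    exact ⟨v, hv1, key2 v hv2⟩

theorem zv_sub_norm_le {d : ℕ} (l : ℝ) (hl : 0 < l) (n : Fin d → ℤ) :
    ‖l • zv (cb l n)‖ ≤ ‖zv n‖ + d * l := by
  have h1 := corner_dist l hl n
  have h2 : l • zv (cb l n) = zv n - (zv n - l • zv (cb l n)) := by abel
  rw [h2]
  exact le_trans (norm_sub_le _ _) (by linarith)

/-- far pairs, one cutoff -/
theorem far_one (hFP : SpecFP) (hGA : SpecGA) (hCT : SpecCT) (k : ℕ) (ch : Chart k) (chi : EE k → ℝ)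
    (hchi : ContDiff ℝ ∞ chi) (hsup : ∀ q, 3 / 2 * ch.dl < ‖q‖ → chi q = 0) (eps : ℝ) (h0 : 0 < eps)
    (h1 : eps ≤ 1 / 10) (N : ℕ) (psi : ℝ → ℝ) (hT : Typ psi) (hBD : BD psi) :
    ∃ C : ℝ, 0 < C ∧ ∀ lam : ℝ, 1 ≤ lam → 4 * ((k : ℝ) + 1) ≤ lam ^ (2 * eps) →
      ∀ n n' : Fin (k + 1) → ℤ, ‖zv n‖ = lam → ‖zv n'‖ = lam →
      (∃ i, 25 * lam ^ (2 * eps) <
        |((cb (lam ^ (2 / 3 - eps)) n i - cb (lam ^ (2 / 3 - eps)) n' i : ℤ) : ℝ)|) →
      ‖∫ q, ((chi q * (psi (sn ch (lam ^ (2 / 3 - eps) • zv (cb (lam ^ (2 / 3 - eps)) n)) q /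
          lam ^ (2 / 3 + eps)) *
        psi (sn ch (lam ^ (2 / 3 - eps) • zv (cb (lam ^ (2 / 3 - eps)) n')) q /
          lam ^ (2 / 3 + eps))) : ℝ) : ℂ) *
        (ex (zv n) (ch.X q) * (starRingEnd ℂ) (ex (zv n') (ch.X q)))‖ ≤ C * lam⁻¹ ^ N := by
  have hcomp : HasCompactSupport chi := by
    refine HasCompactSupport.intro (isCompact_closedBall (0 : EE k) (3 / 2 * ch.dl)) ?_
    intro q hq
    apply hsup
    simpa [Metric.mem_closedBall, dist_zero_right] using hq
  obtain ⟨A, hA⟩ := hCT.2.2.2.2.2.2.2.2.2.2.2 k ch chi psi psi hchi hcomp hBD hBD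
  obtain ⟨M, hM⟩ := exists_nat_ge ((N : ℝ) / eps)
  obtain ⟨C, hC, hF⟩ := hFP k ch M (fun j => |A j| * 2 ^ j)
  refine ⟨C * (8 / ch.c) ^ M, by have := ch.c_pos; positivity, ?_⟩
  intro lam hlam hbig n n' hn hn' hfar
  obtain ⟨i, hi⟩ := hfar
  have hl0 : 0 < lam := by linarith
  have hcpos := ch.c_pos
  set l := lam ^ (2 / 3 - eps) with hl
  set mu := lam ^ (2 / 3 + eps) with hmu
  have hlp : 0 < l := Real.rpow_pos_of_pos hl0 _
  have hmup : 0 < mu := Real.rpow_pos_of_pos hl0 _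
  have hlmu : l * lam ^ (2 * eps) = mu := by
    rw [hl, hmu, ← Real.rpow_add hl0]; congr 1; ring
  have hmulam : mu ≤ lam := by
    calc mu ≤ lam ^ (1 : ℝ) := Real.rpow_le_rpow_of_exponent_le hlam (by linarith)
      _ = lam := Real.rpow_one lam
  have hmu1 : 1 ≤ mu := Real.one_le_rpow hlam (by linarith)
  have hdl : 4 * (((k + 1 : ℕ) : ℝ) * l) ≤ mu := by
    rw [← hlmu]; push_cast
    nlinarith
  have h2e : 1 ≤ lam ^ (2 * eps) := Real.one_le_rpow hlam (by linarith)
  have heta : 24 * mu ≤ ‖zv n - zv n'‖ := by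
    have := far_dist l hlp n n' _ i hi
    rw [← hlmu]
    nlinarith
  have hse2 : lam / mu ≤ Real.sqrt ‖zv n - zv n'‖ := by
    apply Real.le_sqrt_of_sq_le
    have h4 : lam / mu = lam ^ (1 / 3 - eps) := by
      rw [div_eq_iff hmup.ne', hmu, ← Real.rpow_add hl0]
      conv_lhs => rw [← Real.rpow_one lam]
      congr 1; ring
    calc (lam / mu) ^ 2 = lam ^ (2 / 3 - 2 * eps) := by
          rw [h4, ← Real.rpow_natCast, ← Real.rpow_mul hl0.le]
          congr 1; push_cast; ring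
      _ ≤ mu := Real.rpow_le_rpow_of_exponent_le hlam (by linarith)
      _ ≤ ‖zv n - zv n'‖ := by linarith
  have hcn : ‖l • zv (cb l n)‖ ≤ 2 * lam := by
    have := zv_sub_norm_le l hlp n
    rw [hn] at this
    linarith
  have hcn' : ‖l • zv (cb l n')‖ ≤ 2 * lam := by
    have := zv_sub_norm_le l hlp n'
    rw [hn'] at this
    linarith
  obtain ⟨hsm, hder⟩ := hA (l • zv (cb l n)) (l • zv (cb l n')) (mu / (2 * lam)) (2 * lam)
    (by positivity) (by rw [div_le_iff₀ (by positivity)]; linarith) (by positivity) hcn hcn'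
  have hml : mu / (2 * lam) * (2 * lam) = mu := by field_simp
  rw [hml] at hsm hder
  set W : EE k → ℝ := fun q => chi q * (psi (sn ch (l • zv (cb l n)) q / mu) *
    psi (sn ch (l • zv (cb l n')) q / mu)) with hW
  have hfin := hF (zv n - zv n') W (ch.c / 8 * lam ^ eps) (by linarith) (by positivity) hsm
    (by
      intro q hq
      have : chi q = 0 := hsup q (by have := ch.dl_pos; linarith)
      simp [hW, this])
    (by
      intro j _ q
      refine le_trans (hder j q) ?_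
      have e1 : 1 / (mu / (2 * lam)) = 2 * (lam / mu) := by field_simp
      rw [e1, mul_pow, ← mul_assoc]
      have h5 : A j * 2 ^ j ≤ |A j| * 2 ^ j := by gcongr; exact le_abs_self _
      have h6 : 0 ≤ |A j| * 2 ^ j := by positivity
      calc A j * 2 ^ j * (lam / mu) ^ j ≤ |A j| * 2 ^ j * (lam / mu) ^ j := by gcongr
        _ ≤ |A j| * 2 ^ j * Real.sqrt ‖zv n - zv n'‖ ^ j := by gcongr)
    (by
      intro q hq
      have hq1 : chi q ≠ 0 := fun h => hq (by simp [hW, h])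
      have hq2 : psi (sn ch (l • zv (cb l n)) q / mu) ≠ 0 := fun h => hq (by simp [hW, h])
      have hq3 : psi (sn ch (l • zv (cb l n')) q / mu) ≠ 0 := fun h => hq (by simp [hW, h])
      have hq4 : ‖q‖ ≤ 4 * ch.dl := by
        by_contra h
        push Not at h
        exact hq1 (hsup q (by have := ch.dl_pos; linarith))
      exact grad_bound hGA k ch psi hT lam eps h0 h1 hlam hbig n n' hn hn' heta q hq4 hq2 hq3)
  have e3 : ∀ q, ((W q : ℝ) : ℂ) * (ex (zv n) (ch.X q) * (starRingEnd ℂ) (ex (zv n') (ch.X q))) =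
      ((W q : ℝ) : ℂ) * ex (zv n - zv n') (ch.X q) := by
    intro q; rw [ex_mul_conj]
  have e4 : (∫ q, ((chi q * (psi (sn ch (l • zv (cb l n)) q / mu) *
      psi (sn ch (l • zv (cb l n')) q / mu)) : ℝ) : ℂ) *
      (ex (zv n) (ch.X q) * (starRingEnd ℂ) (ex (zv n') (ch.X q)))) =
      ∫ q, ((W q : ℝ) : ℂ) * ex (zv n - zv n') (ch.X q) := integral_congr_ae
        (Filter.Eventually.of_forall e3)
  rw [e4]
  refine le_trans hfin ?_
  have e5 : (ch.c / 8 * lam ^ eps)⁻¹ ^ M = (8 / ch.c) ^ M * (lam ^ eps)⁻¹ ^ M := by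
    rw [← mul_pow]; congr 1; field_simp
  rw [e5, ← mul_assoc]
  have e6 : (lam ^ eps)⁻¹ ^ M ≤ lam⁻¹ ^ N := by
    rw [inv_pow, inv_pow]
    apply inv_anti₀ (by positivity)
    have e7 : (lam ^ eps) ^ M = lam ^ (eps * (M : ℝ)) := by
      rw [Real.rpow_mul hl0.le, Real.rpow_natCast]
    rw [e7, ← Real.rpow_natCast lam N]
    apply Real.rpow_le_rpow_of_exponent_le hlam
    rw [div_le_iff₀ h0] at hM
    linarith
  gcongr

/-- **the far pairs of RD1** -/
theorem far_pairs (hFP : SpecFP) (hGA : SpecGA) (hCT : SpecCT) (k : ℕ) (ch : Chart k) (chi : EE k → ℝ)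
    (hchi : ContDiff ℝ ∞ chi) (hsup : ∀ q, 3 / 2 * ch.dl < ‖q‖ → chi q = 0) (eps : ℝ) (h0 : 0 < eps)
    (h1 : eps ≤ 1 / 10) (N : ℕ) :
    ∃ C R0 lam0 : ℝ, 0 < C ∧ 1 ≤ R0 ∧ 1 ≤ lam0 ∧ ∀ lam : ℝ, lam0 ≤ lam →
      ∀ n n' : Fin (k + 1) → ℤ, ‖zv n‖ = lam → ‖zv n'‖ = lam →
      ∀ psi : ℝ → ℝ, (psi = psT ∨ psi = psP ∨ psi = psN) →
      (∃ i, R0 * lam ^ (2 * eps) <
        |((cb (lam ^ (2 / 3 - eps)) n i - cb (lam ^ (2 / 3 - eps)) n' i : ℤ) : ℝ)|) →
      ‖∫ q, ((chi q * (psi (sn ch (lam ^ (2 / 3 - eps) • zv (cb (lam ^ (2 / 3 - eps)) n)) q /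
          lam ^ (2 / 3 + eps)) *
        psi (sn ch (lam ^ (2 / 3 - eps) • zv (cb (lam ^ (2 / 3 - eps)) n')) q /
          lam ^ (2 / 3 + eps))) : ℝ) : ℂ) *
        (ex (zv n) (ch.X q) * (starRingEnd ℂ) (ex (zv n') (ch.X q)))‖ ≤ C * lam⁻¹ ^ N := by
  have hCT' := hCT
  obtain ⟨b1, b2, b3, _, _, _, s1, s2, s3, _, _, _⟩ := hCT'
  obtain ⟨C1, hC1, F1⟩ := far_one hFP hGA hCT k ch chi hchi hsup eps h0 h1 N psT (Or.inl s3) b3
  obtain ⟨C2, hC2, F2⟩ := far_one hFP hGA hCT k ch chi hchi hsup eps h0 h1 N psP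
    (Or.inr (Or.inl s1)) b1
  obtain ⟨C3, hC3, F3⟩ := far_one hFP hGA hCT k ch chi hchi hsup eps h0 h1 N psN
    (Or.inr (Or.inr s2)) b2
  refine ⟨C1 + C2 + C3, 25, (4 * ((k : ℝ) + 1)) ^ (1 / (2 * eps)), by positivity, by norm_num, ?_, ?_⟩
  · apply Real.one_le_rpow
    · have : (0 : ℝ) ≤ k := Nat.cast_nonneg k
      linarith
    · positivity
  intro lam hlam n n' hn hn' psi hpsi hfar
  have hk0 : (0 : ℝ) < 4 * ((k : ℝ) + 1) := by positivity
  have hk1 : (1 : ℝ) ≤ 4 * ((k : ℝ) + 1) := by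
    have : (0 : ℝ) ≤ k := Nat.cast_nonneg k
    linarith
  have hlam1 : 1 ≤ lam := le_trans (Real.one_le_rpow hk1 (by positivity)) hlam
  have hl0 : 0 < lam := by linarith
  have hbig : 4 * ((k : ℝ) + 1) ≤ lam ^ (2 * eps) := by
    calc 4 * ((k : ℝ) + 1) = ((4 * ((k : ℝ) + 1)) ^ (1 / (2 * eps))) ^ (2 * eps) := by
          rw [← Real.rpow_mul hk0.le]
          rw [one_div_mul_cancel (by positivity), Real.rpow_one]
      _ ≤ lam ^ (2 * eps) := Real.rpow_le_rpow (by positivity) hlam (by positivity)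
  have hpow : 0 ≤ lam⁻¹ ^ N := by positivity
  rcases hpsi with h | h | h
  · subst h
    refine le_trans (F1 lam hlam1 hbig n n' hn hn' hfar) ?_
    gcongr
    linarith
  · subst h
    refine le_trans (F2 lam hlam1 hbig n n' hn hn' hfar) ?_
    gcongr
    linarith
  · subst h
    refine le_trans (F3 lam hlam1 hbig n n' hn hn' hfar) ?_
    gcongr
    linarith

end Pool.Agent.Lib.MP_a8dae7_an.CG.RD1M
end

section
/-!
# MP_a8dae7_an, CG (copy of CV for graph charts): the first reduction, assembled from RD1 and RD1F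
-/
set_option autoImplicit false

namespace Pool.Agent.Lib.MP_a8dae7_an.CG.RD1M

open Pool.Agent.Lib.MP_a8dae7_an.CV

theorem farPairs (hFP : SpecFP) (hGA : SpecGA) (hCT : SpecCT) : FarPairs := by
  intro k ch chi hchi hsup eps h0 h1 N
  obtain ⟨C, R0, lam0, hC, hR, hl, h⟩ := far_pairs hFP hGA hCT k ch chi hchi hsup eps h0 h1 N
  exact ⟨C, R0, lam0, hC, hl, hR, h⟩

theorem specRD1 (hFP : SpecFP) (hGA : SpecGA) (hOR : SpecOR) (hTR : SpecTR) (hCT : SpecCT) : SpecRD1 :=
  rd1 (farPairs hFP hGA hCT) hOR hTR hCT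

end Pool.Agent.Lib.MP_a8dae7_an.CG.RD1M
end

section
set_option autoImplicit false

open MeasureTheory
open scoped ContDiff

namespace Pool.Agent.Lib.MP_a8dae7_an.CG.Z1M

open Pool.Agent.Lib.MP_a8dae7_an.CV

theorem cont_AA (lam r : ℝ) : Continuous (AA lam r) := by
  unfold AA
  fun_prop

theorem AA_re (lam r t : ℝ) : (AA lam r t).re = 1 / r ^ 2 := by
  simp only [AA, Complex.add_re, Complex.ofReal_re, Complex.mul_re, Complex.I_re, Complex.I_im,
    Complex.ofReal_im]
  ring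

theorem cont_pq {d : ℕ} (om : EE d) : Continuous (pq om) := by
  unfold pq
  fun_prop

theorem cont_Kf {k : ℕ} (om : EE (k + 1)) (lam r : ℝ) (hr : 0 < r) : Continuous (Kf om lam r) := by
  have hA : ∀ t, AA lam r t ∈ Complex.slitPlane := fun t => by
    left; rw [AA_re]; positivity
  have hA0 : ∀ t, (4 * AA lam r t : ℂ) ≠ 0 := fun t =>
    mul_ne_zero (by norm_num) (Complex.slitPlane_ne_zero (hA t))
  have h1 : Continuous fun x : EE (k + 1) => AA lam r (inner ℝ om x) :=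
    (cont_AA lam r).comp (by fun_prop)
  have h2 : Continuous fun x : EE (k + 1) => Complex.log (AA lam r (inner ℝ om x)) :=
    h1.clog (fun x => hA _)
  have h3 : Continuous fun x : EE (k + 1) => ((pq om x : ℝ) : ℂ) / (4 * AA lam r (inner ℝ om x)) :=
    (Complex.continuous_ofReal.comp (cont_pq om)).div (continuous_const.mul h1) (fun x => hA0 _)
  have h4 : Continuous (FF om lam r) := by
    unfold FF
    refine Continuous.sub (Continuous.sub ?_ (continuous_const.mul h2)) h3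
    fun_prop
  unfold Kf
  refine Continuous.mul (Continuous.mul continuous_const ?_) (Complex.continuous_exp.comp h4)
  fun_prop

theorem pq_neg {d : ℕ} (om x : EE d) : pq om (-x) = pq om x := by
  simp [pq]

theorem norm_sl {m : ℕ} {e : EE (m + 1)} (he : ‖e‖ = 1) (L : EE m →ₗᵢ[ℝ] EE (m + 1)) (sg : ℝ) (b : EE m) :
    ‖sl e L sg b‖ ≤ |sg| + ‖b‖ := by
  unfold sl
  calc ‖sg • e + L b‖ ≤ ‖sg • e‖ + ‖L b‖ := norm_add_le _ _
    _ = |sg| + ‖b‖ := by rw [norm_smul, he, L.norm_map, Real.norm_eq_abs, mul_one]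

theorem cont_sl {m : ℕ} (e : EE (m + 1)) (L : EE m →ₗᵢ[ℝ] EE (m + 1)) (sg : ℝ) : Continuous (sl e L sg) := by
  unfold sl
  exact continuous_const.add L.continuous

theorem cont_ks {m : ℕ} (ch : Chart (m + 1)) (om : EE (m + 2)) (lam r : ℝ) (hr : 0 < r) (e : EE (m + 1))
    (L : EE m →ₗᵢ[ℝ] EE (m + 1)) (zt : EE (m + 2)) (sg sg' : ℝ) :
    Continuous (fun p : EE m × EE m => ks ch om lam r e L zt sg sg' p.1 p.2) := by
  unfold ks xd
  refine (cont_Kf om lam r hr).comp ?_
  have hX := ch.smooth.continuous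
  exact ((hX.comp ((cont_sl e L sg).comp continuous_fst)).sub
    (hX.comp ((cont_sl e L sg').comp continuous_snd))).add continuous_const

/-- comparison of integrals on two balls -/
theorem int_le {m : ℕ} {f g : EE m → ℝ} {R R' : ℝ} (hf : Continuous f) (hg : Continuous g)
    (hfg : ∀ b, ‖b‖ ≤ R → f b ≤ g b) (hg0 : ∀ b, 0 ≤ g b) (hR : R ≤ R') :
    ∫ b in Metric.closedBall (0 : EE m) R, f b ≤ ∫ b in Metric.closedBall (0 : EE m) R', g b := by
  have i1 : IntegrableOn f (Metric.closedBall (0 : EE m) R) :=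
    hf.continuousOn.integrableOn_compact (isCompact_closedBall _ _)
  have i2 : IntegrableOn g (Metric.closedBall (0 : EE m) R) :=
    hg.continuousOn.integrableOn_compact (isCompact_closedBall _ _)
  have i3 : IntegrableOn g (Metric.closedBall (0 : EE m) R') :=
    hg.continuousOn.integrableOn_compact (isCompact_closedBall _ _)
  calc ∫ b in Metric.closedBall (0 : EE m) R, f b
      ≤ ∫ b in Metric.closedBall (0 : EE m) R, g b := by
        refine setIntegral_mono_on i1 i2 measurableSet_closedBall ?_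
        intro b hb
        exact hfg b (by simpa using hb)
    _ ≤ ∫ b in Metric.closedBall (0 : EE m) R', g b := by
        refine setIntegral_mono_set i3 (Filter.Eventually.of_forall hg0) ?_
        exact Filter.Eventually.of_forall (Metric.closedBall_subset_closedBall hR)

theorem specZ1 (hKN : SpecKN) (hSC : SpecSC) (hBL : SpecBL) : SpecZ1 := by
  intro m ch
  obtain ⟨C1, hC1, hK⟩ := hKN (m + 1)
  obtain ⟨C2, hC2, hB⟩ := hBL m ch
  have hdl := ch.dl_pos
  have hC2' : 0 < C2 := lt_of_lt_of_le one_pos hC2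
  refine ⟨C1 * C2 * Real.sqrt 11 ^ m * Real.sqrt 2, by positivity, ?_⟩
  intro om e L hS lam r sg sg' zt hlam hr h1 h2 hsg hsg'
  have hr0 : 0 < r := lt_of_lt_of_le one_pos hr
  have hl0 : 0 < lam := lt_of_lt_of_le one_pos hlam
  have ht0 : 0 < |inner ℝ om zt| := lt_of_lt_of_le one_pos h1
  have hcK := cont_ks ch om lam r hr0 e L zt sg sg'
  -- pointwise bound
  have h11 : (0 : ℝ) < Real.sqrt 11 := Real.sqrt_pos.mpr (by norm_num)
  have hal : (r / Real.sqrt 11) ^ 2 = r ^ 2 / 11 := by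
    rw [div_pow, Real.sq_sqrt (by norm_num)]
  have key : ∀ b b' : EE m, ‖b‖ ≤ 2 * ch.dl → ‖b'‖ ≤ 2 * ch.dl →
      ‖ks ch om lam r e L zt sg sg' b b'‖ ≤ C1 * (r / lam) * r ^ (m + 1) *
        Real.exp (-((r / Real.sqrt 11) ^ 2 * pq om (xd ch e L zt sg sg' b b'))) := by
    intro b b' hb hb'
    have hq : ‖sl e L sg b‖ ≤ 4 * ch.dl := (norm_sl hS.e_one L sg b).trans (by linarith)
    have hq' : ‖sl e L sg' b'‖ ≤ 4 * ch.dl := (norm_sl hS.e_one L sg' b').trans (by linarith)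
    have hd := ch.diam _ _ hq hq'
    have h := (hK om lam r (xd ch e L zt sg sg' b b') hS.om_one hl0 hr0).1
    refine h.trans ?_
    refine mul_le_mul_of_nonneg_left (Real.exp_le_exp.mpr (neg_le_neg ?_)) (by positivity)
    have hpq0 : 0 ≤ pq om (xd ch e L zt sg sg' b b') := by
      unfold pq
      have := abs_real_inner_le_norm om (xd ch e L zt sg sg' b b')
      rw [hS.om_one, one_mul] at this
      nlinarith [sq_abs (inner ℝ om (xd ch e L zt sg sg' b b')), abs_nonneg (inner ℝ om (xd ch e L zt sg sg' b b'))]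
    set t := inner ℝ om (xd ch e L zt sg sg' b b') with ht
    set tz := inner ℝ om zt with htz
    have htt : |t - tz| ≤ 1 / 4 := by
      have : t - tz = inner ℝ om (ch.X (sl e L sg b) - ch.X (sl e L sg' b')) := by
        rw [ht, htz, xd, inner_add_right]; ring
      rw [this]
      have h3 := abs_real_inner_le_norm om (ch.X (sl e L sg b) - ch.X (sl e L sg' b'))
      rw [hS.om_one, one_mul] at h3
      exact h3.trans hd
    have ht1 : |t| ≤ 5 / 4 * |tz| := by
      have h3 : |t| ≤ |tz| + |t - tz| := by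
        have := abs_add_le tz (t - tz)
        simpa using this
      linarith
    have ht2 : (t * r ^ 2 / lam) ^ 2 ≤ (5 / 2) ^ 2 := by
      rw [← sq_abs]
      refine pow_le_pow_left₀ (abs_nonneg _) ?_ 2
      rw [abs_div, abs_mul, abs_of_pos hl0, abs_of_pos (by positivity : 0 < r ^ 2), div_le_iff₀ hl0]
      have : |t| * r ^ 2 ≤ 5 / 4 * |tz| * r ^ 2 := mul_le_mul_of_nonneg_right ht1 (by positivity)
      linarith
    unfold MM
    rw [hal, ← ht]
    have h4 : r ^ 2 / 11 * pq om (xd ch e L zt sg sg' b b') ≤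
        pq om (xd ch e L zt sg sg' b b') * r ^ 2 / (4 + (t * r ^ 2 / lam) ^ 2) := by
      rw [le_div_iff₀ (by positivity)]
      have h5 : 0 ≤ r ^ 2 * pq om (xd ch e L zt sg sg' b b') := by positivity
      nlinarith
    have h6 : 0 ≤ t ^ 2 * r ^ 2 / (4 * lam ^ 2) := by positivity
    linarith
  -- the constant
  have hconst : C1 * (r / lam) * r ^ (m + 1) * (C2 * (r / Real.sqrt 11)⁻¹ ^ m) ≤
      C1 * C2 * Real.sqrt 11 ^ m * Real.sqrt 2 * (r / lam) * Real.sqrt (lam / |inner ℝ om zt|) := by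
    have e1 : r ^ (m + 1) * (r / Real.sqrt 11)⁻¹ ^ m = r * Real.sqrt 11 ^ m := by
      rw [inv_div, div_pow, pow_succ]
      field_simp
    have e2 : r ≤ Real.sqrt 2 * Real.sqrt (lam / |inner ℝ om zt|) := by
      rw [← Real.sqrt_mul (by norm_num)]
      apply Real.le_sqrt_of_sq_le
      rw [← mul_div_assoc, le_div_iff₀ ht0]
      linarith
    calc C1 * (r / lam) * r ^ (m + 1) * (C2 * (r / Real.sqrt 11)⁻¹ ^ m)
        = C1 * (r / lam) * C2 * (r ^ (m + 1) * (r / Real.sqrt 11)⁻¹ ^ m) := by ring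
      _ = C1 * (r / lam) * C2 * Real.sqrt 11 ^ m * r := by rw [e1]; ring
      _ ≤ C1 * (r / lam) * C2 * Real.sqrt 11 ^ m * (Real.sqrt 2 * Real.sqrt (lam / |inner ℝ om zt|)) :=
          mul_le_mul_of_nonneg_left e2 (by positivity)
      _ = _ := by ring
  have hcX := ch.smooth.continuous
  apply hSC m (2 * ch.dl) _ _ hcK (by positivity)
  · intro b hb
    have hcpt : Continuous fun b' => C1 * (r / lam) * r ^ (m + 1) *
        Real.exp (-((r / Real.sqrt 11) ^ 2 * pq om (xd ch e L zt sg sg' b b'))) := by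
      refine continuous_const.mul (Real.continuous_exp.comp (Continuous.neg (continuous_const.mul ?_)))
      refine (cont_pq om).comp ?_
      unfold xd
      exact (continuous_const.sub (hcX.comp (cont_sl e L sg'))).add continuous_const
    refine le_trans (int_le (R' := 3 * ch.dl) ((hcK.comp (Continuous.prodMk_right b)).norm) hcpt
      (fun b' hb' => key b b' hb hb') (fun b' => by positivity) (by linarith)) ?_
    rw [integral_const_mul]
    refine le_trans (mul_le_mul_of_nonneg_left ?_ (by positivity)) hconst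
    have h7 := (hB om e L hS sg' hsg').2 (ch.X (sl e L sg b) + zt) (r / Real.sqrt 11) (by positivity)
    have hx : ∀ b', xd ch e L zt sg sg' b b' =
        ch.X (sl e L sg b) + zt - ch.X (sl e L sg' b') := fun b' => by unfold xd; abel
    simp only [hx]
    exact h7
  · intro b' hb'
    have hcpt : Continuous fun b => C1 * (r / lam) * r ^ (m + 1) *
        Real.exp (-((r / Real.sqrt 11) ^ 2 * pq om (xd ch e L zt sg sg' b b'))) := by
      refine continuous_const.mul (Real.continuous_exp.comp (Continuous.neg (continuous_const.mul ?_)))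
      refine (cont_pq om).comp ?_
      unfold xd
      exact ((hcX.comp (cont_sl e L sg)).sub continuous_const).add continuous_const
    refine le_trans (int_le (R' := 3 * ch.dl) ((hcK.comp (Continuous.prodMk_left b')).norm) hcpt
      (fun b hb => key b b' hb hb') (fun b => by positivity) (by linarith)) ?_
    rw [integral_const_mul]
    refine le_trans (mul_le_mul_of_nonneg_left ?_ (by positivity)) hconst
    have h7 := (hB om e L hS sg hsg).2 (ch.X (sl e L sg' b') - zt) (r / Real.sqrt 11) (by positivity)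
    have hx : ∀ b, pq om (xd ch e L zt sg sg' b b') =
        pq om (ch.X (sl e L sg' b') - zt - ch.X (sl e L sg b)) := fun b => by
      rw [← pq_neg]; unfold xd; congr 1; abel
    simp only [hx]
    exact h7

end Pool.Agent.Lib.MP_a8dae7_an.CG.Z1M
end

section
set_option autoImplicit false

open MeasureTheory
open scoped ContDiff

namespace Pool.Agent.Lib.MP_a8dae7_an.CG.Z0M

open Pool.Agent.Lib.MP_a8dae7_an.CV

open Z1M

theorem pq_nonneg {d : ℕ} {om : EE d} (h : ‖om‖ = 1) (x : EE d) : 0 ≤ pq om x := by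
  unfold pq
  have h1 := abs_real_inner_le_norm om x
  rw [h, one_mul] at h1
  nlinarith [sq_abs (inner ℝ om x), abs_nonneg (inner ℝ om x)]

theorem pq_le {d : ℕ} (om x : EE d) : pq om x ≤ ‖x‖ ^ 2 := by
  unfold pq
  nlinarith [sq_nonneg (inner ℝ om x)]

theorem pq_add_le {d : ℕ} {om : EE d} (h : ‖om‖ = 1) (x y : EE d) :
    pq om (x + y) ≤ 2 * pq om x + 2 * pq om y := by
  have h1 := pq_nonneg h (x - y)
  have h2 : pq om (x + y) + pq om (x - y) = 2 * pq om x + 2 * pq om y := by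
    unfold pq
    rw [inner_add_right, inner_sub_right]
    have := parallelogram_law_with_norm ℝ x y
    nlinarith
  linarith

/-- Lipschitz bound for the chart -/
theorem lip {m : ℕ} (ch : Chart (m + 1)) : ∃ D : ℝ, 1 ≤ D ∧ ∀ q q' : EE (m + 1), ‖q‖ ≤ 4 * ch.dl →
    ‖q'‖ ≤ 4 * ch.dl → ‖ch.X q - ch.X q'‖ ≤ D * ‖q - q'‖ := by
  obtain ⟨K, hK⟩ := (ch.smooth.contDiffOn (s := Metric.closedBall (0 : EE (m + 1)) (4 * ch.dl))).exists_lipschitzOnWith
    (by simp) (convex_closedBall _ _) (isCompact_closedBall _ _)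
  refine ⟨max K 1, le_max_right _ _, fun q q' hq hq' => ?_⟩
  have h := hK.dist_le_mul q (by simpa using hq) q' (by simpa using hq')
  rw [dist_eq_norm, dist_eq_norm] at h
  exact h.trans (mul_le_mul_of_nonneg_right (le_max_left _ _) (norm_nonneg _))

/-- the elementary inequality for the exponent -/
theorem mm_min {N La r lam C t2 : ℝ} (hN : 0 ≤ N) (hLa : 1 ≤ La) (hr : 1 ≤ r) (hlam : 1 ≤ lam)
    (hrl : r ^ 3 ≤ lam ^ 2) (hC : 0 < C) (ht : 0 ≤ t2) (h : 4 + t2 ≤ C * (La + N * r ^ 4 / lam ^ 2)) :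
    Real.exp (-(N * r ^ 2 / (4 + t2))) ≤ Real.exp (-(r ^ 2 / (2 * C * La) * N)) + Real.exp (-(r / (2 * C))) := by
  have hr0 : 0 < r := by linarith
  have hl0 : 0 < lam := by linarith
  have hLa0 : 0 < La := by linarith
  have h4 : 0 < 4 + t2 := by linarith
  rcases le_total (N * r ^ 4 / lam ^ 2) La with hc | hc
  · have : Real.exp (-(N * r ^ 2 / (4 + t2))) ≤ Real.exp (-(r ^ 2 / (2 * C * La) * N)) := by
      refine Real.exp_le_exp.mpr (neg_le_neg ?_)
      rw [div_mul_eq_mul_div, div_le_div_iff₀ (by positivity) h4, mul_comm (r ^ 2) N]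
      refine mul_le_mul_of_nonneg_left ?_ (by positivity)
      nlinarith
    have h2 := (Real.exp_pos (-(r / (2 * C)))).le
    linarith
  · have : Real.exp (-(N * r ^ 2 / (4 + t2))) ≤ Real.exp (-(r / (2 * C))) := by
      refine Real.exp_le_exp.mpr (neg_le_neg ?_)
      have hN0 : 0 < N := by
        rcases hN.lt_or_eq with h0 | h0
        · exact h0
        · rw [← h0] at hc; simp at hc; linarith
      have h5 : 4 + t2 ≤ 2 * C * (N * r ^ 4 / lam ^ 2) := by nlinarith
      calc r / (2 * C) ≤ (lam ^ 2 / r ^ 2) / (2 * C) := by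
            refine div_le_div_of_nonneg_right ?_ (by positivity)
            rw [le_div_iff₀ (by positivity)]
            linarith [hrl, (by ring : r * r ^ 2 = r ^ 3)]
        _ = N * r ^ 2 / (2 * C * (N * r ^ 4 / lam ^ 2)) := by
            field_simp
        _ ≤ N * r ^ 2 / (4 + t2) := div_le_div_of_nonneg_left (by positivity) h4 h5
    have h2 := (Real.exp_pos (-(r ^ 2 / (2 * C * La) * N))).le
    linarith

theorem exp_pow {m : ℕ} {r C : ℝ} (hr : 0 < r) (hC : 0 < C) :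
    Real.exp (-(r / C)) ≤ (m.factorial : ℝ) * C ^ m * r⁻¹ ^ m := by
  have h := Real.pow_div_factorial_le_exp (r / C) (by positivity) m
  have hf : (0 : ℝ) < m.factorial := by exact_mod_cast m.factorial_pos
  rw [Real.exp_neg, inv_le_comm₀ (Real.exp_pos _) (by positivity)]
  refine le_trans (le_of_eq ?_) h
  rw [div_pow, inv_pow]
  field_simp

theorem specZ0 (hKN : SpecKN) (hSC : SpecSC) (hBL : SpecBL) : SpecZ0 := by
  intro m ch
  obtain ⟨C1, hC1, hK⟩ := hKN (m + 1)
  obtain ⟨C2, hC2, hB⟩ := hBL m ch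
  obtain ⟨D, hD, hlip⟩ := lip ch
  have hdl := ch.dl_pos
  have hC2' : 0 < C2 := lt_of_lt_of_le one_pos hC2
  have hD' : 0 < D := lt_of_lt_of_le one_pos hD
  -- constants
  set C3 : ℝ := D ^ 2 * (32 + 128 * C2 * D ^ 2) with hC3
  have hC3' : 0 < C3 := by positivity
  set C4 : ℝ := 4 + C3 with hC4
  have hC4' : 0 < C4 := by positivity
  set V : ℝ := (volume (Metric.closedBall (0 : EE m) (3 * ch.dl))).toReal with hV
  have hV0 : 0 ≤ V := ENNReal.toReal_nonneg
  set C5 : ℝ := C2 * Real.sqrt (2 * C4) ^ m + V * ((m.factorial : ℝ) * (2 * C4) ^ m) with hC5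
  have hC5' : 0 < C5 := by
    have : 0 < Real.sqrt (2 * C4) := Real.sqrt_pos.mpr (by positivity)
    have h2 : 0 ≤ V * ((m.factorial : ℝ) * (2 * C4) ^ m) := by positivity
    have h3 : 0 < C2 * Real.sqrt (2 * C4) ^ m := by positivity
    linarith
  refine ⟨C1 * C5, by positivity, ?_⟩
  intro om e L hS lam r th La sg sg' hlam hr hrl hth hLa hthr hsg hsg' hss
  have hr0 : 0 < r := lt_of_lt_of_le one_pos hr
  have hl0 : 0 < lam := lt_of_lt_of_le one_pos hlam
  have hLa0 : 0 < La := lt_of_lt_of_le one_pos hLa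
  have hcK := cont_ks ch om lam r hr0 e L 0 sg sg'
  have hs0 : 0 < Real.sqrt (2 * C4 * La) := Real.sqrt_pos.mpr (by positivity)
  have hal : (r / Real.sqrt (2 * C4 * La)) ^ 2 = r ^ 2 / (2 * C4 * La) := by
    rw [div_pow, Real.sq_sqrt (by positivity)]
  -- pointwise bound
  have key : ∀ b b' : EE m, ‖b‖ ≤ 2 * ch.dl → ‖b'‖ ≤ 2 * ch.dl →
      ‖ks ch om lam r e L 0 sg sg' b b'‖ ≤ C1 * (r / lam) * r ^ (m + 1) *
        (Real.exp (-((r / Real.sqrt (2 * C4 * La)) ^ 2 * pq om (xd ch e L 0 sg sg' b b'))) +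
          Real.exp (-(r / (2 * C4)))) := by
    intro b b' hb hb'
    have hq : ‖sl e L sg b‖ ≤ 4 * ch.dl := (norm_sl hS.e_one L sg b).trans (by linarith)
    have hq1 : ‖sl e L sg b'‖ ≤ 4 * ch.dl := (norm_sl hS.e_one L sg b').trans (by linarith)
    have hq' : ‖sl e L sg' b'‖ ≤ 4 * ch.dl := (norm_sl hS.e_one L sg' b').trans (by linarith)
    set x := xd ch e L 0 sg sg' b b' with hx
    have hxX : x = ch.X (sl e L sg b) - ch.X (sl e L sg' b') := by rw [hx, xd, add_zero]
    have h := (hK om lam r x hS.om_one hl0 hr0).1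
    refine h.trans ?_
    refine mul_le_mul_of_nonneg_left ?_ (by positivity)
    have hN0 : 0 ≤ pq om x := pq_nonneg hS.om_one x
    set N := pq om x with hN
    set t := inner ℝ om x with ht
    -- distance in b
    have hw : ‖ch.X (sl e L sg b') - ch.X (sl e L sg' b')‖ ≤ D * (4 * th) := by
      refine (hlip _ _ hq1 hq').trans (mul_le_mul_of_nonneg_left ?_ hD'.le)
      have : sl e L sg b' - sl e L sg' b' = (sg - sg') • e := by
        unfold sl; rw [sub_smul]; abel
      rw [this, norm_smul, hS.e_one, mul_one, Real.norm_eq_abs]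
      exact hss
    have hbb : ‖b - b'‖ ^ 2 ≤ C2 * (2 * N + 2 * (D * (4 * th)) ^ 2) := by
      refine ((hB om e L hS sg hsg).1 b b' (by linarith) (by linarith)).trans
        (mul_le_mul_of_nonneg_left ?_ hC2'.le)
      have e1 : ch.X (sl e L sg b) - ch.X (sl e L sg b') =
          x + (-(ch.X (sl e L sg b') - ch.X (sl e L sg' b'))) := by rw [hxX]; abel
      rw [e1]
      refine (pq_add_le hS.om_one _ _).trans ?_
      have e2 : pq om (-(ch.X (sl e L sg b') - ch.X (sl e L sg' b'))) ≤ (D * (4 * th)) ^ 2 := by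
        rw [pq_neg]
        exact (pq_le _ _).trans (pow_le_pow_left₀ (norm_nonneg _) hw 2)
      linarith
    -- size of t
    have htx : t ^ 2 ≤ C3 * (th ^ 2 + N) := by
      have h1 : |t| ≤ ‖x‖ := by
        have := abs_real_inner_le_norm om x
        rwa [hS.om_one, one_mul] at this
      have h2 : ‖x‖ ≤ D * (4 * th + ‖b - b'‖) := by
        rw [hxX]
        refine (hlip _ _ hq hq').trans (mul_le_mul_of_nonneg_left ?_ hD'.le)
        have : sl e L sg b - sl e L sg' b' = (sg - sg') • e + L (b - b') := by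
          unfold sl; rw [sub_smul, map_sub]; abel
        rw [this]
        refine (norm_add_le _ _).trans ?_
        rw [norm_smul, hS.e_one, mul_one, Real.norm_eq_abs, L.norm_map]
        linarith
      have h3 : t ^ 2 ≤ (D * (4 * th + ‖b - b'‖)) ^ 2 := by
        rw [← sq_abs t]
        exact pow_le_pow_left₀ (abs_nonneg _) (h1.trans h2) 2
      have h4 : (4 * th + ‖b - b'‖) ^ 2 ≤ 2 * (4 * th) ^ 2 + 2 * ‖b - b'‖ ^ 2 := by
        nlinarith [sq_nonneg (4 * th - ‖b - b'‖)]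
      have h5 : (4 * th + ‖b - b'‖) ^ 2 ≤ 32 * th ^ 2 + 2 * (C2 * (2 * N + 2 * (D * (4 * th)) ^ 2)) := by
        nlinarith
      have h6 : 32 * th ^ 2 + 2 * (C2 * (2 * N + 2 * (D * (4 * th)) ^ 2)) ≤
          (32 + 128 * C2 * D ^ 2) * (th ^ 2 + N) := by
        have h7 : 0 ≤ C2 * N := by positivity
        have h8 : C2 * N ≤ C2 * D ^ 2 * N := by
          have : (1 : ℝ) ≤ D ^ 2 := one_le_pow₀ hD
          have := mul_le_mul_of_nonneg_left this h7
          linarith
        nlinarith [mul_nonneg hC2'.le (sq_nonneg (D * th))]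
      calc t ^ 2 ≤ (D * (4 * th + ‖b - b'‖)) ^ 2 := h3
        _ = D ^ 2 * (4 * th + ‖b - b'‖) ^ 2 := by ring
        _ ≤ D ^ 2 * ((32 + 128 * C2 * D ^ 2) * (th ^ 2 + N)) :=
            mul_le_mul_of_nonneg_left (h5.trans h6) (by positivity)
        _ = C3 * (th ^ 2 + N) := by rw [hC3]; ring
    have ht2 : 4 + (t * r ^ 2 / lam) ^ 2 ≤ C4 * (La + N * r ^ 4 / lam ^ 2) := by
      have h1 : (t * r ^ 2 / lam) ^ 2 = t ^ 2 * (r ^ 4 / lam ^ 2) := by
        rw [div_pow, mul_pow]; ring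
      have h2 : t ^ 2 * (r ^ 4 / lam ^ 2) ≤ C3 * (th ^ 2 + N) * (r ^ 4 / lam ^ 2) :=
        mul_le_mul_of_nonneg_right htx (by positivity)
      have h3 : th ^ 2 * (r ^ 4 / lam ^ 2) ≤ La := by
        have e3 : th ^ 2 * (r ^ 4 / lam ^ 2) = th ^ 2 * r * (r ^ 3 / lam ^ 2) := by ring
        rw [e3]
        have e4 : r ^ 3 / lam ^ 2 ≤ 1 := by rw [div_le_one (by positivity)]; exact hrl
        have e5 : 0 ≤ th ^ 2 * r := by positivity
        have e6 : 0 ≤ r ^ 3 / lam ^ 2 := by positivity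
        nlinarith
      have h4 : 0 ≤ N * r ^ 4 / lam ^ 2 := by positivity
      rw [h1, hC4]
      have h5 : C3 * (th ^ 2 + N) * (r ^ 4 / lam ^ 2) = C3 * (th ^ 2 * (r ^ 4 / lam ^ 2)) +
          C3 * (N * r ^ 4 / lam ^ 2) := by ring
      nlinarith
    have hmm := mm_min hN0 hLa hr hlam hrl hC4' (sq_nonneg (t * r ^ 2 / lam)) ht2
    refine le_trans ?_ (le_trans hmm ?_)
    · refine Real.exp_le_exp.mpr (neg_le_neg ?_)
      unfold MM
      rw [← ht, ← hN]
      have : 0 ≤ t ^ 2 * r ^ 2 / (4 * lam ^ 2) := by positivity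
      linarith
    · rw [hal]
  -- the constant
  have hconst : C1 * (r / lam) * r ^ (m + 1) * (C2 * (r / Real.sqrt (2 * C4 * La))⁻¹ ^ m +
      V * Real.exp (-(r / (2 * C4)))) ≤ C1 * C5 * La ^ m * (r ^ 2 / lam) := by
    have e0 : (r / Real.sqrt (2 * C4 * La))⁻¹ ^ m ≤ Real.sqrt (2 * C4) ^ m * La ^ m * r⁻¹ ^ m := by
      rw [← mul_pow, ← mul_pow]
      refine pow_le_pow_left₀ (by positivity) ?_ m
      rw [inv_div, Real.sqrt_mul (by positivity), div_eq_mul_inv]
      refine mul_le_mul_of_nonneg_right (mul_le_mul_of_nonneg_left ?_ (Real.sqrt_nonneg _)) (by positivity)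
      rw [Real.sqrt_le_left (by positivity)]
      nlinarith
    have e1 : Real.exp (-(r / (2 * C4))) ≤ (m.factorial : ℝ) * (2 * C4) ^ m * r⁻¹ ^ m :=
      exp_pow hr0 (by positivity)
    have e2 : (1 : ℝ) ≤ La ^ m := one_le_pow₀ hLa
    have e3 : C2 * (r / Real.sqrt (2 * C4 * La))⁻¹ ^ m + V * Real.exp (-(r / (2 * C4))) ≤
        C5 * La ^ m * r⁻¹ ^ m := by
      have h1 : C2 * (r / Real.sqrt (2 * C4 * La))⁻¹ ^ m ≤
          C2 * (Real.sqrt (2 * C4) ^ m * La ^ m * r⁻¹ ^ m) := mul_le_mul_of_nonneg_left e0 hC2'.le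
      have h2 : V * Real.exp (-(r / (2 * C4))) ≤ V * ((m.factorial : ℝ) * (2 * C4) ^ m * r⁻¹ ^ m) :=
        mul_le_mul_of_nonneg_left e1 hV0
      have h3 : V * ((m.factorial : ℝ) * (2 * C4) ^ m * r⁻¹ ^ m) ≤
          V * ((m.factorial : ℝ) * (2 * C4) ^ m * r⁻¹ ^ m) * La ^ m :=
        le_mul_of_one_le_right (by positivity) e2
      rw [hC5]
      linarith [(by ring : (C2 * Real.sqrt (2 * C4) ^ m + V * ((m.factorial : ℝ) * (2 * C4) ^ m)) *
        La ^ m * r⁻¹ ^ m = C2 * (Real.sqrt (2 * C4) ^ m * La ^ m * r⁻¹ ^ m) +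
          V * ((m.factorial : ℝ) * (2 * C4) ^ m * r⁻¹ ^ m) * La ^ m)]
    calc C1 * (r / lam) * r ^ (m + 1) * (C2 * (r / Real.sqrt (2 * C4 * La))⁻¹ ^ m +
          V * Real.exp (-(r / (2 * C4))))
        ≤ C1 * (r / lam) * r ^ (m + 1) * (C5 * La ^ m * r⁻¹ ^ m) :=
          mul_le_mul_of_nonneg_left e3 (by positivity)
      _ = C1 * C5 * La ^ m * (r ^ 2 / lam) := by
          rw [inv_pow, pow_succ r m]
          field_simp
  have hcX := ch.smooth.continuous
  have hE0 : Continuous fun _ : EE m => Real.exp (-(r / (2 * C4))) := continuous_const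
  -- the integral of the majorant over the big ball
  have hint : ∀ h : EE m → ℝ, Continuous h →
      ∫ b in Metric.closedBall (0 : EE m) (3 * ch.dl), Real.exp (-((r / Real.sqrt (2 * C4 * La)) ^ 2 * h b)) ≤
        C2 * (r / Real.sqrt (2 * C4 * La))⁻¹ ^ m →
      ∫ b in Metric.closedBall (0 : EE m) (3 * ch.dl), C1 * (r / lam) * r ^ (m + 1) *
        (Real.exp (-((r / Real.sqrt (2 * C4 * La)) ^ 2 * h b)) + Real.exp (-(r / (2 * C4)))) ≤
        C1 * C5 * La ^ m * (r ^ 2 / lam) := by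
    intro h hh hle
    have hc1 : Continuous fun b => Real.exp (-((r / Real.sqrt (2 * C4 * La)) ^ 2 * h b)) :=
      Real.continuous_exp.comp (Continuous.neg (continuous_const.mul hh))
    rw [integral_const_mul, integral_add (hc1.continuousOn.integrableOn_compact (isCompact_closedBall _ _))
      (hE0.continuousOn.integrableOn_compact (isCompact_closedBall _ _)), setIntegral_const, smul_eq_mul]
    refine le_trans (mul_le_mul_of_nonneg_left ?_ (by positivity)) hconst
    exact add_le_add hle (le_of_eq rfl)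
  apply hSC m (2 * ch.dl) _ _ hcK (by positivity)
  · intro b hb
    have hpc : Continuous fun b' => pq om (xd ch e L 0 sg sg' b b') := by
      refine (cont_pq om).comp ?_
      unfold xd
      exact (continuous_const.sub (hcX.comp (cont_sl e L sg'))).add continuous_const
    have hcpt : Continuous fun b' => C1 * (r / lam) * r ^ (m + 1) *
        (Real.exp (-((r / Real.sqrt (2 * C4 * La)) ^ 2 * pq om (xd ch e L 0 sg sg' b b'))) +
          Real.exp (-(r / (2 * C4)))) :=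
      continuous_const.mul ((Real.continuous_exp.comp (Continuous.neg (continuous_const.mul hpc))).add
        continuous_const)
    refine le_trans (int_le (R' := 3 * ch.dl) ((hcK.comp (Continuous.prodMk_right b)).norm) hcpt
      (fun b' hb' => key b b' hb hb') (fun b' => by positivity) (by linarith)) (hint _ hpc ?_)
    have h7 := (hB om e L hS sg' hsg').2 (ch.X (sl e L sg b)) (r / Real.sqrt (2 * C4 * La)) (by positivity)
    have hx : ∀ b', xd ch e L 0 sg sg' b b' =
        ch.X (sl e L sg b) - ch.X (sl e L sg' b') := fun b' => by unfold xd; rw [add_zero]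
    simp only [hx]
    exact h7
  · intro b' hb'
    have hpc : Continuous fun b => pq om (xd ch e L 0 sg sg' b b') := by
      refine (cont_pq om).comp ?_
      unfold xd
      exact ((hcX.comp (cont_sl e L sg)).sub continuous_const).add continuous_const
    have hcpt : Continuous fun b => C1 * (r / lam) * r ^ (m + 1) *
        (Real.exp (-((r / Real.sqrt (2 * C4 * La)) ^ 2 * pq om (xd ch e L 0 sg sg' b b'))) +
          Real.exp (-(r / (2 * C4)))) :=
      continuous_const.mul ((Real.continuous_exp.comp (Continuous.neg (continuous_const.mul hpc))).add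
        continuous_const)
    refine le_trans (int_le (R' := 3 * ch.dl) ((hcK.comp (Continuous.prodMk_left b')).norm) hcpt
      (fun b hb => key b b' hb hb') (fun b => by positivity) (by linarith)) (hint _ hpc ?_)
    have h7 := (hB om e L hS sg hsg).2 (ch.X (sl e L sg' b')) (r / Real.sqrt (2 * C4 * La)) (by positivity)
    have hx : ∀ b, pq om (xd ch e L 0 sg sg' b b') =
        pq om (ch.X (sl e L sg' b') - ch.X (sl e L sg b)) := fun b => by
      rw [← pq_neg]; unfold xd; congr 1; rw [add_zero]; abel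
    simp only [hx]
    exact h7

end Pool.Agent.Lib.MP_a8dae7_an.CG.Z0M
end

section
/-!
# MP_a8dae7_an, CG (copy of CV for graph charts): module Z2, the blocks with large `t_z`
-/
set_option autoImplicit false

open MeasureTheory
open scoped ContDiff

namespace Pool.Agent.Lib.MP_a8dae7_an.CG.Z2M

open Pool.Agent.Lib.MP_a8dae7_an.CV

open Pool.Agent.Lib.MP_a8dae7_an.CV

/-! ### Continuity of the kernel -/

theorem AA_re_pos (lam r t : ℝ) (hr : r ≠ 0) : 0 < (AA lam r t).re := by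
  have : (AA lam r t).re = 1 / r ^ 2 := by
    unfold AA
    rw [Complex.add_re, Complex.ofReal_re, Complex.mul_re, Complex.I_re, Complex.I_im,
      Complex.ofReal_re, Complex.ofReal_im]
    ring
  rw [this]
  positivity

theorem continuous_AA (lam r : ℝ) : Continuous (AA lam r) := by
  unfold AA
  fun_prop

theorem continuous_FF {k : ℕ} (om : EE (k + 1)) (lam r : ℝ) (hr : r ≠ 0) : Continuous (FF om lam r) := by
  have h0 : Continuous fun x : EE (k + 1) => AA lam r (inner ℝ om x) :=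
    (continuous_AA lam r).comp (by fun_prop)
  have h1 : Continuous fun x : EE (k + 1) => Complex.log (AA lam r (inner ℝ om x)) :=
    h0.clog fun x => Or.inl (AA_re_pos lam r _ hr)
  have h2 : Continuous fun x : EE (k + 1) => ((pq om x : ℝ) : ℂ) / (4 * AA lam r (inner ℝ om x)) := by
    refine Continuous.div ?_ (continuous_const.mul h0) fun x => ?_
    · unfold pq
      fun_prop
    · refine mul_ne_zero (by norm_num) fun h => ?_
      have := AA_re_pos lam r (inner ℝ om x) hr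
      rw [h] at this
      simp at this
  unfold FF
  refine (Continuous.sub ?_ (continuous_const.mul h1)).sub h2
  fun_prop

theorem continuous_Kf {k : ℕ} (om : EE (k + 1)) (lam r : ℝ) (hr : r ≠ 0) : Continuous (Kf om lam r) := by
  have := continuous_FF om lam r hr
  unfold Kf
  fun_prop

theorem continuous_ks {m : ℕ} (ch : Chart (m + 1)) (om : EE (m + 2)) (lam r : ℝ) (e : EE (m + 1))
    (L : EE m →ₗᵢ[ℝ] EE (m + 1)) (zt : EE (m + 2)) (sg sg' : ℝ) (hr : r ≠ 0) :
    Continuous (fun p : EE m × EE m => ks ch om lam r e L zt sg sg' p.1 p.2) := by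
  unfold ks
  refine (continuous_Kf om lam r hr).comp ?_
  have hs : ∀ s : ℝ, Continuous (sl e L s) := by
    intro s
    unfold sl
    fun_prop
  unfold xd
  exact ((ch.smooth.continuous.comp ((hs sg).comp continuous_fst)).sub
    (ch.smooth.continuous.comp ((hs sg').comp continuous_snd))).add continuous_const

/-- volumes of balls -/
theorem vol_ball (m : ℕ) : ∃ V : ℝ, 0 ≤ V ∧ ∀ (x : EE m) (rho : ℝ), 0 ≤ rho →
    (volume (Metric.closedBall x rho)).toReal = rho ^ m * V := by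
  refine ⟨(volume (Metric.ball (0 : EE m) 1)).toReal, ENNReal.toReal_nonneg, fun x rho hrho => ?_⟩
  rw [Measure.addHaar_closedBall volume x hrho, ENNReal.toReal_mul, finrank_euclideanSpace_fin,
    ENNReal.toReal_ofReal (by positivity)]

/-- **Z2** -/
theorem specZ2 (hJN : SpecJN) (hJF : SpecJF) (hTT : SpecTT) : SpecZ2 := by
  intro m ch
  obtain ⟨C1, hC1, hN⟩ := hJN m ch
  obtain ⟨K1, hK1, hF⟩ := hJF m ch
  obtain ⟨V, hV, hvol⟩ := vol_ball m
  have hm1 : (1 : ℝ) ≤ (m : ℝ) + 1 := by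
    have : (0 : ℝ) ≤ m := Nat.cast_nonneg m
    linarith
  refine ⟨K1 * (m + 1), by nlinarith, ?_⟩
  intro eps he he'
  obtain ⟨C2, hC2, hF2⟩ := hF eps 3 he he'
  have hd := ch.dl_pos
  set C : ℝ := 1 + C1 * V + 2 * C2 * ((2 * ch.dl) ^ m * V) with hC
  have hC' : 1 ≤ C := by
    have h1 : 0 ≤ C1 * V := by positivity
    have h2 : 0 ≤ 2 * C2 * ((2 * ch.dl) ^ m * V) := by positivity
    linarith
  refine ⟨C, by linarith, ?_⟩
  intro om e L hS lam r sg sg' zt hlam hr hr3 hz hz2 hz3 hsg hsg'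
  set T : ℝ := |(inner ℝ om zt : ℝ)| with hT
  have hT0 : 0 < T := by linarith
  have hlam0 : 0 < lam := by linarith
  have hr0 : 0 < r := by linarith
  have hle1 : 1 ≤ lam ^ (K1 * (m + 1) * eps) := Real.one_le_rpow hlam (by positivity)
  have hcut0 : ∀ b : EE m, 3 * ch.dl < ‖b‖ → (cut ch m b : ℝ) = 0 := by
    intro b hb
    refine (cut ch m).zero_of_le_dist ?_
    rw [dist_zero_right]
    change 5 / 2 * ch.dl ≤ ‖b‖
    linarith
  have hcut1 : ∀ b : EE m, ‖b‖ ≤ 2 * ch.dl → (cut ch m b : ℝ) = 1 := by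
    intro b hb
    refine (cut ch m).one_of_mem_closedBall ?_
    rw [mem_closedBall_zero_iff]
    exact hb
  refine hTT m (2 * ch.dl) (3 * ch.dl) _ _ (fun b => (cut ch m b : ℝ))
    (continuous_ks ch om lam r e L zt sg sg' hr0.ne') (cut ch m).continuous hcut0
    (fun b => (cut ch m).nonneg) hcut1 (by positivity) ?_
  intro b hb
  change ∫ b'' in Metric.closedBall (0 : EE m) (2 * ch.dl), ‖JJ ch om lam r e L zt sg sg' b b''‖ ≤ _
  set A1 : ℝ := C1 * (r / lam) ^ 2 * (lam / T) ^ (m + 1) * (r * T / lam) ^ m with hA1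
  set A2 : ℝ := C2 * lam⁻¹ ^ 3 with hA2
  set de : ℝ := lam ^ (K1 * eps) / r with hde
  have hA10 : 0 ≤ A1 := by positivity
  have hA20 : 0 ≤ A2 := by positivity
  have hde0 : 0 ≤ de := by positivity
  -- pointwise bound
  have hpt : ∀ b'' ∈ Metric.closedBall (0 : EE m) (2 * ch.dl), ‖JJ ch om lam r e L zt sg sg' b b''‖ ≤
      (Metric.closedBall b de).indicator (fun _ => A1) b'' + A2 := by
    intro b'' hb''
    rw [mem_closedBall_zero_iff] at hb''
    by_cases h : b'' ∈ Metric.closedBall b de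
    · rw [Set.indicator_of_mem h]
      have := hN om e L hS lam r sg sg' zt b b'' hlam hr hz hz2 hsg hsg' hb hb''
      linarith
    · rw [Set.indicator_of_notMem h, zero_add]
      rw [Metric.mem_closedBall, not_le, dist_comm, dist_eq_norm, hde, div_lt_iff₀ hr0] at h
      refine hF2 om e L hS lam r sg sg' zt b b'' hlam hr hr3 hz hz2 hz3 hsg hsg' hb hb'' ?_
      rw [mul_comm r]
      exact h.le
  have hfin : volume (Metric.closedBall (0 : EE m) (2 * ch.dl)) ≠ ⊤ := measure_closedBall_lt_top.ne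
  have hint1 : Integrable ((Metric.closedBall b de).indicator (fun _ => A1))
      (volume.restrict (Metric.closedBall (0 : EE m) (2 * ch.dl))) :=
    (integrable_const_iff.mpr (Or.inr ⟨by
      rw [Measure.restrict_apply_univ]; exact measure_closedBall_lt_top⟩)).indicator
      Metric.isClosed_closedBall.measurableSet
  have hint2 : Integrable (fun _ : EE m => A2) (volume.restrict (Metric.closedBall (0 : EE m) (2 * ch.dl))) :=
    integrable_const_iff.mpr (Or.inr ⟨by
      rw [Measure.restrict_apply_univ]; exact measure_closedBall_lt_top⟩)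
  have hI : ∫ b'' in Metric.closedBall (0 : EE m) (2 * ch.dl), ‖JJ ch om lam r e L zt sg sg' b b''‖ ≤
      A1 * (de ^ m * V) + A2 * ((2 * ch.dl) ^ m * V) := by
    calc ∫ b'' in Metric.closedBall (0 : EE m) (2 * ch.dl), ‖JJ ch om lam r e L zt sg sg' b b''‖ ≤
        ∫ b'' in Metric.closedBall (0 : EE m) (2 * ch.dl), ((Metric.closedBall b de).indicator (fun _ => A1) b'' + A2) := by
          refine integral_mono_of_nonneg (Filter.Eventually.of_forall fun _ => norm_nonneg _) (hint1.add hint2) ?_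
          exact (ae_restrict_iff' Metric.isClosed_closedBall.measurableSet).mpr
            (Filter.Eventually.of_forall fun b'' hb'' => hpt b'' hb'')
      _ = (∫ b'' in Metric.closedBall (0 : EE m) (2 * ch.dl), (Metric.closedBall b de).indicator (fun _ => A1) b'') +
          ∫ _ in Metric.closedBall (0 : EE m) (2 * ch.dl), A2 := integral_add hint1 hint2
      _ ≤ A1 * (de ^ m * V) + A2 * ((2 * ch.dl) ^ m * V) := by
          refine add_le_add ?_ ?_
          · rw [integral_indicator Metric.isClosed_closedBall.measurableSet, integral_const,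
              smul_eq_mul, mul_comm]
            refine mul_le_mul_of_nonneg_left ?_ hA10
            rw [← hvol b de hde0]
            unfold Measure.real
            refine ENNReal.toReal_mono measure_closedBall_lt_top.ne ?_
            rw [Measure.restrict_apply_univ]
            exact Measure.restrict_apply_le _ _
          · rw [integral_const, smul_eq_mul, mul_comm]
            refine mul_le_mul_of_nonneg_left ?_ hA20
            rw [← hvol 0 (2 * ch.dl) (by positivity)]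
            unfold Measure.real
            rw [Measure.restrict_apply_univ]
  refine hI.trans ?_
  -- the near part
  have e1 : A1 * (de ^ m * V) = C1 * V * lam ^ (K1 * eps * m) * ((r / lam) ^ 2 * (lam / T)) := by
    have h1 : (lam ^ (K1 * eps)) ^ m = lam ^ (K1 * eps * m) := by
      rw [← Real.rpow_natCast, ← Real.rpow_mul hlam0.le]
    have h2 : (lam / T) ^ m * (r * T / lam) ^ m * (1 / r) ^ m = 1 := by
      rw [← mul_pow, ← mul_pow]
      have : lam / T * (r * T / lam) * (1 / r) = 1 := by field_simp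
      rw [this, one_pow]
    have h3 : de ^ m = lam ^ (K1 * eps * m) * (1 / r) ^ m := by
      rw [hde, div_eq_mul_one_div, mul_pow, h1]
    rw [hA1, h3]
    calc _ = C1 * V * lam ^ (K1 * eps * m) * ((r / lam) ^ 2 * (lam / T)) *
          ((lam / T) ^ m * (r * T / lam) ^ m * (1 / r) ^ m) := by ring
      _ = _ := by rw [h2, mul_one]
  -- the far part
  have e2 : lam⁻¹ ^ 3 ≤ 2 * ((r / lam) ^ 2 * (lam / T)) := by
    have h1 : lam ^ eps ≤ lam := by
      calc lam ^ eps ≤ lam ^ (1 : ℝ) := Real.rpow_le_rpow_of_exponent_le hlam (by linarith)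
        _ = lam := Real.rpow_one lam
    have h2 : T ≤ 2 * lam ^ 2 := by
      have : r * T ≤ 2 * lam * lam := hz3.trans (by gcongr)
      nlinarith
    have h3 : lam⁻¹ ^ 3 = 2 * ((1 / lam) ^ 2 * (lam / (2 * lam ^ 2))) := by
      field_simp
    rw [h3]
    gcongr
  have e3 : A2 * ((2 * ch.dl) ^ m * V) ≤ 2 * C2 * ((2 * ch.dl) ^ m * V) * ((r / lam) ^ 2 * (lam / T)) := by
    rw [hA2]
    calc C2 * lam⁻¹ ^ 3 * ((2 * ch.dl) ^ m * V) ≤ C2 * (2 * ((r / lam) ^ 2 * (lam / T))) * ((2 * ch.dl) ^ m * V) := by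
          gcongr
      _ = _ := by ring
  have e4 : lam ^ (K1 * eps * m) ≤ (lam ^ (K1 * (m + 1) * eps)) ^ 2 := by
    rw [← Real.rpow_natCast, ← Real.rpow_mul hlam0.le]
    refine Real.rpow_le_rpow_of_exponent_le hlam ?_
    push_cast
    have h1 : 0 ≤ K1 * eps := by positivity
    have h2 : (0 : ℝ) ≤ m := Nat.cast_nonneg m
    nlinarith [mul_nonneg h1 h2]
  have e5 : (1 : ℝ) ≤ (lam ^ (K1 * (m + 1) * eps)) ^ 2 := one_le_pow₀ hle1
  have hP : 0 ≤ (r / lam) ^ 2 * (lam / T) := by positivity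
  have e6 : (C * lam ^ (K1 * (m + 1) * eps) * (r / lam) * Real.sqrt (lam / T)) ^ 2 =
      C ^ 2 * (lam ^ (K1 * (m + 1) * eps)) ^ 2 * ((r / lam) ^ 2 * (lam / T)) := by
    rw [mul_pow, mul_pow, mul_pow, Real.sq_sqrt (by positivity)]
    ring
  rw [e6, e1]
  have hX : 0 ≤ (lam ^ (K1 * (m + 1) * eps)) ^ 2 := by positivity
  have e7 : C1 * V * lam ^ (K1 * eps * m) + 2 * C2 * ((2 * ch.dl) ^ m * V) ≤
      C ^ 2 * (lam ^ (K1 * (m + 1) * eps)) ^ 2 := by
    have h1 : 0 ≤ C1 * V := by positivity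
    have h2 : 0 ≤ 2 * C2 * ((2 * ch.dl) ^ m * V) := by positivity
    calc C1 * V * lam ^ (K1 * eps * m) + 2 * C2 * ((2 * ch.dl) ^ m * V) ≤
        C1 * V * (lam ^ (K1 * (m + 1) * eps)) ^ 2 +
          2 * C2 * ((2 * ch.dl) ^ m * V) * (lam ^ (K1 * (m + 1) * eps)) ^ 2 := by
          refine add_le_add (mul_le_mul_of_nonneg_left e4 h1) ?_
          exact le_mul_of_one_le_right h2 e5
      _ = (C1 * V + 2 * C2 * ((2 * ch.dl) ^ m * V)) * (lam ^ (K1 * (m + 1) * eps)) ^ 2 := by ring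
      _ ≤ C ^ 2 * (lam ^ (K1 * (m + 1) * eps)) ^ 2 := by
          refine mul_le_mul_of_nonneg_right ?_ hX
          nlinarith
  calc C1 * V * lam ^ (K1 * eps * m) * ((r / lam) ^ 2 * (lam / T)) + A2 * ((2 * ch.dl) ^ m * V) ≤
      C1 * V * lam ^ (K1 * eps * m) * ((r / lam) ^ 2 * (lam / T)) +
        2 * C2 * ((2 * ch.dl) ^ m * V) * ((r / lam) ^ 2 * (lam / T)) := by linarith [e3]
    _ = (C1 * V * lam ^ (K1 * eps * m) + 2 * C2 * ((2 * ch.dl) ^ m * V)) * ((r / lam) ^ 2 * (lam / T)) := by ring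
    _ ≤ C ^ 2 * (lam ^ (K1 * (m + 1) * eps)) ^ 2 * ((r / lam) ^ 2 * (lam / T)) :=
      mul_le_mul_of_nonneg_right e7 hP

end Pool.Agent.Lib.MP_a8dae7_an.CG.Z2M
end
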