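import Pool.Agent.Lib.MP_a8dae7_an.CG.Spec
import Pool.Agent.Lib.MP_a8dae7_an.CV.Main
import Pool.Agent.Lib.MP_a8dae7_an.CV.SPL
import Pool.Agent.Lib.MP_a8dae7_an.CV.FT
import Pool.Agent.Lib.MP_a8dae7_an.CV.KN
import Pool.Agent.Lib.MP_a8dae7_an.CV.PS
import Pool.Agent.Lib.MP_a8dae7_an.CV.DU
import Pool.Agent.Lib.MP_a8dae7_an.CV.ZS
import Pool.Agent.Lib.MP_a8dae7_an.CV.SC
import Pool.Agent.Lib.MP_a8dae7_an.CV.TT
import Pool.Agent.Lib.MP_a8dae7_an.CV.NG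
import Pool.Agent.Lib.MP_a8dae7_an.CV.HM
import Pool.Agent.Lib.MP_a8dae7_an.CG.BL
import Pool.Agent.Lib.MP_a8dae7_an.CG.Z2
import Pool.Agent.Lib.MP_a8dae7_an.CG.JN
import Pool.Agent.Lib.MP_a8dae7_an.CG.DB
import Pool.Agent.Lib.MP_a8dae7_an.CG.GB
import Pool.Agent.Lib.MP_a8dae7_an.CG.JF
import Pool.Agent.Lib.MP_a8dae7_an.CG.CW
import Pool.Agent.Lib.MP_a8dae7_an.CG.C
import Pool.Agent.Lib.MP_a8dae7_an.CG.GA
import Pool.Agent.Lib.MP_a8dae7_an.CG.FP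
import Pool.Agent.Lib.MP_a8dae7_an.CG.CT
import Pool.Agent.Lib.MP_a8dae7_an.CG.IG
import Pool.Agent.Lib.MP_a8dae7_an.CG.FIN

section
/-!
# CG, Main: from `SpecFIN` to the statement with the torus integral
-/
set_option autoImplicit false

open scoped BigOperators ContDiff
open MeasureTheory

namespace Pool.Agent.Lib.MP_a8dae7_an.CG.MainM

open Pool.Agent.Lib.MP_a8dae7_an.CV

theorem main (hF : SpecFIN) (k : ℕ) (hk : 1 ≤ k) (Sg : Set (EE (k + 1))) (hc : IsCompact Sg)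
    (hp : ∀ p ∈ Sg, SmoothAt Sg p) (eps : ℝ) (he : 0 < eps) :
    ∃ C : ℝ, 0 < C ∧ ∀ (lam : ℝ) (s : Finset (Fin (k + 1) → ℤ)) (a : (Fin (k + 1) → ℤ) → ℂ),
      1 ≤ lam → (∀ n ∈ s, ∑ i, (n i : ℝ) ^ 2 = lam ^ 2) →
      ∫⁻ x in Sg, ENNReal.ofReal (‖FP.wave s a (fun i => x i)‖ ^ 2)
        ∂(Measure.hausdorffMeasure (k : ℝ))
        ≤ ENNReal.ofReal (C * lam ^ (1 / 3 + eps) *
          ∫ x in Set.pi Set.univ (fun _ : Fin (k + 1) => Set.Icc (0 : ℝ) (2 * Real.pi)),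
            ‖FP.wave s a x‖ ^ 2) := by
  obtain ⟨m, rfl⟩ := Nat.exists_eq_add_of_le' hk
  obtain ⟨C, hC, h⟩ := hF m Sg ⟨hc, hp⟩ eps he
  refine ⟨C, hC, fun lam s a hl hs => ?_⟩
  have h1 := h lam s a hl fun n hn => CV.MainM.norm_zv n (by linarith) (hs n hn)
  have h2 := FP.specPAR (m + 1 + 1) s a
  simp only [CV.MainM.es_eq] at h1
  refine h1.trans (ENNReal.ofReal_le_ofReal ?_)
  rw [h2]
  have h3 : (1 : ℝ) ≤ (2 * Real.pi) ^ (m + 1 + 1) :=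
    one_le_pow₀ (by have := Real.pi_gt_three; linarith)
  have h4 : 0 ≤ ∑ n ∈ s, ‖a n‖ ^ 2 := Finset.sum_nonneg fun n _ => by positivity
  have h5 : 0 ≤ C * lam ^ (1 / 3 + eps) := by positivity
  have h6 : ∑ n ∈ s, ‖a n‖ ^ 2 ≤ (2 * Real.pi) ^ (m + 1 + 1) * ∑ n ∈ s, ‖a n‖ ^ 2 :=
    le_mul_of_one_le_left h4 h3
  exact mul_le_mul_of_nonneg_left h6 h5

end Pool.Agent.Lib.MP_a8dae7_an.CG.MainM
end

section
/-!
# CG, ALL: the theorem for arbitrary smooth hypersurfaces from the modules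
-/
set_option autoImplicit false

open MeasureTheory
open scoped ContDiff

namespace Pool.Agent.Lib.MP_a8dae7_an.CG

open Pool.Agent.Lib.MP_a8dae7_an.CV

theorem all_specFIN : SpecFIN := by
  have hKN := CV.KNM.specKN
  have hFT := CV.specFT
  have hPS := CV.PSM.specPS hFT hKN
  have hDU := CV.DUM.specDU hPS
  have hWL := CV.WLM.specWL
  have hTR := CV.TRM.specTR
  have hSL := CV.SLM.specSL
  have hSC := CV.SCM.specSC
  have hTT := CV.TTM.specTT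
  have hNG := CV.NGM.specNG CV.NSM.specNS
  have hZN := CV.ZNM.specZN hKN
  have hZS := CV.ZSM.specZS hTR
  have hOR := CV.ORM.specOR
  have hBL := BLM.specBL
  have hZ0 := Z0M.specZ0 hKN hSC hBL
  have hZ1 := Z1M.specZ1 hKN hSC hBL
  have hJN := JNM.specJN hKN hBL
  have hDB := DBM.specDB
  have hGB := GBM.specGB MOM.specMO
  have hJF := JFM.specJF hNG hDB hGB hJN hKN
  have hZ2 := Z2M.specZ2 hJN hJF hTT
  have hCW := CWM.specCW hFT
  have hPG := PGM.specPG CV.specSPL hDU hWL hTR hSL hSC hZ0 hCW hZ1 hZ2 hZN hZS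
  have hGA := GAM.specGA
  have hFP := FPM.specFP hNG
  have hCT := CTM.specCT
  have hRD1 := RD1M.specRD1 hFP hGA hOR hTR hCT
  have hC := CM.specC hRD1 hPG hTR
  exact FINM.specFIN hC IGM.specIG CV.HMM.specHM

end Pool.Agent.Lib.MP_a8dae7_an.CG
end
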