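import Pool.Agent.Lib.MP_a8dae7_an.CV.Spec

/-!
# MP_a8dae7_an, CG: trace inequality for arbitrary smooth hypersurfaces. Definitions.

The same machine as CV, with graph charts: `X q = p + J q + g q • nu`, `V = grad g`, the normal is
`nu - J (V q)`. No curvature is assumed.
-/

set_option autoImplicit false

open MeasureTheory
open scoped ContDiff

namespace Pool.Agent.Lib.MP_a8dae7_an.CG

open Pool.Agent.Lib.MP_a8dae7_an.CV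

/-- A graph chart of a hypersurface of `ℝ^(k+1)`: `nu - J (V q)` is normal at `X q`. -/
structure Chart (k : ℕ) where
  X : EE k → EE (k + 1)
  nu : EE (k + 1)
  J : EE k →ₗᵢ[ℝ] EE (k + 1)
  V : EE k → EE k
  c : ℝ
  dl : ℝ
  smooth : ContDiff ℝ ∞ X
  smoothV : ContDiff ℝ ∞ V
  bdV : ∀ j : ℕ, ∃ M : ℝ, ∀ q, ‖iteratedFDeriv ℝ j V q‖ ≤ M
  nu_one : ‖nu‖ = 1
  nu_perp : ∀ v, inner ℝ nu (J v) = 0
  c_pos : 0 < c
  c_le : c ≤ 1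
  dl_pos : 0 < dl
  dl_le : dl ≤ 1 / 64
  V_le : ∀ q, ‖q‖ ≤ 4 * dl → ‖V q‖ ≤ 1 / 16
  der : ∀ q v, ‖q‖ ≤ 4 * dl → fderiv ℝ X q v = J v + (inner ℝ (V q) v : ℝ) • nu
  diam : ∀ q q', ‖q‖ ≤ 4 * dl → ‖q'‖ ≤ 4 * dl → ‖X q - X q'‖ ≤ 1 / 4
  gram : ∀ q q' v (om : EE (k + 1)), ‖q‖ ≤ 4 * dl → ‖q'‖ ≤ 4 * dl → ‖om‖ = 1 →
    inner ℝ om (J v) = 0 →
    c * ‖v‖ ^ 2 ≤ inner ℝ (fderiv ℝ X q v) (fderiv ℝ X q' v) -
      inner ℝ om (fderiv ℝ X q v) * inner ℝ om (fderiv ℝ X q' v)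

/-- `sn ch n q = ⟨n, nu - J (V q)⟩` -/
noncomputable def sn {k : ℕ} (ch : Chart k) (n : EE (k + 1)) (q : EE k) : ℝ :=
  inner ℝ n (ch.nu - ch.J (ch.V q))

/-- slices adapted to `om` -/
structure Slice {m : ℕ} (ch : Chart (m + 1)) (om : EE (m + 2)) (e : EE (m + 1))
    (L : EE m →ₗᵢ[ℝ] EE (m + 1)) : Prop where
  om_one : ‖om‖ = 1
  e_one : ‖e‖ = 1
  eL : ∀ b, inner ℝ e (L b) = 0
  omL : ∀ b, inner ℝ om (ch.J (L b)) = 0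

/-- the difference `x(b,b') = X(sg e + L b) - X(sg' e + L b') + zt` -/
noncomputable def xd {m : ℕ} (ch : Chart (m + 1)) (e : EE (m + 1)) (L : EE m →ₗᵢ[ℝ] EE (m + 1))
    (zt : EE (m + 2)) (sg sg' : ℝ) (b b' : EE m) : EE (m + 2) :=
  ch.X (sl e L sg b) - ch.X (sl e L sg' b') + zt

/-- the sliced kernel -/
noncomputable def ks {m : ℕ} (ch : Chart (m + 1)) (om : EE (m + 2)) (lam r : ℝ) (e : EE (m + 1))
    (L : EE m →ₗᵢ[ℝ] EE (m + 1)) (zt : EE (m + 2)) (sg sg' : ℝ) (b b' : EE m) : ℂ :=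
  Kf om lam r (xd ch e L zt sg sg' b b')

/-- a smooth cutoff on `EE m`: `1` on `‖b‖ ≤ 2 dl`, `0` for `‖b‖ ≥ 5/2 dl` -/
noncomputable def cut {k : ℕ} (ch : Chart k) (m : ℕ) : ContDiffBump (0 : EE m) where
  rIn := 2 * ch.dl
  rOut := 5 / 2 * ch.dl
  rIn_pos := by have := ch.dl_pos; positivity
  rIn_lt_rOut := by have := ch.dl_pos; linarith

/-- the `TT*` kernel -/
noncomputable def JJ {m : ℕ} (ch : Chart (m + 1)) (om : EE (m + 2)) (lam r : ℝ) (e : EE (m + 1))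
    (L : EE m →ₗᵢ[ℝ] EE (m + 1)) (zt : EE (m + 2)) (sg sg' : ℝ) (b b'' : EE m) : ℂ :=
  ∫ b', ((cut ch m b' : ℝ) : ℂ) * (ks ch om lam r e L zt sg sg' b b' *
    (starRingEnd ℂ) (ks ch om lam r e L zt sg sg' b'' b'))

/-- `Sg` is, near `p`, contained in the graph over its tangent hyperplane at `p` of a smooth function -/
def SmoothAt {k : ℕ} (Sg : Set (EE (k + 1))) (p : EE (k + 1)) : Prop :=
  ∃ (J : EE k →ₗᵢ[ℝ] EE (k + 1)) (nu : EE (k + 1)) (g : EE k → ℝ) (rho : ℝ),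
    ‖nu‖ = 1 ∧ (∀ v, inner ℝ nu (J v) = 0) ∧ ContDiff ℝ ∞ g ∧ g 0 = 0 ∧ fderiv ℝ g 0 = 0 ∧ 0 < rho ∧
    ∀ x ∈ Sg, ‖x - p‖ < rho → ∃ y : EE k, x = p + J y + g y • nu

/-- compact, and a smooth hypersurface near each of its points -/
def SmoothHyp {k : ℕ} (Sg : Set (EE (k + 1))) : Prop := IsCompact Sg ∧ ∀ p ∈ Sg, SmoothAt Sg p

end Pool.Agent.Lib.MP_a8dae7_an.CG
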