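import Pool.Agent.Lib.MP_a8dae7_an.CG.Spec
import Pool.Agent.Lib.MP_a8dae7_an.CG.JN
import Pool.Agent.Lib.MP_a8dae7_an.CG.BL
import Pool.Agent.Lib.MP_a8dae7_an.CV.KN

/-!
# MP_a8dae7_an, CG (copy of CV for graph charts): module JF, first half: the alternative of NG on every ball
-/

set_option autoImplicit false

open MeasureTheory
open scoped ContDiff

namespace Pool.Agent.Lib.MP_a8dae7_an.CG.JFM

open Pool.Agent.Lib.MP_a8dae7_an.CV

open MOM

/-- the exponent of the `TT*` kernel -/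
noncomputable def Th {m : ℕ} (ch : Chart (m + 1)) (om : EE (m + 2)) (lam r : ℝ) (e : EE (m + 1))
    (L : EE m →ₗᵢ[ℝ] EE (m + 1)) (zt : EE (m + 2)) (sg sg' : ℝ) (b b'' q : EE m) : ℂ :=
  FF om lam r (xd ch e L zt sg sg' b q) + (starRingEnd ℂ) (FF om lam r (xd ch e L zt sg sg' b'' q))

/-! ### Smoothness -/

theorem contDiff_FF {k : ℕ} (om : EE (k + 1)) (lam r : ℝ) (hr : 0 < r) : ContDiff ℝ ∞ (FF om lam r) := by
  have hA : ∀ x : EE (k + 1), AA lam r (inner ℝ om x) ∈ Complex.slitPlane := by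
    intro x
    left
    rw [KNM.AA_re]
    positivity
  have h0 : ContDiff ℝ ∞ fun x : EE (k + 1) => (inner ℝ om x : ℝ) := contDiff_const.inner ℝ contDiff_id
  have h1 : ContDiff ℝ ∞ fun x : EE (k + 1) => AA lam r (inner ℝ om x) := by
    unfold AA
    exact contDiff_const.add (contDiff_const.mul (Complex.ofRealCLM.contDiff.comp (h0.div_const _)))
  have h2 : ContDiff ℝ ∞ fun x : EE (k + 1) => Complex.log (AA lam r (inner ℝ om x)) := by
    rw [contDiff_iff_contDiffAt]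
    intro x
    exact ((Complex.contDiffAt_log (hA x)).restrict_scalars ℝ).comp x h1.contDiffAt
  have h3 : ContDiff ℝ ∞ fun x : EE (k + 1) => pq om x := by
    unfold pq
    exact (contDiff_norm_sq ℝ).sub (h0.pow 2)
  have h4 : ContDiff ℝ ∞ fun x : EE (k + 1) => ((pq om x : ℝ) : ℂ) / (4 * AA lam r (inner ℝ om x)) := by
    simp only [div_eq_mul_inv]
    refine (Complex.ofRealCLM.contDiff.comp h3).mul (ContDiff.inv (contDiff_const.mul h1) fun x => ?_)
    exact mul_ne_zero (by norm_num) (Complex.slitPlane_ne_zero (hA x))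
  unfold FF
  refine (ContDiff.sub ?_ (contDiff_const.mul h2)).sub h4
  exact (Complex.ofRealCLM.contDiff.comp (((h0.pow 2).mul contDiff_const).div_const _)).neg

theorem contDiff_xd {m : ℕ} (ch : Chart (m + 1)) (e : EE (m + 1)) (L : EE m →ₗᵢ[ℝ] EE (m + 1))
    (zt : EE (m + 2)) (sg sg' : ℝ) (b : EE m) : ContDiff ℝ ∞ (xd ch e L zt sg sg' b) := by
  have h1 : ContDiff ℝ ∞ (sl e L sg') := by
    unfold sl
    exact contDiff_const.add L.toContinuousLinearMap.contDiff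
  unfold xd
  exact (contDiff_const.sub (ch.smooth.comp h1)).add contDiff_const

theorem contDiff_Th {m : ℕ} (ch : Chart (m + 1)) (om : EE (m + 2)) (lam r : ℝ) (e : EE (m + 1))
    (L : EE m →ₗᵢ[ℝ] EE (m + 1)) (zt : EE (m + 2)) (sg sg' : ℝ) (b b'' : EE m) (hr : 0 < r) :
    ContDiff ℝ ∞ (Th ch om lam r e L zt sg sg' b b'') := by
  unfold Th
  refine ((contDiff_FF om lam r hr).comp (contDiff_xd ch e L zt sg sg' b)).add ?_
  exact Complex.conjCLE.contDiff.comp ((contDiff_FF om lam r hr).comp (contDiff_xd ch e L zt sg sg' b''))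

/-! ### Real and imaginary parts -/

theorem Th_re {m : ℕ} (ch : Chart (m + 1)) (om : EE (m + 2)) (lam r : ℝ) (e : EE (m + 1))
    (L : EE m →ₗᵢ[ℝ] EE (m + 1)) (zt : EE (m + 2)) (sg sg' : ℝ) (b b'' q : EE m) :
    (Th ch om lam r e L zt sg sg' b b'' q).re =
      (FF om lam r (xd ch e L zt sg sg' b q)).re + (FF om lam r (xd ch e L zt sg sg' b'' q)).re := by
  unfold Th
  rw [Complex.add_re, Complex.conj_re]

theorem Th_im {m : ℕ} (ch : Chart (m + 1)) (om : EE (m + 2)) (lam r : ℝ) (e : EE (m + 1))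
    (L : EE m →ₗᵢ[ℝ] EE (m + 1)) (zt : EE (m + 2)) (sg sg' : ℝ) (b b'' q : EE m) :
    (Th ch om lam r e L zt sg sg' b b'' q).im =
      (FF om lam r (xd ch e L zt sg sg' b q)).im - (FF om lam r (xd ch e L zt sg sg' b'' q)).im := by
  unfold Th
  rw [Complex.add_im, Complex.conj_im, sub_eq_add_neg]

theorem norm_iteratedFDeriv_le_re_im {E : Type*} [NormedAddCommGroup E] [NormedSpace ℝ E] {f : E → ℂ}
    (hf : ContDiff ℝ ∞ f) (j : ℕ) (x : E) :
    ‖iteratedFDeriv ℝ j f x‖ ≤ ‖iteratedFDeriv ℝ j (fun y => (f y).re) x‖ +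
      ‖iteratedFDeriv ℝ j (fun y => (f y).im) x‖ := by
  have hre : ContDiff ℝ ∞ fun y => (f y).re := Complex.reCLM.contDiff.comp hf
  have him : ContDiff ℝ ∞ fun y => (f y).im := Complex.imCLM.contDiff.comp hf
  set M : ℝ →L[ℝ] ℂ := Complex.I • Complex.ofRealCLM with hM
  have hMn : ‖M‖ ≤ 1 := by
    refine ContinuousLinearMap.opNorm_le_bound _ zero_le_one fun t => ?_
    rw [hM]
    simp
  have hRn : ‖Complex.ofRealCLM‖ ≤ 1 := by
    rw [Complex.ofRealCLM_norm]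
  have e1 : f = (Complex.ofRealCLM ∘ fun y => (f y).re) + (M ∘ fun y => (f y).im) := by
    funext y
    simp only [Pi.add_apply, Function.comp_apply, hM, smul_apply, smul_eq_mul,
      Complex.ofRealCLM_apply]
    rw [mul_comm]
    exact (Complex.re_add_im (f y)).symm
  have hj : (j : WithTop ℕ∞) ≤ ∞ := by exact_mod_cast le_top
  conv_lhs => rw [e1]
  rw [iteratedFDeriv_add ((Complex.ofRealCLM.contDiff.comp hre).of_le hj)
    ((M.contDiff.comp him).of_le hj)]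
  refine (norm_add_le _ _).trans (add_le_add ?_ ?_)
  · refine (ContinuousLinearMap.norm_iteratedFDeriv_comp_left _ hre.contDiffAt hj).trans ?_
    exact mul_le_of_le_one_left (norm_nonneg _) hRn
  · refine (ContinuousLinearMap.norm_iteratedFDeriv_comp_left _ him.contDiffAt hj).trans ?_
    exact mul_le_of_le_one_left (norm_nonneg _) hMn

theorem fderiv_re {E : Type*} [NormedAddCommGroup E] [NormedSpace ℝ E] {f : E → ℂ} (hf : ContDiff ℝ ∞ f)
    (x v : E) : (fderiv ℝ f x v).re = fderiv ℝ (fun y => (f y).re) x v := by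
  have h := Complex.reCLM.hasFDerivAt.comp x ((hf.differentiable (by simp)) x).hasFDerivAt
  have h2 : fderiv ℝ (fun y => (f y).re) x = Complex.reCLM.comp (fderiv ℝ f x) := h.fderiv
  rw [h2]
  rfl

theorem fderiv_im {E : Type*} [NormedAddCommGroup E] [NormedSpace ℝ E] {f : E → ℂ} (hf : ContDiff ℝ ∞ f)
    (x v : E) : (fderiv ℝ f x v).im = fderiv ℝ (fun y => (f y).im) x v := by
  have h := Complex.imCLM.hasFDerivAt.comp x ((hf.differentiable (by simp)) x).hasFDerivAt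
  have h2 : fderiv ℝ (fun y => (f y).im) x = Complex.imCLM.comp (fderiv ℝ f x) := h.fderiv
  rw [h2]
  rfl

/-! ### Geometry -/

section geom

variable {m : ℕ} {ch : Chart (m + 1)} {om : EE (m + 2)} {e : EE (m + 1)} {L : EE m →ₗᵢ[ℝ] EE (m + 1)}

theorem norm_pr_sub_le (hS : Slice ch om e L) {D : ℝ}
    (hD : ∀ q : EE (m + 1), ‖q‖ ≤ 4 * ch.dl → ‖fderiv ℝ ch.X q‖ ≤ D) {sg sg' : ℝ} (zt : EE (m + 2))
    (hsg' : |sg'| ≤ 2 * ch.dl) {q q0 : EE m} (hq : ‖q‖ ≤ 3 * ch.dl) (hq0 : ‖q0‖ ≤ 3 * ch.dl) (b : EE m) :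
    ‖pr om (xd ch e L zt sg sg' b q) - pr om (xd ch e L zt sg sg' b q0)‖ ≤ D * ‖q - q0‖ := by
  have h1 : xd ch e L zt sg sg' b q - xd ch e L zt sg sg' b q0 = ch.X (sl e L sg' q0) - ch.X (sl e L sg' q) := by
    unfold xd
    abel
  rw [← pr_sub, h1]
  refine (norm_pr_le hS.om_one _).trans ?_
  have h2 := (convex_closedBall (0 : EE (m + 1)) (4 * ch.dl)).norm_image_sub_le_of_norm_fderiv_le
    (f := ch.X) (𝕜 := ℝ) (C := D) (x := sl e L sg' q) (y := sl e L sg' q0)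
    (fun x _ => (ch.smooth.differentiable (by simp)) x)
    (fun x hx => hD x (by simpa using hx))
    (by simpa using norm_sl_le hS hsg' hq) (by simpa using norm_sl_le hS hsg' hq0)
  rw [sl_sub, L.norm_map, norm_sub_rev q0 q] at h2
  exact h2

theorem exp_re_le (hKN : SpecKN) (m : ℕ) : ∃ C : ℝ, 1 ≤ C ∧ ∀ (ch : Chart (m + 1)) (om : EE (m + 2)) (e : EE (m + 1))
    (L : EE m →ₗᵢ[ℝ] EE (m + 1)), Slice ch om e L → ∀ (lam r sg sg' : ℝ) (zt : EE (m + 2)) (b b' : EE m),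
    1 ≤ lam → 1 ≤ r → 1 ≤ |(inner ℝ om zt : ℝ)| → 2 * lam ≤ |(inner ℝ om zt : ℝ)| * r ^ 2 →
    |sg| ≤ 2 * ch.dl → |sg'| ≤ 2 * ch.dl → ‖b‖ ≤ 3 * ch.dl → ‖b'‖ ≤ 3 * ch.dl →
    Real.exp (FF om lam r (xd ch e L zt sg sg' b b')).re ≤
      C * (lam / |(inner ℝ om zt : ℝ)|) ^ (((m + 1 : ℕ) : ℝ) / 2) *
        Real.exp (-(((2 * (r * |(inner ℝ om zt : ℝ)| / lam))⁻¹) ^ 2 * pq om (xd ch e L zt sg sg' b b'))) := by
  obtain ⟨C0, hC0, hK⟩ := JNM.ks_le hKN m
  refine ⟨max 1 C0, le_max_left _ _, ?_⟩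
  intro ch om e L hS lam r sg sg' zt b b' hlam hr hz hz2 hsg hsg' hb hb'
  have h1 := hK ch om e L hS lam r sg sg' zt b b' hlam hr hz hz2 hsg hsg' hb hb'
  have hlam0 : 0 < lam := by linarith
  have hr0 : 0 < r := by linarith
  have hT0 : 0 < |(inner ℝ om zt : ℝ)| := by linarith
  set x := xd ch e L zt sg sg' b b' with hx
  have hpi := Real.pi_pos
  have hpi1 : 1 ≤ Real.pi := by linarith [Real.pi_gt_three]
  have h2 : ‖ks ch om lam r e L zt sg sg' b b'‖ =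
      Real.sqrt Real.pi * r / lam * Real.pi ^ (((m + 1 : ℕ) : ℝ) / 2) * Real.exp (FF om lam r x).re := by
    unfold ks Kf
    rw [norm_mul, norm_mul, ← hx, mul_comm Complex.I, Complex.norm_exp_ofReal_mul_I, Complex.norm_exp,
      Complex.norm_real, Real.norm_eq_abs, abs_of_nonneg (by positivity), mul_one]
  have h3 : 1 ≤ Real.sqrt Real.pi := by
    rw [show (1:ℝ) = Real.sqrt 1 by simp]
    exact Real.sqrt_le_sqrt hpi1
  have h4 : 1 ≤ Real.pi ^ (((m + 1 : ℕ) : ℝ) / 2) := Real.one_le_rpow hpi1 (by positivity)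
  have h5 : (r / lam) * Real.exp (FF om lam r x).re ≤ ‖ks ch om lam r e L zt sg sg' b b'‖ := by
    rw [h2]
    have h6 : (r / lam) * Real.exp (FF om lam r x).re * 1 ≤
        (r / lam) * Real.exp (FF om lam r x).re * (Real.sqrt Real.pi * Real.pi ^ (((m + 1 : ℕ) : ℝ) / 2)) := by
      gcongr
      exact one_le_mul_of_one_le_of_one_le h3 h4
    calc _ = (r / lam) * Real.exp (FF om lam r x).re * 1 := by ring
      _ ≤ _ := h6
      _ = _ := by ring
  have h7 : (r / lam) * Real.exp (FF om lam r x).re ≤ (r / lam) *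
      (C0 * (lam / |(inner ℝ om zt : ℝ)|) ^ (((m + 1 : ℕ) : ℝ) / 2) *
        Real.exp (-(((2 * (r * |(inner ℝ om zt : ℝ)| / lam))⁻¹) ^ 2 * pq om x))) := by
    refine (h5.trans h1).trans (le_of_eq ?_)
    ring
  have h8 := le_of_mul_le_mul_left h7 (by positivity)
  refine h8.trans ?_
  gcongr
  exact le_max_right _ _

/-- the cutoff has bounded derivatives -/
theorem cut_bound {k : ℕ} (ch : Chart k) (m N : ℕ) : ∃ A : ℝ, 0 ≤ A ∧ ∀ (q : EE m), ∀ j ≤ N,
    ‖iteratedFDeriv ℝ j (fun x : EE m => ((cut ch m x : ℝ) : ℂ)) q‖ ≤ A := by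
  have hc : ContDiff ℝ ∞ fun x : EE m => ((cut ch m x : ℝ) : ℂ) :=
    Complex.ofRealCLM.contDiff.comp (cut ch m).contDiff
  have hs : HasCompactSupport fun x : EE m => ((cut ch m x : ℝ) : ℂ) :=
    (cut ch m).hasCompactSupport.comp_left (g := fun t : ℝ => (t : ℂ)) (by simp)
  have h1 : ∀ j : ℕ, ∃ A : ℝ, ∀ q, ‖iteratedFDeriv ℝ j (fun x : EE m => ((cut ch m x : ℝ) : ℂ)) q‖ ≤ A := by
    intro j
    exact (hs.iteratedFDeriv (𝕜 := ℝ) j).exists_bound_of_continuous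
      (hc.continuous_iteratedFDeriv (by exact_mod_cast le_top))
  choose A hA using h1
  refine ⟨∑ j ∈ Finset.range (N + 1), |A j|, Finset.sum_nonneg fun j _ => abs_nonneg _, fun q j hj => ?_⟩
  refine ((hA j q).trans (le_abs_self _)).trans ?_
  exact Finset.single_le_sum (f := fun j => |A j|) (fun j _ => abs_nonneg _)
    (Finset.mem_range.mpr (by omega))

/-- **the alternative of NG on every ball** -/
theorem ball_alt (hKN : SpecKN) (hDB : SpecDB) (hGB : SpecGB) (m : ℕ) (ch : Chart (m + 1)) (N : ℕ) :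
    ∃ c0 A B C : ℝ, 0 < c0 ∧ 0 ≤ A ∧ 1 ≤ C ∧ ∀ (om : EE (m + 2)) (e : EE (m + 1))
    (L : EE m →ₗᵢ[ℝ] EE (m + 1)), Slice ch om e L → ∀ (lam r La sg sg' rho : ℝ) (zt : EE (m + 2)) (b b'' : EE m),
    C ≤ lam → 1 ≤ r → 1 ≤ La → C * La * r ≤ lam → 1 ≤ |(inner ℝ om zt : ℝ)| →
    2 * lam ≤ |(inner ℝ om zt : ℝ)| * r ^ 2 → r * |(inner ℝ om zt : ℝ)| ≤ 2 * La * lam →
    |sg| ≤ 2 * ch.dl → |sg'| ≤ 2 * ch.dl → ‖b‖ ≤ 2 * ch.dl → ‖b''‖ ≤ 2 * ch.dl → 0 < ‖b - b''‖ →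
    0 < rho → rho ≤ ch.dl / 8 → rho * La ^ 4 ≤ c0 * (r * |(inner ℝ om zt : ℝ)| / lam) →
    rho ^ 2 * La ^ 4 * (lam / |(inner ℝ om zt : ℝ)| * ‖b - b''‖) ≤ 1 →
    ∀ q0 : EE m,
      (∀ q ∈ Metric.ball q0 rho, ‖((cut ch m q : ℝ) : ℂ) * Complex.exp (Th ch om lam r e L zt sg sg' b b'' q)‖ ≤
        C * (lam / |(inner ℝ om zt : ℝ)|) ^ (m + 1) * Real.exp (-(3 / 4 * La ^ 2))) ∨
      ((∀ q ∈ Metric.ball q0 rho, ∀ j ≤ N,
          ‖iteratedFDeriv ℝ j (fun x : EE m => ((cut ch m x : ℝ) : ℂ)) q‖ * rho ^ j ≤ A) ∧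
        (∀ q ∈ Metric.ball q0 rho, ∀ j : ℕ, 2 ≤ j → j ≤ N + 2 →
          ‖iteratedFDeriv ℝ j (Th ch om lam r e L zt sg sg' b b'') q‖ * rho ^ j ≤ B) ∧
        (∀ v, rho * |(fderiv ℝ (Th ch om lam r e L zt sg sg' b b'') q0 v).re| ≤ B * ‖v‖) ∧
        (∃ v : EE m, ‖v‖ ≤ 1 ∧ rho * (lam / |(inner ℝ om zt : ℝ)| * ‖b - b''‖) / C ≤
          rho * |(fderiv ℝ (Th ch om lam r e L zt sg sg' b b'') q0 v).im|) ∧
        ‖Complex.exp (Th ch om lam r e L zt sg sg' b b'' q0)‖ ≤ C * (lam / |(inner ℝ om zt : ℝ)|) ^ (m + 1)) := by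
  obtain ⟨CD, hCD1, hDB⟩ := hDB m ch (N + 2)
  obtain ⟨CG, hCG1, hGB⟩ := hGB m ch
  obtain ⟨CE, hCE1, hCE⟩ := exp_re_le hKN m
  obtain ⟨A, hA0, hA⟩ := cut_bound ch m N
  obtain ⟨D, hD1, hD⟩ := BLM.exists_bound ch
  have hdl := ch.dl_pos
  have hdl1 := ch.dl_le
  refine ⟨(4 * D)⁻¹, A, 3 * CD, max CG (CE ^ 2), by positivity, hA0, le_max_of_le_left hCG1, ?_⟩
  intro om e L hS lam r La sg sg' rho zt b b'' hClam hr hLa hCLa hz hz2 hz3 hsg hsg' hb hb'' hδ hrho hrho8 hrho1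
    hrho2 q0
  set C : ℝ := max CG (CE ^ 2) with hC
  have hCGC : CG ≤ C := le_max_left _ _
  have hCEC : CE ^ 2 ≤ C := le_max_right _ _
  have hC1 : 1 ≤ C := hCG1.trans hCGC
  set T : ℝ := |(inner ℝ om zt : ℝ)| with hT
  have hT0 : 0 < T := by linarith
  have hlam : 1 ≤ lam := hC1.trans hClam
  have hlam0 : 0 < lam := by linarith
  have hr0 : 0 < r := by linarith
  set w : ℝ := r * T / lam with hw
  have hw0 : 0 < w := by positivity
  have hLa0 : 0 < La := by linarith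
  have hLa4 : 1 ≤ La ^ 4 := one_le_pow₀ hLa
  have hrho_w : D * rho ≤ w / 4 := by
    have h1 : rho ≤ (4 * D)⁻¹ * w := by
      refine le_trans ?_ hrho1
      exact le_mul_of_one_le_right hrho.le hLa4
    calc D * rho ≤ D * ((4 * D)⁻¹ * w) := by gcongr
      _ = w / 4 := by field_simp
  have hrho_1 : rho ≤ 1 := by linarith
  -- balls away from the support
  by_cases hfar : ∀ q ∈ Metric.ball q0 rho, 5 / 2 * ch.dl ≤ ‖q‖
  · left
    intro q hq
    have h1 : (cut ch m q : ℝ) = 0 := by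
      refine (cut ch m).zero_of_le_dist ?_
      rw [dist_zero_right]
      exact hfar q hq
    rw [h1]
    simp only [Complex.ofReal_zero, zero_mul, norm_zero]
    positivity
  push Not at hfar
  obtain ⟨q1, hq1, hq1n⟩ := hfar
  have hin : ∀ q ∈ Metric.ball q0 rho, ‖q‖ ≤ 3 * ch.dl := by
    intro q hq
    rw [mem_ball_iff_norm] at hq hq1
    have h1 : ‖q‖ ≤ ‖q - q0‖ + ‖q1 - q0‖ + ‖q1‖ := by
      calc ‖q‖ = ‖(q - q0) - (q1 - q0) + q1‖ := by congr 1; abel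
        _ ≤ _ := (norm_add_le _ _).trans (by gcongr; exact norm_sub_le _ _)
    linarith
  have hq0 : ‖q0‖ ≤ 3 * ch.dl := hin q0 (Metric.mem_ball_self hrho)
  have hb3 : ‖b‖ ≤ 3 * ch.dl := by linarith
  have hb3'' : ‖b''‖ ≤ 3 * ch.dl := by linarith
  -- variation of the projections
  have hvar : ∀ q ∈ Metric.ball q0 rho, ∀ b0 : EE m,
      ‖pr om (xd ch e L zt sg sg' b0 q) - pr om (xd ch e L zt sg sg' b0 q0)‖ ≤ w / 4 := by
    intro q hq b0
    refine (norm_pr_sub_le hS hD zt hsg' (hin q hq) hq0 b0).trans ?_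
    rw [mem_ball_iff_norm] at hq
    refine le_trans ?_ hrho_w
    gcongr
  have hE0 : ∀ q ∈ Metric.ball q0 rho, ∀ b0 : EE m, ‖b0‖ ≤ 3 * ch.dl →
      Real.exp (FF om lam r (xd ch e L zt sg sg' b0 q)).re ≤ CE * (lam / T) ^ (((m + 1 : ℕ) : ℝ) / 2) *
        Real.exp (-(((2 * w)⁻¹) ^ 2 * pq om (xd ch e L zt sg sg' b0 q))) := by
    intro q hq b0 hb0
    exact hCE ch om e L hS lam r sg sg' zt b0 q hlam hr hz hz2 hsg hsg' hb0 (hin q hq)
  set P : ℝ := (lam / T) ^ (((m + 1 : ℕ) : ℝ) / 2) with hP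
  have hP0 : 0 ≤ P := by positivity
  have hPP : P * P = (lam / T) ^ (m + 1) := by
    rw [hP, ← Real.rpow_add (by positivity), add_halves, Real.rpow_natCast]
  have hE1 : ∀ q ∈ Metric.ball q0 rho, ∀ b0 : EE m, ‖b0‖ ≤ 3 * ch.dl →
      Real.exp (FF om lam r (xd ch e L zt sg sg' b0 q)).re ≤ CE * P := by
    intro q hq b0 hb0
    refine (hE0 q hq b0 hb0).trans ?_
    have h1 : Real.exp (-(((2 * w)⁻¹) ^ 2 * pq om (xd ch e L zt sg sg' b0 q))) ≤ 1 := by
      rw [Real.exp_le_one_iff]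
      have := JNM.pq_nonneg om (xd ch e L zt sg sg' b0 q) hS.om_one
      have : 0 ≤ ((2 * w)⁻¹) ^ 2 * pq om (xd ch e L zt sg sg' b0 q) := by positivity
      linarith
    calc _ ≤ CE * P * 1 := by gcongr
      _ = _ := mul_one _
  have hE2 : ∀ q ∈ Metric.ball q0 rho, ∀ b0 : EE m, ‖b0‖ ≤ 3 * ch.dl →
      (2 * w * La) ≤ ‖pr om (xd ch e L zt sg sg' b0 q0)‖ →
      Real.exp (FF om lam r (xd ch e L zt sg sg' b0 q)).re ≤ CE * P * Real.exp (-(3 / 4 * La ^ 2)) := by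
    intro q hq b0 hb0 hfar
    refine (hE0 q hq b0 hb0).trans ?_
    have h1 : 7 / 4 * (w * La) ≤ ‖pr om (xd ch e L zt sg sg' b0 q)‖ := by
      have h2 := hvar q hq b0
      have h3 := norm_sub_norm_le (pr om (xd ch e L zt sg sg' b0 q0)) (pr om (xd ch e L zt sg sg' b0 q))
      rw [norm_sub_rev] at h3
      have h4 : w ≤ w * La := le_mul_of_one_le_right hw0.le hLa
      linarith
    have h5 : (7 / 4 * (w * La)) ^ 2 ≤ pq om (xd ch e L zt sg sg' b0 q) := by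
      rw [pq_eq hS.om_one]
      gcongr
    have h6 : 3 / 4 * La ^ 2 ≤ ((2 * w)⁻¹) ^ 2 * pq om (xd ch e L zt sg sg' b0 q) := by
      calc 3 / 4 * La ^ 2 ≤ 49 / 64 * La ^ 2 := by nlinarith [sq_nonneg La]
        _ = ((2 * w)⁻¹) ^ 2 * (7 / 4 * (w * La)) ^ 2 := by field_simp; ring
        _ ≤ _ := by gcongr
    gcongr
  have hexp : ∀ q, ‖Complex.exp (Th ch om lam r e L zt sg sg' b b'' q)‖ =
      Real.exp (FF om lam r (xd ch e L zt sg sg' b q)).re * Real.exp (FF om lam r (xd ch e L zt sg sg' b'' q)).re := by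
    intro q
    rw [Complex.norm_exp, Th_re, Real.exp_add]
  have hcut : ∀ q : EE m, ‖((cut ch m q : ℝ) : ℂ)‖ ≤ 1 := by
    intro q
    rw [Complex.norm_real, Real.norm_eq_abs, abs_of_nonneg (cut ch m).nonneg]
    exact (cut ch m).le_one
  -- negligible balls
  by_cases hB1 : (2 * w * La) ≤ ‖pr om (xd ch e L zt sg sg' b q0)‖
  · left
    intro q hq
    rw [norm_mul, hexp]
    calc _ ≤ 1 * ((CE * P * Real.exp (-(3 / 4 * La ^ 2))) * (CE * P)) := by
          gcongr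
          · exact hcut q
          · exact hE2 q hq b hb3 hB1
          · exact hE1 q hq b'' hb3''
      _ = CE ^ 2 * (P * P) * Real.exp (-(3 / 4 * La ^ 2)) := by ring
      _ ≤ _ := by rw [hPP]; gcongr
  by_cases hB2 : (2 * w * La) ≤ ‖pr om (xd ch e L zt sg sg' b'' q0)‖
  · left
    intro q hq
    rw [norm_mul, hexp]
    calc _ ≤ 1 * ((CE * P) * (CE * P * Real.exp (-(3 / 4 * La ^ 2)))) := by
          gcongr
          · exact hcut q
          · exact hE1 q hq b hb3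
          · exact hE2 q hq b'' hb3'' hB2
      _ = CE ^ 2 * (P * P) * Real.exp (-(3 / 4 * La ^ 2)) := by ring
      _ ≤ _ := by rw [hPP]; gcongr
  -- the main balls
  right
  rw [not_le] at hB1 hB2
  have hpq : ∀ q ∈ Metric.ball q0 rho, ∀ b0 : EE m, ‖pr om (xd ch e L zt sg sg' b0 q0)‖ < 2 * w * La →
      pq om (xd ch e L zt sg sg' b0 q) ≤ (3 * La * (r * |(inner ℝ om zt : ℝ)| / lam)) ^ 2 := by
    intro q hq b0 hb0
    rw [pq_eq hS.om_one]
    have h2 := hvar q hq b0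
    have h3 := norm_sub_norm_le (pr om (xd ch e L zt sg sg' b0 q)) (pr om (xd ch e L zt sg sg' b0 q0))
    have h4 : w ≤ w * La := le_mul_of_one_le_right hw0.le hLa
    have h5 : ‖pr om (xd ch e L zt sg sg' b0 q)‖ ≤ 3 * La * w := by linarith
    exact pow_le_pow_left₀ (norm_nonneg _) h5 2
  have hDBq : ∀ q ∈ Metric.ball q0 rho, _ := fun q hq =>
    hDB om e L hS lam r La sg sg' zt b b'' q hlam hr hLa hz hz2 hz3 hsg hsg' hb hb'' (hin q hq)
      (hpq q hq b hB1) (hpq q hq b'' hB2)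
  have hDBq' : ∀ q ∈ Metric.ball q0 rho, _ := fun q hq =>
    hDB om e L hS lam r La sg sg' zt b'' b q hlam hr hLa hz hz2 hz3 hsg hsg' hb'' hb (hin q hq)
      (hpq q hq b'' hB2) (hpq q hq b hB1)
  have hsmFF : ∀ b0 : EE m, ContDiff ℝ ∞ fun q => (FF om lam r (xd ch e L zt sg sg' b0 q)).re := fun b0 =>
    Complex.reCLM.contDiff.comp ((contDiff_FF om lam r hr0).comp (contDiff_xd ch e L zt sg sg' b0))
  have hTh := contDiff_Th ch om lam r e L zt sg sg' b b'' hr0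
  have hq0m : q0 ∈ Metric.ball q0 rho := Metric.mem_ball_self hrho
  have hwinv : lam / (r * |(inner ℝ om zt : ℝ)|) = w⁻¹ := by
    rw [hw, inv_div]
  have hrw : rho * La ^ 4 * w⁻¹ ≤ 1 := by
    have h1 : rho * La ^ 4 ≤ w := by
      refine hrho1.trans ?_
      have : (4 * D)⁻¹ ≤ 1 := inv_le_one_of_one_le₀ (by linarith)
      calc (4 * D)⁻¹ * w ≤ 1 * w := by gcongr
        _ = w := one_mul _
    calc rho * La ^ 4 * w⁻¹ ≤ w * w⁻¹ := by gcongr
      _ = 1 := mul_inv_cancel₀ hw0.ne'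
  refine ⟨?_, ?_, ?_, ?_, ?_⟩
  · intro q _ j hj
    calc _ ≤ A * 1 := by
          gcongr
          · exact hA q j hj
          · exact pow_le_one₀ hrho.le hrho_1
      _ = A := mul_one _
  · intro q hq j hj2 hjN
    have h1 := (hDBq q hq).1 j (by omega) hjN
    have h2 := (hDBq q hq).2.1 j hj2 hjN
    have h3 := (hDBq' q hq).2.1 j hj2 hjN
    have h4 := norm_iteratedFDeriv_le_re_im hTh j q
    have e1 : (fun y => (Th ch om lam r e L zt sg sg' b b'' y).re) =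
        (fun y => (FF om lam r (xd ch e L zt sg sg' b y)).re) +
          (fun y => (FF om lam r (xd ch e L zt sg sg' b'' y)).re) := by
      funext y
      exact Th_re ch om lam r e L zt sg sg' b b'' y
    have e2 : (fun y => (Th ch om lam r e L zt sg sg' b b'' y).im) =
        fun y => (FF om lam r (xd ch e L zt sg sg' b y)).im - (FF om lam r (xd ch e L zt sg sg' b'' y)).im := by
      funext y
      exact Th_im ch om lam r e L zt sg sg' b b'' y
    have hj' : (j : WithTop ℕ∞) ≤ ∞ := by exact_mod_cast le_top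
    rw [e1, e2, iteratedFDeriv_add ((hsmFF b).of_le hj') ((hsmFF b'').of_le hj')] at h4
    have h5 := norm_add_le (iteratedFDeriv ℝ j (fun y => (FF om lam r (xd ch e L zt sg sg' b y)).re) q)
      (iteratedFDeriv ℝ j (fun y => (FF om lam r (xd ch e L zt sg sg' b'' y)).re) q)
    rw [Pi.add_apply] at h4
    have hrj : rho ^ j ≤ rho ^ 2 := pow_le_pow_of_le_one hrho.le hrho_1 hj2
    rw [hwinv] at h2 h3
    have hk1 : rho ^ 2 * (La ^ 6 * w⁻¹ ^ 2) ≤ 1 := by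
      have h6 : La ^ 6 ≤ La ^ 8 := pow_le_pow_right₀ hLa (by norm_num)
      calc rho ^ 2 * (La ^ 6 * w⁻¹ ^ 2) ≤ rho ^ 2 * (La ^ 8 * w⁻¹ ^ 2) := by gcongr
        _ = (rho * La ^ 4 * w⁻¹) ^ 2 := by ring
        _ ≤ 1 := pow_le_one₀ (by positivity) hrw
    have hk2 : rho ^ 2 * (La ^ 4 * (lam / T) * ‖b - b''‖) ≤ 1 := by
      refine le_trans (le_of_eq ?_) hrho2
      ring
    calc ‖iteratedFDeriv ℝ j (Th ch om lam r e L zt sg sg' b b'') q‖ * rho ^ j
        ≤ (CD * La ^ 6 * w⁻¹ ^ 2 + CD * La ^ 6 * w⁻¹ ^ 2 + CD * La ^ 4 * (lam / T) * ‖b - b''‖) * rho ^ 2 := by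
          gcongr
          linarith
      _ = 2 * CD * (rho ^ 2 * (La ^ 6 * w⁻¹ ^ 2)) + CD * (rho ^ 2 * (La ^ 4 * (lam / T) * ‖b - b''‖)) := by ring
      _ ≤ 2 * CD * 1 + CD * 1 := by gcongr
      _ = 3 * CD := by ring
  · intro v
    have h1 := (hDBq q0 hq0m).2.2
    have h2 := (hDBq' q0 hq0m).2.2
    rw [hwinv] at h1 h2
    have e1 : (fun y => (Th ch om lam r e L zt sg sg' b b'' y).re) =
        (fun y => (FF om lam r (xd ch e L zt sg sg' b y)).re) +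
          (fun y => (FF om lam r (xd ch e L zt sg sg' b'' y)).re) := by
      funext y
      exact Th_re ch om lam r e L zt sg sg' b b'' y
    rw [fderiv_re hTh, e1, fderiv_add ((hsmFF b).differentiable (by simp) q0)
      ((hsmFF b'').differentiable (by simp) q0)]
    have h3 : |(fderiv ℝ (fun y => (FF om lam r (xd ch e L zt sg sg' b y)).re) q0 +
        fderiv ℝ (fun y => (FF om lam r (xd ch e L zt sg sg' b'' y)).re) q0) v| ≤
        (CD * La ^ 4 * w⁻¹ + CD * La ^ 4 * w⁻¹) * ‖v‖ := by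
      rw [← Real.norm_eq_abs]
      refine (ContinuousLinearMap.le_opNorm _ v).trans ?_
      gcongr
      exact (norm_add_le _ _).trans (add_le_add h1 h2)
    calc _ ≤ rho * ((CD * La ^ 4 * w⁻¹ + CD * La ^ 4 * w⁻¹) * ‖v‖) := by gcongr
      _ = 2 * CD * (rho * La ^ 4 * w⁻¹) * ‖v‖ := by ring
      _ ≤ 3 * CD * 1 * ‖v‖ := by gcongr; norm_num
      _ = 3 * CD * ‖v‖ := by ring
  · have h1 := hGB om e L hS lam r La sg sg' zt b b'' q0 (hCGC.trans hClam) hr hLa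
      (le_trans (by gcongr) hCLa) hz hz2 hsg hsg' hb hb'' hq0
      (hpq q0 hq0m b hB1) (hpq q0 hq0m b'' hB2)
    refine ⟨‖b - b''‖⁻¹ • (b - b''), ?_, ?_⟩
    · rw [norm_smul, norm_inv, norm_norm, inv_mul_cancel₀ hδ.ne']
    · rw [fderiv_im hTh]
      have e2 : (fun y => (Th ch om lam r e L zt sg sg' b b'' y).im) =
          fun y => (FF om lam r (xd ch e L zt sg sg' b y)).im - (FF om lam r (xd ch e L zt sg sg' b'' y)).im := by
        funext y
        exact Th_im ch om lam r e L zt sg sg' b b'' y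
      rw [e2, map_smul, smul_eq_mul, abs_mul, abs_of_pos (inv_pos.mpr hδ), mul_div_assoc]
      refine mul_le_mul_of_nonneg_left ?_ hrho.le
      set G : ℝ := |fderiv ℝ (fun y => (FF om lam r (xd ch e L zt sg sg' b y)).im -
        (FF om lam r (xd ch e L zt sg sg' b'' y)).im) q0 (b - b'')| with hG
      have hG0 : 0 ≤ G := abs_nonneg _
      have h2 : lam / T * ‖b - b''‖ ^ 2 ≤ C * G := h1.trans (by gcongr)
      rw [div_le_iff₀ (by linarith)]
      have h3 : lam / T * ‖b - b''‖ = ‖b - b''‖⁻¹ * (lam / T * ‖b - b''‖ ^ 2) := by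
        field_simp
      rw [h3]
      calc ‖b - b''‖⁻¹ * (lam / T * ‖b - b''‖ ^ 2) ≤ ‖b - b''‖⁻¹ * (C * G) := by gcongr
        _ = ‖b - b''‖⁻¹ * G * C := by ring
  · rw [hexp]
    calc _ ≤ (CE * P) * (CE * P) := by
          gcongr
          · exact hE1 q0 hq0m b hb3
          · exact hE1 q0 hq0m b'' hb3''
      _ = CE ^ 2 * (P * P) := by ring
      _ ≤ _ := by rw [hPP]; gcongr

end geom

/-- the alternative of NG on every ball, with `rho` chosen -/
def BallAlt : Prop := ∀ (m : ℕ) (ch : Chart (m + 1)) (N : ℕ), ∃ c0 c1 A B C : ℝ, 0 < c0 ∧ c0 ≤ 1 ∧ 0 < c1 ∧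
  0 ≤ A ∧ 0 < C ∧ ∀ (om : EE (m + 2)) (e : EE (m + 1)) (L : EE m →ₗᵢ[ℝ] EE (m + 1)), Slice ch om e L →
  ∀ (lam r La sg sg' T rho dlt : ℝ) (zt : EE (m + 2)) (b b'' : EE m), C ≤ lam → 1 ≤ lam → 1 ≤ r → 1 ≤ La →
  C * La * r ≤ lam → T = |(inner ℝ om zt : ℝ)| → 1 ≤ T → 2 * lam ≤ T * r ^ 2 → r * T ≤ 2 * La * lam →
  |sg| ≤ 2 * ch.dl → |sg'| ≤ 2 * ch.dl → ‖b‖ ≤ 2 * ch.dl → ‖b''‖ ≤ 2 * ch.dl → dlt = ‖b - b''‖ → 0 < dlt →
  rho = c0 * (La ^ 4)⁻¹ * min (r * T / lam) (Real.sqrt (T / (lam * dlt))) →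
  rho ≤ 1 ∧ ∀ q0 : EE m,
    (∀ q ∈ Metric.ball q0 rho, ‖((cut ch m q : ℝ) : ℂ) * Complex.exp (Th ch om lam r e L zt sg sg' b b'' q)‖ ≤
      C * (lam / T) ^ (m + 1) * Real.exp (-(c1 * La ^ 2))) ∨
    ((∀ q ∈ Metric.ball q0 rho, ∀ j ≤ N,
        ‖iteratedFDeriv ℝ j (fun x : EE m => ((cut ch m x : ℝ) : ℂ)) q‖ * rho ^ j ≤ A) ∧
      (∀ q ∈ Metric.ball q0 rho, ∀ j : ℕ, 2 ≤ j → j ≤ N + 2 →
        ‖iteratedFDeriv ℝ j (Th ch om lam r e L zt sg sg' b b'') q‖ * rho ^ j ≤ B) ∧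
      (∀ v, rho * |(fderiv ℝ (Th ch om lam r e L zt sg sg' b b'') q0 v).re| ≤ B * ‖v‖) ∧
      (∃ v : EE m, ‖v‖ ≤ 1 ∧ c1 * rho * (lam / T) * dlt ≤
        rho * |(fderiv ℝ (Th ch om lam r e L zt sg sg' b b'') q0 v).im|) ∧
      ‖Complex.exp (Th ch om lam r e L zt sg sg' b b'' q0)‖ ≤ C * (lam / T) ^ (m + 1))

theorem ballAlt (hKN : SpecKN) (hDB : SpecDB) (hGB : SpecGB) : BallAlt := by
  intro m ch N
  obtain ⟨c0, A, B, C, hc0, hA, hC, h⟩ := ball_alt hKN hDB hGB m ch N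
  have hdl := ch.dl_pos
  have hdl1 := ch.dl_le
  refine ⟨min c0 (ch.dl / 16), min (3 / 4) C⁻¹, A, B, C, by positivity, (min_le_right _ _).trans (by linarith),
    by positivity, hA, by linarith, ?_⟩
  intro om e L hS lam r La sg sg' T rho dlt zt b b'' hClam hlam hr hLa hCLa hT hT1 hz2 hz3 hsg hsg' hb hb'' hdlt
    hdlt0 hrho
  have hlam0 : 0 < lam := by linarith
  have hr0 : 0 < r := by linarith
  have hLa0 : 0 < La := by linarith
  have hT0 : 0 < T := by linarith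
  set c0' : ℝ := min c0 (ch.dl / 16) with hc0'
  have hc0'0 : 0 < c0' := by positivity
  have hc0'1 : c0' ≤ c0 := min_le_left _ _
  have hc0'2 : c0' ≤ ch.dl / 16 := min_le_right _ _
  set w : ℝ := r * T / lam with hw
  have hw0 : 0 < w := by positivity
  set s : ℝ := Real.sqrt (T / (lam * dlt)) with hs
  have hs0 : 0 < s := by positivity
  have hLa4 : 1 ≤ La ^ 4 := one_le_pow₀ hLa
  have hmin0 : 0 < min w s := lt_min hw0 hs0
  have hrho0 : 0 < rho := by rw [hrho]; positivity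
  have hrho1 : rho * La ^ 4 = c0' * min w s := by
    rw [hrho]; field_simp
  have hrho2 : rho ≤ ch.dl / 8 := by
    have h1 : w ≤ 2 * La := by
      rw [hw, div_le_iff₀ hlam0]
      exact hz3
    have h2 : La ≤ La ^ 4 := le_self_pow₀ hLa (by norm_num)
    calc rho ≤ c0' * (La ^ 4)⁻¹ * w := by
          rw [hrho]
          gcongr
          exact min_le_left _ _
      _ ≤ ch.dl / 16 * (La ^ 4)⁻¹ * (2 * La ^ 4) := by
          gcongr
          linarith
      _ = ch.dl / 8 := by field_simp; norm_num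
  have hrho3 : rho ^ 2 * La ^ 4 * (lam / T * dlt) ≤ 1 := by
    have h1 : min w s ^ 2 ≤ T / (lam * dlt) := by
      calc min w s ^ 2 ≤ s ^ 2 := by
            gcongr
            exact min_le_right _ _
        _ = T / (lam * dlt) := Real.sq_sqrt (by positivity)
    have h2 : c0' ≤ 1 := by linarith
    calc rho ^ 2 * La ^ 4 * (lam / T * dlt) = (rho * La ^ 4) ^ 2 * (La ^ 4)⁻¹ * (lam / T * dlt) := by
          field_simp
      _ = c0' ^ 2 * min w s ^ 2 * (La ^ 4)⁻¹ * (lam / T * dlt) := by rw [hrho1]; ring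
      _ ≤ 1 ^ 2 * (T / (lam * dlt)) * 1 * (lam / T * dlt) := by
          gcongr
          exact inv_le_one_of_one_le₀ hLa4
      _ = 1 := by field_simp
  refine ⟨by linarith, fun q0 => ?_⟩
  have key := h om e L hS lam r La sg sg' rho zt b b'' hClam hr hLa hCLa (by rw [← hT]; exact hT1)
    (by rw [← hT]; exact hz2) (by rw [← hT]; exact hz3) hsg hsg' hb hb'' (by rw [← hdlt]; exact hdlt0) hrho0 hrho2
    (by
      rw [← hT, hrho1]
      gcongr
      exact min_le_left _ _)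
    (by rw [← hT, ← hdlt]; exact hrho3) q0
  rw [← hT, ← hdlt] at key
  rcases key with key | ⟨k1, k2, k3, ⟨v, hv, k4⟩, k5⟩
  · left
    intro q hq
    refine (key q hq).trans ?_
    gcongr
    exact min_le_left _ _
  · right
    refine ⟨k1, k2, k3, ⟨v, hv, le_trans ?_ k4⟩, k5⟩
    calc min (3 / 4) C⁻¹ * rho * (lam / T) * dlt ≤ C⁻¹ * rho * (lam / T) * dlt := by
          gcongr
          exact min_le_right _ _
      _ = rho * (lam / T * dlt) / C := by ring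

end Pool.Agent.Lib.MP_a8dae7_an.CG.JFM
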