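import Pool.Agent.Lib.MP_a8dae7_an.CG.Spec

/-!
# MP_a8dae7_an, CG (copy of CV for graph charts): monotonicity of the projected slices (SpecMO)
-/

set_option autoImplicit false

open MeasureTheory
open scoped ContDiff

namespace Pool.Agent.Lib.MP_a8dae7_an.CG.MOM

open Pool.Agent.Lib.MP_a8dae7_an.CV

/-! ### The projection off `om` -/

/-- the projection off `om` -/
noncomputable def pr {d : ℕ} (om x : EE d) : EE d := x - (inner ℝ om x : ℝ) • om

theorem inner_om_pr {d : ℕ} {om : EE d} (h : ‖om‖ = 1) (x : EE d) : inner ℝ om (pr om x) = 0 := by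
  rw [pr, inner_sub_right, inner_smul_right, real_inner_self_eq_norm_sq, h]
  ring

theorem pi2_eq {d : ℕ} {om : EE d} (h : ‖om‖ = 1) (x y : EE d) :
    pi2 om x y = inner ℝ (pr om x) (pr om y) := by
  have h1 : inner ℝ (pr om x) om = 0 := by
    rw [real_inner_comm]
    exact inner_om_pr h x
  rw [pi2]
  conv_rhs => rw [pr.eq_def om y]
  rw [inner_sub_right, inner_smul_right, h1, pr, inner_sub_left, real_inner_smul_left]
  ring

theorem pq_eq {d : ℕ} {om : EE d} (h : ‖om‖ = 1) (x : EE d) : pq om x = ‖pr om x‖ ^ 2 := by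
  rw [← real_inner_self_eq_norm_sq, ← pi2_eq h, pi2, pq, real_inner_self_eq_norm_sq]
  ring

theorem pr_add {d : ℕ} (om x y : EE d) : pr om (x + y) = pr om x + pr om y := by
  simp only [pr, inner_add_right, add_smul]
  abel

theorem pr_sub {d : ℕ} (om x y : EE d) : pr om (x - y) = pr om x - pr om y := by
  simp only [pr, inner_sub_right, sub_smul]
  abel

theorem norm_pr_le {d : ℕ} {om : EE d} (h : ‖om‖ = 1) (x : EE d) : ‖pr om x‖ ≤ ‖x‖ := by
  have h1 := pq_eq h x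
  rw [pq] at h1
  have h2 : ‖pr om x‖ ^ 2 ≤ ‖x‖ ^ 2 := by
    rw [← h1]
    have := sq_nonneg (inner ℝ om x)
    linarith
  exact le_of_sq_le_sq h2 (norm_nonneg _)

/-! ### Slices -/

variable {m : ℕ} {ch : Chart (m + 1)} {om : EE (m + 2)} {e : EE (m + 1)}
  {L : EE m →ₗᵢ[ℝ] EE (m + 1)}

theorem norm_sl_sq (hS : Slice ch om e L) (sg : ℝ) (b : EE m) :
    ‖sl e L sg b‖ ^ 2 = sg ^ 2 + ‖b‖ ^ 2 := by
  rw [sl, norm_add_sq_real, real_inner_smul_left, hS.eL, norm_smul, hS.e_one, L.norm_map,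
    Real.norm_eq_abs]
  have := sq_abs sg
  nlinarith

theorem norm_sl_le (hS : Slice ch om e L) {sg : ℝ} {b : EE m} (h1 : |sg| ≤ 2 * ch.dl)
    (h2 : ‖b‖ ≤ 3 * ch.dl) : ‖sl e L sg b‖ ≤ 4 * ch.dl := by
  have h := norm_sl_sq hS sg b
  have hd := ch.dl_pos
  have h3 : sg ^ 2 ≤ (2 * ch.dl) ^ 2 := by
    rw [← sq_abs sg]
    exact pow_le_pow_left₀ (abs_nonneg _) h1 2
  have h4 : ‖b‖ ^ 2 ≤ (3 * ch.dl) ^ 2 := pow_le_pow_left₀ (norm_nonneg _) h2 2
  refine le_of_sq_le_sq ?_ (by positivity)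
  rw [h]
  nlinarith

theorem sl_sub (sg : ℝ) (b1 b2 : EE m) : sl e L sg b1 - sl e L sg b2 = L (b1 - b2) := by
  rw [sl, sl, map_sub]
  abel

/-- the projected tangent vectors along a slice form acute angles -/
theorem mono_fderiv (hS : Slice ch om e L) {q q' : EE (m + 1)} (hq : ‖q‖ ≤ 4 * ch.dl)
    (hq' : ‖q'‖ ≤ 4 * ch.dl) (v : EE m) :
    ch.c * ‖v‖ ^ 2 ≤ pi2 om (fderiv ℝ ch.X q (L v)) (fderiv ℝ ch.X q' (L v)) := by
  have h := ch.gram q q' (L v) om hq hq' hS.om_one (hS.omL v)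
  rw [L.norm_map] at h
  exact h

theorem mono_X (hS : Slice ch om e L) {sg : ℝ} {b1 b2 : EE m} {q3 : EE (m + 1)}
    (hsg : |sg| ≤ 2 * ch.dl) (h1 : ‖b1‖ ≤ 3 * ch.dl) (h2 : ‖b2‖ ≤ 3 * ch.dl)
    (h3 : ‖q3‖ ≤ 4 * ch.dl) :
    ch.c * ‖b1 - b2‖ ^ 2 ≤ pi2 om (ch.X (sl e L sg b1) - ch.X (sl e L sg b2))
      (fderiv ℝ ch.X q3 (L (b1 - b2))) := by
  set v : EE m := b1 - b2 with hv
  set w : EE (m + 2) := fderiv ℝ ch.X q3 (L v) with hw
  have hdX : Differentiable ℝ ch.X := ch.smooth.differentiable (by simp)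
  set γ : ℝ → EE (m + 1) := fun s => sl e L sg (b2 + s • v) with hγ
  have hγd : ∀ s, HasDerivAt γ (L v) s := by
    intro s
    have h0 : γ = fun s : ℝ => (sg • e + L b2) + s • L v := by
      funext s
      simp only [hγ, sl, map_add, map_smul]
      abel
    rw [h0]
    have h5 : HasDerivAt (fun s : ℝ => s • L v) ((1 : ℝ) • L v) s := (hasDerivAt_id s).smul_const _
    rw [one_smul] at h5
    exact h5.const_add _
  set φ : ℝ → ℝ := fun s => pi2 om (ch.X (γ s)) w with hφ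
  have hφd : ∀ s, HasDerivAt φ (pi2 om (fderiv ℝ ch.X (γ s) (L v)) w) s := by
    intro s
    have h5 : HasDerivAt (fun s => ch.X (γ s)) (fderiv ℝ ch.X (γ s) (L v)) s :=
      (hdX (γ s)).hasFDerivAt.comp_hasDerivAt s (hγd s)
    have h6 : HasDerivAt (fun s => (inner ℝ (ch.X (γ s)) w : ℝ))
        (inner ℝ (fderiv ℝ ch.X (γ s) (L v)) w) s := by
      have := h5.inner ℝ (hasDerivAt_const s w)
      simpa using this
    have h7 : HasDerivAt (fun s => (inner ℝ om (ch.X (γ s)) : ℝ))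
        (inner ℝ om (fderiv ℝ ch.X (γ s) (L v))) s := by
      have := (hasDerivAt_const s om).inner ℝ h5
      simpa using this
    exact h6.sub (h7.mul_const _)
  obtain ⟨s, hs, hs1⟩ := exists_hasDerivAt_eq_slope φ _ zero_lt_one
    (fun s _ => (hφd s).continuousAt.continuousWithinAt) (fun s _ => hφd s)
  have h8 : φ 1 - φ 0 = pi2 om (ch.X (sl e L sg b1) - ch.X (sl e L sg b2)) w := by
    have e1 : γ 1 = sl e L sg b1 := by simp [hγ, hv]
    have e0 : γ 0 = sl e L sg b2 := by simp [hγ]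
    simp only [hφ, e1, e0, pi2, inner_sub_left, inner_sub_right]
    ring
  have h9 : ‖b2 + s • v‖ ≤ 3 * ch.dl := by
    have e2 : b2 + s • v = (1 - s) • b2 + s • b1 := by
      rw [hv, smul_sub, sub_smul, one_smul]
      abel
    rw [e2]
    calc ‖(1 - s) • b2 + s • b1‖ ≤ ‖(1 - s) • b2‖ + ‖s • b1‖ := norm_add_le _ _
      _ = (1 - s) * ‖b2‖ + s * ‖b1‖ := by
          rw [norm_smul, norm_smul, Real.norm_of_nonneg (by linarith [hs.2]),
            Real.norm_of_nonneg hs.1.le]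
      _ ≤ (1 - s) * (3 * ch.dl) + s * (3 * ch.dl) := by
          have := hs.1.le
          have h' : 0 ≤ 1 - s := by linarith [hs.2]
          gcongr
      _ = 3 * ch.dl := by ring
  have h10 : ch.c * ‖v‖ ^ 2 ≤ pi2 om (fderiv ℝ ch.X (γ s) (L v)) w :=
    mono_fderiv hS (norm_sl_le hS hsg h9) h3 v
  rw [hs1, sub_zero, div_one, h8] at h10
  exact h10

/-- **MO** -/
theorem specMO : SpecMO := fun _ _ _ _ _ hS _ _ _ _ hsg h1 h2 h3 => mono_X hS hsg h1 h2 h3

end Pool.Agent.Lib.MP_a8dae7_an.CG.MOM
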