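import Pool.Agent.Lib.MP_a8dae7_an.CG.Defs

/-!
# MP_a8dae7_an, CG: Specs for graph charts

The first twelve are those of CV/Spec.lean with the new `Chart`; the others are new.
-/

set_option autoImplicit false

open MeasureTheory
open scoped ContDiff

namespace Pool.Agent.Lib.MP_a8dae7_an.CG

open Pool.Agent.Lib.MP_a8dae7_an.CV

/-- **MO** (80). Monotonicity from `gram`: `q1 - q2 = L (b1 - b2)`, `X q1 - X q2 = ∫_0^1 DX(q2 + s(q1-q2)) (q1-q2) ds`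
(or the mean value theorem for `s ↦ pi2 om (X(..)) w`). The hypotheses `|sg| ≤ 2dl`, `‖b‖ ≤ 3dl` give `‖q‖ ≤ 4dl`. -/
def SpecMO : Prop := ∀ (m : ℕ) (ch : Chart (m + 1)) (om : EE (m + 2)) (e : EE (m + 1))
  (L : EE m →ₗᵢ[ℝ] EE (m + 1)), Slice ch om e L → ∀ (sg : ℝ) (b1 b2 : EE m) (q3 : EE (m + 1)),
  |sg| ≤ 2 * ch.dl → ‖b1‖ ≤ 3 * ch.dl → ‖b2‖ ≤ 3 * ch.dl → ‖q3‖ ≤ 4 * ch.dl →
  ch.c * ‖b1 - b2‖ ^ 2 ≤ pi2 om (ch.X (sl e L sg b1) - ch.X (sl e L sg b2))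
    (fderiv ℝ ch.X q3 (L (b1 - b2)))

/-- **BL** (120), from MO. `b ↦ P X(sl sg b)` is bilipschitz on `‖b‖ ≤ 3dl` (`pi2 x y ≤ √(pq x) ‖y‖`, `‖DX‖` bounded), hence
`|v(b)| ≥ |v(b)-v(b0)|/2` for a minimum point `b0`, and the Gaussian integral. -/
def SpecBL : Prop := ∀ (m : ℕ) (ch : Chart (m + 1)), ∃ C : ℝ, 1 ≤ C ∧ ∀ (om : EE (m + 2)) (e : EE (m + 1))
  (L : EE m →ₗᵢ[ℝ] EE (m + 1)), Slice ch om e L → ∀ sg : ℝ, |sg| ≤ 2 * ch.dl →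
  (∀ b1 b2 : EE m, ‖b1‖ ≤ 3 * ch.dl → ‖b2‖ ≤ 3 * ch.dl →
    ‖b1 - b2‖ ^ 2 ≤ C * pq om (ch.X (sl e L sg b1) - ch.X (sl e L sg b2))) ∧
  ∀ (v : EE (m + 2)) (al : ℝ), 0 < al →
    ∫ b in Metric.closedBall (0 : EE m) (3 * ch.dl),
      Real.exp (-(al ^ 2 * pq om (v - ch.X (sl e L sg b)))) ≤ C * al⁻¹ ^ m

/-- **Z0** (180), from KN, SC, BL. The term `z = 0`: `|t| ≤ C(th + |y|)`, so `MM ≥ c min(|y|² r²/Λ, lam²/r²)`, and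
`lam²/r² ≥ r`. -/
def SpecZ0 : Prop := ∀ (m : ℕ) (ch : Chart (m + 1)), ∃ C : ℝ, 0 < C ∧ ∀ (om : EE (m + 2)) (e : EE (m + 1))
  (L : EE m →ₗᵢ[ℝ] EE (m + 1)), Slice ch om e L → ∀ lam r th La sg sg' : ℝ, 1 ≤ lam → 1 ≤ r →
  r ^ 3 ≤ lam ^ 2 → 0 < th → 1 ≤ La → th ^ 2 * r ≤ La → |sg| ≤ 2 * ch.dl → |sg'| ≤ 2 * ch.dl →
  |sg - sg'| ≤ 4 * th →
  OB m (2 * ch.dl) (ks ch om lam r e L 0 sg sg') (C * La ^ m * (r ^ 2 / lam))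

/-- **Z1** (100), from KN, SC, BL. `1 ≤ |t_z| ≤ 2 lam/r²`: `MM ≥ |y|² r²/11`, Schur. -/
def SpecZ1 : Prop := ∀ (m : ℕ) (ch : Chart (m + 1)), ∃ C : ℝ, 0 < C ∧ ∀ (om : EE (m + 2)) (e : EE (m + 1))
  (L : EE m →ₗᵢ[ℝ] EE (m + 1)), Slice ch om e L → ∀ (lam r sg sg' : ℝ) (zt : EE (m + 2)), 1 ≤ lam → 1 ≤ r →
  1 ≤ |inner ℝ om zt| → |inner ℝ om zt| * r ^ 2 ≤ 2 * lam → |sg| ≤ 2 * ch.dl → |sg'| ≤ 2 * ch.dl →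
  OB m (2 * ch.dl) (ks ch om lam r e L zt sg sg') (C * (r / lam) * Real.sqrt (lam / |inner ℝ om zt|))

/-- **DB** (350). Derivative bounds in `b'` of `FF(x(b,b'))`; `t_z = ⟨om,zt⟩`, `w = r|t_z|/lam`.
`x(b,b') = zt + X(..) - X(..)` has bounded derivatives (`L` is an isometry); `1/(4A(t)) = (lam/(2i)) /(t - i k0)`, `k0 = 2lam/r²`,
`|t| ≥ 3/4 |t_z|`; all derivatives of `FF` at `x` are `≤ C (lam/|t_z|)(1+|y|²)`; real parts: `Re 1/(4A) = (lam²/r²)/(t²+k0²)` and its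
derivatives are `≤ C w^{-2}`. (1): derivative of order `j+1` on the product space and mean value in `b`.
Mathlib: `norm_iteratedFDeriv_comp_le`, `ContinuousLinearMap.iteratedFDeriv_comp_right`. -/
def SpecDB : Prop := ∀ (m : ℕ) (ch : Chart (m + 1)) (N : ℕ), ∃ C : ℝ, 1 ≤ C ∧ ∀ (om : EE (m + 2)) (e : EE (m + 1))
  (L : EE m →ₗᵢ[ℝ] EE (m + 1)), Slice ch om e L → ∀ (lam r La sg sg' : ℝ) (zt : EE (m + 2)) (b1 b2 b' : EE m),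
  1 ≤ lam → 1 ≤ r → 1 ≤ La → 1 ≤ |inner ℝ om zt| → 2 * lam ≤ |inner ℝ om zt| * r ^ 2 →
  r * |inner ℝ om zt| ≤ 2 * La * lam → |sg| ≤ 2 * ch.dl → |sg'| ≤ 2 * ch.dl →
  ‖b1‖ ≤ 2 * ch.dl → ‖b2‖ ≤ 2 * ch.dl → ‖b'‖ ≤ 3 * ch.dl →
  pq om (xd ch e L zt sg sg' b1 b') ≤ (3 * La * (r * |inner ℝ om zt| / lam)) ^ 2 →
  pq om (xd ch e L zt sg sg' b2 b') ≤ (3 * La * (r * |inner ℝ om zt| / lam)) ^ 2 →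
  (∀ j : ℕ, 1 ≤ j → j ≤ N → ‖iteratedFDeriv ℝ j (fun b => (FF om lam r (xd ch e L zt sg sg' b1 b)).im -
    (FF om lam r (xd ch e L zt sg sg' b2 b)).im) b'‖ ≤ C * La ^ 4 * (lam / |inner ℝ om zt|) * ‖b1 - b2‖) ∧
  (∀ j : ℕ, 2 ≤ j → j ≤ N → ‖iteratedFDeriv ℝ j (fun b => (FF om lam r (xd ch e L zt sg sg' b1 b)).re) b'‖ ≤
    C * La ^ 6 * (lam / (r * |inner ℝ om zt|)) ^ 2) ∧
  ‖fderiv ℝ (fun b => (FF om lam r (xd ch e L zt sg sg' b1 b)).re) b'‖ ≤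
    C * La ^ 4 * (lam / (r * |inner ℝ om zt|))

/-- **GB** (250), from MO. Lower bound of the gradient of the imaginary part in the direction `b1 - b2`.
`Im FF = -(k/2) arg A(t) - pq Im(1/(4A))`, main term `2 ⟨y1-y2, P DX(q') v⟩ Im(1/(4A(t1)))`, `|Im 1/(4A)| ≥ lam/(8|t_z|)`; the other
terms carry a factor `|y|/|t| ≤ C La r/lam` or `1/lam`. -/
def SpecGB : Prop := ∀ (m : ℕ) (ch : Chart (m + 1)), ∃ C : ℝ, 1 ≤ C ∧ ∀ (om : EE (m + 2)) (e : EE (m + 1))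
  (L : EE m →ₗᵢ[ℝ] EE (m + 1)), Slice ch om e L → ∀ (lam r La sg sg' : ℝ) (zt : EE (m + 2)) (b1 b2 b' : EE m),
  C ≤ lam → 1 ≤ r → 1 ≤ La → C * La * r ≤ lam → 1 ≤ |inner ℝ om zt| → 2 * lam ≤ |inner ℝ om zt| * r ^ 2 →
  |sg| ≤ 2 * ch.dl → |sg'| ≤ 2 * ch.dl →
  ‖b1‖ ≤ 2 * ch.dl → ‖b2‖ ≤ 2 * ch.dl → ‖b'‖ ≤ 3 * ch.dl →
  pq om (xd ch e L zt sg sg' b1 b') ≤ (3 * La * (r * |inner ℝ om zt| / lam)) ^ 2 →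
  pq om (xd ch e L zt sg sg' b2 b') ≤ (3 * La * (r * |inner ℝ om zt| / lam)) ^ 2 →
  lam / |inner ℝ om zt| * ‖b1 - b2‖ ^ 2 ≤
    C * |fderiv ℝ (fun b => (FF om lam r (xd ch e L zt sg sg' b1 b)).im -
      (FF om lam r (xd ch e L zt sg sg' b2 b)).im) b' (b1 - b2)|

/-- **JN** (120), from KN, BL. Near bound of the `TT*` kernel (always): `|ks| ≤ C (r/lam)(lam/|t|)^{k/2} exp(-|y|²/(3w²))`. -/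
def SpecJN : Prop := ∀ (m : ℕ) (ch : Chart (m + 1)), ∃ C : ℝ, 0 < C ∧ ∀ (om : EE (m + 2)) (e : EE (m + 1))
  (L : EE m →ₗᵢ[ℝ] EE (m + 1)), Slice ch om e L → ∀ (lam r sg sg' : ℝ) (zt : EE (m + 2)) (b b'' : EE m),
  1 ≤ lam → 1 ≤ r → 1 ≤ |inner ℝ om zt| → 2 * lam ≤ |inner ℝ om zt| * r ^ 2 →
  |sg| ≤ 2 * ch.dl → |sg'| ≤ 2 * ch.dl → ‖b‖ ≤ 2 * ch.dl → ‖b''‖ ≤ 2 * ch.dl →
  ‖JJ ch om lam r e L zt sg sg' b b''‖ ≤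
    C * (r / lam) ^ 2 * (lam / |inner ℝ om zt|) ^ (m + 1) * (r * |inner ℝ om zt| / lam) ^ m

/-- **JF** (250), from NG, DB, GB, BL, KN. Far bound of the `TT*` kernel. `La = lam^eps`, `w = r|t_z|/lam`, `bet = lam/|t_z|`,
`rho = c La^(-K1) min(w, (bet‖b-b''‖)^(-1/2))` (also `≤ dl/8`: the balls meeting the support of `cut` lie in `‖b'‖ ≤ 3dl`), `Th(b') = FF(x(b,b')) + conj FF(x(b'',b'))`, `a = cut`.  The factor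
`e^{i lam (t - t'')}` does not depend on `b'`.  Balls where `pq ≥ (2 w La)²` at the centre for `b` or `b''` are negligible
(`exp(-|y|²/(3w²))`), the other ones satisfy DB, GB (`pq ≤ (3 w La)²` on the ball).  `C*La*r ≤ lam` for `lam ≥ lam0`
(`r ≤ lam^(2/3)`, `eps ≤ 1/10`); for `lam ≤ lam0` the bound is trivial. -/
def SpecJF : Prop := ∀ (m : ℕ) (ch : Chart (m + 1)), ∃ K : ℝ, 1 ≤ K ∧ ∀ (eps : ℝ) (N : ℕ), 0 < eps → eps ≤ 1 / 10 →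
  ∃ C : ℝ, 0 < C ∧ ∀ (om : EE (m + 2)) (e : EE (m + 1)) (L : EE m →ₗᵢ[ℝ] EE (m + 1)), Slice ch om e L →
  ∀ (lam r sg sg' : ℝ) (zt : EE (m + 2)) (b b'' : EE m),
  1 ≤ lam → 1 ≤ r → r ^ 3 ≤ lam ^ 2 → 1 ≤ |inner ℝ om zt| → 2 * lam ≤ |inner ℝ om zt| * r ^ 2 →
  r * |inner ℝ om zt| ≤ 2 * lam ^ eps * lam →
  |sg| ≤ 2 * ch.dl → |sg'| ≤ 2 * ch.dl → ‖b‖ ≤ 2 * ch.dl → ‖b''‖ ≤ 2 * ch.dl →
  lam ^ (K * eps) ≤ r * ‖b - b''‖ →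
  ‖JJ ch om lam r e L zt sg sg' b b''‖ ≤ C * lam⁻¹ ^ N

/-- **Z2** (120), from JN, JF, TT. `|t_z| ≥ max(1, 2lam/r²)`, `|t_z| ≤ 2 (lam/r) lam^eps`. -/
def SpecZ2 : Prop := ∀ (m : ℕ) (ch : Chart (m + 1)), ∃ K : ℝ, 1 ≤ K ∧ ∀ eps : ℝ, 0 < eps → eps ≤ 1 / 10 →
  ∃ C : ℝ, 0 < C ∧ ∀ (om : EE (m + 2)) (e : EE (m + 1)) (L : EE m →ₗᵢ[ℝ] EE (m + 1)), Slice ch om e L →
  ∀ (lam r sg sg' : ℝ) (zt : EE (m + 2)),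
  1 ≤ lam → 1 ≤ r → r ^ 3 ≤ lam ^ 2 → 1 ≤ |inner ℝ om zt| → 2 * lam ≤ |inner ℝ om zt| * r ^ 2 →
  r * |inner ℝ om zt| ≤ 2 * lam ^ eps * lam → |sg| ≤ 2 * ch.dl → |sg'| ≤ 2 * ch.dl →
  OB m (2 * ch.dl) (ks ch om lam r e L zt sg sg')
    (C * lam ^ (K * eps) * (r / lam) * Real.sqrt (lam / |inner ℝ om zt|))

/-- **GA** (100). Gradients of the phase (paper, section 2): `D(⟨eta,X⟩)(q) v = ⟨J w, DX(q) v⟩`, `w = J^* eta + ⟨eta,nu⟩ q`;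
take `v = w/‖w‖`. -/
def SpecGA : Prop := ∀ (k : ℕ) (ch : Chart k) (n n' : EE (k + 1)) (q : EE k), ‖n‖ = ‖n'‖ → ‖q‖ ≤ 4 * ch.dl →
  (∀ mu : ℝ, |sn ch n q| ≤ mu → |sn ch n' q| ≤ mu → 8 * mu ≤ ‖n - n'‖ →
    ∃ v : EE k, ‖v‖ ≤ 1 ∧ ch.c / 4 * ‖n - n'‖ ≤ inner ℝ (n - n') (fderiv ℝ ch.X q v)) ∧
  (∀ th : ℝ, 0 ≤ th → th ≤ 1 → ((th * ‖n‖ ≤ sn ch n q ∧ th * ‖n‖ ≤ sn ch n' q) ∨
      (sn ch n q ≤ -(th * ‖n‖) ∧ sn ch n' q ≤ -(th * ‖n‖))) →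
    ∃ v : EE k, ‖v‖ ≤ 1 ∧ ch.c / 4 * th * ‖n - n'‖ ≤ inner ℝ (n - n') (fderiv ℝ ch.X q v))

/-- **FP** (150), from NG. `rho = ‖eta‖^(-1/2)`, `Th q = i⟨eta, X q⟩`. (If `h` is small the bound is trivial; a ball meeting
the support of `chi` has gradient `≥ h√‖eta‖ - C√‖eta‖` at its centre.) -/
def SpecFP : Prop := ∀ (k : ℕ) (ch : Chart k) (N : ℕ) (A : ℕ → ℝ), ∃ C : ℝ, 0 < C ∧
  ∀ (eta : EE (k + 1)) (chi : EE k → ℝ) (h : ℝ), 1 ≤ ‖eta‖ → 0 < h → ContDiff ℝ ∞ chi →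
  (∀ q, 3 * ch.dl < ‖q‖ → chi q = 0) →
  (∀ j ≤ N, ∀ q, ‖iteratedFDeriv ℝ j chi q‖ ≤ A j * Real.sqrt ‖eta‖ ^ j) →
  (∀ q, chi q ≠ 0 → ∃ v : EE k, ‖v‖ ≤ 1 ∧ h * Real.sqrt ‖eta‖ ≤ |inner ℝ eta (fderiv ℝ ch.X q v)|) →
  ‖∫ q, ((chi q : ℝ) : ℂ) * ex eta (ch.X q)‖ ≤ C * h⁻¹ ^ N

/-- **RD1** (250), from FP, GA, OR, TR, CT. First reduction (paper, section 3): cubes of side `lam^(2/3-eps)`.
Cutoffs `psi_T, psi_P, psi_N` (`Real.smoothTransition`) of `sn ch n_D q / lam^(2/3+eps)`; `lam ≤ lam0` by TR. -/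
def SpecRD1 : Prop := ∀ (k : ℕ) (ch : Chart k), ∃ K : ℝ, 0 < K ∧ ∀ eps : ℝ, 0 < eps → eps ≤ 1 / 10 →
  ∃ C : ℝ, 0 < C ∧ ∀ (lam : ℝ) (s : Finset (Fin (k + 1) → ℤ)) (a : (Fin (k + 1) → ℤ) → ℂ), 1 ≤ lam →
  (∀ n ∈ s, ‖zv n‖ = lam) →
  ∫ q in Metric.closedBall (0 : EE k) ch.dl, ‖es s a (ch.X q)‖ ^ 2 ≤
    C * lam ^ (K * eps) * (∑ c ∈ s.image (cb (lam ^ (2 / 3 - eps))),
      ∫ q in Metric.closedBall (0 : EE k) (3 / 2 * ch.dl),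
        ‖es (s.filter fun n => cb (lam ^ (2 / 3 - eps)) n = c) a (ch.X q)‖ ^ 2) + C * ∑ n ∈ s, ‖a n‖ ^ 2

/-- **CT** (180). The cutoffs: elementary properties, and the derivative bounds of the products used in RD1, RA
(`sn ch n` is affine with linear part of norm `≤ ‖n‖`; `1/th ≥ 1/4` absorbs the derivatives of `chi`). -/
def SpecCT : Prop :=
  BD psP ∧ BD psN ∧ BD psT ∧ BD ph ∧ BD (fun s => ph (-s)) ∧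
  (∀ s, 0 ≤ psP s ∧ psP s ≤ 1 ∧ 0 ≤ psN s ∧ psN s ≤ 1 ∧ 0 ≤ psT s ∧ psT s ≤ 1 ∧ 0 ≤ ph s ∧ ph s ≤ 1) ∧
  (∀ s, psP s ≠ 0 → 1 < s) ∧ (∀ s, psN s ≠ 0 → s < -1) ∧ (∀ s, psT s ≠ 0 → |s| < 2) ∧
  (∀ s, 1 ≤ s → s ≤ 2 → ph s = 1) ∧ (∀ s, ph s ≠ 0 → 1 / 2 < s ∧ s < 4) ∧
  ∀ (k : ℕ) (ch : Chart k) (chi : EE k → ℝ) (f g : ℝ → ℝ), ContDiff ℝ ∞ chi → HasCompactSupport chi → BD f → BD g →
    ∃ A : ℕ → ℝ, ∀ (n n' : EE (k + 1)) (th lam : ℝ), 0 < th → th ≤ 4 → 0 < lam → ‖n‖ ≤ lam → ‖n'‖ ≤ lam →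
    ContDiff ℝ ∞ (fun q => chi q * (f (sn ch n q / (th * lam)) * g (sn ch n' q / (th * lam)))) ∧
    ∀ (j : ℕ) (q : EE k), ‖iteratedFDeriv ℝ j
      (fun q => chi q * (f (sn ch n q / (th * lam)) * g (sn ch n' q / (th * lam)))) q‖ ≤ A j * (1 / th) ^ j

/-- **CW**, from FT. `|<K_{sg,sg'} g, f>| ≤ <K_{sg,sg} f, f>^{1/2} <K_{sg',sg'} g, g>^{1/2}`, since the kernel without translation
is the Fourier transform of a positive function. -/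
def SpecCW : Prop := ∀ (m : ℕ) (ch : Chart (m + 1)) (om : EE (m + 2)) (e : EE (m + 1))
  (L : EE m →ₗᵢ[ℝ] EE (m + 1)) (lam r R sg sg' B : ℝ), ‖om‖ = 1 → 0 < lam → 0 < r → 0 ≤ B →
  OB m R (ks ch om lam r e L 0 sg sg) B → OB m R (ks ch om lam r e L 0 sg' sg') B →
  OB m R (ks ch om lam r e L 0 sg sg') B

/-- **PG**, from SPL, DU, WL, TR, SL, SC, Z0, CW, Z1, Z2, ZN, ZS. A cap of radius `r`, on the whole chart. -/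
def SpecPG : Prop := ∀ (m : ℕ) (ch : Chart (m + 1)), ∃ K : ℝ, 0 < K ∧ ∀ eps : ℝ, 0 < eps → eps ≤ 1 / 10 →
  ∃ C : ℝ, 0 < C ∧ ∀ (lam r : ℝ) (n0 : EE (m + 2)) (s : Finset (Fin (m + 2) → ℤ)) (a : (Fin (m + 2) → ℤ) → ℂ),
  1 ≤ lam → 1 ≤ r → r ^ 3 ≤ lam ^ 2 → ‖n0‖ = lam → (∀ n ∈ s, ‖zv n‖ = lam) → (∀ n ∈ s, ‖zv n - n0‖ ≤ r) →
  ∫ q in Metric.closedBall (0 : EE (m + 1)) (2 * ch.dl), ‖es s a (ch.X q)‖ ^ 2 ≤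
    C * lam ^ (K * eps) * (r ^ 2 / lam + Real.sqrt r) * ∑ n ∈ s, ‖a n‖ ^ 2

/-- **C**, from RD1, PG, TR. The inequality on a chart. -/
def SpecC : Prop := ∀ (m : ℕ) (ch : Chart (m + 1)) (eps : ℝ), 0 < eps →
  ∃ C : ℝ, 0 < C ∧ ∀ (lam : ℝ) (s : Finset (Fin (m + 2) → ℤ)) (a : (Fin (m + 2) → ℤ) → ℂ), 1 ≤ lam →
  (∀ n ∈ s, ‖zv n‖ = lam) →
  ∫ q in Metric.closedBall (0 : EE (m + 1)) ch.dl, ‖es s a (ch.X q)‖ ^ 2 ≤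
    C * lam ^ (1 / 3 + eps) * ∑ n ∈ s, ‖a n‖ ^ 2

/-- **IG**. Graph charts of a smooth hypersurface. -/
def SpecIG : Prop := ∀ (k : ℕ) (Sg : Set (EE (k + 1))) (p : EE (k + 1)), SmoothAt Sg p →
  ∃ (ch : Chart k) (rho : ℝ), 0 < rho ∧ ∀ x ∈ Sg, ‖x - p‖ < rho → ∃ q : EE k, ‖q‖ ≤ ch.dl ∧ ch.X q = x

/-- **FIN**, from C, IG, HM. -/
def SpecFIN : Prop := ∀ (m : ℕ) (Sg : Set (EE (m + 2))), SmoothHyp Sg → ∀ eps : ℝ, 0 < eps →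
  ∃ C : ℝ, 0 < C ∧ ∀ (lam : ℝ) (s : Finset (Fin (m + 2) → ℤ)) (a : (Fin (m + 2) → ℤ) → ℂ), 1 ≤ lam →
  (∀ n ∈ s, ‖zv n‖ = lam) →
  ∫⁻ x in Sg, ENNReal.ofReal (‖es s a x‖ ^ 2) ∂(Measure.hausdorffMeasure ((m + 1 : ℕ) : ℝ)) ≤
    ENNReal.ofReal (C * lam ^ (1 / 3 + eps) * ∑ n ∈ s, ‖a n‖ ^ 2)

end Pool.Agent.Lib.MP_a8dae7_an.CG
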